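import Pool.Agent.ODD.Defs

/-!
# PROJECT ODD: linearity of `row` and `act` (proved)
-/

set_option autoImplicit false

namespace ODD

variable {R : Type*} [CommRing R]

@[simp] theorem row_nil_true (d : Dat R) (U : R) (g : List Bool → R) :
    row d U [] true [] g = g [] := rfl

@[simp] theorem row_nil_false (d : Dat R) (U : R) (cs : List Bool) (g : List Bool → R) :
    row d U [] false cs g = 0 := by
  cases cs <;> rfl

@[simp] theorem row_nil_cons (d : Dat R) (U : R) (r c : Bool) (cs : List Bool)
    (g : List Bool → R) : row d U [] r (c :: cs) g = 0 := by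
  cases r <;> rfl

@[simp] theorem row_cons_nil (d : Dat R) (U V : R) (Vs : List R) (r : Bool)
    (g : List Bool → R) : row d U (V :: Vs) r [] g = 0 := by
  cases r <;> rfl

theorem row_cons_cons (d : Dat R) (U V : R) (Vs : List R) (r c : Bool) (cs : List Bool)
    (g : List Bool → R) : row d U (V :: Vs) r (c :: cs) g =
      ∑ c' : Bool, ∑ r' : Bool, vert d.w (U * V) c r c' r' *
        row d U Vs r' cs (fun l => g (c' :: l)) := rfl

@[simp] theorem psi_nil (d : Dat R) : Psi d [] [] = 1 := rfl

@[simp] theorem psi_nil_cons (d : Dat R) (c : Bool) (cs : List Bool) :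
    Psi d [] (c :: cs) = 0 := rfl

@[simp] theorem psi_cons_nil (d : Dat R) (U : R) (Us : List R) : Psi d (U :: Us) [] = 0 := rfl

theorem psi_cons_cons (d : Dat R) (U : R) (Us : List R) (c : Bool) (cs : List Bool) :
    Psi d (U :: Us) (c :: cs) = ∑ r : Bool, kap d U c r * row d U Us r cs (Psi d Us) := rfl

theorem row_congr (d : Dat R) (U : R) (Vs : List R) (r : Bool) (cs : List Bool)
    {g h : List Bool → R} (hgh : ∀ l, g l = h l) : row d U Vs r cs g = row d U Vs r cs h := by
  have : g = h := funext hgh
  rw [this]

theorem row_add (d : Dat R) (U : R) (Vs : List R) : ∀ (r : Bool) (cs : List Bool)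
    (g h : List Bool → R),
    row d U Vs r cs (fun l => g l + h l) = row d U Vs r cs g + row d U Vs r cs h := by
  induction Vs with
  | nil =>
    intro r cs g h
    cases r <;> cases cs <;> simp
  | cons V Vs ih =>
    intro r cs g h
    cases cs with
    | nil => simp
    | cons c cs =>
      rw [row_cons_cons, row_cons_cons, row_cons_cons, ← Finset.sum_add_distrib]
      refine Finset.sum_congr rfl fun c' _ => ?_
      rw [← Finset.sum_add_distrib]
      refine Finset.sum_congr rfl fun r' _ => ?_
      rw [ih, mul_add]

theorem row_mul (d : Dat R) (U : R) (Vs : List R) : ∀ (r : Bool) (cs : List Bool)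
    (a : R) (g : List Bool → R),
    row d U Vs r cs (fun l => a * g l) = a * row d U Vs r cs g := by
  induction Vs with
  | nil =>
    intro r cs a g
    cases r <;> cases cs <;> simp
  | cons V Vs ih =>
    intro r cs a g
    cases cs with
    | nil => simp
    | cons c cs =>
      rw [row_cons_cons, row_cons_cons, Finset.mul_sum]
      refine Finset.sum_congr rfl fun c' _ => ?_
      rw [Finset.mul_sum]
      refine Finset.sum_congr rfl fun r' _ => ?_
      rw [ih]; ring

theorem row_zero (d : Dat R) (U : R) (Vs : List R) (r : Bool) (cs : List Bool) :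
    row d U Vs r cs (fun _ => 0) = 0 := by
  have := row_mul d U Vs r cs 0 (fun _ => 0)
  simpa using this

theorem row_sum {ι : Type*} (d : Dat R) (U : R) (Vs : List R) (r : Bool) (cs : List Bool)
    (s : Finset ι) (g : ι → List Bool → R) :
    row d U Vs r cs (fun l => ∑ i ∈ s, g i l) = ∑ i ∈ s, row d U Vs r cs (g i) := by
  classical
  induction s using Finset.induction_on with
  | empty => simpa using row_zero d U Vs r cs
  | insert i s hi ih =>
    simp only [Finset.sum_insert hi]
    rw [row_add, ih]

theorem row_length (d : Dat R) (U : R) (Vs : List R) : ∀ (r : Bool) (cs : List Bool)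
    (g : List Bool → R), cs.length ≠ Vs.length → row d U Vs r cs g = 0 := by
  induction Vs with
  | nil =>
    intro r cs g h
    cases cs with
    | nil => simp at h
    | cons c cs => simp
  | cons V Vs ih =>
    intro r cs g h
    cases cs with
    | nil => simp
    | cons c cs =>
      rw [row_cons_cons]
      refine Finset.sum_eq_zero fun c' _ => Finset.sum_eq_zero fun r' _ => ?_
      rw [ih r' cs _ (by simpa using h), mul_zero]

theorem act_zero_cons (w U V : R) (g : List Bool → R) (x y : Bool) (l : List Bool) :
    act w U V 0 g (x :: y :: l) = ∑ a : Bool, ∑ b : Bool, rm w U V x y a b * g (a :: b :: l) :=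
  rfl

theorem act_succ_cons (w U V : R) (k : ℕ) (g : List Bool → R) (x : Bool) (l : List Bool) :
    act w U V (k + 1) g (x :: l) = act w U V k (fun l' => g (x :: l')) l := rfl

@[simp] theorem act_nil (w U V : R) (k : ℕ) (g : List Bool → R) : act w U V k g [] = 0 := by
  cases k <;> rfl

@[simp] theorem act_zero_single (w U V : R) (g : List Bool → R) (x : Bool) :
    act w U V 0 g [x] = 0 := rfl

theorem act_add (w U V : R) (k : ℕ) : ∀ (l : List Bool) (g h : List Bool → R),
    act w U V k (fun l => g l + h l) l = act w U V k g l + act w U V k h l := by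
  induction k with
  | zero =>
    intro l g h
    rcases l with _ | ⟨x, _ | ⟨y, l⟩⟩
    · simp
    · simp
    · simp only [act_zero_cons, mul_add, Finset.sum_add_distrib]
  | succ k ih =>
    intro l g h
    cases l with
    | nil => simp
    | cons x l => simp only [act_succ_cons]; rw [ih]

theorem act_mul (w U V : R) (k : ℕ) : ∀ (l : List Bool) (a : R) (g : List Bool → R),
    act w U V k (fun l => a * g l) l = a * act w U V k g l := by
  induction k with
  | zero =>
    intro l a g
    rcases l with _ | ⟨x, _ | ⟨y, l⟩⟩
    · simp
    · simp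
    · simp only [act_zero_cons, Finset.mul_sum]
      refine Finset.sum_congr rfl fun _ _ => Finset.sum_congr rfl fun _ _ => ?_
      ring
  | succ k ih =>
    intro l a g
    cases l with
    | nil => simp
    | cons x l => simp only [act_succ_cons]; rw [ih]

theorem act_zero_fun (w U V : R) (k : ℕ) (l : List Bool) :
    act w U V k (fun _ => 0) l = 0 := by
  have := act_mul w U V k l 0 (fun _ => 0)
  simpa using this

theorem act_sum {ι : Type*} (w U V : R) (k : ℕ) (l : List Bool)
    (s : Finset ι) (g : ι → List Bool → R) :
    act w U V k (fun l => ∑ i ∈ s, g i l) l = ∑ i ∈ s, act w U V k (g i) l := by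
  classical
  induction s using Finset.induction_on with
  | empty => simpa using act_zero_fun w U V k l
  | insert i s hi ih =>
    simp only [Finset.sum_insert hi]
    rw [act_add, ih]

end ODD
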