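import Pool.Agent.ODD.CNS

/-!
# PROJECT ODD (MP_d12cfa_co), module CNA: one row at parameter 1

PLAN. `vert w (1 * 1) c r c' r' = (1 - w)` if `b2z c' - b2z c = b2z r' - b2z r`, else `0` (cases).
`Rset_finite`: `a j ∈ {-1, 0, 1}` when all `c j ∈ {0,1}` (`a j = (c j + a j) - c j`), subset of
`Set.pi univ` of a finite set (`Set.Finite.pi`).
`row_one`: induction on `n` (generalizing `r c g`):
* `n = 0`: `Rset 0 r c` is everything (one element) iff `r = 1`, else empty.
* `n + 1`: `List.ofFn_succ`, `List.replicate_succ`, one step of `row`. A row `a` of length `n+1`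
  is `Fin.cons a0 a'` (`Fin.consEquiv`-like; `Fin.cons_self_tail`), and
  `Fin.cons a0 a' ∈ Rset (n+1) r c` iff `r + a0 ∈ {0,1}`, `c 0 + a0 ∈ {0,1}` and
  `a' ∈ Rset n (r + a0) (Fin.tail c)` (`Fin.sum_univ_succ`; partial sums over `Iic (succ k)`:
  `sum_{j ∈ Iic k.succ} f j = f 0 + sum_{j ∈ Iic k} f j.succ`, `Iic 0 = {0}`).
  The pairs `(c', r')` with nonzero vertex correspond to `a0 = b2z r' - b2z r`.
  A clean way to handle the `finsum`: convert to a `Finset` sum over `hfin.toFinset`, or prove
  first the statement in the form of an equality of sums over the disjoint union of the images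
  of `a' ↦ Fin.cons a0 a'` for `a0 ∈ {-1, 0, 1}` (`finsum_mem_iUnion`, `finsum_mem_image`).
-/

set_option autoImplicit false

namespace ODD

private theorem cna_iic {n : ℕ} (f : Fin (n + 1) → ℤ) (i : Fin n) :
    ∑ j ∈ Finset.Iic i.succ, f j = f 0 + ∑ j ∈ Finset.Iic i, f j.succ := by
  have e1 : ∀ {m : ℕ} (k : Fin m), Finset.Iic k = Finset.univ.filter (fun j => j ≤ k) := by
    intro m k
    ext j
    simp
  rw [e1, e1, Finset.sum_filter, Finset.sum_filter, Fin.sum_univ_succ]
  simp

private theorem cna_iic0 {n : ℕ} (f : Fin (n + 1) → ℤ) :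
    ∑ j ∈ Finset.Iic (0 : Fin (n + 1)), f j = f 0 := by
  have e1 : Finset.Iic (0 : Fin (n + 1)) = {0} := by
    ext j
    simp
  rw [e1, Finset.sum_singleton]

private theorem cna_mem {n : ℕ} {r : ℤ} {c a : Fin (n + 1) → ℤ} :
    a ∈ Rset (n + 1) r c ↔ (r + a 0 = 0 ∨ r + a 0 = 1) ∧ (c 0 + a 0 = 0 ∨ c 0 + a 0 = 1) ∧
      (fun j => a j.succ) ∈ Rset n (r + a 0) (fun j => c j.succ) := by
  unfold Rset
  simp only [Set.mem_ofPred_eq]
  constructor
  · rintro ⟨h1, h2, h3⟩
    refine ⟨?_, h3 0, ?_, ?_, fun j => h3 j.succ⟩
    · have h := h1 0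
      rw [cna_iic0] at h
      exact h
    · intro k
      have h := h1 k.succ
      rw [cna_iic, ← add_assoc] at h
      exact h
    · rw [Fin.sum_univ_succ, ← add_assoc] at h2
      exact h2
  · rintro ⟨h1, h2, h3, h4, h5⟩
    refine ⟨?_, ?_, ?_⟩
    · intro k
      refine Fin.cases ?_ (fun i => ?_) k
      · rw [cna_iic0]
        exact h1
      · rw [cna_iic, ← add_assoc]
        exact h3 i
    · rw [Fin.sum_univ_succ, ← add_assoc]
      exact h4
    · intro j
      refine Fin.cases ?_ (fun i => ?_) j
      · exact h2
      · exact h5 i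

private theorem cna_b (b : Bool) : b2z b = 0 ∨ b2z b = 1 := by
  cases b <;> simp [b2z]

private theorem cna_dec (b : Bool) {z : ℤ} (h : z = b2z b) : decide (z = 1) = b := by
  subst h
  cases b <;> simp [b2z]

theorem Rset_finite (n : ℕ) (r : ℤ) (c : Fin n → ℤ) (hc : ∀ j, c j = 0 ∨ c j = 1) :
    (Rset n r c).Finite := by
  have h : Rset n r c ⊆ Set.pi Set.univ (fun _ : Fin n => Set.Icc (-1 : ℤ) 1) := by
    intro a ha j _
    have h1 : c j + a j = 0 ∨ c j + a j = 1 := ha.2.2 j
    have h2 := hc j
    show -1 ≤ a j ∧ a j ≤ 1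
    omega
  exact (Set.Finite.pi fun _ => Set.finite_Icc _ _).subset h

theorem row_one {R : Type*} [CommRing R] (d : Dat R) (n : ℕ) (r : Bool) (c : Fin n → Bool)
    (g : List Bool → R) :
    row d 1 (List.replicate n 1) r (List.ofFn c) g =
      (1 - d.w) ^ n * ∑ᶠ a ∈ Rset n (b2z r) (fun j => b2z (c j)),
        g (List.ofFn fun j => decide (b2z (c j) + a j = 1)) := by
  induction n generalizing r g with
  | zero =>
    cases r with
    | false =>
      have h : Rset 0 (b2z false) (fun j => b2z (c j)) = ∅ := by
        ext a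
        simp [Rset, b2z]
      rw [h]
      simp
    | true =>
      have h : Rset 0 (b2z true) (fun j => b2z (c j)) = {fun j => j.elim0} := by
        ext a
        simp only [Rset, b2z, Set.mem_ofPred_eq, Set.mem_singleton_iff]
        constructor
        · intro _
          funext j
          exact j.elim0
        · intro _
          exact ⟨fun k => k.elim0, by simp, fun k => k.elim0⟩
      rw [h, finsum_mem_singleton]
      simp
  | succ n ih =>
    have hfin : (Rset (n + 1) (b2z r) (fun j => b2z (c j))).Finite :=
      Rset_finite _ _ _ fun j => cna_b _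
    set F : (Fin (n + 1) → ℤ) → R :=
      fun a => g (List.ofFn fun j => decide (b2z (c j) + a j = 1)) with hF
    set T : Bool → Bool → R := fun c' r' =>
      ∑ᶠ a ∈ Rset n (b2z r') (fun j => b2z (c j.succ)),
        g (c' :: List.ofFn fun j => decide (b2z (c j.succ) + a j = 1)) with hT
    set S : Bool → Set (Fin (n + 1) → ℤ) := fun r' =>
      {a | a ∈ Rset (n + 1) (b2z r) (fun j => b2z (c j)) ∧ b2z r + a 0 = b2z r'} with hS
    have hunion : Rset (n + 1) (b2z r) (fun j => b2z (c j)) = S false ∪ S true := by
      ext a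
      constructor
      · intro ha
        rcases (cna_mem.1 ha).1 with h | h
        · exact Or.inl ⟨ha, h⟩
        · exact Or.inr ⟨ha, h⟩
      · rintro (ha | ha)
        · exact ha.1
        · exact ha.1
    have hdis : Disjoint (S false) (S true) := by
      rw [Set.disjoint_left]
      rintro a ⟨_, h1⟩ ⟨_, h2⟩
      rw [h1] at h2
      simp [b2z] at h2
    have hsum : ∑ᶠ a ∈ Rset (n + 1) (b2z r) (fun j => b2z (c j)), F a =
        ∑ᶠ a ∈ S false, F a + ∑ᶠ a ∈ S true, F a := by
      conv_lhs => rw [hunion]
      exact finsum_mem_union hdis (hfin.subset fun a ha => ha.1) (hfin.subset fun a ha => ha.1)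
    have key : ∀ r' c', b2z (c 0) + (b2z r' - b2z r) = b2z c' →
        ∑ᶠ a ∈ S r', F a = T c' r' := by
      intro r' c' h
      have himg : S r' = (fun a' : Fin n → ℤ => (Fin.cons (b2z r' - b2z r) a' : Fin (n + 1) → ℤ)) ''
          Rset n (b2z r') (fun j => b2z (c j.succ)) := by
        ext a
        constructor
        · rintro ⟨ha, h1⟩
          have h2 := (cna_mem.1 ha).2.2
          rw [h1] at h2
          refine ⟨_, h2, ?_⟩
          funext j
          refine Fin.cases ?_ (fun i => ?_) j
          · simp only [Fin.cons_zero]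
            omega
          · simp only [Fin.cons_succ]
        · rintro ⟨a', ha', rfl⟩
          have h3 : b2z r + (Fin.cons (b2z r' - b2z r) a' : Fin (n + 1) → ℤ) 0 = b2z r' := by
            simp only [Fin.cons_zero]
            omega
          refine ⟨cna_mem.2 ⟨?_, ?_, ?_⟩, h3⟩
          · rw [h3]
            exact cna_b r'
          · simp only [Fin.cons_zero]
            rw [h]
            exact cna_b c'
          · rw [h3]
            simpa only [Fin.cons_succ] using ha'
      rw [himg, finsum_mem_image (fun a _ b _ hab => (Fin.cons_injective2 hab).2), hT]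
      refine finsum_mem_congr rfl fun a' _ => ?_
      rw [hF]
      simp only [List.ofFn_succ, Fin.cons_zero, Fin.cons_succ]
      rw [cna_dec c' h]
    have key0 : ∀ r', (∀ c', b2z (c 0) + (b2z r' - b2z r) ≠ b2z c') →
        ∑ᶠ a ∈ S r', F a = 0 := by
      intro r' h
      have he : S r' = ∅ := by
        rw [Set.eq_empty_iff_forall_notMem]
        rintro a ⟨ha, h1⟩
        have h0 := h false
        have h2 := h true
        have h3 := (cna_mem.1 ha).2.1
        simp only [b2z] at h0 h2
        simp only [b2z] at h3 h1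
        rcases h3 with h3 | h3
        · apply h0
          simp only [b2z] at *
          omega
        · apply h2
          simp only [b2z] at *
          omega
      rw [he]
      exact finsum_mem_empty
    rw [hsum, List.replicate_succ, List.ofFn_succ, row_cons_cons]
    have hrow : ∀ c' r', row d 1 (List.replicate n 1) r' (List.ofFn fun i => c i.succ)
        (fun l => g (c' :: l)) = (1 - d.w) ^ n * T c' r' := by
      intro c' r'
      exact ih r' (fun i => c i.succ) (fun l => g (c' :: l))
    simp only [Fintype.sum_bool, hrow, mul_one]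
    cases r <;> cases hc0 : c 0
    · rw [key false false (by rw [hc0]; simp [b2z]), key true true (by rw [hc0]; simp [b2z])]
      simp only [vert]
      ring
    · rw [key false true (by rw [hc0]; simp [b2z]),
        key0 true (by rw [hc0]; intro c'; cases c' <;> simp [b2z])]
      simp only [vert]
      ring
    · rw [key true false (by rw [hc0]; simp [b2z]),
        key0 false (by rw [hc0]; intro c'; cases c' <;> simp [b2z])]
      simp only [vert]
      ring
    · rw [key false false (by rw [hc0]; simp [b2z]), key true true (by rw [hc0]; simp [b2z])]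
      simp only [vert]
      ring

end ODD
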