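import Pool.Agent.ODD.CNS

/-!
# PROJECT ODD (MP_d12cfa_co), module CNB: removing the first row and column of the matrix

`A ↦ (A 0 0, first row, remaining minor)` is a bijection from the matrices of order `N + 1` onto
the triples of the right-hand side.
-/

set_option autoImplicit false

namespace ODD

private theorem sum_Iic_succ {N : ℕ} (f : Fin (N + 1) → ℤ) (k : Fin N) :
    ∑ j ∈ Finset.Iic k.succ, f j = f 0 + ∑ j ∈ Finset.Iic k, f j.succ := by
  have h1 : ∑ j ∈ Finset.Iic k.succ, f j = ∑ j, if j ≤ k.succ then f j else 0 := by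
    rw [← Finset.sum_filter]
    congr 1
    ext j
    simp
  have h2 : ∑ j ∈ Finset.Iic k, f j.succ = ∑ j, if j ≤ k then f j.succ else 0 := by
    rw [← Finset.sum_filter]
    congr 1
    ext j
    simp
  rw [h1, h2, Fin.sum_univ_succ]
  simp

private theorem sum_Iic_zero {N : ℕ} (f : Fin (N + 1) → ℤ) :
    ∑ j ∈ Finset.Iic (0 : Fin (N + 1)), f j = f 0 := by
  have h1 : Finset.Iic (0 : Fin (N + 1)) = {0} := by
    ext j
    simp
  rw [h1, Finset.sum_singleton]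

private theorem entry_bound {N : ℕ} (f : Fin N → ℤ) (r : ℤ) (hr : r = 0 ∨ r = 1)
    (h : ∀ k, r + ∑ j ∈ Finset.Iic k, f j = 0 ∨ r + ∑ j ∈ Finset.Iic k, f j = 1) :
    ∀ j, -1 ≤ f j ∧ f j ≤ 1 := by
  induction N generalizing r with
  | zero => exact fun j => j.elim0
  | succ N ih =>
    have h0 := h 0
    rw [sum_Iic_zero] at h0
    intro j
    refine Fin.cases ?_ (fun j => ?_) j
    · omega
    · refine ih (fun j => f j.succ) (r + f 0) h0 (fun k => ?_) j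
      have h1 := h k.succ
      rw [sum_Iic_succ, ← add_assoc] at h1
      exact h1

theorem Sset_finite (N : ℕ) (c : Fin N → ℤ) (hc : ∀ j, c j = 0 ∨ c j = 1) :
    (Sset N c).Finite := by
  have h1 : (Set.Icc (fun _ _ => -1 : Fin N → Fin N → ℤ) (fun _ _ => 1)).Finite :=
    Set.finite_Icc _ _
  refine Set.Finite.subset h1 ?_
  rintro A ⟨-, h2, -⟩
  exact ⟨fun i j => (entry_bound (A i) (c i) (hc i) (h2 i) j).1,
    fun i j => (entry_bound (A i) (c i) (hc i) (h2 i) j).2⟩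

private theorem Rset_fin (N : ℕ) (r : ℤ) (c : Fin N → ℤ) (hc : ∀ j, c j = 0 ∨ c j = 1) :
    (Rset N r c).Finite := by
  refine (Set.finite_Icc (fun _ => -1 : Fin N → ℤ) (fun _ => 1)).subset ?_
  rintro a ⟨-, -, h⟩
  refine ⟨fun j => ?_, fun j => ?_⟩
  · have h1 := h j
    have h2 := hc j
    show (-1 : ℤ) ≤ a j
    omega
  · have h1 := h j
    have h2 := hc j
    show a j ≤ (1 : ℤ)
    omega

open Classical in
private noncomputable def fs {α : Type*} (s : Set α) : Finset α :=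
  if h : s.Finite then h.toFinset else ∅

private theorem mem_fs {α : Type*} {s : Set α} (h : s.Finite) {x : α} : x ∈ fs s ↔ x ∈ s := by
  rw [fs, dif_pos h, Set.Finite.mem_toFinset]

private theorem finsum_fs {α R : Type*} [AddCommMonoid R] {s : Set α} (h : s.Finite)
    (f : α → R) : ∑ᶠ x ∈ s, f x = ∑ x ∈ fs s, f x := by
  rw [fs, dif_pos h, finsum_mem_eq_finite_toFinset_sum _ h]

/-- the matrix with first diagonal entry `x`, first line `a` and remaining minor `A` -/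
private def bm {N : ℕ} (x : ℤ) (a : Fin N → ℤ) (A : Matrix (Fin N) (Fin N) ℤ) :
    Matrix (Fin (N + 1)) (Fin (N + 1)) ℤ :=
  fun i j => (Fin.cons (Fin.cons x a : Fin (N + 1) → ℤ)
    (fun i => (Fin.cons (a i) (A i) : Fin (N + 1) → ℤ)) : Fin (N + 1) → Fin (N + 1) → ℤ) i j

private theorem bm_zz {N : ℕ} (x : ℤ) (a : Fin N → ℤ) (A : Matrix (Fin N) (Fin N) ℤ) :
    bm x a A 0 0 = x := rfl

private theorem bm_zs {N : ℕ} (x : ℤ) (a : Fin N → ℤ) (A : Matrix (Fin N) (Fin N) ℤ)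
    (j : Fin N) : bm x a A 0 j.succ = a j := rfl

private theorem bm_sz {N : ℕ} (x : ℤ) (a : Fin N → ℤ) (A : Matrix (Fin N) (Fin N) ℤ)
    (i : Fin N) : bm x a A i.succ 0 = a i := rfl

private theorem bm_ss {N : ℕ} (x : ℤ) (a : Fin N → ℤ) (A : Matrix (Fin N) (Fin N) ℤ)
    (i j : Fin N) : bm x a A i.succ j.succ = A i j := rfl

private theorem bm_mem {N : ℕ} {c0 r : ℤ} {c a : Fin N → ℤ} {A : Matrix (Fin N) (Fin N) ℤ}
    (hr : r = 0 ∨ r = 1) (ha : a ∈ Rset N r c) (hA : A ∈ Sset N (fun j => c j + a j)) :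
    bm (r - c0) a A ∈ Sset (N + 1) (Fin.cons c0 c) := by
  obtain ⟨a1, a2, a3⟩ := ha
  obtain ⟨A1, A2, A3⟩ := hA
  refine ⟨fun i j => ?_, fun i k => ?_, fun i => ?_⟩
  · refine Fin.cases ?_ (fun i => ?_) i <;> refine Fin.cases ?_ (fun j => ?_) j
    · rfl
    · rw [bm_zs, bm_sz]
    · rw [bm_zs, bm_sz]
    · rw [bm_ss, bm_ss, A1]
  · refine Fin.cases ?_ (fun i => ?_) i <;> refine Fin.cases ?_ (fun k => ?_) k
    · rw [sum_Iic_zero, bm_zz, Fin.cons_zero]
      omega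
    · rw [sum_Iic_succ, bm_zz, Fin.cons_zero]
      simp only [bm_zs]
      have := a1 k
      omega
    · rw [sum_Iic_zero, bm_sz, Fin.cons_succ]
      exact a3 i
    · rw [sum_Iic_succ, bm_sz, Fin.cons_succ]
      simp only [bm_ss]
      have h5 := A2 i k
      beta_reduce at h5
      omega
  · refine Fin.cases ?_ (fun i => ?_) i
    · rw [Fin.sum_univ_succ, bm_zz, Fin.cons_zero]
      simp only [bm_zs]
      omega
    · rw [Fin.sum_univ_succ, bm_sz, Fin.cons_succ]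
      simp only [bm_ss]
      have h5 := A3 i
      beta_reduce at h5
      omega

private theorem parts {N : ℕ} {c0 : ℤ} {c : Fin N → ℤ}
    {A : Matrix (Fin (N + 1)) (Fin (N + 1)) ℤ} (hA : A ∈ Sset (N + 1) (Fin.cons c0 c)) :
    (c0 + A 0 0 = 0 ∨ c0 + A 0 0 = 1) ∧ (fun j => A 0 j.succ) ∈ Rset N (c0 + A 0 0) c ∧
      A.submatrix Fin.succ Fin.succ ∈ Sset N (fun j => c j + A 0 j.succ) := by
  obtain ⟨A1, A2, A3⟩ := hA
  refine ⟨?_, ⟨fun k => ?_, ?_, fun j => ?_⟩, fun i j => ?_, fun i k => ?_, fun i => ?_⟩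
  · have := A2 0 0
    rw [sum_Iic_zero, Fin.cons_zero] at this
    exact this
  · have := A2 0 k.succ
    rw [sum_Iic_succ, Fin.cons_zero, ← add_assoc] at this
    exact this
  · have := A3 0
    rw [Fin.sum_univ_succ, Fin.cons_zero, ← add_assoc] at this
    exact this
  · have := A2 j.succ 0
    rw [sum_Iic_zero, Fin.cons_succ, A1] at this
    exact this
  · exact A1 _ _
  · have := A2 i.succ k.succ
    rw [sum_Iic_succ, Fin.cons_succ, A1 i.succ 0, ← add_assoc] at this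
    exact this
  · have := A3 i.succ
    rw [Fin.sum_univ_succ, Fin.cons_succ, A1 i.succ 0, ← add_assoc] at this
    exact this

private theorem bm_parts {N : ℕ} {c0 : ℤ} {c : Fin N → ℤ}
    {A : Matrix (Fin (N + 1)) (Fin (N + 1)) ℤ} (hA : A ∈ Sset (N + 1) (Fin.cons c0 c)) :
    bm (c0 + A 0 0 - c0) (fun j => A 0 j.succ) (A.submatrix Fin.succ Fin.succ) = A := by
  ext i j
  refine Fin.cases ?_ (fun i => ?_) i <;> refine Fin.cases ?_ (fun j => ?_) j
  · rw [bm_zz]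
    ring
  · rw [bm_zs]
  · rw [bm_sz]
    exact hA.1 _ _
  · rw [bm_ss]
    rfl

theorem sset_succ {R : Type*} [CommRing R] (φ : ℤ → R) (N : ℕ) (c0 : ℤ)
    (hc0 : c0 = 0 ∨ c0 = 1) (c : Fin N → ℤ) (hc : ∀ j, c j = 0 ∨ c j = 1) :
    ∑ᶠ A ∈ Sset (N + 1) (Fin.cons c0 c), ∏ i, φ (A i i) =
      ∑ r ∈ ({0, 1} : Finset ℤ), φ (r - c0) *
        ∑ᶠ a ∈ Rset N r c, ∑ᶠ A ∈ Sset N (fun j => c j + a j), ∏ i, φ (A i i) := by
  have hcc : ∀ j : Fin (N + 1), (Fin.cons c0 c : Fin (N + 1) → ℤ) j = 0 ∨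
      (Fin.cons c0 c : Fin (N + 1) → ℤ) j = 1 := by
    intro j
    refine Fin.cases ?_ (fun j => ?_) j
    · rw [Fin.cons_zero]; exact hc0
    · rw [Fin.cons_succ]; exact hc j
  have hS := Sset_finite (N + 1) (Fin.cons c0 c) hcc
  have hR : ∀ r : ℤ, φ (r - c0) *
      ∑ᶠ a ∈ Rset N r c, ∑ᶠ A ∈ Sset N (fun j => c j + a j), ∏ i, φ (A i i) =
      ∑ a ∈ fs (Rset N r c), ∑ A ∈ fs (Sset N (fun j => c j + a j)),
        φ (r - c0) * ∏ i, φ (A i i) := by
    intro r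
    rw [finsum_fs (Rset_fin N r c hc), Finset.mul_sum]
    refine Finset.sum_congr rfl fun a ha => ?_
    rw [mem_fs (Rset_fin N r c hc)] at ha
    rw [finsum_fs (Sset_finite N _ ha.2.2), Finset.mul_sum]
  rw [finsum_fs hS, Finset.sum_congr rfl fun r _ => hR r]
  simp only [Finset.sum_sigma']
  refine Finset.sum_bij'
    (fun A _ => (⟨c0 + A 0 0, ⟨fun j => A 0 j.succ, A.submatrix Fin.succ Fin.succ⟩⟩ :
      Σ _ : ℤ, Σ _ : (Fin N → ℤ), Matrix (Fin N) (Fin N) ℤ))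
    (fun p _ => bm (p.1 - c0) p.2.1 p.2.2) ?_ ?_ ?_ ?_ ?_
  · intro A hA
    rw [mem_fs hS] at hA
    obtain ⟨h1, h2, h3⟩ := parts hA
    simp only [Finset.mem_sigma, Finset.mem_insert, Finset.mem_singleton]
    refine ⟨h1, (mem_fs (Rset_fin N _ c hc)).2 h2, (mem_fs (Sset_finite N _ h2.2.2)).2 h3⟩
  · rintro ⟨r, a, A⟩ hp
    simp only [Finset.mem_sigma, Finset.mem_insert, Finset.mem_singleton] at hp
    obtain ⟨h1, h2, h3⟩ := hp
    rw [mem_fs (Rset_fin N _ c hc)] at h2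
    rw [mem_fs (Sset_finite N _ h2.2.2)] at h3
    rw [mem_fs hS]
    exact bm_mem h1 h2 h3
  · intro A hA
    rw [mem_fs hS] at hA
    exact bm_parts hA
  · rintro ⟨r, a, A⟩ hp
    have e1 : c0 + (r - c0) = r := by ring
    show (⟨c0 + (r - c0), ⟨a, A⟩⟩ : Σ _ : ℤ, Σ _ : (Fin N → ℤ), Matrix (Fin N) (Fin N) ℤ) = _
    rw [e1]
  · intro A hA
    rw [Fin.prod_univ_succ]
    have e1 : c0 + A 0 0 - c0 = A 0 0 := by ring
    show φ (A 0 0) * _ = φ (c0 + A 0 0 - c0) * _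
    rw [e1]
    rfl

end ODD
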