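import Pool.Agent.ODD.CNA
import Pool.Agent.ODD.CNB

/-!
# PROJECT ODD (MP_d12cfa_co), module CNC: the state sum at parameters 1 counts matrices

`psi_one` by induction on the size (`row_one`, `sset_succ`); `ev_count` and `od_count` by the
diagonal weights, the latter in dual numbers. Proved by helper5.
-/

set_option autoImplicit false

namespace ODD

private theorem kap_wt {R : Type*} [CommRing R] (d : Dat R) (c r : Bool) :
    kap d 1 c r = wt d (b2z r - b2z c) := by
  cases c <;> cases r <;> simp [kap, wt, b2z]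

private theorem b2z_01 (b : Bool) : b2z b = 0 ∨ b2z b = 1 := by
  cases b <;> simp [b2z]

private theorem b2z_dec (x : ℤ) (hx : x = 0 ∨ x = 1) : b2z (decide (x = 1)) = x := by
  rcases hx with rfl | rfl <;> simp [b2z]

private theorem mul_fs {α R : Type*} [CommRing R] (s : Set α) (hs : s.Finite) (K : R)
    (F : α → R) : ∑ᶠ a ∈ s, K * F a = K * ∑ᶠ a ∈ s, F a := by
  rw [finsum_mem_eq_finite_toFinset_sum _ hs, finsum_mem_eq_finite_toFinset_sum _ hs,
    Finset.mul_sum]

theorem psi_one {R : Type*} [CommRing R] (d : Dat R) (N : ℕ) (c : Fin N → Bool) :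
    Psi d (List.replicate N 1) (List.ofFn c) =
      (1 - d.w) ^ (N * (N - 1) / 2) *
        ∑ᶠ A ∈ Sset N (fun i => b2z (c i)), ∏ i, wt d (A i i) := by
  induction N with
  | zero =>
    have h : Sset 0 (fun i => b2z (c i)) = Set.univ := by
      ext A
      simp [Sset]
    have : Unique (Matrix (Fin 0) (Fin 0) ℤ) := ⟨⟨0⟩, fun a => Matrix.ext fun i => i.elim0⟩
    rw [h]
    simp [finsum_unique]
  | succ N ih =>
    have hcons : (fun i => b2z (c i)) =
        (Fin.cons (b2z (c 0)) (fun j : Fin N => b2z (c j.succ)) : Fin (N + 1) → ℤ) := by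
      funext i
      refine Fin.cases ?_ (fun j => ?_) i <;> simp
    rw [List.replicate_succ, List.ofFn_succ, psi_cons_cons, hcons,
      sset_succ (wt d) N (b2z (c 0)) (b2z_01 _) (fun j => b2z (c j.succ)) (fun j => b2z_01 _),
      Nat.triangle_succ, pow_add]
    have key : ∀ r : Bool, row d 1 (List.replicate N 1) r (List.ofFn fun i => c i.succ)
        (Psi d (List.replicate N 1)) = (1 - d.w) ^ (N * (N - 1) / 2) * (1 - d.w) ^ N *
        ∑ᶠ a ∈ Rset N (b2z r) (fun j => b2z (c j.succ)),
          ∑ᶠ A ∈ Sset N (fun j => b2z (c j.succ) + a j), ∏ i, wt d (A i i) := by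
      intro r
      rw [row_one, mul_comm ((1 - d.w) ^ (N * (N - 1) / 2)), mul_assoc]
      congr 1
      rw [← mul_fs _ (Rset_finite N _ _ fun j => b2z_01 _)]
      refine finsum_mem_congr rfl fun a ha => ?_
      rw [ih]
      congr 3
      have : (fun i : Fin N => b2z (decide (b2z (c i.succ) + a i = 1))) =
          fun j => b2z (c j.succ) + a j := by
        funext i
        exact b2z_dec _ (ha.2.2 i)
      rw [this]
    rw [Fintype.sum_bool, Finset.sum_pair (by norm_num), key, key, kap_wt, kap_wt]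
    simp only [b2z]
    ring

private theorem card_sum {α : Type*} (S : Set α) (hS : S.Finite) (p : α → Prop) :
    (Nat.card {A : α // A ∈ S ∧ p A} : ℂ) =
      ∑ A ∈ hS.toFinset, @ite ℂ (p A) (Classical.propDecidable _) 1 0 := by
  classical
  have h1 : {A : α | A ∈ S ∧ p A} = ((hS.toFinset.filter p : Finset α) : Set α) := by
    ext A; simp
  have h2 : Nat.card {A : α // A ∈ S ∧ p A} = (hS.toFinset.filter p).card := by
    have : {A : α // A ∈ S ∧ p A} = ↥{A : α | A ∈ S ∧ p A} := rfl
    rw [this, h1, Nat.card_eq_fintype_card]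
    simp
  rw [h2, Finset.card_filter]
  push_cast
  refine Finset.sum_congr rfl fun A _ => ?_
  congr

private theorem diag_vals (N : ℕ) (A : Matrix (Fin N) (Fin N) ℤ) (hA : A ∈ Sset N 0)
    (i : Fin N) : A i i = 0 ∨ A i i = 1 ∨ A i i = -1 := by
  have h1 := hA.2.1 i i
  have hsplit : ∑ j ∈ Finset.Iic i, A i j = A i i + ∑ j ∈ Finset.Iio i, A i j := by
    rw [← Finset.Iio_insert, Finset.sum_insert (by simp)]
  have h2 : ∑ j ∈ Finset.Iio i, A i j = 0 ∨ ∑ j ∈ Finset.Iio i, A i j = 1 := by
    by_cases hi : (i : ℕ) = 0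
    · left
      have : Finset.Iio i = ∅ := by
        ext j
        simp only [Finset.mem_Iio, Finset.notMem_empty, iff_false, not_lt, Fin.le_def]
        omega
      rw [this, Finset.sum_empty]
    · have h3 := hA.2.1 i ⟨i - 1, by omega⟩
      have : Finset.Iio i = Finset.Iic (⟨i - 1, by omega⟩ : Fin N) := by
        ext j
        simp only [Finset.mem_Iio, Finset.mem_Iic, Fin.lt_def, Fin.le_def]
        omega
      rw [this]
      simpa using h3
  simp only [Pi.zero_apply, zero_add] at h1
  rw [hsplit] at h1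
  omega

private theorem zs_ofFn (N : ℕ) : zs N = List.ofFn (fun _ : Fin N => false) := by
  simp [zs, List.ofFn_const]

/-- zero diagonal -/
theorem ev_count (w : ℂ) (N : ℕ) :
    Ev w (List.replicate N 1) = (1 - w) ^ (N * (N - 1) / 2) *
      (Nat.card {A : Matrix (Fin N) (Fin N) ℤ // A ∈ Sset N 0 ∧ ∀ i, A i i = 0} : ℂ) := by
  classical
  unfold Ev Z
  rw [List.length_replicate, zs_ofFn, psi_one]
  have h0 : (fun _ : Fin N => b2z false) = 0 := rfl
  have hfin : (Sset N (0 : Fin N → ℤ)).Finite := Sset_finite N 0 fun j => Or.inl rfl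
  rw [h0, card_sum _ hfin, finsum_mem_eq_finite_toFinset_sum _ hfin]
  have hw : (dE w).w = w := rfl
  rw [hw]
  congr 1
  refine Finset.sum_congr rfl fun A _ => ?_
  by_cases h : ∀ i, A i i = 0
  · rw [if_pos h]
    refine Finset.prod_eq_one fun i _ => ?_
    simp [wt, h i, dE]
  · rw [if_neg h]
    push Not at h
    obtain ⟨i, hi⟩ := h
    refine Finset.prod_eq_zero (Finset.mem_univ i) ?_
    simp [wt, hi, dE]

private theorem snd_am (x : ℂ) (y : DualNumber ℂ) :
    (algebraMap ℂ (DualNumber ℂ) x * y).snd = x * y.snd := by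
  rw [← Algebra.smul_def, TrivSqZeroExt.snd_smul, smul_eq_mul]

private theorem snd_am1 (x : ℂ) : (algebraMap ℂ (DualNumber ℂ) x).snd = 0 := by
  have h := snd_am x 1
  rw [mul_one] at h
  rw [h]
  simp

private theorem prod_snd (w s : ℂ) (N : ℕ) (A : Matrix (Fin N) (Fin N) ℤ)
    (hA : ∀ i, A i i = 0 ∨ A i i = 1 ∨ A i i = -1) :
    (∏ i, wt (dO w s) (A i i)).snd = (1 - s * w ^ 2) ^ (N - 1) *
      (@ite ℂ (∃ i, A i i = 1 ∧ ∀ j, j ≠ i → A j j = 0) (Classical.propDecidable _) 1 0 -
        s * @ite ℂ (∃ i, A i i = -1 ∧ ∀ j, j ≠ i → A j j = 0) (Classical.propDecidable _)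
          1 0) := by
  classical
  have w0 : wt (dO w s) 0 = algebraMap ℂ (DualNumber ℂ) (1 - s * w ^ 2) := by
    simp only [wt, dO, if_true]
    rw [sub_eq_add_neg (1 : ℂ), map_add, map_one]
  have w1 : wt (dO w s) 1 = DualNumber.eps := by
    simp [wt, dO]
  have w2 : wt (dO w s) (-1) = algebraMap ℂ (DualNumber ℂ) (-s) * DualNumber.eps := by
    simp [wt, dO]
  by_cases h1 : ∃ i, A i i ≠ 0
  · obtain ⟨i, hi⟩ := h1
    rw [← Finset.mul_prod_erase Finset.univ _ (Finset.mem_univ i)]
    by_cases h2 : ∀ j, j ≠ i → A j j = 0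
    · have h3 : ∏ x ∈ Finset.univ.erase i, wt (dO w s) (A x x) =
          algebraMap ℂ (DualNumber ℂ) ((1 - s * w ^ 2) ^ (N - 1)) := by
        rw [Finset.prod_congr rfl (g := fun _ => algebraMap ℂ (DualNumber ℂ) (1 - s * w ^ 2))]
        · rw [Finset.prod_const, Finset.card_erase_of_mem (Finset.mem_univ i), Finset.card_univ,
            Fintype.card_fin, map_pow]
        · intro j hj
          rw [h2 j (Finset.ne_of_mem_erase hj), w0]
      rw [h3, mul_comm, snd_am]
      congr 1
      rcases hA i with h | h | h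
      · exact absurd h hi
      · rw [h, w1, if_pos ⟨i, h, h2⟩, if_neg]
        · simp
        · rintro ⟨k, hk, -⟩
          by_cases hki : k = i
          · rw [hki, h] at hk; norm_num at hk
          · rw [h2 k hki] at hk; norm_num at hk
      · rw [h, w2, snd_am, if_neg, if_pos ⟨i, h, h2⟩]
        · simp
        · rintro ⟨k, hk, -⟩
          by_cases hki : k = i
          · rw [hki, h] at hk; norm_num at hk
          · rw [h2 k hki] at hk; norm_num at hk
    · push Not at h2
      obtain ⟨j, hji, hj⟩ := h2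
      have hE : ∀ k, A k k ≠ 0 → ∃ x : ℂ, wt (dO w s) (A k k) =
          algebraMap ℂ (DualNumber ℂ) x * DualNumber.eps := by
        intro k hk
        rcases hA k with h | h | h
        · exact absurd h hk
        · exact ⟨1, by rw [h, w1, map_one, one_mul]⟩
        · exact ⟨-s, by rw [h, w2]⟩
      obtain ⟨x, hx⟩ := hE i hi
      obtain ⟨y, hy⟩ := hE j hj
      rw [← Finset.mul_prod_erase (Finset.univ.erase i) _
        (Finset.mem_erase.2 ⟨hji, Finset.mem_univ j⟩), hx, hy]
      have hz : ∀ P : DualNumber ℂ, algebraMap ℂ (DualNumber ℂ) x * DualNumber.eps *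
          (algebraMap ℂ (DualNumber ℂ) y * DualNumber.eps * P) = 0 := by
        intro P
        have : algebraMap ℂ (DualNumber ℂ) x * DualNumber.eps *
          (algebraMap ℂ (DualNumber ℂ) y * DualNumber.eps * P) =
          (DualNumber.eps * DualNumber.eps) * (algebraMap ℂ (DualNumber ℂ) x *
            algebraMap ℂ (DualNumber ℂ) y * P) := by ring
        rw [this, DualNumber.eps_mul_eps, zero_mul]
      rw [hz, if_neg, if_neg]
      · simp
      · rintro ⟨k, hk, hk'⟩
        by_cases hki : k = i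
        · exact hj (hk' j (by rw [hki]; exact hji))
        · exact hi (hk' i (Ne.symm hki))
      · rintro ⟨k, hk, hk'⟩
        by_cases hki : k = i
        · exact hj (hk' j (by rw [hki]; exact hji))
        · exact hi (hk' i (Ne.symm hki))
  · push Not at h1
    rw [if_neg, if_neg]
    · rw [Finset.prod_congr rfl (g := fun _ => algebraMap ℂ (DualNumber ℂ) (1 - s * w ^ 2))
        (fun j _ => by rw [h1 j, w0]), Finset.prod_const, ← map_pow, snd_am1]
      simp
    · rintro ⟨k, hk, -⟩
      rw [h1 k] at hk; norm_num at hk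
    · rintro ⟨k, hk, -⟩
      rw [h1 k] at hk; norm_num at hk

/-- exactly one nonzero diagonal entry -/
theorem od_count (w s : ℂ) (N : ℕ) (hN : 1 ≤ N) :
    Od w s (List.replicate N 1) =
      (1 - w) ^ (N * (N - 1) / 2) * (1 - s * w ^ 2) ^ (N - 1) *
      ((Nat.card {A : Matrix (Fin N) (Fin N) ℤ // A ∈ Sset N 0 ∧
          ∃ i, A i i = 1 ∧ ∀ j, j ≠ i → A j j = 0} : ℂ) -
        s * (Nat.card {A : Matrix (Fin N) (Fin N) ℤ // A ∈ Sset N 0 ∧
          ∃ i, A i i = -1 ∧ ∀ j, j ≠ i → A j j = 0} : ℂ)) := by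
  classical
  unfold Od Z
  rw [List.map_replicate, map_one, List.length_replicate, zs_ofFn, psi_one]
  have h0 : (fun _ : Fin N => b2z false) = 0 := rfl
  have hfin : (Sset N (0 : Fin N → ℤ)).Finite := Sset_finite N 0 fun j => Or.inl rfl
  have hw : (1 : DualNumber ℂ) - (dO w s).w = algebraMap ℂ (DualNumber ℂ) (1 - w) := by
    rw [map_sub, map_one]; rfl
  rw [h0, hw, ← map_pow, snd_am, card_sum _ hfin, card_sum _ hfin,
    finsum_mem_eq_finite_toFinset_sum _ hfin, TrivSqZeroExt.snd_sum, mul_assoc]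
  congr 1
  rw [Finset.mul_sum, ← Finset.sum_sub_distrib, Finset.mul_sum]
  refine Finset.sum_congr rfl fun A hA => ?_
  rw [prod_snd w s N A (diag_vals N A ((Set.Finite.mem_toFinset hfin).1 hA))]

end ODD
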