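import Pool.Agent.ODD.IFD

/-!
# PROJECT ODD (MP_d12cfa_co): definitions for the bijection with matrices
-/

set_option autoImplicit false

namespace ODD

/-- symmetric matrices all of whose lines, started at `c i`, have partial sums `0` or `1` and
total `1` -/
def Sset (N : ℕ) (c : Fin N → ℤ) : Set (Matrix (Fin N) (Fin N) ℤ) :=
  {A | (∀ i j, A i j = A j i) ∧
    (∀ i k, c i + ∑ j ∈ Finset.Iic k, A i j = 0 ∨ c i + ∑ j ∈ Finset.Iic k, A i j = 1) ∧
    ∀ i, c i + ∑ j, A i j = 1}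

/-- possible rows: started at `r`, partial sums `0` or `1`, total `1`, and `c j + a j` is
`0` or `1` -/
def Rset (n : ℕ) (r : ℤ) (c : Fin n → ℤ) : Set (Fin n → ℤ) :=
  {a | (∀ k, r + ∑ j ∈ Finset.Iic k, a j = 0 ∨ r + ∑ j ∈ Finset.Iic k, a j = 1) ∧
    r + ∑ j, a j = 1 ∧ ∀ j, c j + a j = 0 ∨ c j + a j = 1}

def b2z : Bool → ℤ
  | false => 0
  | true => 1

/-- weight of a diagonal entry at parameter `1` -/
def wt {R : Type*} [CommRing R] (d : Dat R) (a : ℤ) : R :=
  if a = 0 then d.al + d.be else if a = 1 then d.e else d.f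

end ODD
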