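import Pool.Agent.ODD.REF

/-!
# PROJECT ODD (MP_d12cfa_co), module COR: second recursion (corner of the first two lines)

For `U * W = w` only the corner with both row spins `true` is different from zero, and the two rows
are then frozen.
-/

set_option autoImplicit false

namespace ODD

variable {R : Type*} [CommRing R]

theorem row_true_zs (d : Dat R) (U : R) (Vs : List R) (g : List Bool → R) :
    row d U Vs true (zs Vs.length) g =
      (Vs.map (fun V => 1 - d.w * (U * V))).prod * g (zs Vs.length) := by
  induction Vs generalizing g with
  | nil =>
    show row d U [] true [] g = _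
    rw [row_nil_true, List.map_nil, List.prod_nil, one_mul]
    rfl
  | cons V Vs ih =>
    have e : zs (V :: Vs).length = false :: zs Vs.length := rfl
    rw [e, row_cons_cons, List.map_cons, List.prod_cons]
    simp only [Fintype.sum_bool, vert, zero_mul, zero_add, add_zero]
    rw [ih]
    ring

theorem corner_special (d : Dat R) (hd : d.Good) (he : d.e * d.e = 0) (U W : R)
    (h : U * W = d.w) (r1 r2 : Bool) :
    corner d U W false false r1 r2 =
      if r1 = true ∧ r2 = true then (1 - d.w) * (d.al * U + d.be) * (d.al * W + d.be) else 0 := by
  obtain ⟨w, al, be, e, f⟩ := d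
  obtain ⟨hw, h1, h2, h3⟩ := hd
  simp only at hw h1 h2 h3 he h
  have hw3 : 1 + w = -w ^ 2 := by linear_combination hw
  cases r1 <;> cases r2 <;>
    simp only [Fintype.sum_bool, vert, corner, kap, h, mul_zero, zero_mul, zero_add, add_zero,
      sub_self, and_self, if_true, and_false, false_and, if_false, Bool.false_eq_true]
  · linear_combination (1 - w) * (f * al * h + w * h1 + W * h2) + (1 - w) * e * (al * W + be) * hw
  · linear_combination (1 - w * w) * he

theorem Z_corner1 (d : Dat R) (hd : d.Good) (he : d.e * d.e = 0) (U W : R)
    (h : U * W = d.w) (Us : List R) :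
    Z d (U :: W :: Us) = (1 - d.w) * (d.al * U + d.be) * (d.al * W + d.be) *
      (Us.map (fun V => (1 - d.w * (U * V)) * (1 - d.w * (W * V)))).prod * Z d Us := by
  have e1 : zs (U :: W :: Us).length = false :: false :: zs Us.length := rfl
  unfold Z
  rw [e1, psi_two]
  simp only [Fintype.sum_bool, corner_special d hd he U W h]
  simp only [two, row_true_zs, and_self, if_true, and_false, false_and, if_false,
    Bool.false_eq_true, zero_mul, add_zero]
  rw [List.prod_map_mul]
  ring

end ODD
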