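import Mathlib

/-!
# MP_d12cfa_co: odd order off-diagonally symmetric alternating sign matrices (definitions)
-/

set_option autoImplicit false

namespace ODD

open Finset

/-- odd order off-diagonally symmetric alternating sign matrices of order `2 n + 1`:
entries `-1, 0, 1`, in every row and in every column all partial sums are `0` or `1` and the
total is `1`, symmetric, exactly one nonzero diagonal entry -/
def IsOSASM (n : ℕ) (A : Matrix (Fin (2 * n + 1)) (Fin (2 * n + 1)) ℤ) : Prop :=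
  (∀ i j, A i j = -1 ∨ A i j = 0 ∨ A i j = 1) ∧
  (∀ i k, (∑ j ∈ Finset.Iic k, A i j) = 0 ∨ (∑ j ∈ Finset.Iic k, A i j) = 1) ∧
  (∀ i, (∑ j, A i j) = 1) ∧
  (∀ j k, (∑ i ∈ Finset.Iic k, A i j) = 0 ∨ (∑ i ∈ Finset.Iic k, A i j) = 1) ∧
  (∀ j, (∑ i, A i j) = 1) ∧
  (∀ i j, A i j = A j i) ∧
  ∃ d, A d d ≠ 0 ∧ ∀ i, i ≠ d → A i i = 0

/-- number of OSASMs of order `2 n + 1` whose nonzero diagonal entry is `1` -/
noncomputable def Npos (n : ℕ) : ℕ :=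
  Nat.card {A : Matrix (Fin (2 * n + 1)) (Fin (2 * n + 1)) ℤ //
    IsOSASM n A ∧ ∃ d, A d d = 1}

/-- number of OSASMs of order `2 n + 1` whose nonzero diagonal entry is `-1` -/
noncomputable def Nneg (n : ℕ) : ℕ :=
  Nat.card {A : Matrix (Fin (2 * n + 1)) (Fin (2 * n + 1)) ℤ //
    IsOSASM n A ∧ ∃ d, A d d = -1}

/-- number of all OSASMs of order `2 n + 1` -/
noncomputable def Nall (n : ℕ) : ℕ :=
  Nat.card {A : Matrix (Fin (2 * n + 1)) (Fin (2 * n + 1)) ℤ // IsOSASM n A}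

/-- the product formula of the problem,
`2^(n-1) (3n+2)!/(2n+1)! ∏_{k=1}^{n} (6k-2)!/(2n+2k+1)!` -/
def F (n : ℕ) : ℚ :=
  (2 : ℚ) ^ n / 2 * ((3 * n + 2).factorial : ℚ) / ((2 * n + 1).factorial : ℚ) *
    ∏ k ∈ Finset.Icc 1 n, (((6 * k - 2).factorial : ℚ) / ((2 * n + 2 * k + 1).factorial : ℚ))

/-- `v k = (1/7) ∏_{i<k} -2(2i+1)(4i+9)(3i+4)(3i+5)/((4i+5)(i+3)(6i+11)(6i+13))` -/
def v (k : ℕ) : ℚ :=
  1 / 7 * ∏ i ∈ range k,
    (-(2 * (2 * (i : ℚ) + 1) * (4 * i + 9) * (3 * i + 4) * (3 * i + 5)) /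
      ((4 * i + 5) * (i + 3) * (6 * i + 11) * (6 * i + 13)))

/-- `ρ n = ∏_{k<n} (6k+5)(6k+7)/((6k+8)(6k+10)) * (1 + ∑_{k<n} v k)` -/
def rho (n : ℕ) : ℚ :=
  (∏ k ∈ range n, ((6 * (k : ℚ) + 5) * (6 * k + 7)) / ((6 * k + 8) * (6 * k + 10))) *
    (1 + ∑ k ∈ range n, v k)

end ODD
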