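import Pool.Agent.ODD.FIN
import Pool.Agent.ODD.Stmt

/-!
# PROJECT ODD (MP_d12cfa_co): the matrices of the problem

Bridge from `Npos`, `Nneg`, `F`, `rho` of `Stmt.lean` to `cP`, `cM`, `Fq`, `rhoq`.
-/

set_option autoImplicit false

namespace ODD

open Finset

theorem rho_eq (n : ℕ) : rho n = rhoq n := rfl

theorem prod_Icc_one (n : ℕ) (f : ℕ → ℚ) :
    ∏ k ∈ Finset.Icc 1 n, f k = ∏ k ∈ range n, f (k + 1) := by
  induction n with
  | zero => simp
  | succ n ih => rw [Finset.prod_Icc_succ_top (by omega), ih, prod_range_succ]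

theorem F_eq (n : ℕ) : F n = Fq n := by
  rw [F, Fq, prod_Icc_one]
  congr 1

theorem entry_of_partial {N : ℕ} (a : Fin N → ℤ)
    (h : ∀ k, (∑ j ∈ Finset.Iic k, a j) = 0 ∨ (∑ j ∈ Finset.Iic k, a j) = 1) (k : Fin N) :
    a k = -1 ∨ a k = 0 ∨ a k = 1 := by
  have h1 : ∑ j ∈ Finset.Iic k, a j = a k + ∑ j ∈ Finset.Iio k, a j := by
    rw [← Finset.Iio_insert, Finset.sum_insert (by simp)]
  have h2 : (∑ j ∈ Finset.Iio k, a j) = 0 ∨ (∑ j ∈ Finset.Iio k, a j) = 1 := by
    rcases Nat.eq_zero_or_pos k.1 with h0 | h0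
    · left
      refine Finset.sum_eq_zero fun j hj => ?_
      have := Finset.mem_Iio.mp hj
      have h3 : j.1 < k.1 := this
      omega
    · have h3 : Finset.Iio k = Finset.Iic (⟨k.1 - 1, by omega⟩ : Fin N) := by
        ext j
        rw [Finset.mem_Iio, Finset.mem_Iic, Fin.lt_def, Fin.le_def]
        simp only
        omega
      rw [h3]
      exact h _
  have h3 := h k
  rw [h1] at h3
  omega

theorem isOSASM_iff (n : ℕ) (A : Matrix (Fin (2 * n + 1)) (Fin (2 * n + 1)) ℤ) :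
    IsOSASM n A ↔ A ∈ Sset (2 * n + 1) 0 ∧ ∃ d, A d d ≠ 0 ∧ ∀ i, i ≠ d → A i i = 0 := by
  constructor
  · rintro ⟨-, h2, h3, -, -, h6, h7⟩
    refine ⟨⟨h6, ?_, ?_⟩, h7⟩
    · intro i k
      simpa using h2 i k
    · intro i
      simpa using h3 i
  · rintro ⟨⟨h1, h2, h3⟩, h7⟩
    have h2' : ∀ i k, (∑ j ∈ Finset.Iic k, A i j) = 0 ∨ (∑ j ∈ Finset.Iic k, A i j) = 1 := by
      intro i k
      simpa using h2 i k
    have h3' : ∀ i, (∑ j, A i j) = 1 := by
      intro i
      simpa using h3 i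
    refine ⟨fun i j => entry_of_partial (A i) (h2' i) j, h2', h3', ?_, ?_, h1, h7⟩
    · intro j k
      have e : ∑ i ∈ Finset.Iic k, A i j = ∑ i ∈ Finset.Iic k, A j i :=
        Finset.sum_congr rfl fun i _ => h1 i j
      rw [e]
      exact h2' j k
    · intro j
      have e : ∑ i, A i j = ∑ i, A j i := Finset.sum_congr rfl fun i _ => h1 i j
      rw [e]
      exact h3' j

theorem Npos_eq (n : ℕ) : Npos n = cP n := by
  refine Nat.card_congr (Equiv.subtypeEquivRight fun A => ?_)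
  rw [isOSASM_iff]
  constructor
  · rintro ⟨⟨h1, d, h2, h3⟩, e, he⟩
    refine ⟨h1, d, ?_, h3⟩
    by_cases hed : e = d
    · rw [← hed]; exact he
    · have := h3 e hed
      omega
  · rintro ⟨h1, d, h2, h3⟩
    exact ⟨⟨h1, d, by omega, h3⟩, d, h2⟩

theorem Nneg_eq (n : ℕ) : Nneg n = cM n := by
  refine Nat.card_congr (Equiv.subtypeEquivRight fun A => ?_)
  rw [isOSASM_iff]
  constructor
  · rintro ⟨⟨h1, d, h2, h3⟩, e, he⟩
    refine ⟨h1, d, ?_, h3⟩
    by_cases hed : e = d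
    · rw [← hed]; exact he
    · have := h3 e hed
      omega
  · rintro ⟨h1, d, h2, h3⟩
    exact ⟨⟨h1, d, by omega, h3⟩, d, h2⟩

theorem Nall_eq (n : ℕ) : Nall n = Npos n + Nneg n := by
  classical
  set S : Set (Matrix (Fin (2 * n + 1)) (Fin (2 * n + 1)) ℤ) := {A | IsOSASM n A} with hS
  set P : Set (Matrix (Fin (2 * n + 1)) (Fin (2 * n + 1)) ℤ) :=
    {A | IsOSASM n A ∧ ∃ d, A d d = 1} with hP
  set M : Set (Matrix (Fin (2 * n + 1)) (Fin (2 * n + 1)) ℤ) :=
    {A | IsOSASM n A ∧ ∃ d, A d d = -1} with hM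
  have hfin : S.Finite := by
    refine (Sset_finite (2 * n + 1) 0 (fun j => Or.inl rfl)).subset fun A hA => ?_
    exact ((isOSASM_iff n A).1 hA).1
  have hu : S = P ∪ M := by
    ext A
    simp only [hS, hP, hM, Set.mem_ofPred_eq, Set.mem_union]
    constructor
    · intro h
      obtain ⟨d, h2, -⟩ := h.2.2.2.2.2.2
      rcases h.1 d d with h3 | h3 | h3
      · right; exact ⟨h, d, h3⟩
      · exact absurd h3 h2
      · left; exact ⟨h, d, h3⟩
    · rintro (h | h)
      · exact h.1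
      · exact h.1
  have hd : Disjoint P M := by
    rw [Set.disjoint_left]
    rintro A ⟨h1, d, hd⟩ ⟨-, e, he⟩
    obtain ⟨f, -, h3⟩ := h1.2.2.2.2.2.2
    have hdf : d = f := by
      by_contra hne
      have := h3 d hne
      omega
    have hef : e = f := by
      by_contra hne
      have := h3 e hne
      omega
    rw [hdf] at hd
    rw [hef] at he
    omega
  have hPf : P.Finite := hfin.subset (by rw [hu]; exact Set.subset_union_left)
  have hMf : M.Finite := hfin.subset (by rw [hu]; exact Set.subset_union_right)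
  have h := Set.ncard_union_eq hd hPf hMf
  rw [← hu] at h
  exact h

theorem counts (n : ℕ) :
    (Npos n : ℚ) = F n * (1 + rho n) / 2 ∧ (Nneg n : ℚ) = F n * (1 - rho n) / 2 ∧
      (Nall n : ℚ) = F n := by
  have h1 := total n
  have h2 := signed n
  rw [Nall_eq, Npos_eq, Nneg_eq, F_eq, rho_eq]
  push_cast
  refine ⟨by linear_combination (1 / 2) * h1 + (1 / 2) * h2,
    by linear_combination (1 / 2) * h1 - (1 / 2) * h2, h1⟩

end ODD
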