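import Pool.Agent.ODD.Basic

/-!
# PROJECT ODD (MP_d12cfa_co), module DEGa: dependence on the first variable

A function `f : R → R` has length `n` if it is `U ↦ ∑ k ∈ range n, c k * U ^ k` for some
coefficients; a row crossing `n` columns has length `n + 1` as a function of its parameter, and
length `n` if it starts with spin `0` and all column spins above are `0`.
-/

set_option autoImplicit false

namespace ODD

open Finset

variable {R : Type*} [CommRing R]

/-- `f` is a polynomial with `n` coefficients -/
private def Pol (n : ℕ) (f : R → R) : Prop :=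
  ∃ c : ℕ → R, ∀ U : R, f U = ∑ k ∈ range n, c k * U ^ k

private theorem pol_zero (n : ℕ) : Pol n (fun _ : R => (0 : R)) :=
  ⟨fun _ => 0, fun U => by simp⟩

private theorem pol_const (n : ℕ) (a : R) : Pol (n + 1) (fun _ : R => a) :=
  ⟨fun k => if k = 0 then a else 0, fun U => by
    rw [Finset.sum_eq_single 0]
    · simp
    · intro b _ hb
      show (if b = 0 then a else 0) * U ^ b = 0
      rw [if_neg hb, zero_mul]
    · intro h
      exact absurd (Finset.mem_range.2 (Nat.succ_pos n)) h⟩

private theorem pol_add {n : ℕ} {f g : R → R} (hf : Pol n f) (hg : Pol n g) :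
    Pol n (fun U => f U + g U) := by
  obtain ⟨c, hc⟩ := hf
  obtain ⟨e, he⟩ := hg
  refine ⟨fun k => c k + e k, fun U => ?_⟩
  show f U + g U = _
  rw [hc, he, ← Finset.sum_add_distrib]
  exact Finset.sum_congr rfl fun k _ => by ring

private theorem pol_mul {n : ℕ} {f : R → R} (a : R) (hf : Pol n f) :
    Pol n (fun U => a * f U) := by
  obtain ⟨c, hc⟩ := hf
  refine ⟨fun k => a * c k, fun U => ?_⟩
  show a * f U = _
  rw [hc, Finset.mul_sum]
  exact Finset.sum_congr rfl fun k _ => by ring

private theorem pol_succ {n : ℕ} {f : R → R} (hf : Pol n f) : Pol (n + 1) f := by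
  obtain ⟨c, hc⟩ := hf
  refine ⟨fun k => if k < n then c k else 0, fun U => ?_⟩
  rw [hc, Finset.sum_range_succ]
  show _ = _ + (if n < n then c n else 0) * U ^ n
  rw [if_neg (lt_irrefl n), zero_mul, add_zero]
  refine Finset.sum_congr rfl fun k hk => ?_
  show c k * U ^ k = (if k < n then c k else 0) * U ^ k
  rw [if_pos (Finset.mem_range.1 hk)]

private theorem pol_X {n : ℕ} {f : R → R} (hf : Pol n f) : Pol (n + 1) (fun U => U * f U) := by
  obtain ⟨c, hc⟩ := hf
  refine ⟨fun k => if k = 0 then 0 else c (k - 1), fun U => ?_⟩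
  show U * f U = _
  rw [hc, Finset.sum_range_succ', Finset.mul_sum]
  show _ = _ + (if 0 = 0 then 0 else c (0 - 1)) * U ^ 0
  rw [if_pos rfl, zero_mul, add_zero]
  refine Finset.sum_congr rfl fun k _ => ?_
  show U * (c k * U ^ k) = (if k + 1 = 0 then 0 else c (k + 1 - 1)) * U ^ (k + 1)
  rw [if_neg (Nat.succ_ne_zero k), Nat.add_sub_cancel]
  ring

private theorem pol_lin {n : ℕ} {f : R → R} (p q : R) (hf : Pol n f) :
    Pol (n + 1) (fun U => (p + q * U) * f U) := by
  have h := pol_add (pol_succ (pol_mul p hf)) (pol_mul q (pol_X hf))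
  obtain ⟨c, hc⟩ := h
  refine ⟨c, fun U => ?_⟩
  rw [← hc U]
  ring

private theorem pol_congr {n : ℕ} {f g : R → R} (h : ∀ U, f U = g U) (hf : Pol n f) :
    Pol n g := by
  obtain ⟨c, hc⟩ := hf
  exact ⟨c, fun U => by rw [← h U, hc U]⟩

private theorem vert_lin (w V : R) (c r c' r' : Bool) :
    ∃ p q : R, ∀ U : R, vert w (U * V) c r c' r' = p + q * U := by
  cases c <;> cases r <;> cases c' <;> cases r'
  · exact ⟨-w, V, fun U => by show U * V - w = _; ring⟩
  · exact ⟨0, 0, fun U => by show (0 : R) = _; ring⟩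
  · exact ⟨0, 0, fun U => by show (0 : R) = _; ring⟩
  · exact ⟨1 - w, 0, fun U => by show 1 - w = _; ring⟩
  · exact ⟨0, 0, fun U => by show (0 : R) = _; ring⟩
  · exact ⟨1, -(w * V), fun U => by show 1 - w * (U * V) = _; ring⟩
  · exact ⟨0, 0, fun U => by show (0 : R) = _; ring⟩
  · exact ⟨0, 0, fun U => by show (0 : R) = _; ring⟩
  · exact ⟨0, 0, fun U => by show (0 : R) = _; ring⟩
  · exact ⟨0, 0, fun U => by show (0 : R) = _; ring⟩
  · exact ⟨1, -(w * V), fun U => by show 1 - w * (U * V) = _; ring⟩
  · exact ⟨0, 0, fun U => by show (0 : R) = _; ring⟩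
  · exact ⟨0, (1 - w) * V, fun U => by show (1 - w) * (U * V) = _; ring⟩
  · exact ⟨0, 0, fun U => by show (0 : R) = _; ring⟩
  · exact ⟨0, 0, fun U => by show (0 : R) = _; ring⟩
  · exact ⟨-w, V, fun U => by show U * V - w = _; ring⟩

private theorem row_pol (d : Dat R) (Vs : List R) : ∀ (r : Bool) (cs : List Bool)
    (g : List Bool → R), Pol (Vs.length + 1) (fun U => row d U Vs r cs g) := by
  induction Vs with
  | nil =>
    intro r cs g
    cases cs with
    | nil =>
      cases r
      · exact pol_congr (fun U => (row_nil_false d U [] g).symm) (pol_zero _)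
      · exact pol_const 0 (g [])
    | cons c cs => exact pol_congr (fun U => (row_nil_cons d U r c cs g).symm) (pol_zero _)
  | cons V Vs ih =>
    intro r cs g
    cases cs with
    | nil => exact pol_congr (fun U => (row_cons_nil d U V Vs r g).symm) (pol_zero _)
    | cons c cs =>
      have h : ∀ c' r' : Bool, Pol ((V :: Vs).length + 1) (fun U => vert d.w (U * V) c r c' r' *
          row d U Vs r' cs (fun l => g (c' :: l))) := by
        intro c' r'
        obtain ⟨p, q, hpq⟩ := vert_lin d.w V c r c' r'
        exact pol_congr (fun U => by rw [hpq U]) (pol_lin p q (ih r' cs fun l => g (c' :: l)))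
      refine pol_congr (fun U => ?_)
        (pol_add (pol_add (h true true) (h true false)) (pol_add (h false true) (h false false)))
      rw [row_cons_cons, Fintype.sum_bool, Fintype.sum_bool, Fintype.sum_bool]

private theorem zs_succ (n : ℕ) : zs (n + 1) = false :: zs n := rfl

private theorem row_ff (d : Dat R) (U V : R) (Vs : List R) (n : ℕ) (g : List Bool → R) :
    row d U (V :: Vs) false (zs (n + 1)) g =
      (U * V - d.w) * row d U Vs false (zs n) (fun l => g (false :: l)) +
        (1 - d.w) * row d U Vs true (zs n) (fun l => g (true :: l)) := by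
  rw [zs_succ, row_cons_cons, Fintype.sum_bool, Fintype.sum_bool, Fintype.sum_bool]
  show (1 - d.w) * _ + 0 * _ + (0 * _ + (U * V - d.w) * _) = _
  rw [zero_mul, zero_mul]
  ring

private theorem row_ft (d : Dat R) (U V : R) (Vs : List R) (n : ℕ) (g : List Bool → R) :
    row d U (V :: Vs) true (zs (n + 1)) g =
      (1 - d.w * (U * V)) * row d U Vs true (zs n) (fun l => g (false :: l)) := by
  rw [zs_succ, row_cons_cons, Fintype.sum_bool, Fintype.sum_bool, Fintype.sum_bool]
  show 0 * _ + 0 * _ + ((1 - d.w * (U * V)) * _ + 0 * _) = _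
  rw [zero_mul, zero_mul, zero_mul]
  ring

private theorem row_pol_false (d : Dat R) (Vs : List R) : ∀ g : List Bool → R,
    Pol Vs.length (fun U => row d U Vs false (zs Vs.length) g) := by
  induction Vs with
  | nil =>
    intro g
    exact pol_congr (fun U => (row_nil_false d U [] g).symm) (pol_zero _)
  | cons V Vs ih =>
    intro g
    have h1 := pol_lin (-d.w) V (ih fun l => g (false :: l))
    have h2 := pol_mul (1 - d.w) (row_pol d Vs true (zs Vs.length) fun l => g (true :: l))
    refine pol_congr (fun U => ?_) (pol_add h1 h2)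
    rw [List.length_cons, row_ff]
    ring

theorem row_poly (d : Dat R) (Vs : List R) (r : Bool) (cs : List Bool) (g : List Bool → R) :
    ∃ c : ℕ → R, ∀ U : R, row d U Vs r cs g = ∑ k ∈ range (Vs.length + 1), c k * U ^ k :=
  row_pol d Vs r cs g

theorem row_poly_false (d : Dat R) (Vs : List R) (g : List Bool → R) :
    ∃ c : ℕ → R, ∀ U : R,
      row d U Vs false (zs Vs.length) g = ∑ k ∈ range Vs.length, c k * U ^ k :=
  row_pol_false d Vs g

private theorem Z_cons (d : Dat R) (U : R) (Us : List R) :
    Z d (U :: Us) = (d.al * U + d.be) * row d U Us false (zs Us.length) (Psi d Us) +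
      d.e * row d U Us true (zs Us.length) (Psi d Us) := by
  rw [Z, List.length_cons, zs_succ, psi_cons_cons, Fintype.sum_bool, add_comm]
  rfl

theorem Z_poly (d : Dat R) (Us : List R) :
    ∃ c : ℕ → R, ∀ U : R, Z d (U :: Us) = ∑ k ∈ range (Us.length + 1), c k * U ^ k := by
  have h1 := pol_lin d.be d.al (row_pol_false d Us (Psi d Us))
  have h2 := pol_mul d.e (row_pol d Us true (zs Us.length) (Psi d Us))
  refine pol_congr (fun U => ?_) (pol_add h1 h2)
  rw [Z_cons, add_comm d.be]

theorem Z_poly' (d : Dat R) (hal : d.al = 0) (he : d.e = 0) (Us : List R) :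
    ∃ c : ℕ → R, ∀ U : R, Z d (U :: Us) = ∑ k ∈ range Us.length, c k * U ^ k := by
  refine pol_congr (fun U => ?_) (pol_mul d.be (row_pol_false d Us (Psi d Us)))
  rw [Z_cons, hal, he]
  ring

private theorem row_true (d : Dat R) (U : R) (Vs : List R) : ∀ g : List Bool → R,
    row d U Vs true (zs Vs.length) g =
      (Vs.map (fun V => 1 - d.w * (U * V))).prod * g (zs Vs.length) := by
  induction Vs with
  | nil =>
    intro g
    rw [List.map_nil, List.prod_nil, one_mul]
    rfl
  | cons V Vs ih =>
    intro g
    rw [List.length_cons, row_ft, ih, List.map_cons, List.prod_cons, zs_succ, mul_assoc]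

theorem Z_root (d : Dat R) (U : R) (hU : d.al * U + d.be = 0) (Us : List R) :
    Z d (U :: Us) = d.e * (Us.map (fun V => 1 - d.w * (U * V))).prod * Z d Us := by
  rw [Z_cons, hU, zero_mul, zero_add, row_true, Z]
  ring

end ODD
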