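import Pool.Agent.ODD.Basic

/-!
# PROJECT ODD (MP_d12cfa_co), module DEGb: removing the boundary parameters

Three inductions on the number of lines.
-/

set_option autoImplicit false

namespace ODD

open Finset

variable {R : Type*} [CommRing R]

private theorem row_w' (d d' : Dat R) (h : d.w = d'.w) (U : R) (Vs : List R) :
    ∀ (r : Bool) (cs : List Bool) (g : List Bool → R),
      row d U Vs r cs g = row d' U Vs r cs g := by
  induction Vs with
  | nil =>
    intro r cs g
    cases r <;> cases cs <;> simp
  | cons V Vs ih =>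
    intro r cs g
    cases cs with
    | nil => simp
    | cons c cs =>
      rw [row_cons_cons, row_cons_cons, h]
      refine Finset.sum_congr rfl fun c' _ => Finset.sum_congr rfl fun r' _ => ?_
      rw [ih]

private theorem kap_e_zero (w al be U : R) (c r : Bool) :
    kap (⟨w, al, be, 0, 0⟩ : Dat R) U c r =
      (al * U + be) * kap (⟨w, 0, 1, 0, 0⟩ : Dat R) U c r := by
  cases c <;> cases r <;> simp [kap]

private theorem kap_e_mul (d : Dat R) (he : d.e * d.e = 0) (hf : d.e * d.f = 0) (U : R)
    (c r : Bool) : d.e * kap d U c r = d.e * kap ⟨d.w, d.al, d.be, 0, 0⟩ U c r := by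
  cases c <;> cases r <;> simp [kap, he]
  rw [← mul_assoc, hf, zero_mul]

private theorem vert_map {S : Type*} [CommRing S] (φ : R →+* S) (w Y : R) (c r c' r' : Bool) :
    φ (vert w Y c r c' r') = vert (φ w) (φ Y) c r c' r' := by
  cases c <;> cases r <;> cases c' <;> cases r' <;> simp [vert]

private theorem kap_map {S : Type*} [CommRing S] (φ : R →+* S) (d : Dat R) (U : R)
    (c r : Bool) :
    φ (kap d U c r) = kap ⟨φ d.w, φ d.al, φ d.be, φ d.e, φ d.f⟩ (φ U) c r := by
  cases c <;> cases r <;> simp [kap]

private theorem row_map {S : Type*} [CommRing S] (φ : R →+* S) (d : Dat R) (U : R)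
    (Vs : List R) : ∀ (r : Bool) (cs : List Bool) (g : List Bool → R),
      φ (row d U Vs r cs g) = row ⟨φ d.w, φ d.al, φ d.be, φ d.e, φ d.f⟩ (φ U) (Vs.map φ) r cs
        (fun l => φ (g l)) := by
  induction Vs with
  | nil =>
    intro r cs g
    cases r <;> cases cs <;> simp
  | cons V Vs ih =>
    intro r cs g
    cases cs with
    | nil => simp
    | cons c cs =>
      rw [row_cons_cons, List.map_cons, row_cons_cons, map_sum]
      refine Finset.sum_congr rfl fun c' _ => ?_
      rw [map_sum]
      refine Finset.sum_congr rfl fun r' _ => ?_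
      rw [map_mul, vert_map, map_mul, ih]

theorem psi_e_zero (w al be : R) (Us : List R) (cs : List Bool) :
    Psi ⟨w, al, be, 0, 0⟩ Us cs =
      (Us.map (fun V => al * V + be)).prod * Psi ⟨w, 0, 1, 0, 0⟩ Us cs := by
  induction Us generalizing cs with
  | nil => cases cs <;> simp
  | cons U Us ih =>
    cases cs with
    | nil => simp
    | cons c cs =>
      rw [psi_cons_cons, psi_cons_cons, List.map_cons, List.prod_cons, Finset.mul_sum]
      refine Finset.sum_congr rfl fun r _ => ?_
      rw [kap_e_zero, row_w' (⟨w, al, be, 0, 0⟩ : Dat R) (⟨w, 0, 1, 0, 0⟩ : Dat R) rfl,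
        row_congr _ _ _ _ _ ih, row_mul]
      ring

theorem psi_e_mul (d : Dat R) (he : d.e * d.e = 0) (hf : d.e * d.f = 0) (Us : List R)
    (cs : List Bool) : d.e * Psi d Us cs = d.e * Psi ⟨d.w, d.al, d.be, 0, 0⟩ Us cs := by
  induction Us generalizing cs with
  | nil => cases cs <;> simp
  | cons U Us ih =>
    cases cs with
    | nil => simp
    | cons c cs =>
      rw [psi_cons_cons, psi_cons_cons, Finset.mul_sum, Finset.mul_sum]
      refine Finset.sum_congr rfl fun r _ => ?_
      have h1 : d.e * row d U Us r cs (Psi d Us) =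
          d.e * row ⟨d.w, d.al, d.be, 0, 0⟩ U Us r cs (Psi ⟨d.w, d.al, d.be, 0, 0⟩ Us) := by
        rw [← row_mul, row_congr _ _ _ _ _ ih, row_mul,
          row_w' d ⟨d.w, d.al, d.be, 0, 0⟩ rfl]
      calc d.e * (kap d U c r * row d U Us r cs (Psi d Us))
          = kap d U c r * (d.e * row d U Us r cs (Psi d Us)) := by ring
        _ = (d.e * kap d U c r) *
            row ⟨d.w, d.al, d.be, 0, 0⟩ U Us r cs (Psi ⟨d.w, d.al, d.be, 0, 0⟩ Us) := by
            rw [h1]; ring
        _ = _ := by rw [kap_e_mul d he hf]; ring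

theorem psi_map {S : Type*} [CommRing S] (φ : R →+* S) (d : Dat R) (Us : List R)
    (cs : List Bool) :
    φ (Psi d Us cs) = Psi ⟨φ d.w, φ d.al, φ d.be, φ d.e, φ d.f⟩ (Us.map φ) cs := by
  induction Us generalizing cs with
  | nil => cases cs <;> simp
  | cons U Us ih =>
    cases cs with
    | nil => simp
    | cons c cs =>
      rw [psi_cons_cons, List.map_cons, psi_cons_cons, map_sum]
      refine Finset.sum_congr rfl fun r _ => ?_
      rw [map_mul, kap_map, row_map, row_congr _ _ _ _ _ ih]

end ODD
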