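import Pool.Agent.ODD.Basic

/-!
# PROJECT ODD (MP_d12cfa_co), module DEGc: continuity

`row` and `Psi` depend continuously on the parameters of the lines.
-/

set_option autoImplicit false

namespace ODD

open Finset

variable {R : Type*} [CommRing R]

private theorem vert_continuous [TopologicalSpace R] [IsTopologicalRing R] {T : Type*}
    [TopologicalSpace T] (w : R) {Y : T → R} (hY : Continuous Y) (c r c' r' : Bool) :
    Continuous fun t => vert w (Y t) c r c' r' := by
  cases c <;> cases r <;> cases c' <;> cases r' <;> simp only [vert] <;> fun_prop

private theorem kap_continuous [TopologicalSpace R] [IsTopologicalRing R] {T : Type*}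
    [TopologicalSpace T] (d : Dat R) {U : T → R} (hU : Continuous U) (c r : Bool) :
    Continuous fun t => kap d (U t) c r := by
  cases c <;> cases r <;> simp only [kap] <;> fun_prop

theorem row_continuous [TopologicalSpace R] [IsTopologicalRing R] {T : Type*}
    [TopologicalSpace T] (d : Dat R) (U : T → R) (hU : Continuous U) (fs : List (T → R))
    (hf : ∀ f ∈ fs, Continuous f) (r : Bool) (cs : List Bool) (g : T → List Bool → R)
    (hg : ∀ l, Continuous fun t => g t l) :
    Continuous fun t => row d (U t) (fs.map (fun f => f t)) r cs (g t) := by
  induction fs generalizing r cs g with
  | nil =>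
    cases r
    · simp only [List.map_nil, row]
      exact continuous_const
    · cases cs with
      | nil =>
        simp only [List.map_nil, row]
        exact hg []
      | cons c cs =>
        simp only [List.map_nil, row]
        exact continuous_const
  | cons f fs ih =>
    cases cs with
    | nil =>
      simp only [List.map_cons, row]
      exact continuous_const
    | cons c cs =>
      simp only [List.map_cons, row]
      refine continuous_finsetSum _ fun c' _ => continuous_finsetSum _ fun r' _ => ?_
      refine (vert_continuous d.w (hU.mul (hf f List.mem_cons_self)) c r c' r').mul ?_
      exact ih (fun f' hf' => hf f' (List.mem_cons_of_mem _ hf')) r' cs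
        (fun t l => g t (c' :: l)) (fun l => hg (c' :: l))

theorem psi_continuous [TopologicalSpace R] [IsTopologicalRing R] {T : Type*}
    [TopologicalSpace T] (d : Dat R) (fs : List (T → R)) (hf : ∀ f ∈ fs, Continuous f)
    (cs : List Bool) : Continuous fun t => Psi d (fs.map (fun f => f t)) cs := by
  induction fs generalizing cs with
  | nil =>
    cases cs with
    | nil =>
      simp only [List.map_nil, Psi]
      exact continuous_const
    | cons c cs =>
      simp only [List.map_nil, Psi]
      exact continuous_const
  | cons f fs ih =>
    cases cs with
    | nil =>
      simp only [List.map_cons, Psi]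
      exact continuous_const
    | cons c cs =>
      simp only [List.map_cons, Psi]
      refine continuous_finsetSum _ fun r _ => ?_
      have hfc : Continuous f := hf f List.mem_cons_self
      have hfs : ∀ f' ∈ fs, Continuous f' := fun f' hf' => hf f' (List.mem_cons_of_mem _ hf')
      exact (kap_continuous d hfc c r).mul
        (row_continuous d f hfc fs hfs r cs (fun t => Psi d (fs.map (fun f => f t)))
          (fun l => ih hfs l))

end ODD
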