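import Mathlib

/-!
# PROJECT ODD (MP_d12cfa_co): odd order off-diagonally symmetric alternating sign matrices

Definitions of the six-vertex state sum on a triangle (all weights polynomial, no division).
`w` is a primitive third root of unity (`w^2 + w + 1 = 0`).

A line `j` with parameter `U_j` comes down column `j` (spin `c`, the partial column sum) to the
diagonal, turns, and goes right along row `j` (spin `r`, the partial row sum).
A vertex (row `U`, column `V`) sees `Y = U * V`; an entry is `c' - c = r' - r`.
-/

set_option autoImplicit false

namespace ODD

/-- six-vertex weights, arguments `c r c' r'` (column spin above, row spin left, column spin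
below, row spin right); the matrix entry is `c' - c = r' - r`. -/
def vert {R : Type*} [CommRing R] (w Y : R) : Bool → Bool → Bool → Bool → R
  | false, false, false, false => Y - w
  | true, true, true, true => Y - w
  | false, true, false, true => 1 - w * Y
  | true, false, true, false => 1 - w * Y
  | false, false, true, true => 1 - w
  | true, true, false, false => (1 - w) * Y
  | _, _, _, _ => 0

/-- data of the model: the root of unity and the boundary parameters -/
structure Dat (R : Type*) where
  w : R
  al : R
  be : R
  e : R
  f : R

/-- the relations which make the reflection equation true -/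
structure Dat.Good {R : Type*} [CommRing R] (d : Dat R) : Prop where
  hw : d.w ^ 2 + d.w + 1 = 0
  h1 : d.al * d.f = d.w * d.be * d.e
  h2 : d.be * d.f = d.w ^ 2 * d.al * d.e
  h3 : d.f * d.f = d.e * d.e

/-- weights of the diagonal vertices, column spin `c` above, row spin `r` to the right;
the diagonal entry is `r - c` -/
def kap {R : Type*} [CommRing R] (d : Dat R) (U : R) : Bool → Bool → R
  | false, false => d.al * U + d.be
  | true, true => d.al * U + d.be
  | false, true => d.e
  | true, false => d.f * U

/-- a row with parameter `U` crosses columns with parameters `Vs`; `r` is its spin on the left,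
the list of Booleans contains the column spins above; the spin on the right must be `true`;
`g` is evaluated at the column spins below -/
def row {R : Type*} [CommRing R] (d : Dat R) (U : R) :
    List R → Bool → List Bool → (List Bool → R) → R
  | [], true, [], g => g []
  | V :: Vs, r, c :: cs, g =>
      ∑ c' : Bool, ∑ r' : Bool, vert d.w (U * V) c r c' r' *
        row d U Vs r' cs (fun l => g (c' :: l))
  | _, _, _, _ => 0

/-- partition function of the triangle with parameters `Us` and column spins on the top -/
def Psi {R : Type*} [CommRing R] (d : Dat R) : List R → List Bool → R
  | [], [] => 1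
  | U :: Us, c :: cs => ∑ r : Bool, kap d U c r * row d U Us r cs (Psi d Us)
  | _, _ => 0

/-- list of zeros -/
def zs (n : ℕ) : List Bool := List.replicate n false

/-- the partition function with top spins 0 -/
def Z {R : Type*} [CommRing R] (d : Dat R) (Us : List R) : R := Psi d Us (zs Us.length)

/-- the intertwiner, arguments `(a,b) → (c,d)` -/
def rm {R : Type*} [CommRing R] (w U V : R) : Bool → Bool → Bool → Bool → R
  | false, false, false, false => U - w * V
  | true, true, true, true => U - w * V
  | false, true, false, true => (1 - w) * U
  | true, false, true, false => (1 - w) * V
  | false, true, true, false => w ^ 2 * (V - U)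
  | true, false, false, true => w ^ 2 * (V - U)
  | _, _, _, _ => 0

/-- the intertwiner acting on the spins number `k` and `k+1` of the argument of `g` -/
def act {R : Type*} [CommRing R] (w U V : R) : ℕ → (List Bool → R) → List Bool → R
  | 0, g, x :: y :: l => ∑ a : Bool, ∑ b : Bool, rm w U V x y a b * g (a :: b :: l)
  | k + 1, g, x :: l => act w U V k (fun l' => g (x :: l')) l
  | _, _, _ => 0

/-- two rows `U` (top) and `V` (bottom) crossing the columns `Ws` -/
def two {R : Type*} [CommRing R] (d : Dat R) (U V : R) (Ws : List R) (r s : Bool)
    (cs : List Bool) (g : List Bool → R) : R :=
  row d U Ws r cs (fun l => row d V Ws s l g)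

/-- the corner: lines `U` (first) and `V` (second), column spins `c1 c2` above, row spins
`r1 r2` to the right -/
def corner {R : Type*} [CommRing R] (d : Dat R) (U V : R) (c1 c2 r1 r2 : Bool) : R :=
  ∑ r : Bool, ∑ c : Bool, kap d U c1 r * vert d.w (U * V) c2 r c r1 * kap d V c r2

end ODD
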