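import Mathlib

/-!
The residue classes of the exponents of a polynomial modulo 3.
-/

set_option autoImplicit false

namespace ODD

open Polynomial

/-- the polynomial with coefficients `G_(3 k + r)` -/
noncomputable def sec (r : ℕ) (G : ℂ[X]) : ℂ[X] :=
  ∑ k ∈ Finset.range (G.natDegree + 1), monomial k (G.coeff (3 * k + r))

theorem sec_coeff (r : ℕ) (G : ℂ[X]) (k : ℕ) : (sec r G).coeff k = G.coeff (3 * k + r) := by
  unfold sec
  rw [finset_sum_coeff]
  simp only [coeff_monomial]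
  rw [Finset.sum_ite_eq']
  split_ifs with h
  · rfl
  · rw [coeff_eq_zero_of_natDegree_lt]
    have h1 : ¬ k < G.natDegree + 1 := fun h2 => h (Finset.mem_range.2 h2)
    omega


private theorem xc (A : ℂ[X]) (j t q : ℕ) (hj : j < 3) (ht : t < 3) :
    (X ^ j * expand ℂ 3 A).coeff (3 * q + t) = if j = t then A.coeff q else 0 := by
  rw [coeff_X_pow_mul', coeff_expand (by norm_num)]
  by_cases h : j = t
  · subst h
    rw [if_pos (by omega), if_pos (by omega), if_pos rfl]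
    have h1 : (3 * q + j - j) / 3 = q := by omega
    rw [h1]
  · rw [if_neg h]
    split_ifs with h1 h2
    · exfalso
      omega
    · rfl
    · rfl

private theorem rhs_coeff (A B C : ℂ[X]) (q t : ℕ) (ht : t < 3) :
    (expand ℂ 3 A + X * expand ℂ 3 B + X ^ 2 * expand ℂ 3 C).coeff (3 * q + t) =
      (if 0 = t then A.coeff q else 0) + (if 1 = t then B.coeff q else 0) +
        (if 2 = t then C.coeff q else 0) := by
  rw [coeff_add, coeff_add, ← xc A 0 t q (by norm_num) ht, ← xc B 1 t q (by norm_num) ht,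
    ← xc C 2 t q (by norm_num) ht, pow_zero, one_mul, pow_one]

theorem sec_decomp (G : ℂ[X]) :
    G = expand ℂ 3 (sec 0 G) + X * expand ℂ 3 (sec 1 G) + X ^ 2 * expand ℂ 3 (sec 2 G) := by
  ext n
  obtain ⟨q, t, ht, rfl⟩ : ∃ q t, t < 3 ∧ n = 3 * q + t :=
    ⟨n / 3, n % 3, Nat.mod_lt _ (by norm_num), by omega⟩
  rw [rhs_coeff _ _ _ q t ht, sec_coeff, sec_coeff, sec_coeff]
  interval_cases t
  · simp
  · simp
  · simp


theorem sec_unique (G A B C : ℂ[X])
    (h : G = expand ℂ 3 A + X * expand ℂ 3 B + X ^ 2 * expand ℂ 3 C) :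
    sec 0 G = A ∧ sec 1 G = B ∧ sec 2 G = C := by
  refine ⟨?_, ?_, ?_⟩
  · ext k
    rw [sec_coeff, h, rhs_coeff _ _ _ k 0 (by norm_num)]
    simp
  · ext k
    rw [sec_coeff, h, rhs_coeff _ _ _ k 1 (by norm_num)]
    simp
  · ext k
    rw [sec_coeff, h, rhs_coeff _ _ _ k 2 (by norm_num)]
    simp


theorem sec_eval (w : ℂ) (hw : w ^ 2 + w + 1 = 0) (G : ℂ[X]) (U : ℂ) :
    G.eval U + w * G.eval (w * U) + w ^ 2 * G.eval (w ^ 2 * U) =
      3 * U ^ 2 * (sec 2 G).eval (U ^ 3) := by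
  have hG : ∀ z : ℂ, G.eval z = (sec 0 G).eval (z ^ 3) + z * (sec 1 G).eval (z ^ 3) +
      z ^ 2 * (sec 2 G).eval (z ^ 3) := by
    intro z
    conv_lhs => rw [sec_decomp G]
    rw [eval_add, eval_add, eval_mul, eval_mul, eval_pow, eval_X, expand_eval, expand_eval,
      expand_eval]
  have hw3 : w ^ 3 = 1 := by linear_combination (w - 1) * hw
  have h1 : (w * U) ^ 3 = U ^ 3 := by rw [mul_pow, hw3, one_mul]
  have h2 : (w ^ 2 * U) ^ 3 = U ^ 3 := by
    rw [mul_pow, ← pow_mul, mul_comm 2 3, pow_mul, hw3, one_pow, one_mul]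
  rw [hG U, hG (w * U), hG (w ^ 2 * U), h1, h2]
  linear_combination ((sec 0 G).eval (U ^ 3) + U * (sec 1 G).eval (U ^ 3) * (w ^ 2 - w + 1) +
    U ^ 2 * (sec 2 G).eval (U ^ 3) * ((w - 1) + (w - 1) * (w ^ 3 + 1))) * hw


theorem sec_degree (r n : ℕ) (G : ℂ[X]) (h : ∀ j, n ≤ j → G.coeff (3 * j + r) = 0) :
    (sec r G).degree < (n : WithBot ℕ) := by
  rw [degree_lt_iff_coeff_zero]
  intro m hm
  rw [sec_coeff]
  exact h m hm


theorem expand_dvd_one (p q : ℂ[X]) (hq : q.eval 1 ≠ 0) (k : ℕ)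
    (h : (X - 1) ^ k ∣ q * expand ℂ 3 p) : (X - 1) ^ k ∣ p := by
  induction k generalizing p q with
  | zero =>
    rw [pow_zero]
    exact one_dvd _
  | succ k ih =>
    have hX : (X - 1 : ℂ[X]) = X - C 1 := by rw [C_1]
    have h1 : (X - 1 : ℂ[X]) ∣ q * expand ℂ 3 p :=
      (dvd_pow_self _ (Nat.succ_ne_zero k)).trans h
    have h2 : eval 1 (q * expand ℂ 3 p) = 0 := by
      rw [hX, dvd_iff_isRoot] at h1
      exact h1
    rw [eval_mul, expand_eval, one_pow] at h2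
    have h3 : eval 1 p = 0 := (mul_eq_zero.1 h2).resolve_left hq
    have h4 : (X - 1 : ℂ[X]) ∣ p := by
      rw [hX, dvd_iff_isRoot]
      exact h3
    obtain ⟨p', rfl⟩ := h4
    have h5 : q * expand ℂ 3 ((X - 1) * p') =
        (X - 1) * ((q * (X ^ 2 + X + 1)) * expand ℂ 3 p') := by
      rw [map_mul, map_sub, expand_X, map_one]
      ring
    rw [h5, pow_succ', mul_dvd_mul_iff_left (by rw [hX]; exact X_sub_C_ne_zero 1)] at h
    rw [pow_succ']
    refine mul_dvd_mul_left _ (ih p' (q * (X ^ 2 + X + 1)) ?_ h)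
    rw [eval_mul]
    refine mul_ne_zero hq ?_
    rw [eval_add, eval_add, eval_pow, eval_X, eval_one]
    norm_num


end ODD
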