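import Pool.Agent.ODD.MOM
import Pool.Agent.ODD.SEC

/-!
# PROJECT ODD (MP_d12cfa_co), module LAG: the even function is explicit

`(X - 1)^(4m-1) H = expand p + X expand pt` with `deg p, pt < 2 m` determines `p` and `pt` up to a
scalar. (`mom` and the lemmas of SEC may still be `sorry`.)

PLAN. Let `G = (X - 1)^(4m-1) * H`; its exponents are in
`Ω = {3 l, 3 l + 1 : l < 2 m}` (`4 m` numbers), `G_(3l) = p_l`, `G_(3l+1) = pt_l`.
* `lag_coeff`: for `e0 ∈ Ω` apply `mom` with `P = prod_{e ∈ Ω.erase e0} (X - C e)`, monic of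
  degree `4 m - 1`: `G_(e0) * prod_{e ∈ Ω.erase e0} (e0 - e) = (4m-1)! * H(1)`.
* `lag_ratio`: for `e0 = 3 l` the product is
  `prod_{l' < 2m, l' ≠ l} 3 (l - l') * prod_{l' < 2m} (3 (l - l') - 1)`. From `l` to `l + 1`
  (`l + 1 < 2 m`): `prod_{l' ≠ l}(l - l') = (-1)^(2m-1-l) l! (2m-1-l)!` and
  `prod_{l'} (3 (l - l') - 1)` telescopes: ratio `(3 l + 2) / (3 (l - (2m-1)) - 1)`. Hence
  `p_(l+1) (l + 1) (3 l + 2) = p_l (l + 1 - 2 m) (3 l + 2 - 6 m)`; so `p_l = p_0 gam m l`.
  An induction-friendly way is to prove the polynomial identity for the two products directly: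
  with `F(l) = prod_{l' ≠ l} 3 (l - l') * prod_{l'} (3 (l - l') - 1)` show
  `F(l) (l+1)(3l+2) = F(l+1) (l + 1 - 2m)(3l + 2 - 6m)` from
  `Finset.prod_range_succ`, `Finset.prod_range_succ'` (shift of the index by one), or use
  factorials for the first product and `Finset.prod_range_succ` / reindexing `l' ↦ 2m - 1 - l'`
  for the second.
* symmetry: `pt_(2m-1-l) = - p_l`: the reflection `e ↦ 6 m - 2 - e` maps `Ω` to itself and
  `3 l` to `3 (2m-1-l) + 1`; the product of the `4 m - 1` (odd number) differences changes sign.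
* `lag_zero`: `e0 = 0`: `p_0 * (- (3^(2m-1) (2m-1)! prod_{l<2m} (3 l + 1))) = (4m-1)! H(1)`.
Main theorem `lag` collects this.
-/

set_option autoImplicit false

namespace ODD

open Polynomial

/-- normalised coefficients -/
def gam (m l : ℕ) : ℚ :=
  ∏ i ∈ Finset.range l,
    (((i : ℚ) + 1 - 2 * m) * (3 * i + 2 - 6 * m)) / ((i + 1) * (3 * i + 2))

/-- normalised class 0 part of the even function -/
noncomputable def Pg (m : ℕ) : ℂ[X] :=
  ∑ l ∈ Finset.range (2 * m), monomial l ((gam m l : ℚ) : ℂ)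

/-- normalised class 1 part of the even function -/
noncomputable def Ptg (m : ℕ) : ℂ[X] :=
  -∑ l ∈ Finset.range (2 * m), monomial (2 * m - 1 - l) ((gam m l : ℚ) : ℂ)

private theorem sum_three (n : ℕ) (g : ℕ → ℂ) :
    ∑ e ∈ Finset.range (3 * n), g e =
      ∑ l ∈ Finset.range n, (g (3 * l) + g (3 * l + 1) + g (3 * l + 2)) := by
  induction n with
  | zero => simp
  | succ n ih =>
    rw [show 3 * (n + 1) = 3 * n + 1 + 1 + 1 by ring, Finset.sum_range_succ,
      Finset.sum_range_succ, Finset.sum_range_succ, ih, Finset.sum_range_succ]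
    ring

/-- the product over all indices except one -/
private noncomputable def pra (n : ℕ) (l : ℕ) : ℂ :=
  ∏ j ∈ (Finset.range n).erase l, ((l : ℂ) - j)

private noncomputable def prb (n : ℕ) (l : ℕ) : ℂ :=
  ∏ j ∈ Finset.range n, (3 * ((l : ℂ) - j) - 1)

private theorem prod_erase_split (n l : ℕ) (hl : l < n) (g : ℕ → ℂ) :
    ∏ j ∈ (Finset.range n).erase l, g j =
      (∏ j ∈ Finset.range l, g j) * ∏ j ∈ Finset.range (n - 1 - l), g (l + 1 + j) := by
  have h1 : ∏ j ∈ Finset.range n, (Function.update g l 1) j =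
      ∏ j ∈ (Finset.range n).erase l, g j := by
    rw [← Finset.mul_prod_erase (Finset.range n) _ (Finset.mem_range.2 hl),
      Function.update_self, one_mul]
    refine Finset.prod_congr rfl fun j hj => ?_
    rw [Function.update_of_ne (Finset.ne_of_mem_erase hj)]
  rw [← h1]
  have h2 : n = l + (n - 1 - l + 1) := by omega
  conv_lhs => rw [h2]
  rw [Finset.prod_range_add, Finset.prod_range_succ']
  congr 1
  · refine Finset.prod_congr rfl fun j hj => ?_
    rw [Function.update_of_ne (by have := Finset.mem_range.1 hj; omega)]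
  · rw [show l + 0 = l by omega, Function.update_self, mul_one]
    refine Finset.prod_congr rfl fun j hj => ?_
    rw [Function.update_of_ne (by omega)]
    congr 1
    omega

private theorem prod_fac (l : ℕ) : ∏ j ∈ Finset.range l, ((l : ℂ) - j) = (l.factorial : ℂ) := by
  rw [← Finset.prod_range_reflect, ← Finset.prod_range_add_one_eq_factorial]
  push_cast
  refine Finset.prod_congr rfl fun j hj => ?_
  have h1 := Finset.mem_range.1 hj
  have h2 : ((l - 1 - j : ℕ) : ℂ) = (l : ℂ) - 1 - j := by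
    rw [Nat.sub_sub, Nat.cast_sub (by omega)]
    push_cast
    ring
  rw [h2]
  ring

private theorem pra_eq (n l : ℕ) (hl : l < n) :
    pra n l = (l.factorial : ℂ) * ((-1) ^ (n - 1 - l) * ((n - 1 - l).factorial : ℂ)) := by
  unfold pra
  rw [prod_erase_split n l hl, prod_fac]
  congr 1
  rw [← Finset.prod_range_add_one_eq_factorial]
  push_cast
  rw [← Finset.card_range (n - 1 - l), ← Finset.prod_const, Finset.card_range,
    ← Finset.prod_mul_distrib]
  refine Finset.prod_congr rfl fun j hj => ?_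
  ring

private theorem pra_ne (n l : ℕ) (hl : l < n) : pra n l ≠ 0 := by
  rw [pra_eq n l hl]
  refine mul_ne_zero (Nat.cast_ne_zero.2 (Nat.factorial_ne_zero _)) (mul_ne_zero ?_
    (Nat.cast_ne_zero.2 (Nat.factorial_ne_zero _)))
  exact pow_ne_zero _ (by norm_num)

private theorem prb_ne (n l : ℕ) : prb n l ≠ 0 := by
  unfold prb
  rw [Finset.prod_ne_zero_iff]
  intro j _
  have h1 : (3 * ((l : ℤ) - j) - 1 : ℤ) ≠ 0 := by omega
  have h2 : ((3 * ((l : ℤ) - j) - 1 : ℤ) : ℂ) ≠ 0 := Int.cast_ne_zero.2 h1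
  push_cast at h2
  exact h2

private theorem pra_ratio (n l : ℕ) (hl : l + 1 < n) :
    pra n l * (l + 1) = pra n (l + 1) * ((l : ℂ) + 1 - n) := by
  rw [pra_eq n l (by omega), pra_eq n (l + 1) hl]
  obtain ⟨k, hk⟩ : ∃ k, n = l + 2 + k := ⟨n - (l + 2), by omega⟩
  subst hk
  rw [show l + 2 + k - 1 - l = k + 1 by omega, show l + 2 + k - 1 - (l + 1) = k by omega,
    Nat.factorial_succ, Nat.factorial_succ, pow_succ]
  push_cast
  ring

private theorem prb_ratio (n l : ℕ) :
    prb n l * (3 * l + 2) = prb n (l + 1) * (3 * (l : ℂ) + 2 - 3 * n) := by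
  have h1 := Finset.prod_range_succ (fun k : ℕ => (3 * (((l + 1 : ℕ) : ℂ) - (k : ℕ)) - 1)) n
  have h2 := Finset.prod_range_succ' (fun k : ℕ => (3 * (((l + 1 : ℕ) : ℂ) - (k : ℕ)) - 1)) n
  rw [h1] at h2
  have h3 : ∏ k ∈ Finset.range n, (3 * (((l + 1 : ℕ) : ℂ) - ((k + 1 : ℕ) : ℂ)) - 1) = prb n l := by
    unfold prb
    refine Finset.prod_congr rfl fun j _ => ?_
    push_cast
    ring
  rw [h3] at h2
  have h4 : (∏ k ∈ Finset.range n, (3 * (((l + 1 : ℕ) : ℂ) - (k : ℕ)) - 1)) = prb n (l + 1) := rfl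
  rw [h4] at h2
  push_cast at h2
  linear_combination -h2

private theorem key (m : ℕ) (hm : 1 ≤ m) (H p pt : ℂ[X])
    (h : (X - 1) ^ (4 * m - 1) * H = expand ℂ 3 p + X * expand ℂ 3 pt)
    (hp : p.degree < ((2 * m : ℕ) : WithBot ℕ)) (hpt : pt.degree < ((2 * m : ℕ) : WithBot ℕ))
    (P : ℂ[X]) (hP : P.natDegree ≤ 4 * m - 1) :
    ∑ l ∈ Finset.range (2 * m), (p.coeff l * P.eval (3 * (l : ℂ)) +
      pt.coeff l * P.eval (3 * (l : ℂ) + 1)) =
      P.coeff (4 * m - 1) * (4 * m - 1).factorial * H.eval 1 := by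
  obtain ⟨h0, h1, h2⟩ := sec_unique ((X - 1) ^ (4 * m - 1) * H) p pt 0 (by rw [h]; simp)
  have g0 : ∀ l, ((X - 1) ^ (4 * m - 1) * H).coeff (3 * l) = p.coeff l := by
    intro l
    have := sec_coeff 0 ((X - 1) ^ (4 * m - 1) * H) l
    rw [h0] at this
    exact this.symm
  have g1 : ∀ l, ((X - 1) ^ (4 * m - 1) * H).coeff (3 * l + 1) = pt.coeff l := by
    intro l
    have := sec_coeff 1 ((X - 1) ^ (4 * m - 1) * H) l
    rw [h1] at this
    exact this.symm
  have g2 : ∀ l, ((X - 1) ^ (4 * m - 1) * H).coeff (3 * l + 2) = 0 := by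
    intro l
    have := sec_coeff 2 ((X - 1) ^ (4 * m - 1) * H) l
    rw [h2, coeff_zero] at this
    exact this.symm
  rw [degree_lt_iff_coeff_zero] at hp hpt
  have hdeg : ((X - 1) ^ (4 * m - 1) * H).natDegree < 3 * (2 * m) := by
    have h3 : ((X - 1) ^ (4 * m - 1) * H).natDegree ≤ 3 * (2 * m) - 1 := by
      rw [natDegree_le_iff_coeff_eq_zero]
      intro N hN
      obtain ⟨q, t, ht, rfl⟩ : ∃ q t, t < 3 ∧ N = 3 * q + t :=
        ⟨N / 3, N % 3, Nat.mod_lt _ (by norm_num), by omega⟩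
      interval_cases t
      · rw [add_zero, g0]
        exact hp q (by omega)
      · rw [g1]
        exact hpt q (by omega)
      · exact g2 q
    omega
  rw [← mom (4 * m - 1) _ H rfl P hP (3 * (2 * m)) hdeg, sum_three]
  refine Finset.sum_congr rfl fun l _ => ?_
  rw [g0, g1, g2]
  push_cast
  ring

private theorem monic_aux (s t : Finset ℕ) (u v : ℕ → ℂ) :
    ((∏ j ∈ s, (X - C (u j))) * ∏ j ∈ t, (X - C (v j)) : ℂ[X]).Monic ∧
    ((∏ j ∈ s, (X - C (u j))) * ∏ j ∈ t, (X - C (v j)) : ℂ[X]).natDegree = s.card + t.card := by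
  have h1 : (∏ j ∈ s, (X - C (u j)) : ℂ[X]).Monic :=
    monic_prod_of_monic _ _ fun j _ => monic_X_sub_C _
  have h2 : (∏ j ∈ t, (X - C (v j)) : ℂ[X]).Monic :=
    monic_prod_of_monic _ _ fun j _ => monic_X_sub_C _
  refine ⟨h1.mul h2, ?_⟩
  rw [h1.natDegree_mul h2, natDegree_prod_of_monic _ _ fun j _ => monic_X_sub_C _,
    natDegree_prod_of_monic _ _ fun j _ => monic_X_sub_C _]
  simp

private theorem coef0 (m : ℕ) (hm : 1 ≤ m) (H p pt : ℂ[X])
    (h : (X - 1) ^ (4 * m - 1) * H = expand ℂ 3 p + X * expand ℂ 3 pt)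
    (hp : p.degree < ((2 * m : ℕ) : WithBot ℕ)) (hpt : pt.degree < ((2 * m : ℕ) : WithBot ℕ))
    (l : ℕ) (hl : l < 2 * m) :
    p.coeff l * (3 ^ (2 * m - 1) * pra (2 * m) l * prb (2 * m) l) =
      (4 * m - 1).factorial * H.eval 1 := by
  obtain ⟨hM, hD⟩ := monic_aux ((Finset.range (2 * m)).erase l) (Finset.range (2 * m))
    (fun j => 3 * (j : ℂ)) (fun j => 3 * (j : ℂ) + 1)
  have hc : ((Finset.range (2 * m)).erase l).card + (Finset.range (2 * m)).card = 4 * m - 1 := by
    rw [Finset.card_erase_of_mem (Finset.mem_range.2 hl), Finset.card_range]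
    omega
  rw [hc] at hD
  have hk := key m hm H p pt h hp hpt _ hD.le
  have hcoef := hM.coeff_natDegree
  rw [hD] at hcoef
  rw [hcoef, one_mul] at hk
  rw [← hk, Finset.sum_eq_single_of_mem l (Finset.mem_range.2 hl)]
  · rw [eval_mul, eval_mul, eval_prod, eval_prod, eval_prod, eval_prod]
    have e1 : ∏ j ∈ Finset.range (2 * m), eval (3 * (l : ℂ) + 1) (X - C (3 * (j : ℂ) + 1)) = 0 := by
      refine Finset.prod_eq_zero (Finset.mem_range.2 hl) ?_
      rw [eval_sub, eval_X, eval_C, sub_self]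
    rw [e1, mul_zero, mul_zero, add_zero]
    congr 1
    congr 1
    · unfold pra
      have hc2 : ((Finset.range (2 * m)).erase l).card = 2 * m - 1 := by
        rw [Finset.card_erase_of_mem (Finset.mem_range.2 hl), Finset.card_range]
      rw [← hc2, ← Finset.prod_const, ← Finset.prod_mul_distrib]
      refine Finset.prod_congr rfl fun j _ => ?_
      rw [eval_sub, eval_X, eval_C]
      ring
    · unfold prb
      refine Finset.prod_congr rfl fun j _ => ?_
      rw [eval_sub, eval_X, eval_C]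
      ring
  · intro j hj hjl
    have e1 : eval (3 * (j : ℂ)) ((∏ i ∈ (Finset.range (2 * m)).erase l, (X - C (3 * (i : ℂ)))) *
        ∏ i ∈ Finset.range (2 * m), (X - C (3 * (i : ℂ) + 1))) = 0 := by
      rw [eval_mul, eval_prod, eval_prod,
        Finset.prod_eq_zero (Finset.mem_erase.2 ⟨hjl, hj⟩) (by
          rw [eval_sub, eval_X, eval_C, sub_self]), zero_mul]
    have e2 : eval (3 * (j : ℂ) + 1) ((∏ i ∈ (Finset.range (2 * m)).erase l,
        (X - C (3 * (i : ℂ)))) * ∏ i ∈ Finset.range (2 * m), (X - C (3 * (i : ℂ) + 1))) = 0 := by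
      rw [eval_mul, eval_prod, eval_prod]
      have e3 : ∏ i ∈ Finset.range (2 * m), eval (3 * (j : ℂ) + 1) (X - C (3 * (i : ℂ) + 1)) = 0 := by
        refine Finset.prod_eq_zero hj ?_
        rw [eval_sub, eval_X, eval_C, sub_self]
      rw [e3, mul_zero]
    rw [e1, e2, mul_zero, mul_zero, add_zero]

private theorem coef1 (m : ℕ) (hm : 1 ≤ m) (H p pt : ℂ[X])
    (h : (X - 1) ^ (4 * m - 1) * H = expand ℂ 3 p + X * expand ℂ 3 pt)
    (hp : p.degree < ((2 * m : ℕ) : WithBot ℕ)) (hpt : pt.degree < ((2 * m : ℕ) : WithBot ℕ))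
    (l : ℕ) (hl : l < 2 * m) :
    pt.coeff (2 * m - 1 - l) * (3 ^ (2 * m - 1) * pra (2 * m) l * prb (2 * m) l) =
      -((4 * m - 1).factorial * H.eval 1) := by
  have hl' : 2 * m - 1 - l < 2 * m := by omega
  obtain ⟨hM, hD⟩ := monic_aux (Finset.range (2 * m)) ((Finset.range (2 * m)).erase (2 * m - 1 - l))
    (fun j => 3 * (j : ℂ)) (fun j => 3 * (j : ℂ) + 1)
  have hc2 : ((Finset.range (2 * m)).erase (2 * m - 1 - l)).card = 2 * m - 1 := by
    rw [Finset.card_erase_of_mem (Finset.mem_range.2 hl'), Finset.card_range]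
  have hc : (Finset.range (2 * m)).card + ((Finset.range (2 * m)).erase (2 * m - 1 - l)).card =
      4 * m - 1 := by
    rw [hc2, Finset.card_range]
    omega
  rw [hc] at hD
  have hk := key m hm H p pt h hp hpt _ hD.le
  have hcoef := hM.coeff_natDegree
  rw [hD] at hcoef
  rw [hcoef, one_mul] at hk
  rw [← hk, Finset.sum_eq_single_of_mem (2 * m - 1 - l) (Finset.mem_range.2 hl')]
  · rw [eval_mul, eval_mul, eval_prod, eval_prod, eval_prod, eval_prod]
    have e1 : ∏ j ∈ Finset.range (2 * m), eval (3 * ((2 * m - 1 - l : ℕ) : ℂ))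
        (X - C (3 * (j : ℂ))) = 0 := by
      refine Finset.prod_eq_zero (Finset.mem_range.2 hl') ?_
      rw [eval_sub, eval_X, eval_C, sub_self]
    rw [e1, zero_mul, mul_zero, zero_add, neg_mul_eq_mul_neg]
    congr 1
    have hcast : ((2 * m - 1 - l : ℕ) : ℂ) = 2 * m - 1 - l := by
      rw [Nat.sub_sub, Nat.cast_sub (by omega)]
      push_cast
      ring
    have e2 : ∏ j ∈ Finset.range (2 * m), eval (3 * ((2 * m - 1 - l : ℕ) : ℂ) + 1)
        (X - C (3 * (j : ℂ))) = prb (2 * m) l := by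
      unfold prb
      rw [← Finset.prod_range_reflect]
      have h5 : ((-1 : ℂ)) ^ (2 * m) = 1 := by rw [pow_mul]; norm_num
      have h6 : ∏ j ∈ Finset.range (2 * m), (3 * ((l : ℂ) - j) - 1) =
          ∏ j ∈ Finset.range (2 * m), ((-1) * (3 * ((l : ℂ) - j) - 1)) := by
        rw [Finset.prod_mul_distrib, Finset.prod_const, Finset.card_range, h5, one_mul]
      rw [h6]
      refine Finset.prod_congr rfl fun j hj => ?_
      have h7 := Finset.mem_range.1 hj
      have h8 : ((2 * m - 1 - j : ℕ) : ℂ) = 2 * m - 1 - j := by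
        rw [Nat.sub_sub, Nat.cast_sub (by omega)]
        push_cast
        ring
      rw [eval_sub, eval_X, eval_C, hcast, h8]
      ring
    have e3 : ∏ j ∈ (Finset.range (2 * m)).erase (2 * m - 1 - l),
        eval (3 * ((2 * m - 1 - l : ℕ) : ℂ) + 1) (X - C (3 * (j : ℂ) + 1)) =
        -(3 ^ (2 * m - 1) * pra (2 * m) l) := by
      have h4 : ∏ j ∈ (Finset.range (2 * m)).erase (2 * m - 1 - l),
          eval (3 * ((2 * m - 1 - l : ℕ) : ℂ) + 1) (X - C (3 * (j : ℂ) + 1)) =
          3 ^ (2 * m - 1) * pra (2 * m) (2 * m - 1 - l) := by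
        have h3p : (3 : ℂ) ^ (2 * m - 1) =
            ∏ _j ∈ (Finset.range (2 * m)).erase (2 * m - 1 - l), (3 : ℂ) := by
          rw [Finset.prod_const, hc2]
        unfold pra
        rw [h3p, ← Finset.prod_mul_distrib]
        refine Finset.prod_congr rfl fun j _ => ?_
        rw [eval_sub, eval_X, eval_C]
        ring
      rw [h4, pra_eq _ _ hl', pra_eq _ _ hl]
      rw [show 2 * m - 1 - (2 * m - 1 - l) = l by omega]
      have h9 : ((-1 : ℂ)) ^ l * (-1) ^ (2 * m - 1 - l) = -1 := by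
        rw [← pow_add, show l + (2 * m - 1 - l) = 2 * (m - 1) + 1 by omega, pow_succ, pow_mul]
        norm_num
      have h10 : ((-1 : ℂ)) ^ (2 * m - 1 - l) = - (-1) ^ l := by
        have h11 : ((-1 : ℂ)) ^ l * (-1) ^ l = 1 := by
          rw [← mul_pow]
          norm_num
        linear_combination (-1 : ℂ) ^ l * h9 - (-1) ^ (2 * m - 1 - l) * h11
      rw [h10]
      ring
    rw [e2, e3]
    ring
  · intro j hj hjl
    have e1 : eval (3 * (j : ℂ)) ((∏ i ∈ Finset.range (2 * m), (X - C (3 * (i : ℂ)))) *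
        ∏ i ∈ (Finset.range (2 * m)).erase (2 * m - 1 - l), (X - C (3 * (i : ℂ) + 1))) = 0 := by
      rw [eval_mul, eval_prod, eval_prod,
        Finset.prod_eq_zero hj (by rw [eval_sub, eval_X, eval_C, sub_self]), zero_mul]
    have e2 : eval (3 * (j : ℂ) + 1) ((∏ i ∈ Finset.range (2 * m), (X - C (3 * (i : ℂ)))) *
        ∏ i ∈ (Finset.range (2 * m)).erase (2 * m - 1 - l), (X - C (3 * (i : ℂ) + 1))) = 0 := by
      rw [eval_mul, eval_prod, eval_prod]
      have e3 : ∏ i ∈ (Finset.range (2 * m)).erase (2 * m - 1 - l),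
          eval (3 * (j : ℂ) + 1) (X - C (3 * (i : ℂ) + 1)) = 0 := by
        refine Finset.prod_eq_zero (Finset.mem_erase.2 ⟨hjl, hj⟩) ?_
        rw [eval_sub, eval_X, eval_C, sub_self]
      rw [e3, mul_zero]
    rw [e1, e2, mul_zero, mul_zero, add_zero]

private theorem gam_cast_succ (m l : ℕ) : ((gam m (l + 1) : ℚ) : ℂ) * ((l + 1) * (3 * l + 2)) =
    ((gam m l : ℚ) : ℂ) * (((l : ℂ) + 1 - 2 * m) * (3 * l + 2 - 6 * m)) := by
  have h1 : ((l : ℂ) + 1) ≠ 0 := Nat.cast_add_one_ne_zero l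
  have h2 : (3 * (l : ℂ) + 2) ≠ 0 := by
    have h3 : ((3 * l + 2 : ℕ) : ℂ) ≠ 0 := Nat.cast_ne_zero.2 (by omega)
    push_cast at h3
    exact h3
  have h4 : gam m (l + 1) = gam m l *
      ((((l : ℚ) + 1 - 2 * m) * (3 * l + 2 - 6 * m)) / ((l + 1) * (3 * l + 2))) := by
    unfold gam
    rw [Finset.prod_range_succ]
  rw [h4]
  generalize gam m l = g
  push_cast
  rw [mul_assoc, div_mul_cancel₀ _ (mul_ne_zero h1 h2)]

theorem lag (m : ℕ) (hm : 1 ≤ m) (H p pt : ℂ[X])
    (h : (X - 1) ^ (4 * m - 1) * H = expand ℂ 3 p + X * expand ℂ 3 pt)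
    (hp : p.degree < ((2 * m : ℕ) : WithBot ℕ)) (hpt : pt.degree < ((2 * m : ℕ) : WithBot ℕ)) :
    ∃ μ : ℂ, p = C μ * Pg m ∧ pt = C μ * Ptg m ∧
      μ * (3 ^ (2 * m - 1) * (2 * m - 1).factorial *
        ∏ l ∈ Finset.range (2 * m), ((3 * l + 1 : ℕ) : ℂ)) =
        -((4 * m - 1).factorial * H.eval 1) := by
  have hE : ∀ l, l < 2 * m → (3 ^ (2 * m - 1) * pra (2 * m) l * prb (2 * m) l : ℂ) ≠ 0 :=
    fun l hl => mul_ne_zero (mul_ne_zero (pow_ne_zero _ (by norm_num)) (pra_ne _ _ hl)) (prb_ne _ _)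
  have hc0 := coef0 m hm H p pt h hp hpt
  have hc1 := coef1 m hm H p pt h hp hpt
  have hgam : ∀ l, l < 2 * m → p.coeff l = p.coeff 0 * ((gam m l : ℚ) : ℂ) := by
    intro l
    induction l with
    | zero =>
      intro _
      unfold gam
      simp
    | succ l ih =>
      intro hl
      have h1 := hc0 l (by omega)
      have h2 := hc0 (l + 1) hl
      have h3 := pra_ratio (2 * m) l hl
      have h4 := prb_ratio (2 * m) l
      have h5 := ih (by omega)
      have h6 := gam_cast_succ m l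
      have h7 := hE (l + 1) hl
      have n1 : ((l : ℂ) + 1) ≠ 0 := Nat.cast_add_one_ne_zero l
      have n2 : (3 * (l : ℂ) + 2) ≠ 0 := by
        have h3 : ((3 * l + 2 : ℕ) : ℂ) ≠ 0 := Nat.cast_ne_zero.2 (by omega)
        push_cast at h3
        exact h3
      push_cast at h3 h4
      have h8 : (p.coeff (l + 1) * ((l + 1) * (3 * l + 2)) -
          p.coeff l * (((l : ℂ) + 1 - 2 * m) * (3 * l + 2 - 6 * m))) *
          (3 ^ (2 * m - 1) * pra (2 * m) (l + 1) * prb (2 * m) (l + 1)) = 0 := by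
        have e1 : pra (2 * m) l * prb (2 * m) l * ((l + 1) * (3 * l + 2)) =
            pra (2 * m) (l + 1) * prb (2 * m) (l + 1) *
              (((l : ℂ) + 1 - 2 * m) * (3 * l + 2 - 6 * m)) := by
          linear_combination prb (2 * m) l * (3 * l + 2) * h3 +
            pra (2 * m) (l + 1) * ((l : ℂ) + 1 - 2 * m) * h4
        linear_combination ((l + 1) * (3 * l + 2)) * h2 - ((l + 1) * (3 * l + 2)) * h1 +
          p.coeff l * 3 ^ (2 * m - 1) * e1
      have h9 := (mul_eq_zero.1 h8).resolve_right h7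
      have h10 : ((l + 1) * (3 * l + 2) : ℂ) ≠ 0 := mul_ne_zero n1 n2
      refine mul_right_cancel₀ h10 ?_
      linear_combination h9 + (((l : ℂ) + 1 - 2 * m) * (3 * l + 2 - 6 * m)) * h5 -
        p.coeff 0 * h6
  have hpt' : ∀ l, l < 2 * m → pt.coeff (2 * m - 1 - l) = - p.coeff l := by
    intro l hl
    refine mul_right_cancel₀ (hE l hl) ?_
    linear_combination hc1 l hl + hc0 l hl
  rw [degree_lt_iff_coeff_zero] at hp hpt
  refine ⟨p.coeff 0, ?_, ?_, ?_⟩
  · ext l
    rw [coeff_C_mul]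
    unfold Pg
    rw [finsetSum_coeff]
    simp only [coeff_monomial]
    rw [Finset.sum_ite_eq']
    split_ifs with h1
    · exact hgam l (Finset.mem_range.1 h1)
    · rw [mul_zero]
      exact hp l (by rw [Finset.mem_range] at h1; omega)
  · ext k
    rw [coeff_C_mul]
    unfold Ptg
    rw [coeff_neg, finsetSum_coeff]
    simp only [coeff_monomial]
    by_cases hk : k < 2 * m
    · rw [Finset.sum_eq_single_of_mem (2 * m - 1 - k) (Finset.mem_range.2 (by omega))]
      · rw [if_pos (by omega)]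
        have h1 := hpt' (2 * m - 1 - k) (by omega)
        rw [show 2 * m - 1 - (2 * m - 1 - k) = k by omega, hgam _ (by omega)] at h1
        rw [h1]
        ring
      · intro j hj hjk
        have := Finset.mem_range.1 hj
        rw [if_neg (by omega)]
    · rw [hpt k (by omega), Finset.sum_eq_zero, neg_zero, mul_zero]
      intro j hj
      have := Finset.mem_range.1 hj
      rw [if_neg (by omega)]
  · have h1 := hc0 0 (by omega)
    have h2 : pra (2 * m) 0 = -((2 * m - 1).factorial : ℂ) := by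
      have h7 : ((-1 : ℂ)) ^ (2 * m - 1) = -1 := by
        rw [show 2 * m - 1 = 2 * (m - 1) + 1 by omega, pow_succ, pow_mul]
        norm_num
      rw [pra_eq _ _ (by omega), Nat.factorial_zero, Nat.sub_zero, h7]
      push_cast
      ring
    have h3 : prb (2 * m) 0 = ∏ l ∈ Finset.range (2 * m), ((3 * l + 1 : ℕ) : ℂ) := by
      unfold prb
      have h5 : ((-1 : ℂ)) ^ (2 * m) = 1 := by rw [pow_mul]; norm_num
      have h6 : ∏ j ∈ Finset.range (2 * m), ((3 * j + 1 : ℕ) : ℂ) =
          ∏ j ∈ Finset.range (2 * m), ((-1) * ((3 * j + 1 : ℕ) : ℂ)) := by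
        rw [Finset.prod_mul_distrib, Finset.prod_const, Finset.card_range, h5, one_mul]
      rw [h6]
      refine Finset.prod_congr rfl fun j _ => ?_
      push_cast
      ring
    rw [h2, h3] at h1
    linear_combination -h1

end ODD
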