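import Pool.Agent.ODD.LIM
import Pool.Agent.ODD.LAG

/-!
# PROJECT ODD (MP_d12cfa_co), module EVS: structure of the even function at parameters 1

(Imports may contain `sorry`. Used: `fe_even_one`, `Ev_poly`, `Ev_c2`, `Ev_perm`, `sec_*`, `lag`.)
Notation `a m = Ev w (List.replicate (2 m) 1)`.

PLAN. `m >= 1`, `k = 2 m - 1`, `E` = polynomial of `Ev_poly w (replicate (2m-1) 1)`, degree
`<= 2 m - 2`. `G := (X^2 - 1)(X - 1)^(4m-2) E = (X-1)^(4m-1) * ((X + 1) E)`; `H := (X+1) E`.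
`gE w (replicate (2m-1) 1) U = - G(U)` (`((U-1)(1-U))^(2m-1) = - (U-1)^(4m-2)`).
* `fe_even_one` and `sec_eval`: `(sec 2 G)(U^3) U^2 = 0` for all `U`, so `sec 2 G = 0`
  (a polynomial with infinitely many zeros), `G = expand p + X expand pt` with `p = sec 0 G`,
  `pt = sec 1 G`, degrees `< 2 m` because `degree G <= 6 m - 2` (`sec_degree`).
* `lag` gives `μ`. `H(1) = 2 E(1) = 2 a m` (`1 :: replicate (2m-1) 1 = replicate (2m) 1`).
* value at `w^2`: `E(w^2) = Ev w (w^2 :: 1 :: replicate (2m-2) 1)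
   = (1 - w) ((w^2 - w)(1 - w))^(2m-2) a (m-1)` (`Ev_c2`, `w^2 * 1 = w^2`), so
  `G(w^2) = (w - 1)(w^2 - 1)^(4m-2) E(w^2) = - 3^(4m-2) w^(2m-2) a (m-1)`
  (`(w^2 - 1)(1 - w) = -3`, `w^2 - w = - w (1 - w)`); on the other side
  `G(w^2) = p(1) + w^2 pt(1)`, `0 = G(1) = p(1) + pt(1)`, so `G(w^2) = (1 - w^2) p(1)`.
* `ev_rec` eliminates `μ`.
-/

set_option autoImplicit false

namespace ODD

open Polynomial

private theorem gE_ones (w : ℂ) (n : ℕ) (E : ℂ[X])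
    (hE : ∀ U : ℂ, Ev w (U :: List.replicate (2 * n + 1) 1) = E.eval U) (U : ℂ) :
    gE w (List.replicate (2 * n + 1) 1) U =
      -((X ^ 2 - 1) * (X - 1) ^ (4 * n + 2) * E : ℂ[X]).eval U := by
  rw [gE, hE, List.map_replicate, List.prod_replicate]
  simp only [eval_mul, eval_sub, eval_pow, eval_X, eval_one, mul_one]
  have h1 : ((U - 1) * (1 - U)) ^ (2 * n + 1) = -(U - 1) ^ (4 * n + 2) := by
    have h2 : (U - 1) * (1 - U) = -((U - 1) ^ 2) := by ring
    have h3 : (U - 1) ^ (4 * n + 2) = ((U - 1) ^ 2) ^ (2 * n + 1) := by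
      rw [← pow_mul]; congr 1; ring
    rw [h2, h3, Odd.neg_pow ⟨n, rfl⟩]
  rw [h1]
  ring

private theorem sec_two_zero (w : ℂ) (hw : w ^ 2 + w + 1 = 0) (n : ℕ) (E : ℂ[X])
    (hE : ∀ U : ℂ, Ev w (U :: List.replicate (2 * n + 1) 1) = E.eval U) :
    sec 2 ((X ^ 2 - 1) * (X - 1) ^ (4 * n + 2) * E : ℂ[X]) = 0 := by
  set G : ℂ[X] := (X ^ 2 - 1) * (X - 1) ^ (4 * n + 2) * E with hG
  have hz : ∀ U : ℂ, 3 * U ^ 2 * (sec 2 G).eval (U ^ 3) = 0 := by
    intro U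
    rw [← sec_eval w hw G U]
    have h := fe_even_one w hw (2 * n + 1) U
    rw [gE_ones w n E hE, gE_ones w n E hE, gE_ones w n E hE, ← hG] at h
    linear_combination -h
  have hX : X * sec 2 G = 0 := by
    apply Polynomial.funext
    intro x
    rw [eval_mul, eval_X, eval_zero]
    by_cases hx : x = 0
    · rw [hx, zero_mul]
    · obtain ⟨U, hU⟩ := IsAlgClosed.exists_pow_nat_eq x (n := 3) (by norm_num)
      have h := hz U
      have hU0 : U ≠ 0 := by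
        rintro rfl
        apply hx
        rw [← hU]
        norm_num
      rw [hU] at h
      rcases mul_eq_zero.1 h with h1 | h1
      · exact absurd h1 (mul_ne_zero (by norm_num) (pow_ne_zero 2 hU0))
      · rw [h1, mul_zero]
  rcases mul_eq_zero.1 hX with h | h
  · exact absurd h X_ne_zero
  · exact h

private theorem coeff_big (n : ℕ) (E : ℂ[X]) (hE : E.degree < ((2 * n + 1 : ℕ) : WithBot ℕ))
    (j : ℕ) (hj : 6 * n + 5 ≤ j) :
    ((X ^ 2 - 1) * (X - 1) ^ (4 * n + 2) * E : ℂ[X]).coeff j = 0 := by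
  apply coeff_eq_zero_of_natDegree_lt
  have h1 : (X ^ 2 - 1 : ℂ[X]).natDegree ≤ 2 := by
    have : (X ^ 2 - 1 : ℂ[X]) = X ^ 2 - C 1 := by rw [C_1]
    rw [this, natDegree_X_pow_sub_C]
  have h2 : ((X - 1 : ℂ[X]) ^ (4 * n + 2)).natDegree ≤ 4 * n + 2 := by
    have h3 : (X - 1 : ℂ[X]).natDegree ≤ 1 := by
      have : (X - 1 : ℂ[X]) = X - C 1 := by rw [C_1]
      rw [this, natDegree_X_sub_C]
    calc ((X - 1 : ℂ[X]) ^ (4 * n + 2)).natDegree ≤ (4 * n + 2) * (X - 1 : ℂ[X]).natDegree :=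
          natDegree_pow_le
      _ ≤ (4 * n + 2) * 1 := Nat.mul_le_mul_left _ h3
      _ = 4 * n + 2 := by ring
  have h4 : E.natDegree ≤ 2 * n := by
    by_cases h0 : E = 0
    · rw [h0]; simp
    · have := (natDegree_lt_iff_degree_lt h0).2 hE
      omega
  calc ((X ^ 2 - 1) * (X - 1) ^ (4 * n + 2) * E : ℂ[X]).natDegree
      ≤ ((X ^ 2 - 1) * (X - 1) ^ (4 * n + 2) : ℂ[X]).natDegree + E.natDegree := natDegree_mul_le
    _ ≤ ((X ^ 2 - 1 : ℂ[X]).natDegree + ((X - 1 : ℂ[X]) ^ (4 * n + 2)).natDegree) +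
        E.natDegree := by gcongr; exact natDegree_mul_le
    _ < j := by omega

private theorem eval_w2 (w : ℂ) (hw : w ^ 2 + w + 1 = 0) (n : ℕ) (E : ℂ[X])
    (hE : ∀ U : ℂ, Ev w (U :: List.replicate (2 * n + 1) 1) = E.eval U) :
    ((X ^ 2 - 1) * (X - 1) ^ (4 * n + 2) * E : ℂ[X]).eval (w ^ 2) =
      -(3 ^ (4 * n + 2) * w ^ (2 * n) * Ev w (List.replicate (2 * n) 1)) := by
  have hw3 : w ^ 3 = 1 := by linear_combination (w - 1) * hw
  have h1 : E.eval (w ^ 2) = (1 - w) * ((w ^ 2 - w) * (1 - w)) ^ (2 * n) *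
      Ev w (List.replicate (2 * n) 1) := by
    rw [← hE, List.replicate_succ, Ev_c2 w hw (w ^ 2) 1 (mul_one _), List.map_replicate,
      List.prod_replicate]
    simp only [mul_one]
  simp only [eval_mul, eval_sub, eval_pow, eval_X, eval_one]
  rw [h1]
  have h2 : (w ^ 2) ^ 2 = w := by linear_combination w * hw3
  have h3 : ((w ^ 2 - w) * (1 - w)) ^ (2 * n) = w ^ (2 * n) * (1 - w) ^ (4 * n) := by
    have : (w ^ 2 - w) * (1 - w) = -(w * (1 - w) ^ 2) := by ring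
    rw [this, Even.neg_pow ⟨n, by ring⟩, mul_pow, ← pow_mul]
    congr 2
    ring
  have h4 : (w ^ 2 - 1) ^ (4 * n + 2) * (1 - w) ^ (4 * n + 2) = 3 ^ (4 * n + 2) := by
    rw [← mul_pow]
    have : (w ^ 2 - 1) * (1 - w) = -3 := by linear_combination (-1 : ℂ) * hw3 + hw
    rw [this, Even.neg_pow ⟨2 * n + 1, by ring⟩]
  rw [h2, h3]
  have h5 : (w - 1) * (w ^ 2 - 1) ^ (4 * n + 2) * ((1 - w) * (w ^ (2 * n) * (1 - w) ^ (4 * n)) *
      Ev w (List.replicate (2 * n) 1)) = -(((w ^ 2 - 1) ^ (4 * n + 2) * (1 - w) ^ (4 * n + 2)) *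
      w ^ (2 * n) * Ev w (List.replicate (2 * n) 1)) := by
    rw [pow_add (1 - w) (4 * n) 2]
    ring
  rw [h5, h4]

theorem ev_struct (w : ℂ) (hw : w ^ 2 + w + 1 = 0) (m : ℕ) (hm : 1 ≤ m) :
    ∃ (μ : ℂ) (H : ℂ[X]),
      expand ℂ 3 (C μ * Pg m) + X * expand ℂ 3 (C μ * Ptg m) = (X - 1) ^ (4 * m - 1) * H ∧
      μ * (3 ^ (2 * m - 1) * (2 * m - 1).factorial *
        ∏ l ∈ Finset.range (2 * m), ((3 * l + 1 : ℕ) : ℂ)) =
        -((4 * m - 1).factorial * (2 * Ev w (List.replicate (2 * m) 1))) ∧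
      (1 - w ^ 2) * (μ * (Pg m).eval 1) =
        -(3 ^ (4 * m - 2) * w ^ (2 * m - 2) * Ev w (List.replicate (2 * m - 2) 1)) := by
  obtain ⟨n, rfl⟩ : ∃ n, m = n + 1 := ⟨m - 1, by omega⟩
  have hw3 : w ^ 3 = 1 := by linear_combination (w - 1) * hw
  obtain ⟨E, hdeg, hE⟩ := Ev_poly w (List.replicate (2 * n + 1) 1)
  rw [List.length_replicate] at hdeg
  set G : ℂ[X] := (X ^ 2 - 1) * (X - 1) ^ (4 * n + 2) * E with hG
  have hs2 : sec 2 G = 0 := sec_two_zero w hw n E hE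
  have hdec : G = expand ℂ 3 (sec 0 G) + X * expand ℂ 3 (sec 1 G) := by
    conv_lhs => rw [sec_decomp G, hs2]
    simp
  have hGH : (X - 1) ^ (4 * (n + 1) - 1) * ((X + 1) * E) = G := by
    have : 4 * (n + 1) - 1 = (4 * n + 2) + 1 := by omega
    rw [this, pow_succ, hG]
    ring
  have hp : (sec 0 G).degree < ((2 * (n + 1) : ℕ) : WithBot ℕ) := by
    apply sec_degree
    intro j hj
    exact coeff_big n E hdeg _ (by omega)
  have hpt : (sec 1 G).degree < ((2 * (n + 1) : ℕ) : WithBot ℕ) := by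
    apply sec_degree
    intro j hj
    exact coeff_big n E hdeg _ (by omega)
  obtain ⟨μ, h1, h2, h3⟩ := lag (n + 1) hm ((X + 1) * E) (sec 0 G) (sec 1 G)
    (hGH.trans hdec) hp hpt
  refine ⟨μ, (X + 1) * E, ?_, ?_, ?_⟩
  · rw [← h1, ← h2, hGH, ← hdec]
  · rw [h3]
    have h4 : ((X + 1) * E : ℂ[X]).eval 1 = 2 * Ev w (List.replicate (2 * (n + 1)) 1) := by
      have h5 : List.replicate (2 * (n + 1)) (1 : ℂ) = 1 :: List.replicate (2 * n + 1) 1 := by
        rw [← List.replicate_succ]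
        congr 1
      rw [h5, hE]
      simp only [eval_mul, eval_add, eval_X, eval_one]
      norm_num
    rw [h4]
  · have e1 : G.eval (w ^ 2) = (sec 0 G).eval 1 + w ^ 2 * (sec 1 G).eval 1 := by
      conv_lhs => rw [hdec]
      have h6 : (w ^ 2) ^ 3 = 1 := by
        rw [← pow_mul, mul_comm, pow_mul, hw3, one_pow]
      rw [eval_add, eval_mul, eval_X, expand_eval, expand_eval, h6]
    have e2 : G.eval 1 = (sec 0 G).eval 1 + (sec 1 G).eval 1 := by
      conv_lhs => rw [hdec]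
      rw [eval_add, eval_mul, eval_X, expand_eval, expand_eval]
      simp
    have e3 : G.eval 1 = 0 := by
      rw [hG]
      simp only [eval_mul, eval_sub, eval_pow, eval_X, eval_one]
      norm_num
    have e4 := eval_w2 w hw n E hE
    rw [← hG] at e4
    have e5 : (sec 0 G).eval 1 = μ * (Pg (n + 1)).eval 1 := by
      rw [h1, eval_mul, eval_C]
    have e6 : 4 * (n + 1) - 2 = 4 * n + 2 := by omega
    have e7 : 2 * (n + 1) - 2 = 2 * n := by omega
    rw [e6, e7, ← e5, ← e4, e1]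
    rw [e3] at e2
    linear_combination (w ^ 2) * e2

theorem ev_rec (w : ℂ) (hw : w ^ 2 + w + 1 = 0) (m : ℕ) (hm : 1 ≤ m) :
    2 * (4 * m - 1).factorial * Ev w (List.replicate (2 * m) 1) * (1 - w ^ 2) *
        (Pg m).eval 1 =
      3 ^ (4 * m - 2) * w ^ (2 * m - 2) * Ev w (List.replicate (2 * m - 2) 1) *
        (3 ^ (2 * m - 1) * (2 * m - 1).factorial *
          ∏ l ∈ Finset.range (2 * m), ((3 * l + 1 : ℕ) : ℂ)) := by
  obtain ⟨μ, H, -, h2, h3⟩ := ev_struct w hw m hm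
  set K : ℂ := 3 ^ (2 * m - 1) * (2 * m - 1).factorial *
    ∏ l ∈ Finset.range (2 * m), ((3 * l + 1 : ℕ) : ℂ) with hK
  linear_combination (1 - w ^ 2) * (Pg m).eval 1 * h2 - K * h3

end ODD
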