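import Pool.Agent.ODD.Basic

/-!
# PROJECT ODD (MP_d12cfa_co), module REF: the reflection equation at the corner

`corner_re`: the reflection equation; `psi_two`: the decomposition of `Psi` into the corner of the
first two lines and the two rows.
-/

set_option autoImplicit false

namespace ODD

variable {R : Type*} [CommRing R]

theorem corner_re (d : Dat R) (hd : d.Good) (U V : R) (c1 c2 r1 r2 : Bool) :
    ∑ a : Bool, ∑ b : Bool, rm d.w U V c1 c2 a b * corner d U V a b r1 r2 =
    ∑ a : Bool, ∑ b : Bool, corner d V U c1 c2 a b * rm d.w U V a b r1 r2 := by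
  obtain ⟨w, al, be, e, f⟩ := d
  obtain ⟨hw, h1, h2, h3⟩ := hd
  simp only at hw h1 h2 h3
  have h4 : w ^ 2 = -w - 1 := by linear_combination hw
  have h5 : w ^ 3 = 1 := by linear_combination (w - 1) * hw
  cases c1 <;> cases c2 <;> cases r1 <;> cases r2 <;>
    simp only [Fintype.sum_bool, rm, vert, corner, kap] <;> first | ring1 | grind

private theorem psi_in (d : Dat R) (V : R) (Us : List R) (c : Bool) (U : R) (r : Bool)
    (cs : List Bool) : row d U Us r cs (fun l => Psi d (V :: Us) (c :: l)) =
      ∑ r2 : Bool, kap d V c r2 * two d U V Us r r2 cs (Psi d Us) := by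
  have e : (fun l => Psi d (V :: Us) (c :: l)) =
      fun l => ∑ r2 : Bool, kap d V c r2 * row d V Us r2 l (Psi d Us) := by
    funext l
    rw [psi_cons_cons]
  rw [e, row_sum]
  refine Finset.sum_congr rfl fun r2 _ => ?_
  rw [row_mul]
  rfl

theorem psi_two (d : Dat R) (U V : R) (Us : List R) (c1 c2 : Bool) (cs : List Bool) :
    Psi d (U :: V :: Us) (c1 :: c2 :: cs) =
      ∑ r1 : Bool, ∑ r2 : Bool, corner d U V c1 c2 r1 r2 * two d U V Us r1 r2 cs (Psi d Us) := by
  rw [psi_cons_cons]
  simp only [row_cons_cons, psi_in, corner, Fintype.sum_bool]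
  ring

end ODD
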