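import Pool.Agent.ODD.Basic

/-!
# PROJECT ODD (MP_d12cfa_co), module YBR: two adjacent rows crossing the columns

`ybe_row` is the local Yang-Baxter equation, `two_act` its consequence for two rows crossing all columns (induction on
the columns; `two_cons` unfolds the first column).
-/

set_option autoImplicit false

namespace ODD

variable {R : Type*} [CommRing R]

theorem ybe_row {w : R} (hw : w ^ 2 + w + 1 = 0) (U V W : R) (r1 r2 t1 t2 c d : Bool) :
    ∑ a : Bool, ∑ b : Bool, rm w U V r1 r2 a b *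
      (∑ s : Bool, vert w (U * W) c a s t1 * vert w (V * W) s b d t2) =
    ∑ a : Bool, ∑ b : Bool,
      (∑ s : Bool, vert w (V * W) c r1 s a * vert w (U * W) s r2 d b) * rm w U V a b t1 t2 := by
  have h2 : w ^ 2 = -w - 1 := by linear_combination hw
  have h3 : w ^ 3 = 1 := by linear_combination (w - 1) * hw
  cases r1 <;> cases r2 <;> cases t1 <;> cases t2 <;> cases c <;> cases d <;>
    simp only [Fintype.sum_bool, rm, vert] <;> first | ring1 | grind

/-- unfolding the first column -/
private theorem two_cons (d : Dat R) (U V W : R) (Ws : List R) (a b c : Bool) (cs : List Bool)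
    (g : List Bool → R) : two d U V (W :: Ws) a b (c :: cs) g =
      ∑ x : Bool, ∑ t1 : Bool, ∑ y : Bool, ∑ t2 : Bool, vert d.w (U * W) c a x t1 *
        (vert d.w (V * W) x b y t2 * two d U V Ws t1 t2 cs (fun l => g (y :: l))) := by
  unfold two
  rw [row_cons_cons]
  refine Finset.sum_congr rfl fun x _ => Finset.sum_congr rfl fun t1 _ => ?_
  have h1 : row d U Ws t1 cs (fun l => row d V (W :: Ws) b (x :: l) g) =
      ∑ y : Bool, ∑ t2 : Bool, vert d.w (V * W) x b y t2 *
        row d U Ws t1 cs (fun l => row d V Ws t2 l (fun l' => g (y :: l'))) := by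
    have h2 : ∀ l, row d V (W :: Ws) b (x :: l) g = ∑ y : Bool, ∑ t2 : Bool,
        vert d.w (V * W) x b y t2 * row d V Ws t2 l (fun l' => g (y :: l')) := fun l =>
      row_cons_cons d V W Ws b x l g
    rw [row_congr d U Ws t1 cs h2, row_sum]
    refine Finset.sum_congr rfl fun y _ => ?_
    rw [row_sum]
    refine Finset.sum_congr rfl fun t2 _ => ?_
    rw [row_mul]
  rw [h1, Finset.mul_sum]
  refine Finset.sum_congr rfl fun y _ => ?_
  rw [Finset.mul_sum]

private theorem ybr_alg (k : R) (m : Bool → Bool → Bool → Bool → R)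
    (P Q : Bool → Bool → Bool → Bool → R) (T T' : Bool → Bool → Bool → R) (r s c : Bool)
    (h1 : ∀ t1 t2 y, ∑ a : Bool, ∑ b : Bool, m r s a b * (∑ x : Bool, P c a x t1 * Q x b y t2) =
      ∑ a : Bool, ∑ b : Bool, (∑ x : Bool, Q c r x a * P x s y b) * m a b t1 t2)
    (h2 : ∀ a b y, ∑ t1 : Bool, ∑ t2 : Bool, m a b t1 t2 * T t1 t2 y = k * T' a b y) :
    ∑ a : Bool, ∑ b : Bool, m r s a b * (∑ x : Bool, ∑ t1 : Bool, ∑ y : Bool, ∑ t2 : Bool,
      P c a x t1 * (Q x b y t2 * T t1 t2 y)) =
    k * (∑ x : Bool, ∑ t1 : Bool, ∑ y : Bool, ∑ t2 : Bool,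
      Q c r x t1 * (P x s y t2 * T' t1 t2 y)) := by
  have e1 : ∑ a : Bool, ∑ b : Bool, m r s a b * (∑ x : Bool, ∑ t1 : Bool, ∑ y : Bool, ∑ t2 : Bool,
      P c a x t1 * (Q x b y t2 * T t1 t2 y)) =
      ∑ t1 : Bool, ∑ t2 : Bool, ∑ y : Bool, T t1 t2 y *
        (∑ a : Bool, ∑ b : Bool, m r s a b * (∑ x : Bool, P c a x t1 * Q x b y t2)) := by
    simp only [Fintype.sum_bool]
    ring
  have e2 : k * (∑ x : Bool, ∑ t1 : Bool, ∑ y : Bool, ∑ t2 : Bool,
      Q c r x t1 * (P x s y t2 * T' t1 t2 y)) =
      ∑ a : Bool, ∑ b : Bool, ∑ y : Bool, (∑ x : Bool, Q c r x a * P x s y b) * (k * T' a b y) := by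
    simp only [Fintype.sum_bool]
    ring
  rw [e1, e2]
  simp only [h1, ← h2]
  simp only [Fintype.sum_bool]
  ring

/-- the intertwiner slides through all columns and is absorbed by the right boundary -/
theorem two_act (d : Dat R) (hw : d.w ^ 2 + d.w + 1 = 0) (U V : R) (Ws : List R)
    (r s : Bool) (cs : List Bool) (g : List Bool → R) :
    ∑ a : Bool, ∑ b : Bool, rm d.w U V r s a b * two d U V Ws a b cs g =
      (U - d.w * V) * two d V U Ws r s cs g := by
  induction Ws generalizing r s cs g with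
  | nil =>
    cases cs with
    | nil =>
      cases r <;> cases s <;>
        simp only [Fintype.sum_bool, two, row_nil_true, row_nil_false, rm] <;> ring
    | cons c cs =>
      cases r <;> cases s <;>
        simp only [Fintype.sum_bool, two, row_nil_cons, row_nil_false, rm] <;> ring
  | cons W Ws ih =>
    cases cs with
    | nil =>
      simp only [Fintype.sum_bool, two, row_cons_nil]
      ring
    | cons c cs =>
      simp only [two_cons]
      exact ybr_alg (U - d.w * V) (rm d.w U V) (vert d.w (U * W)) (vert d.w (V * W))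
        (fun t1 t2 y => two d U V Ws t1 t2 cs (fun l => g (y :: l)))
        (fun t1 t2 y => two d V U Ws t1 t2 cs (fun l => g (y :: l))) r s c
        (fun t1 t2 y => ybe_row hw U V W r s t1 t2 c y)
        (fun a b y => ih a b cs (fun l => g (y :: l)))

end ODD
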