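import Pool.Agent.ODD.YBC
import Pool.Agent.ODD.YBR
import Pool.Agent.ODD.REF

/-!
# PROJECT ODD (MP_d12cfa_co), module EXC: the partition function is symmetric

The intertwiner slides through the first rows (`row_act`), is exchanged at the corner (`corner_re`)
and absorbed by the right boundary (`two_act`).
-/

set_option autoImplicit false

namespace ODD

variable {R : Type*} [CommRing R]

theorem psi_exchange (d : Dat R) (hd : d.Good) (U V : R) (Us1 Us2 : List R) (cs : List Bool) :
    act d.w U V Us1.length (Psi d (Us1 ++ U :: V :: Us2)) cs =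
      (U - d.w * V) * Psi d (Us1 ++ V :: U :: Us2) cs := by
  induction Us1 generalizing cs with
  | nil =>
    rw [List.nil_append, List.nil_append, List.length_nil]
    rcases cs with _ | ⟨c1, _ | ⟨c2, cs⟩⟩
    · rw [act_nil, psi_cons_nil, mul_zero]
    · rw [act_zero_single, psi_cons_cons]
      simp only [row_cons_nil, mul_zero, Finset.sum_const_zero]
    · rw [act_zero_cons, psi_two d V U]
      simp only [psi_two d U V]
      have e1 := corner_re d hd U V c1 c2
      have e2 := fun a b => two_act d hd.hw U V Us2 a b cs (Psi d Us2)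
      generalize two d U V Us2 = T at e2 ⊢
      generalize two d V U Us2 = T' at e2 ⊢
      simp only [Fintype.sum_bool] at e1 e2 ⊢
      linear_combination T true true cs (Psi d Us2) * e1 true true +
        T true false cs (Psi d Us2) * e1 true false +
        T false true cs (Psi d Us2) * e1 false true +
        T false false cs (Psi d Us2) * e1 false false +
        corner d V U c1 c2 true true * e2 true true +
        corner d V U c1 c2 true false * e2 true false +
        corner d V U c1 c2 false true * e2 false true +
        corner d V U c1 c2 false false * e2 false false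
  | cons W Us1 ih =>
    rw [List.cons_append, List.cons_append, List.length_cons]
    rcases cs with _ | ⟨c, cs⟩
    · rw [act_nil, psi_cons_nil, mul_zero]
    · rw [act_succ_cons, psi_cons_cons, Finset.mul_sum]
      simp only [psi_cons_cons]
      rw [act_sum]
      refine Finset.sum_congr rfl fun r _ => ?_
      rw [act_mul, row_act d hd.hw, row_congr d W _ r cs ih, row_mul]
      ring

theorem act_zs (w U V : R) (k n : ℕ) (h : k + 2 ≤ n) (g : List Bool → R) :
    act w U V k g (zs n) = (U - w * V) * g (zs n) := by
  induction k generalizing n g with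
  | zero =>
    obtain ⟨m, rfl⟩ := Nat.exists_eq_add_of_le' h
    have e : zs (m + (0 + 2)) = false :: false :: zs m := rfl
    rw [e, act_zero_cons]
    simp only [Fintype.sum_bool, rm]
    ring
  | succ k ih =>
    obtain ⟨m, rfl⟩ := Nat.exists_eq_add_of_le' (show 1 ≤ n by omega)
    have e : zs (m + 1) = false :: zs m := rfl
    rw [e, act_succ_cons, ih m (by omega)]

theorem Z_swap_mul (d : Dat R) (hd : d.Good) (U V : R) (Us1 Us2 : List R) :
    (U - d.w * V) * Z d (Us1 ++ U :: V :: Us2) = (U - d.w * V) * Z d (Us1 ++ V :: U :: Us2) := by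
  have hl : (Us1 ++ V :: U :: Us2).length = (Us1 ++ U :: V :: Us2).length := by
    simp
  unfold Z
  rw [hl, ← psi_exchange d hd, act_zs]
  rw [List.length_append, List.length_cons, List.length_cons]
  omega

theorem Z_swap [Algebra ℂ R] (d : Dat R) (hd : d.Good) (w : ℂ) (hw : w ^ 2 + w + 1 = 0)
    (hdw : d.w = algebraMap ℂ R w) (U V : ℂ) (Us1 Us2 : List R) :
    Z d (Us1 ++ algebraMap ℂ R U :: algebraMap ℂ R V :: Us2) =
      Z d (Us1 ++ algebraMap ℂ R V :: algebraMap ℂ R U :: Us2) := by
  have key : ∀ U V : ℂ, U - w * V ≠ 0 →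
      Z d (Us1 ++ algebraMap ℂ R U :: algebraMap ℂ R V :: Us2) =
        Z d (Us1 ++ algebraMap ℂ R V :: algebraMap ℂ R U :: Us2) := by
    intro U V h
    have h1 := Z_swap_mul d hd (algebraMap ℂ R U) (algebraMap ℂ R V) Us1 Us2
    have h2 : algebraMap ℂ R U - d.w * algebraMap ℂ R V = algebraMap ℂ R (U - w * V) := by
      rw [hdw, map_sub, map_mul]
    rw [h2] at h1
    exact ((IsUnit.mk0 _ h).map (algebraMap ℂ R)).mul_left_cancel h1
  by_cases h : U - w * V = 0
  · by_cases h' : V - w * U = 0
    · have hU : U = w * V := sub_eq_zero.1 h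
      have hV : V = w * U := sub_eq_zero.1 h'
      have h3 : (1 - w ^ 2) * V = 0 := by
        rw [hU] at hV
        linear_combination hV
      rcases mul_eq_zero.1 h3 with h4 | h4
      · exfalso
        have h5 : w = -2 := by linear_combination hw + h4
        rw [h5] at h4
        norm_num at h4
      · rw [h4] at hU ⊢
        rw [hU, mul_zero]
    · exact (key V U h').symm
  · exact key U V h

theorem Z_perm [Algebra ℂ R] (d : Dat R) (hd : d.Good) (w : ℂ) (hw : w ^ 2 + w + 1 = 0)
    (hdw : d.w = algebraMap ℂ R w) {Us Vs : List ℂ} (h : Us.Perm Vs) :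
    Z d (Us.map (algebraMap ℂ R)) = Z d (Vs.map (algebraMap ℂ R)) := by
  have key : ∀ Us1 : List R, Z d (Us1 ++ Us.map (algebraMap ℂ R)) =
      Z d (Us1 ++ Vs.map (algebraMap ℂ R)) := by
    induction h with
    | nil => exact fun _ => rfl
    | cons a _ ih =>
      intro Us1
      have h1 := ih (Us1 ++ [algebraMap ℂ R a])
      rw [List.append_assoc, List.append_assoc] at h1
      exact h1
    | swap a b l => exact fun Us1 => Z_swap d hd w hw hdw b a Us1 _
    | trans _ _ ih1 ih2 => exact fun Us1 => (ih1 Us1).trans (ih2 Us1)
  exact key []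

end ODD
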