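import Pool.Agent.ODD.IFD
import Pool.Agent.ODD.DEGa
import Pool.Agent.ODD.DEGb
import Pool.Agent.ODD.DEGc

/-!
# PROJECT ODD (MP_d12cfa_co), module IFB: polynomials, root, continuity

The state sums `Ev` and `Od` are polynomials in the first variable, the value of `Od` at the root
`s * w ^ 2` is a product times `Ev`, and both are continuous.
-/

set_option autoImplicit false

namespace ODD

open Polynomial

private theorem poly_of_coeff (c : ℕ → ℂ) (n : ℕ) :
    ∃ P : ℂ[X], P.degree < (n : WithBot ℕ) ∧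
      ∀ U : ℂ, ∑ k ∈ Finset.range n, c k * U ^ k = P.eval U := by
  refine ⟨∑ k ∈ Finset.range n, C (c k) * X ^ k, ?_, fun U => ?_⟩
  · rw [Polynomial.degree_lt_iff_coeff_zero]
    intro m hm
    rw [Polynomial.finset_sum_coeff]
    refine Finset.sum_eq_zero fun k hk => ?_
    rw [Polynomial.coeff_C_mul_X_pow, if_neg]
    have := Finset.mem_range.1 hk
    omega
  · rw [Polynomial.eval_finset_sum]
    refine Finset.sum_congr rfl fun k _ => ?_
    simp

private theorem snd_alg (x : ℂ) : TrivSqZeroExt.snd (algebraMap ℂ (DualNumber ℂ) x) = 0 := rfl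

private theorem fst_alg (x : ℂ) : TrivSqZeroExt.fst (algebraMap ℂ (DualNumber ℂ) x) = x := rfl

private theorem snd_mul_alg (y : DualNumber ℂ) (x : ℂ) :
    TrivSqZeroExt.snd (y * algebraMap ℂ (DualNumber ℂ) x) = TrivSqZeroExt.snd y * x := by
  rw [TrivSqZeroExt.snd_mul, snd_alg, fst_alg]
  simp [mul_comm]

theorem Ev_poly (w : ℂ) (Us : List ℂ) :
    ∃ P : ℂ[X], P.degree < (Us.length : WithBot ℕ) ∧ ∀ U : ℂ, Ev w (U :: Us) = P.eval U := by
  obtain ⟨c, hc⟩ := Z_poly' (dE w) rfl rfl Us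
  obtain ⟨P, hP, h⟩ := poly_of_coeff c Us.length
  exact ⟨P, hP, fun U => (hc U).trans (h U)⟩

theorem Od_poly (w s : ℂ) (Us : List ℂ) :
    ∃ P : ℂ[X], P.degree < ((Us.length + 1 : ℕ) : WithBot ℕ) ∧
      ∀ U : ℂ, Od w s (U :: Us) = P.eval U := by
  obtain ⟨c, hc⟩ := Z_poly (dO w s) (Us.map (algebraMap ℂ (DualNumber ℂ)))
  obtain ⟨P, hP, h⟩ := poly_of_coeff (fun k => TrivSqZeroExt.snd (c k)) (Us.length + 1)
  refine ⟨P, hP, fun U => ?_⟩
  rw [← h U]
  have h1 := hc (algebraMap ℂ (DualNumber ℂ) U)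
  rw [List.length_map] at h1
  show TrivSqZeroExt.snd (Z (dO w s) (algebraMap ℂ (DualNumber ℂ) U ::
    Us.map (algebraMap ℂ (DualNumber ℂ)))) = _
  rw [h1]
  have h2 : ∀ (S : Finset ℕ) (f : ℕ → DualNumber ℂ),
      TrivSqZeroExt.snd (∑ k ∈ S, f k) = ∑ k ∈ S, TrivSqZeroExt.snd (f k) := by
    intro S f
    exact map_sum (TrivSqZeroExt.sndHom ℂ ℂ) f S
  rw [h2]
  refine Finset.sum_congr rfl fun k _ => ?_
  rw [← map_pow, snd_mul_alg]

theorem Od_root (w s : ℂ) (hw : w ^ 2 + w + 1 = 0) (hs : s ^ 2 = 1) (Us : List ℂ) :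
    Od w s (s * w ^ 2 :: Us) =
      (Us.map (fun V => (1 - s * V) * (V - s * w ^ 2))).prod * Ev w Us := by
  have hw3 : w ^ 3 = 1 := by linear_combination (w - 1) * hw
  set φ := algebraMap ℂ (DualNumber ℂ) with hφ
  have e1 := Z_root (dO w s) (φ (s * w ^ 2)) (by
    show 1 * φ (s * w ^ 2) + φ (-(s * w ^ 2)) = 0
    rw [map_neg]; ring) (Us.map φ)
  have hee : (DualNumber.eps : DualNumber ℂ) * DualNumber.eps = 0 := DualNumber.eps_mul_eps
  have e2 := psi_e_mul (dO w s) hee (by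
    show DualNumber.eps * (φ (-s) * DualNumber.eps) = 0
    rw [mul_left_comm, hee, mul_zero]) (Us.map φ) (zs (Us.map φ).length)
  have e3 := psi_e_zero (φ w) 1 (φ (-(s * w ^ 2))) (Us.map φ) (zs (Us.map φ).length)
  have e4 := psi_map φ (dE w) Us (zs Us.length)
  have e5 : φ (Ev w Us) = Psi ⟨φ w, 0, 1, 0, 0⟩ (Us.map φ) (zs (Us.map φ).length) := by
    have e6 : φ (Ev w Us) = φ (Psi (dE w) Us (zs Us.length)) := rfl
    rw [e6, e4, List.length_map]
    show Psi ⟨φ w, φ 0, φ 1, φ 0, φ 0⟩ (Us.map φ) (zs Us.length) = _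
    rw [map_zero, map_one]
  have e7 : Z (dO w s) (φ (s * w ^ 2) :: Us.map φ) =
      DualNumber.eps * φ ((Us.map (fun V => (1 - s * V) * (V - s * w ^ 2))).prod * Ev w Us) := by
    rw [e1]
    have e8 : (dO w s).e * (List.map (fun V => 1 - (dO w s).w * (φ (s * w ^ 2) * V))
        (Us.map φ)).prod * Z (dO w s) (Us.map φ) =
        (List.map (fun V => 1 - (dO w s).w * (φ (s * w ^ 2) * V))
        (Us.map φ)).prod * ((dO w s).e * Psi (dO w s) (Us.map φ) (zs (Us.map φ).length)) := by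
      rw [Z]; ring
    rw [e8, e2]
    show (List.map (fun V => 1 - φ w * (φ (s * w ^ 2) * V)) (Us.map φ)).prod *
      (DualNumber.eps * Psi ⟨φ w, 1, φ (-(s * w ^ 2)), 0, 0⟩ (Us.map φ)
        (zs (Us.map φ).length)) = _
    have e10 : φ ((Us.map (fun V => (1 - s * V) * (V - s * w ^ 2))).prod * Ev w Us) =
        (Us.map (φ ∘ fun V => (1 - s * V) * (V - s * w ^ 2))).prod * φ (Ev w Us) := by
      rw [map_mul, map_list_prod, List.map_map]
    rw [e3, ← e5, e10, List.map_map, List.map_map]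
    have e9 : (Us.map (φ ∘ fun V => (1 - s * V) * (V - s * w ^ 2))).prod =
        (Us.map ((fun V => 1 - φ w * (φ (s * w ^ 2) * V)) ∘ φ)).prod *
        (Us.map ((fun V => 1 * V + φ (-(s * w ^ 2))) ∘ φ)).prod := by
      rw [← List.prod_map_mul]
      congr 1
      refine List.map_congr_left fun V _ => ?_
      show φ ((1 - s * V) * (V - s * w ^ 2)) =
        (1 - φ w * (φ (s * w ^ 2) * φ V)) * (1 * φ V + φ (-(s * w ^ 2)))
      rw [← map_mul, ← map_mul, one_mul, ← map_add, ← map_one φ, ← map_sub, ← map_mul]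
      congr 1
      linear_combination (s * V * (V - s * w ^ 2)) * hw3
    rw [e9]; ring
  show TrivSqZeroExt.snd (Z (dO w s) (φ (s * w ^ 2) :: Us.map φ)) = _
  rw [e7, snd_mul_alg, DualNumber.snd_eps, one_mul]

theorem Ev_cts (w : ℂ) (fs : List (ℂ → ℂ)) (hf : ∀ f ∈ fs, Continuous f) :
    Continuous fun t => Ev w (fs.map (fun f => f t)) := by
  have h := psi_continuous (dE w) fs hf (zs fs.length)
  have e : (fun t => Ev w (fs.map (fun f => f t))) =
      fun t => Psi (dE w) (fs.map (fun f => f t)) (zs fs.length) := by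
    funext t
    rw [Ev, Z, List.length_map]
  rw [e]
  exact h

theorem Od_cts (w s : ℂ) (fs : List (ℂ → ℂ)) (hf : ∀ f ∈ fs, Continuous f) :
    Continuous fun t => Od w s (fs.map (fun f => f t)) := by
  have h := psi_continuous (dO w s)
    (fs.map (fun (f : ℂ → ℂ) t => algebraMap ℂ (DualNumber ℂ) (f t))) (by
      intro g hg
      obtain ⟨f, hf', rfl⟩ := List.mem_map.1 hg
      exact TrivSqZeroExt.continuous_inl.comp (hf f hf')) (zs fs.length)
  have e : (fun t => Od w s (fs.map (fun f => f t))) =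
      fun t => TrivSqZeroExt.snd (Psi (dO w s)
        ((fs.map (fun (f : ℂ → ℂ) t => algebraMap ℂ (DualNumber ℂ) (f t))).map
          (fun f => f t)) (zs fs.length)) := by
    funext t
    rw [Od, Z, List.length_map, List.length_map, List.map_map, List.map_map]
    rfl
  rw [e]
  exact TrivSqZeroExt.continuous_snd.comp h

end ODD
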