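import Pool.Agent.ODD.IFA
import Pool.Agent.ODD.IFB

/-!
# PROJECT ODD (MP_d12cfa_co), module FEE: functional equation, even orders, generic parameters

`gE_node`: the two corner recursions at the nodes `w/V`, `w²/V`.  `fe_even_gen`: the polynomial
`T = G + w G(wX) + w² G(w² X)` has degree `< 3 k` (only the coefficients with index `2 mod 3` survive)
and vanishes at the `3 k` points `w^r / V`, so it is zero.
-/

set_option autoImplicit false

namespace ODD

open Polynomial

/-- the even function -/
noncomputable def gE (w : ℂ) (Us : List ℂ) (U : ℂ) : ℂ :=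
  (U ^ 2 - 1) * Ev w (U :: Us) * (Us.map (fun V => (U - V) * (1 - U * V))).prod

private theorem fee_w3 {w : ℂ} (hw : w ^ 2 + w + 1 = 0) : w ^ 3 = 1 := by
  linear_combination (w - 1) * hw

private theorem fee_factor {w V : ℂ} (hw : w ^ 2 + w + 1 = 0) (hV0 : V ≠ 0) (T : ℂ) :
    (1 - w * (w / V * T)) * (1 - w * (V * T)) * ((w / V - T) * (1 - w / V * T)) =
      (w ^ 2 / V * T - w) * (T * V - w) * ((w ^ 2 / V - T) * (1 - w ^ 2 / V * T)) := by
  have h3 := fee_w3 hw
  have e1 : (1 - w * (w / V * T)) * (1 - w * (V * T)) * ((w / V - T) * (1 - w / V * T)) =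
      (V - w ^ 2 * T) * (1 - w * V * T) * (w - V * T) * (V - w * T) / V ^ 3 := by
    field_simp
  have e2 : (w ^ 2 / V * T - w) * (T * V - w) * ((w ^ 2 / V - T) * (1 - w ^ 2 / V * T)) =
      (w ^ 2 * T - w * V) * (V * T - w) * (w ^ 2 - V * T) * (V - w ^ 2 * T) / V ^ 3 := by
    field_simp
  rw [e1, e2]
  congr 1
  linear_combination (-(V - w ^ 2 * T) * (w - V * T) * (V - w * T)) * h3

theorem gE_node (w : ℂ) (hw : w ^ 2 + w + 1 = 0) (Us : List ℂ) (V : ℂ) (hV : V ∈ Us)
    (hV0 : V ≠ 0) : gE w Us (w / V) + w * gE w Us (w ^ 2 / V) = 0 := by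
  have h3 := fee_w3 hw
  set Vs := Us.erase V with hVs
  have hp : Us.Perm (V :: Vs) := List.perm_cons_erase hV
  have hprod : ∀ g : ℂ → ℂ, (Us.map g).prod = g V * (Vs.map g).prod := by
    intro g
    rw [(hp.map g).prod_eq, List.map_cons, List.prod_cons]
  have h1 : Ev w (w / V :: Us) =
      (1 - w) * (Vs.map (fun T => (1 - w * (w / V * T)) * (1 - w * (V * T)))).prod * Ev w Vs := by
    rw [Ev_perm w hw (hp.cons _)]
    exact Ev_c1 w hw (w / V) V (div_mul_cancel₀ w hV0) Vs
  have h2 : Ev w (w ^ 2 / V :: Us) =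
      (1 - w) * (Vs.map (fun T => (w ^ 2 / V * T - w) * (T * V - w))).prod * Ev w Vs := by
    rw [Ev_perm w hw (hp.cons _)]
    exact Ev_c2 w hw (w ^ 2 / V) V (div_mul_cancel₀ _ hV0) Vs
  have h4 : (Vs.map (fun T => (1 - w * (w / V * T)) * (1 - w * (V * T)))).prod *
      (Vs.map (fun T => (w / V - T) * (1 - w / V * T))).prod =
      (Vs.map (fun T => (w ^ 2 / V * T - w) * (T * V - w))).prod *
      (Vs.map (fun T => (w ^ 2 / V - T) * (1 - w ^ 2 / V * T))).prod := by
    rw [← List.prod_map_mul, ← List.prod_map_mul]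
    apply congrArg
    apply List.map_congr_left
    intro T _
    exact fee_factor hw hV0 T
  have h5 : ((w / V) ^ 2 - 1) * ((w / V - V) * (1 - w / V * V)) * (1 - w) +
      w * (((w ^ 2 / V) ^ 2 - 1) * ((w ^ 2 / V - V) * (1 - w ^ 2 / V * V)) * (1 - w)) = 0 := by
    have e1 : ((w / V) ^ 2 - 1) * ((w / V - V) * (1 - w / V * V)) * (1 - w) =
        (w ^ 2 - V ^ 2) * (w - V ^ 2) * (1 - w) * (1 - w) / V ^ 3 := by
      rw [div_mul_cancel₀ w hV0]
      field_simp
    have e2 : w * (((w ^ 2 / V) ^ 2 - 1) * ((w ^ 2 / V - V) * (1 - w ^ 2 / V * V)) * (1 - w)) =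
        w * (w ^ 4 - V ^ 2) * (w ^ 2 - V ^ 2) * (1 - w ^ 2) * (1 - w) / V ^ 3 := by
      rw [div_mul_cancel₀ (w ^ 2) hV0]
      field_simp
    rw [e1, e2, ← add_div]
    have e3 : (w ^ 2 - V ^ 2) * (w - V ^ 2) * (1 - w) * (1 - w) +
        w * (w ^ 4 - V ^ 2) * (w ^ 2 - V ^ 2) * (1 - w ^ 2) * (1 - w) = 0 := by
      have e4 : w ^ 4 = w := by linear_combination w * h3
      rw [e4]
      linear_combination (-(w ^ 2 - V ^ 2) * (w - V ^ 2) * (1 - w)) * h3
    rw [e3, zero_div]
  unfold gE
  rw [h1, h2, hprod, hprod]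
  linear_combination
    ((Vs.map (fun T => (w ^ 2 / V * T - w) * (T * V - w))).prod *
      (Vs.map (fun T => (w ^ 2 / V - T) * (1 - w ^ 2 / V * T))).prod * Ev w Vs) * h5 +
    (((w / V) ^ 2 - 1) * ((w / V - V) * (1 - w / V * V)) * (1 - w) * Ev w Vs) * h4

private theorem fee_deg (Us : List ℂ) :
    ((Us.map (fun V => (X - C V) * (1 - C V * X : ℂ[X]))).prod).natDegree ≤ 2 * Us.length := by
  induction Us with
  | nil => simp
  | cons V Us ih =>
    rw [List.map_cons, List.prod_cons, List.length_cons]
    have h1 : ((X - C V) * (1 - C V * X : ℂ[X])).natDegree ≤ 2 := by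
      refine natDegree_mul_le.trans ?_
      have h2 : (X - C V : ℂ[X]).natDegree ≤ 1 := natDegree_X_sub_C_le V
      have h3 : (1 - C V * X : ℂ[X]).natDegree ≤ 1 := by
        refine (natDegree_sub_le _ _).trans (max_le ?_ ?_)
        · rw [natDegree_one]
          exact Nat.zero_le 1
        · exact (natDegree_C_mul_le V X).trans natDegree_X_le
      omega
    refine natDegree_mul_le.trans ?_
    omega

private theorem fee_root {w : ℂ} (hw : w ^ 2 + w + 1 = 0) (j : ℕ) (hj : j % 3 ≠ 2) :
    1 + w * w ^ j + w ^ 2 * (w ^ 2) ^ j = 0 := by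
  have h3 := fee_w3 hw
  have h1 : w ^ j = w ^ (j % 3) := by
    conv_lhs => rw [← Nat.div_add_mod j 3, pow_add, pow_mul, h3, one_pow, one_mul]
  have h2 : (w ^ 2) ^ j = (w ^ 2) ^ (j % 3) := by
    rw [← pow_mul, mul_comm, pow_mul, h1, ← pow_mul, ← pow_mul, mul_comm]
  rw [h1, h2]
  have h4 : j % 3 = 0 ∨ j % 3 = 1 := by omega
  rcases h4 with h4 | h4
  · rw [h4]
    linear_combination hw
  · rw [h4]
    linear_combination hw + w * h3

private theorem fee_pow_inj {w : ℂ} (hw : w ^ 2 + w + 1 = 0) {r s : ℕ} (hr : r < 3) (hs : s < 3)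
    (h : w ^ r = w ^ s) : r = s := by
  have a1 : w ≠ 1 := by
    rintro rfl
    norm_num at hw
  have h3 := fee_w3 hw
  have a0 : w ≠ 0 := by
    rintro rfl
    norm_num at hw
  have a2 : w ^ 2 ≠ 1 := by
    intro h2
    apply a1
    have h4 : w = w ^ 3 := by linear_combination (-w) * h2
    rw [h4, h3]
  have a3 : w ^ 2 ≠ w := by
    intro h2
    apply a1
    have h4 : w * (w - 1) = 0 := by linear_combination h2
    rcases mul_eq_zero.1 h4 with h5 | h5
    · exact absurd h5 a0
    · exact sub_eq_zero.1 h5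
  interval_cases r <;> interval_cases s
  · rfl
  · rw [pow_zero, pow_one] at h
    exact absurd h.symm a1
  · rw [pow_zero] at h
    exact absurd h.symm a2
  · rw [pow_zero, pow_one] at h
    exact absurd h a1
  · rfl
  · rw [pow_one] at h
    exact absurd h.symm a3
  · rw [pow_zero] at h
    exact absurd h a2
  · rw [pow_one] at h
    exact absurd h a3
  · rfl

theorem fe_even_gen (w : ℂ) (hw : w ^ 2 + w + 1 = 0) (Us : List ℂ) (h0 : ∀ V ∈ Us, V ≠ 0)
    (hnd : (Us.map (fun V => V ^ 3)).Nodup) (U : ℂ) :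
    gE w Us U + w * gE w Us (w * U) + w ^ 2 * gE w Us (w ^ 2 * U) = 0 := by
  classical
  have h3 := fee_w3 hw
  have a0 : w ≠ 0 := by
    rintro rfl
    norm_num at hw
  obtain ⟨P, hP, hPe⟩ := Ev_poly w Us
  set G : ℂ[X] := (X ^ 2 - 1) * P * (Us.map (fun V => (X - C V) * (1 - C V * X : ℂ[X]))).prod with hG
  have hGe : ∀ U, G.eval U = gE w Us U := by
    intro U
    unfold gE
    rw [hPe U, hG, eval_mul, eval_mul, eval_sub, eval_pow, eval_X, eval_one, eval_list_prod,
      List.map_map]
    congr 1
    apply congrArg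
    apply List.map_congr_left
    intro V _
    show ((X - C V) * (1 - C V * X : ℂ[X])).eval U = _
    rw [eval_mul, eval_sub, eval_sub, eval_mul, eval_X, eval_C, eval_one, mul_comm V U]
  set T : ℂ[X] := G + C w * G.comp (C w * X) + C (w ^ 2) * G.comp (C (w ^ 2) * X) with hT
  have hTe : ∀ U, T.eval U = gE w Us U + w * gE w Us (w * U) + w ^ 2 * gE w Us (w ^ 2 * U) := by
    intro U
    have e1 : (G.comp (C w * X)).eval U = gE w Us (w * U) := by
      rw [eval_comp, eval_C_mul, eval_X, hGe]
    have e2 : (G.comp (C (w ^ 2) * X)).eval U = gE w Us (w ^ 2 * U) := by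
      rw [eval_comp, eval_C_mul, eval_X, hGe]
    rw [hT, eval_add, eval_add, eval_C_mul, eval_C_mul, e1, e2, hGe]
  have hTc : ∀ j, T.coeff j = G.coeff j * (1 + w * w ^ j + w ^ 2 * (w ^ 2) ^ j) := by
    intro j
    rw [hT, coeff_add, coeff_add, coeff_C_mul, coeff_C_mul, comp_C_mul_X_coeff, comp_C_mul_X_coeff]
    ring
  have hT0 : T = 0 := by
    by_cases hk : Us.length = 0
    · have hP0 : P = 0 := by
        rw [hk] at hP
        by_contra hne
        rw [degree_eq_natDegree hne] at hP
        exact absurd (WithBot.coe_lt_coe.1 hP) (Nat.not_lt_zero _)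
      have hG0 : G = 0 := by rw [hG, hP0, mul_zero, zero_mul]
      rw [hT, hG0, zero_comp, zero_comp, mul_zero, mul_zero, add_zero, add_zero]
    · have hk1 : 0 < Us.length := Nat.pos_of_ne_zero hk
      have hPd : P.natDegree ≤ Us.length - 1 := by
        have h4 : P.natDegree < Us.length := by
          by_cases hP0 : P = 0
          · rw [hP0, natDegree_zero]
            exact hk1
          · rw [degree_eq_natDegree hP0] at hP
            exact_mod_cast hP
        omega
      have hGd : G.natDegree ≤ 3 * Us.length + 1 := by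
        have h4 : (X ^ 2 - 1 : ℂ[X]).natDegree ≤ 2 := by
          refine (natDegree_sub_le _ _).trans (max_le ?_ ?_)
          · exact natDegree_X_pow_le 2
          · rw [natDegree_one]
            exact Nat.zero_le 2
        have h5 := fee_deg Us
        have h6 : ((X ^ 2 - 1 : ℂ[X]) * P).natDegree ≤ 2 + (Us.length - 1) :=
          natDegree_mul_le.trans (by omega)
        rw [hG]
        refine natDegree_mul_le.trans ?_
        omega
      have hTd : T.natDegree < 3 * Us.length := by
        have h4 : T.natDegree ≤ 3 * Us.length - 1 := by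
          rw [natDegree_le_iff_coeff_eq_zero]
          intro N hN
          rw [hTc N]
          by_cases h5 : 3 * Us.length + 1 < N
          · rw [coeff_eq_zero_of_natDegree_lt (lt_of_le_of_lt hGd h5), zero_mul]
          · rw [fee_root hw N (by omega), mul_zero]
        omega
      have hUnd : Us.Nodup := List.Nodup.of_map _ hnd
      set s : Finset ℂ := (Finset.range 3 ×ˢ Us.toFinset).image (fun p => w ^ p.1 / p.2) with hs
      have hinj : Set.InjOn (fun p : ℕ × ℂ => w ^ p.1 / p.2)
          (Finset.range 3 ×ˢ Us.toFinset : Finset (ℕ × ℂ)) := by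
        rintro ⟨r, V⟩ hr ⟨r', V'⟩ hr' heq
        rw [Finset.mem_coe, Finset.mem_product, Finset.mem_range, List.mem_toFinset] at hr hr'
        have hV0 := h0 V hr.2
        have hV0' := h0 V' hr'.2
        have heq' : w ^ r / V = w ^ r' / V' := heq
        have hc : V ^ 3 = V' ^ 3 := by
          have h4 := congrArg (fun z => z ^ 3) heq'
          have h5 : (w ^ r / V) ^ 3 = (w ^ r' / V') ^ 3 := h4
          rw [div_pow, div_pow, ← pow_mul, ← pow_mul, mul_comm r, mul_comm r', pow_mul, pow_mul, h3,
            one_pow, one_pow] at h5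
          rw [div_eq_div_iff (pow_ne_zero 3 hV0) (pow_ne_zero 3 hV0'), one_mul, one_mul] at h5
          exact h5.symm
        have hVV : V = V' := List.inj_on_of_nodup_map hnd hr.2 hr'.2 hc
        rw [hVV] at heq'
        have h4 : w ^ r = w ^ r' := by
          rw [div_left_inj' hV0'] at heq'
          exact heq'
        have h5 := fee_pow_inj hw hr.1 hr'.1 h4
        exact Prod.ext h5 hVV
      have hcard : s.card = 3 * Us.length := by
        rw [hs, Finset.card_image_of_injOn hinj, Finset.card_product, Finset.card_range,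
          List.toFinset_card_of_nodup hUnd]
      apply eq_zero_of_natDegree_lt_card_of_eval_eq_zero' T s
      · intro x hx
        rw [hs, Finset.mem_image] at hx
        obtain ⟨⟨r, V⟩, hp, rfl⟩ := hx
        rw [Finset.mem_product, Finset.mem_range, List.mem_toFinset] at hp
        have hr : r < 3 := hp.1
        have hV : V ∈ Us := hp.2
        have hV0 := h0 V hV
        have hg0 : gE w Us (1 / V) = 0 := by
          unfold gE
          have h4 : (Us.map (fun V' => (1 / V - V') * (1 - 1 / V * V'))).prod = 0 := by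
            apply List.prod_eq_zero
            rw [List.mem_map]
            refine ⟨V, hV, ?_⟩
            rw [one_div_mul_cancel hV0, sub_self, mul_zero]
          rw [h4, mul_zero]
        have hn := gE_node w hw Us V hV hV0
        rw [hTe]
        show gE w Us (w ^ r / V) + w * gE w Us (w * (w ^ r / V)) +
          w ^ 2 * gE w Us (w ^ 2 * (w ^ r / V)) = 0
        interval_cases r
        · have e1 : w * (w ^ 0 / V) = w / V := by rw [pow_zero, mul_one_div]
          have e2 : w ^ 2 * (w ^ 0 / V) = w ^ 2 / V := by rw [pow_zero, mul_one_div]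
          rw [e1, e2, pow_zero, hg0]
          linear_combination w * hn
        · have e1 : w * (w ^ 1 / V) = w ^ 2 / V := by rw [pow_one, ← mul_div_assoc, sq]
          have e2 : w ^ 2 * (w ^ 1 / V) = 1 / V := by
            rw [← mul_div_assoc, ← pow_add, h3]
          rw [e1, e2, pow_one, hg0]
          linear_combination hn
        · have e1 : w * (w ^ 2 / V) = 1 / V := by
            rw [← mul_div_assoc, ← pow_succ', h3]
          have e2 : w ^ 2 * (w ^ 2 / V) = w / V := by
            rw [← mul_div_assoc, ← pow_add, pow_succ, h3, one_mul]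
          rw [e1, e2, hg0]
          linear_combination w ^ 2 * hn - gE w Us (w ^ 2 / V) * h3
      · rw [hcard]
        exact hTd
  rw [← hTe U, hT0, eval_zero]

end ODD
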