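import Pool.Agent.ODD.IFA
import Pool.Agent.ODD.IFB

/-!
# PROJECT ODD (MP_d12cfa_co), module FEO: functional equation, odd orders, generic parameters
-/

set_option autoImplicit false

namespace ODD

open Polynomial

/-- the odd function -/
noncomputable def gO (w s : ℂ) (Us : List ℂ) (U : ℂ) : ℂ :=
  (U ^ 2 - 1) * Od w s (U :: Us) * ((U - s) * (U - s * w)) *
    (Us.map (fun V => (U - V) * (1 - U * V))).prod

private theorem feo_w3 {w : ℂ} (hw : w ^ 2 + w + 1 = 0) : w ^ 3 = 1 := by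
  linear_combination (w - 1) * hw

private theorem feo_perm_prod {Us Vs : List ℂ} (h : Us.Perm Vs) (f : ℂ → ℂ) :
    (Us.map f).prod = (Vs.map f).prod := (h.map f).prod_eq

private theorem feo_scal {w : ℂ} (hw : w ^ 2 + w + 1 = 0) {V v : ℂ} (hv : v * V = 1) :
    ((w * v) ^ 2 - 1) * (w * v - V) * (1 - w * v * V) +
      w * (((w ^ 2 * v) ^ 2 - 1) * (w ^ 2 * v - V) * (1 - w ^ 2 * v * V)) = 0 := by
  have hw3 := feo_w3 hw
  have h1 : 1 - w * v * V = 1 - w := by linear_combination (-w) * hv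
  have h2 : 1 - w ^ 2 * v * V = 1 - w ^ 2 := by linear_combination (-w ^ 2) * hv
  rw [h1, h2]
  have h3 : ((w * v) ^ 2 - 1) * (w * v - V) = v ^ 3 + v + V := by
    linear_combination (v ^ 3) * hw3 - (w ^ 2 * v) * hv - v * hw
  have h4 : ((w ^ 2 * v) ^ 2 - 1) * (w ^ 2 * v - V) = v ^ 3 + v + V := by
    linear_combination (v ^ 3 * (w ^ 3 + 1)) * hw3 - (w ^ 4 * v) * hv - (w * v) * hw3 - v * hw
  rw [h3, h4]
  linear_combination (-(v ^ 3 + v + V)) * hw3

private theorem feo_cub {w : ℂ} (hw : w ^ 2 + w + 1 = 0) (s u : ℂ) :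
    (u - s * w ^ 2) * ((u - s) * (u - s * w)) = u ^ 3 - s ^ 3 := by
  have hw3 := feo_w3 hw
  linear_combination (-u ^ 2 * s + u * s ^ 2 * w) * hw - s ^ 3 * hw3

private theorem feo_alg {w : ℂ} (hw : w ^ 2 + w + 1 = 0) (s : ℂ) {V v P1 P2 P3 P4 O : ℂ}
    (hv : v * V = 1) (q : P1 * P2 = P3 * P4) :
    ((w * v) ^ 2 - 1) * ((1 - w) * (w * v - s * w ^ 2) * (V - s * w ^ 2) * P1 * O) *
        ((w * v - s) * (w * v - s * w)) * ((w * v - V) * (1 - w * v * V) * P2) +
      w * (((w ^ 2 * v) ^ 2 - 1) *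
        ((1 - w) * (w ^ 2 * v - s * w ^ 2) * (V - s * w ^ 2) * P3 * O) *
        ((w ^ 2 * v - s) * (w ^ 2 * v - s * w)) *
        ((w ^ 2 * v - V) * (1 - w ^ 2 * v * V) * P4)) = 0 := by
  have hsc := feo_scal hw hv
  have hw3 := feo_w3 hw
  have k1 := feo_cub hw s (w * v)
  have k2 := feo_cub hw s (w ^ 2 * v)
  have k3 : (w * v) ^ 3 - s ^ 3 = v ^ 3 - s ^ 3 := by linear_combination (v ^ 3) * hw3
  have k4 : (w ^ 2 * v) ^ 3 - s ^ 3 = v ^ 3 - s ^ 3 := by
    linear_combination (v ^ 3 * (w ^ 3 + 1)) * hw3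
  rw [k3] at k1
  rw [k4] at k2
  linear_combination ((1 - w) * (V - s * w ^ 2) * O) *
    (((w * v) ^ 2 - 1) * (w * v - V) * (1 - w * v * V) * P1 * P2 * k1 +
     w * (((w ^ 2 * v) ^ 2 - 1) * (w ^ 2 * v - V) * (1 - w ^ 2 * v * V)) * P3 * P4 * k2 +
     (v ^ 3 - s ^ 3) * P1 * P2 * hsc -
     (v ^ 3 - s ^ 3) * w * (((w ^ 2 * v) ^ 2 - 1) * (w ^ 2 * v - V) * (1 - w ^ 2 * v * V)) * q)

theorem gO_node (w s : ℂ) (hw : w ^ 2 + w + 1 = 0) (hs : s ^ 2 = 1) (Us : List ℂ) (V : ℂ)
    (hV : V ∈ Us) (hV0 : V ≠ 0) : gO w s Us (w / V) + w * gO w s Us (w ^ 2 / V) = 0 := by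
  obtain ⟨Vs, hp⟩ : ∃ Vs, Us.Perm (V :: Vs) := ⟨Us.erase V, List.perm_cons_erase hV⟩
  have hw3 := feo_w3 hw
  obtain ⟨v, hv⟩ : ∃ v, v * V = 1 := ⟨V⁻¹, inv_mul_cancel₀ hV0⟩
  have e1 : w / V = w * v := by
    rw [div_eq_iff hV0]
    linear_combination (-w) * hv
  have e2 : w ^ 2 / V = w ^ 2 * v := by
    rw [div_eq_iff hV0]
    linear_combination (-w ^ 2) * hv
  rw [e1, e2]
  have o1 : Od w s (w * v :: Us) = (1 - w) * (w * v - s * w ^ 2) * (V - s * w ^ 2) *
      (Vs.map (fun T => (1 - w * (w * v * T)) * (1 - w * (V * T)))).prod * Od w s Vs := by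
    rw [Od_perm w s hw hs (hp.cons (w * v))]
    exact Od_c1 w s hw hs (w * v) V (by linear_combination w * hv) Vs
  have o2 : Od w s (w ^ 2 * v :: Us) = (1 - w) * (w ^ 2 * v - s * w ^ 2) * (V - s * w ^ 2) *
      (Vs.map (fun T => (w ^ 2 * v * T - w) * (T * V - w))).prod * Od w s Vs := by
    rw [Od_perm w s hw hs (hp.cons (w ^ 2 * v))]
    exact Od_c2 w s hw hs (w ^ 2 * v) V (by linear_combination (w ^ 2) * hv) Vs
  have q : (Vs.map (fun T => (1 - w * (w * v * T)) * (1 - w * (V * T)))).prod *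
      (Vs.map (fun T => (w * v - T) * (1 - w * v * T))).prod =
      (Vs.map (fun T => (w ^ 2 * v * T - w) * (T * V - w))).prod *
      (Vs.map (fun T => (w ^ 2 * v - T) * (1 - w ^ 2 * v * T))).prod := by
    rw [← List.prod_map_mul, ← List.prod_map_mul]
    congr 1
    refine List.map_congr_left fun T _ => ?_
    have f1 : (1 - w * (V * T)) * (w * v - T) = w * (v + T + V * T ^ 2) := by
      linear_combination (-T) * hw - (w ^ 2 * T) * hv
    have f2 : -w * ((T * V - w) * (w ^ 2 * v - T)) = w * (v + T + V * T ^ 2) := by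
      linear_combination (-w ^ 3 * T) * hv - (w * T) * hw + (w * v) * hw3
    linear_combination ((1 - w ^ 2 * v * T) * (1 - w * v * T)) * (f1 - f2)
  unfold gO
  rw [o1, o2, feo_perm_prod hp, feo_perm_prod hp, List.map_cons, List.map_cons, List.prod_cons,
    List.prod_cons]
  exact feo_alg hw s hv q

theorem gO_root (w s : ℂ) (hw : w ^ 2 + w + 1 = 0) (hs : s ^ 2 = 1) (Us : List ℂ) :
    gO w s Us (s * w ^ 2) + w * gO w s Us (w * (s * w ^ 2)) +
        w ^ 2 * gO w s Us (w ^ 2 * (s * w ^ 2)) =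
      3 * (w - 1) * (Us.map (fun V => s * w ^ 2 * (V - s * w ^ 2))).prod * Ev w Us *
        (s * w ^ 2) ^ 2 * (Us.map (fun V => 1 - V ^ 3 * (s * w ^ 2) ^ 3)).prod := by
  have hw3 := feo_w3 hw
  have z1 : gO w s Us (w * (s * w ^ 2)) = 0 := by
    unfold gO
    have : w * (s * w ^ 2) - s = 0 := by linear_combination s * hw3
    rw [this]
    ring
  have z2 : gO w s Us (w ^ 2 * (s * w ^ 2)) = 0 := by
    unfold gO
    have : w ^ 2 * (s * w ^ 2) - s * w = 0 := by linear_combination (s * w) * hw3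
    rw [this]
    ring
  rw [z1, z2, mul_zero, mul_zero, add_zero, add_zero]
  unfold gO
  rw [Od_root w s hw hs Us]
  have q : (Us.map (fun V => (1 - s * V) * (V - s * w ^ 2))).prod *
      (Us.map (fun V => (s * w ^ 2 - V) * (1 - s * w ^ 2 * V))).prod =
      (Us.map (fun V => s * w ^ 2 * (V - s * w ^ 2))).prod *
      (Us.map (fun V => 1 - V ^ 3 * (s * w ^ 2) ^ 3)).prod := by
    rw [← List.prod_map_mul, ← List.prod_map_mul]
    congr 1
    refine List.map_congr_left fun V _ => ?_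
    have g1 : (s * w ^ 2) ^ 3 = s := by
      linear_combination (s ^ 3 * (w ^ 3 + 1)) * hw3 + s * hs
    have g2 : 1 - V ^ 3 * s = (1 - s * V) * ((1 - s * w * V) * (1 - s * w ^ 2 * V)) := by
      have h := feo_cub hw (s * V) 1
      linear_combination -h + (s * V ^ 3) * hs
    have g3 : s * w ^ 2 * (1 - s * w * V) = s * w ^ 2 - V := by
      linear_combination (-w ^ 3 * V) * hs - V * hw3
    rw [g1, g2]
    linear_combination (-(1 - s * V) * (V - s * w ^ 2) * (1 - s * w ^ 2 * V)) * g3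
  have e1 : ((s * w ^ 2) ^ 2 - 1) * ((s * w ^ 2 - s) * (s * w ^ 2 - s * w)) =
      3 * (w - 1) * (s * w ^ 2) ^ 2 := by
    have a1 : (s * w ^ 2) ^ 2 = w := by linear_combination (w ^ 4) * hs + w * hw3
    rw [a1]
    linear_combination ((w - 1) * (w ^ 2 - 1) * (w ^ 2 - w)) * hs +
      (w * (w - 1)) * hw3 - (w * (w - 1)) * hw
  generalize (Us.map (fun V => (1 - s * V) * (V - s * w ^ 2))).prod = A at *
  generalize (Us.map (fun V => (s * w ^ 2 - V) * (1 - s * w ^ 2 * V))).prod = B at *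
  generalize (Us.map (fun V => s * w ^ 2 * (V - s * w ^ 2))).prod = D at *
  generalize (Us.map (fun V => 1 - V ^ 3 * (s * w ^ 2) ^ 3)).prod = E at *
  generalize Ev w Us = F at *
  linear_combination (A * B * F) * e1 + (3 * (w - 1) * (s * w ^ 2) ^ 2 * F) * q

private theorem feo_nd1 (Us : List ℂ) :
    (Us.map (fun V : ℂ => (X - C V) * (1 - X * C V))).prod.natDegree ≤ 2 * Us.length := by
  induction Us with
  | nil => simp
  | cons V Us ih =>
    rw [List.map_cons, List.prod_cons, List.length_cons]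
    refine natDegree_mul_le.trans ?_
    have h1 : ((X - C V) * (1 - X * C V)).natDegree ≤ 2 := by
      compute_degree
    omega

private theorem feo_nd2 (Us : List ℂ) :
    (Us.map (fun V : ℂ => (1 : ℂ[X]) - C (V ^ 3) * X ^ 3)).prod.natDegree ≤ 3 * Us.length := by
  induction Us with
  | nil => simp
  | cons V Us ih =>
    rw [List.map_cons, List.prod_cons, List.length_cons]
    refine natDegree_mul_le.trans ?_
    have h1 : ((1 : ℂ[X]) - C (V ^ 3) * X ^ 3).natDegree ≤ 3 := by
      compute_degree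
    omega

private theorem feo_eval (Us : List ℂ) (f : ℂ → ℂ[X]) (U : ℂ) :
    (Us.map f).prod.eval U = (Us.map (fun V => (f V).eval U)).prod := by
  induction Us with
  | nil => simp
  | cons V Us ih => rw [List.map_cons, List.prod_cons, eval_mul, ih, List.map_cons, List.prod_cons]

private theorem feo_pow {w : ℂ} (hw1 : w ≠ 1) (hw2 : w ^ 2 ≠ 1) (hw21 : w ^ 2 ≠ w) {m n : ℕ}
    (hm : m < 3) (hn : n < 3) (h : w ^ m = w ^ n) : m = n := by
  interval_cases m <;> interval_cases n
  · rfl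
  · rw [pow_zero, pow_one] at h
    exact absurd h.symm hw1
  · rw [pow_zero] at h
    exact absurd h.symm hw2
  · rw [pow_zero, pow_one] at h
    exact absurd h hw1
  · rfl
  · rw [pow_one] at h
    exact absurd h.symm hw21
  · rw [pow_zero] at h
    exact absurd h hw2
  · rw [pow_one] at h
    exact absurd h hw21
  · rfl

/-- a polynomial of degree at most `3 k + 4` with `T(w U) = w ^ 2 T(U)` and enough zeros is `0` -/
private theorem feo_zero {w : ℂ} (hw : w ^ 2 + w + 1 = 0) {D : ℂ[X]} {k : ℕ}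
    (hd : D.natDegree ≤ 3 * k + 4) (h0 : D.coeff 0 = 0) (h1 : D.coeff 1 = 0)
    (hT : ∀ U, D.eval (w * U) = w ^ 2 * D.eval U) (b : Fin (k + 1) → ℂ)
    (hb0 : ∀ i, b i ≠ 0) (hb : ∀ i j, b i ^ 3 = b j ^ 3 → i = j)
    (hz : ∀ i, D.eval (b i) = 0) : D = 0 := by
  have hw3 := feo_w3 hw
  have hX : X ^ 2 ∣ D := by
    rw [X_pow_dvd_iff]
    intro d hd
    interval_cases d
    · exact h0
    · exact h1
  obtain ⟨Q, hQ⟩ := hX
  by_contra hne
  have hQ0 : Q ≠ 0 := by
    rintro rfl
    exact hne (by rw [hQ, mul_zero])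
  have hdQ : Q.natDegree + 2 = D.natDegree := by
    rw [hQ, natDegree_mul (pow_ne_zero _ X_ne_zero) hQ0, natDegree_X_pow]
    ring
  have hw0 : w ≠ 0 := by
    rintro rfl
    norm_num at hw
  have hw1 : w ≠ 1 := by
    rintro rfl
    norm_num at hw
  have hw2 : w ^ 2 ≠ 1 := by
    intro h
    rw [h] at hw
    have h2 : w = -2 := by linear_combination hw
    rw [h2] at h
    norm_num at h
  have hw21 : w ^ 2 ≠ w := by
    intro h
    rw [h] at hw
    have h2 : w = -1 / 2 := by linear_combination hw / 2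
    rw [h2] at h
    norm_num at h
  have hinj : Function.Injective (fun x : Fin (k + 1) × Fin 3 => w ^ (x.2 : ℕ) * b x.1) := by
    rintro ⟨i, r⟩ ⟨j, t⟩ h
    have h' : w ^ (r : ℕ) * b i = w ^ (t : ℕ) * b j := h
    have hc : ∀ n : ℕ, (w ^ n) ^ 3 = 1 := by
      intro n
      rw [← pow_mul, mul_comm, pow_mul, hw3, one_pow]
    have hij : i = j := by
      apply hb
      have h2 := congrArg (fun z : ℂ => z ^ 3) h'
      simp only [mul_pow] at h2
      rwa [hc, hc, one_mul, one_mul] at h2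
    subst hij
    have h3 := mul_right_cancel₀ (hb0 i) h'
    have hrt : r = t := Fin.ext (feo_pow hw1 hw2 hw21 r.2 t.2 h3)
    rw [hrt]
  have hev : ∀ (i : Fin (k + 1)) (r : Fin 3), Q.eval (w ^ (r : ℕ) * b i) = 0 := by
    intro i r
    have h2 : D.eval (w ^ (r : ℕ) * b i) = 0 := by
      fin_cases r
      · simpa using hz i
      · show D.eval (w ^ 1 * b i) = 0
        rw [pow_one, hT, hz, mul_zero]
      · show D.eval (w ^ 2 * b i) = 0
        rw [show w ^ 2 * b i = w * (w * b i) by ring, hT, hT, hz, mul_zero, mul_zero]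
    rw [hQ, eval_mul, eval_pow, eval_X] at h2
    exact (mul_eq_zero.1 h2).resolve_left (pow_ne_zero _ (mul_ne_zero (pow_ne_zero _ hw0) (hb0 i)))
  apply hQ0
  apply Polynomial.eq_zero_of_natDegree_lt_card_of_eval_eq_zero Q hinj
  · rintro ⟨i, r⟩
    exact hev i r
  · rw [Fintype.card_prod, Fintype.card_fin, Fintype.card_fin]
    omega

private theorem feo_coeff (G : ℂ[X]) (w : ℂ) (n : ℕ) :
    (G.comp (C w * X)).coeff n = G.coeff n * w ^ n := by
  rw [comp_C_mul_X_coeff]

theorem fe_odd_gen (w s : ℂ) (hw : w ^ 2 + w + 1 = 0) (hs : s ^ 2 = 1) (Us : List ℂ)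
    (h0 : ∀ V ∈ Us, V ≠ 0) (h3 : ∀ V ∈ Us, V ^ 3 ≠ s)
    (hnd : (Us.map (fun V => V ^ 3)).Nodup) (U : ℂ) :
    gO w s Us U + w * gO w s Us (w * U) + w ^ 2 * gO w s Us (w ^ 2 * U) =
      3 * (w - 1) * (Us.map (fun V => s * w ^ 2 * (V - s * w ^ 2))).prod * Ev w Us *
        U ^ 2 * (Us.map (fun V => 1 - V ^ 3 * U ^ 3)).prod := by
  have hw3 := feo_w3 hw
  obtain ⟨P, hPd, hP⟩ := Od_poly w s Us
  set k := Us.length with hk
  have hPn : P.natDegree ≤ k := by
    rcases eq_or_ne P 0 with rfl | h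
    · simp
    · rw [degree_eq_natDegree h] at hPd
      have := WithBot.coe_lt_coe.1 hPd
      exact Nat.lt_succ_iff.1 (by exact_mod_cast this)
  set G : ℂ[X] := (X ^ 2 - 1) * P * ((X - C s) * (X - C (s * w))) *
    (Us.map (fun V : ℂ => (X - C V) * (1 - X * C V))).prod with hG
  have hGe : ∀ U, gO w s Us U = G.eval U := by
    intro U
    rw [hG, gO, hP U]
    simp only [eval_mul, eval_sub, eval_pow, eval_X, eval_one, eval_C, feo_eval]
  have hGn : G.natDegree ≤ 3 * k + 4 := by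
    rw [hG]
    refine natDegree_mul_le.trans ?_
    have a1 := feo_nd1 Us
    have a2 : ((X ^ 2 - 1) * P * ((X - C s) * (X - C (s * w)))).natDegree ≤ 2 + k + 2 := by
      refine natDegree_mul_le.trans (add_le_add ?_ ?_)
      · refine natDegree_mul_le.trans (add_le_add ?_ hPn)
        compute_degree
      · compute_degree
    omega
  set κ : ℂ := 3 * (w - 1) * (Us.map (fun V => s * w ^ 2 * (V - s * w ^ 2))).prod * Ev w Us
    with hκ
  set R : ℂ[X] := (Us.map (fun V : ℂ => (1 : ℂ[X]) - C (V ^ 3) * X ^ 3)).prod with hR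
  set D : ℂ[X] := G + C w * G.comp (C w * X) + C (w ^ 2) * G.comp (C (w ^ 2) * X) -
    C κ * (X ^ 2 * R) with hD
  have hDe : ∀ U, D.eval U = gO w s Us U + w * gO w s Us (w * U) +
      w ^ 2 * gO w s Us (w ^ 2 * U) -
      κ * U ^ 2 * (Us.map (fun V => 1 - V ^ 3 * U ^ 3)).prod := by
    intro U
    rw [hD, hGe, hGe, hGe, hR]
    simp only [eval_mul, eval_sub, eval_add, eval_pow, eval_X, eval_one, eval_C, feo_eval,
      eval_comp]
    ring
  have hD0 : D = 0 := by
    have hcomp : ∀ c : ℂ, (G.comp (C c * X)).natDegree ≤ 3 * k + 4 := by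
      intro c
      refine natDegree_comp_le.trans ?_
      have : (C c * X : ℂ[X]).natDegree ≤ 1 := by compute_degree
      nlinarith
    have hs0 : s ≠ 0 := by
      rintro rfl
      norm_num at hs
    have hw0 : w ≠ 0 := by
      rintro rfl
      norm_num at hw
    have hb0 : s * w ^ 2 ≠ 0 := mul_ne_zero hs0 (pow_ne_zero _ hw0)
    have g1 : (s * w ^ 2) ^ 3 = s := by
      linear_combination (s ^ 3 * (w ^ 3 + 1)) * hw3 + s * hs
    have inv3 : ∀ V : ℂ, V ≠ 0 → V⁻¹ ^ 3 = s → V ^ 3 = s := by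
      intro V hV h
      have h4 : V ^ 3 * V⁻¹ ^ 3 = 1 := by
        rw [← mul_pow, mul_inv_cancel₀ hV, one_pow]
      rw [h] at h4
      linear_combination s * h4 - V ^ 3 * hs
    have hinj : ∀ i j : Fin k, (Us.get i) ^ 3 = (Us.get j) ^ 3 → i = j := by
      intro i j h
      have h5 := List.nodup_iff_injective_get.1 hnd
        (a₁ := ⟨i, by rw [List.length_map]; exact i.2⟩)
        (a₂ := ⟨j, by rw [List.length_map]; exact j.2⟩) (by simpa using h)
      exact Fin.ext (by simpa using h5)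
    refine feo_zero hw (k := k) ?_ ?_ ?_ ?_
      (Fin.cons (s * w ^ 2) (fun i : Fin k => (Us.get i)⁻¹)) ?_ ?_ ?_
    · rw [hD]
      refine (natDegree_sub_le _ _).trans (max_le ?_ ?_)
      · refine (natDegree_add_le _ _).trans (max_le ?_ ?_)
        · refine (natDegree_add_le _ _).trans (max_le hGn ?_)
          exact (natDegree_C_mul_le _ _).trans (hcomp w)
        · exact (natDegree_C_mul_le _ _).trans (hcomp (w ^ 2))
      · refine (natDegree_C_mul_le _ _).trans ?_
        refine natDegree_mul_le.trans ?_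
        have a1 : R.natDegree ≤ 3 * k := feo_nd2 Us
        rw [natDegree_X_pow]
        omega
    · rw [coeff_zero_eq_eval_zero, hDe]
      simp only [mul_zero]
      linear_combination (gO w s Us 0) * hw
    · rw [hD]
      simp only [coeff_sub, coeff_add, coeff_C_mul, feo_coeff, coeff_X_pow_mul']
      norm_num
      linear_combination (G.coeff 1) * (hw + w * hw3)
    · intro U
      rw [hDe, hDe]
      have a1 : w ^ 2 * (w * U) = U := by linear_combination U * hw3
      have a2 : w * (w * U) = w ^ 2 * U := by ring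
      have a3 : ∀ V : ℂ, 1 - V ^ 3 * (w * U) ^ 3 = 1 - V ^ 3 * U ^ 3 := by
        intro V
        linear_combination (-(V ^ 3 * U ^ 3)) * hw3
      simp only [a1, a2, a3]
      linear_combination (-(w * gO w s Us (w ^ 2 * U)) - gO w s Us (w * U)) * hw3
    · intro i
      refine Fin.cases ?_ (fun i => ?_) i
      · simpa using hb0
      · simpa using h0 _ (List.getElem_mem i.2)
    · intro i j
      refine Fin.cases ?_ (fun i => ?_) i
      · refine Fin.cases (fun _ => rfl) (fun j => ?_) j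
        intro h
        simp only [Fin.cons_zero, Fin.cons_succ, g1] at h
        exact absurd (inv3 _ (h0 _ (List.get_mem Us j)) h.symm) (h3 _ (List.get_mem Us j))
      · refine Fin.cases (fun h => ?_) (fun j h => ?_) j
        · simp only [Fin.cons_zero, Fin.cons_succ, g1] at h
          exact absurd (inv3 _ (h0 _ (List.get_mem Us i)) h) (h3 _ (List.get_mem Us i))
        · simp only [Fin.cons_succ, inv_pow, inv_inj] at h
          rw [hinj i j h]
    · intro i
      refine Fin.cases ?_ (fun i => ?_) i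
      · rw [Fin.cons_zero, hDe, gO_root w s hw hs Us, hκ]
        ring
      · rw [Fin.cons_succ]
        have hm := List.get_mem Us i
        set V := Us.get i with hV
        have hV0 := h0 V hm
        have z0 : gO w s Us V⁻¹ = 0 := by
          unfold gO
          rw [List.prod_eq_zero (List.mem_map.2 ⟨V, hm, by rw [inv_mul_cancel₀ hV0]; ring⟩),
            mul_zero]
        have z1 : (Us.map (fun T => 1 - T ^ 3 * V⁻¹ ^ 3)).prod = 0 := by
          refine List.prod_eq_zero (List.mem_map.2 ⟨V, hm, ?_⟩)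
          rw [← mul_pow, mul_inv_cancel₀ hV0]
          norm_num
        have z2 := gO_node w s hw hs Us V hm hV0
        rw [hDe, z0, z1, ← div_eq_mul_inv, ← div_eq_mul_inv]
        linear_combination w * z2
  have h := hDe U
  rw [hD0, eval_zero] at h
  linear_combination -h

end ODD
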