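import Pool.Agent.ODD.HYA

/-!
# PROJECT ODD (MP_d12cfa_co), module HYC: Chu-Vandermonde

The value at `1` of the normalised polynomial: `sum_{l<=M} (-1)^l C(M,l) (b)_l/(c)_l = (c-b)_M/(c)_M`
by induction on `M` for all `b, c`, applied with `M = 2m-1`, `b = 2/3 - 2m`, `c = 2/3`.
-/

set_option autoImplicit false

namespace ODD

open Finset

/-- rising factorial -/
private def po (b : ℚ) (l : ℕ) : ℚ := ∏ i ∈ range l, (b + i)

private theorem po_succ (b : ℚ) (l : ℕ) : po b (l + 1) = po b l * (b + l) :=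
  prod_range_succ _ _

private theorem po_succ' (b : ℚ) (l : ℕ) : po b (l + 1) = b * po (b + 1) l := by
  unfold po
  rw [prod_range_succ', mul_comm]
  congr 1
  · simp
  · refine prod_congr rfl fun i _ => ?_
    push_cast
    ring

private theorem po_ne {c : ℚ} (hc : ∀ i : ℕ, c + i ≠ 0) (l : ℕ) : po c l ≠ 0 :=
  prod_ne_zero_iff.2 fun i _ => hc i

private theorem pascal (f : ℕ → ℚ) (M : ℕ) :
    ∑ l ∈ range (M + 2), (-1 : ℚ) ^ l * ((M + 1).choose l : ℚ) * f l =
      ∑ l ∈ range (M + 1), (-1 : ℚ) ^ l * (M.choose l : ℚ) * f l -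
        ∑ l ∈ range (M + 1), (-1 : ℚ) ^ l * (M.choose l : ℚ) * f (l + 1) := by
  have h1 : ∑ l ∈ range (M + 1), (-1 : ℚ) ^ l * (M.choose l : ℚ) * f l =
      ∑ l ∈ range (M + 1), (-1 : ℚ) ^ (l + 1) * (M.choose (l + 1) : ℚ) * f (l + 1) + f 0 := by
    have h2 : ∑ l ∈ range (M + 2), (-1 : ℚ) ^ l * (M.choose l : ℚ) * f l =
        ∑ l ∈ range (M + 1), (-1 : ℚ) ^ l * (M.choose l : ℚ) * f l := by
      rw [sum_range_succ, Nat.choose_eq_zero_of_lt (Nat.lt_succ_self M)]
      simp
    rw [← h2, sum_range_succ']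
    simp
  rw [sum_range_succ', h1]
  have h3 : ∑ l ∈ range (M + 1), (-1 : ℚ) ^ (l + 1) * ((M + 1).choose (l + 1) : ℚ) * f (l + 1) =
      ∑ l ∈ range (M + 1), (-1 : ℚ) ^ (l + 1) * (M.choose (l + 1) : ℚ) * f (l + 1) -
        ∑ l ∈ range (M + 1), (-1 : ℚ) ^ l * (M.choose l : ℚ) * f (l + 1) := by
    rw [← sum_sub_distrib]
    refine sum_congr rfl fun l _ => ?_
    rw [Nat.choose_succ_succ]
    push_cast
    ring
  rw [h3]
  simp
  ring

private theorem chu (M : ℕ) : ∀ b c : ℚ, (∀ i : ℕ, c + i ≠ 0) →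
    ∑ l ∈ range (M + 1), (-1 : ℚ) ^ l * (M.choose l : ℚ) * (po b l / po c l) =
      po (c - b) M / po c M := by
  induction M with
  | zero =>
    intro b c _
    simp [po]
  | succ M ih =>
    intro b c hc
    have hc1 : ∀ i : ℕ, c + 1 + i ≠ 0 := by
      intro i
      have := hc (i + 1)
      push_cast at this
      intro h
      apply this
      linarith
    have hc0 : c ≠ 0 := by
      have := hc 0
      simpa using this
    rw [pascal, ih b c hc]
    have h1 : ∑ l ∈ range (M + 1), (-1 : ℚ) ^ l * (M.choose l : ℚ) *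
        (po b (l + 1) / po c (l + 1)) = (b / c) * (po (c - b) M / po (c + 1) M) := by
      have h2 := ih (b + 1) (c + 1) hc1
      rw [show c + 1 - (b + 1) = c - b by ring] at h2
      rw [← h2, mul_sum]
      refine sum_congr rfl fun l _ => ?_
      rw [po_succ' b, po_succ' c]
      have := po_ne hc1 l
      field_simp
    rw [h1]
    have h3 : po c M * (c + M) = c * po (c + 1) M := by
      rw [← po_succ, po_succ']
    have h4 := po_ne hc M
    have h5 := po_ne hc1 M
    have h6 := hc M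
    rw [po_succ (c - b), po_succ c]
    have h7 : po (c + 1) M = po c M * (c + M) / c := by
      field_simp
      linarith
    rw [h7]
    field_simp
    ring

private theorem gam_eq (m : ℕ) (hm : 1 ≤ m) (l : ℕ) :
    gam m l = (-1 : ℚ) ^ l * ((2 * m - 1).choose l : ℚ) *
      (po (2 / 3 - 2 * m) l / po (2 / 3) l) := by
  induction l with
  | zero => simp [gam, po]
  | succ l ih =>
    have h1 : gam m (l + 1) = gam m l *
        ((((l : ℚ) + 1 - 2 * m) * (3 * l + 2 - 6 * m)) / ((l + 1) * (3 * l + 2))) :=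
      prod_range_succ _ _
    have h2 : (((2 * m - 1).choose (l + 1) : ℕ) : ℚ) * (l + 1) =
        ((2 * m - 1).choose l : ℚ) * (2 * m - 1 - l) := by
      have h3 := Nat.choose_succ_right_eq (2 * m - 1) l
      rcases le_or_gt l (2 * m - 1) with hl | hl
      · have h4 : (((2 * m - 1 - l : ℕ)) : ℚ) = 2 * m - 1 - l := by
          rw [Nat.cast_sub hl, Nat.cast_sub (by omega)]
          push_cast
          ring
        rw [← h4]
        exact_mod_cast h3
      · rw [Nat.choose_eq_zero_of_lt hl, Nat.choose_eq_zero_of_lt (by omega)]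
        simp
    have hl1 : (l : ℚ) + 1 ≠ 0 := by positivity
    have hl2 : 3 * (l : ℚ) + 2 ≠ 0 := by positivity
    have h5 : (((2 * m - 1).choose (l + 1) : ℕ) : ℚ) =
        ((2 * m - 1).choose l : ℚ) * (2 * m - 1 - l) / (l + 1) := by
      rw [eq_div_iff hl1]
      exact h2
    have hp : po (2 / 3) l ≠ 0 := po_ne (fun i => by positivity) l
    have hl3 : (2 / 3 : ℚ) + l ≠ 0 := by positivity
    rw [h1, ih, h5, po_succ, po_succ, pow_succ]
    have h6 : (po (2 / 3 - 2 * m) l * (2 / 3 - 2 * m + l)) / (po (2 / 3) l * (2 / 3 + l)) =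
        po (2 / 3 - 2 * m) l / po (2 / 3) l * ((3 * l + 2 - 6 * m) / (3 * l + 2)) := by
      field_simp
      ring
    rw [h6]
    field_simp
    ring

theorem gam_one (m : ℕ) (hm : 1 ≤ m) :
    ∑ l ∈ range (2 * m), gam m l =
      ∏ i ∈ range (2 * m - 1), ((3 * (2 * (m : ℚ) + i)) / (3 * i + 2)) := by
  obtain ⟨M, hM⟩ : ∃ M, 2 * m = M + 1 := ⟨2 * m - 1, by omega⟩
  have hM1 : 2 * m - 1 = M := by omega
  have h1 : ∑ l ∈ range (2 * m), gam m l =
      ∑ l ∈ range (M + 1), (-1 : ℚ) ^ l * (M.choose l : ℚ) *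
        (po (2 / 3 - 2 * m) l / po (2 / 3) l) := by
    rw [hM]
    refine sum_congr rfl fun l _ => ?_
    rw [gam_eq m hm l, hM1]
  rw [h1, chu M _ _ (fun i => by positivity), hM1,
    show (2 / 3 : ℚ) - (2 / 3 - 2 * m) = 2 * m by ring]
  unfold po
  rw [← prod_div_distrib]
  refine prod_congr rfl fun i _ => ?_
  have h2 : (2 / 3 : ℚ) + i ≠ 0 := by positivity
  have h3 : 3 * (i : ℚ) + 2 ≠ 0 := by positivity
  rw [div_eq_div_iff h2 h3]
  ring

end ODD
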