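import Pool.Agent.ODD.HYA

/-!
# PROJECT ODD (MP_d12cfa_co), module HYD: the alternating sum `Pg (n+1) (-1)` (WZ method)
-/

set_option autoImplicit false

namespace ODD

open Finset

/-- the certificate -/
private def Gc (n l : ℕ) : ℚ :=
  (-1) ^ l * gam (n + 2) l * ((l : ℚ) * (l - 1 / 3) * ((6 * (n : ℚ) + 7) *
    (-(l : ℚ) ^ 2 + (18 * n + 25) * l / 3 - (30 * n ^ 2 + 84 * n + 58) / 3)))

private theorem Gc_key (n l : ℕ) :
    (3 * (n : ℚ) + 4) * ((2 * n + 3) * (2 * n + 2) * (2 * n + 10 / 3) * (2 * n + 7 / 3)) *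
        ((-1) ^ l * gam (n + 2) l) +
      (12 * (n : ℚ) + 14) * ((2 * n + 3) * (2 * n + 2) * (2 * n + 10 / 3) * (2 * n + 7 / 3)) *
        ((-1) ^ l * gam (n + 1) l) = Gc n (l + 1) - Gc n l := by
  have hA := gam_shift n l
  have hB := gam_succ (n + 2) l
  unfold Gc
  push_cast at hB ⊢
  linear_combination ((12 * (n : ℚ) + 14) / 9 * (-1) ^ l) * hA +
    (1 / 3 * (-1) ^ l * ((6 * (n : ℚ) + 7) *
      (-((l : ℚ) + 1) ^ 2 + (18 * n + 25) * (l + 1) / 3 - (30 * n ^ 2 + 84 * n + 58) / 3))) * hB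

theorem gam_neg_one (n : ℕ) :
    ∑ l ∈ range (2 * n + 2), (-1) ^ l * gam (n + 1) l =
      -∏ k ∈ range n, (-((12 * (k : ℚ) + 14) / (3 * k + 4))) := by
  induction n with
  | zero => norm_num [gam, Finset.sum_range_succ, Finset.prod_range_succ]
  | succ n ih =>
    have h1 := Finset.sum_range_sub (Gc n) (2 * n + 4)
    have h0 : Gc n 0 = 0 := by
      unfold Gc
      simp
    have h4 : Gc n (2 * n + 4) = 0 := by
      unfold Gc
      rw [gam_zero_of_le (n + 2) (2 * n + 4) (by omega) (by omega)]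
      ring
    rw [← Finset.sum_congr rfl fun l _ => Gc_key n l, Finset.sum_add_distrib, ← Finset.mul_sum,
      ← Finset.mul_sum, h0, h4, sub_zero] at h1
    have h2 : ∑ l ∈ range (2 * n + 4), (-1) ^ l * gam (n + 1) l =
        ∑ l ∈ range (2 * n + 2), (-1) ^ l * gam (n + 1) l := by
      have h3 : 2 * n + 4 = (2 * n + 2) + 1 + 1 := by ring
      rw [h3, Finset.sum_range_succ, Finset.sum_range_succ,
        gam_zero_of_le (n + 1) (2 * n + 2) (by omega) (by omega),
        gam_zero_of_le (n + 1) (2 * n + 2 + 1) (by omega) (by omega)]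
      ring
    rw [h2, ih] at h1
    have h5 : 2 * (n + 1) + 2 = 2 * n + 4 := by ring
    rw [h5, Finset.prod_range_succ]
    have hn : (0 : ℚ) ≤ n := Nat.cast_nonneg n
    have h6 : (3 * (n : ℚ) + 4) ≠ 0 := by positivity
    have h7 : ((2 * (n : ℚ) + 3) * (2 * n + 2) * (2 * n + 10 / 3) * (2 * n + 7 / 3)) ≠ 0 := by
      positivity
    have h8 : (3 * (n : ℚ) + 4) *
          (∑ l ∈ range (2 * n + 4), (-1) ^ l * gam (n + 2) l) =
        (12 * (n : ℚ) + 14) * ∏ k ∈ range n, (-((12 * (k : ℚ) + 14) / (3 * k + 4))) := by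
      apply mul_left_cancel₀ h7
      linear_combination h1
    have h9 : (n + 1 + 1) = n + 2 := rfl
    rw [h9, ← mul_right_inj' h6, h8]
    generalize ∏ k ∈ range n, (-((12 * (k : ℚ) + 14) / (3 * k + 4))) = p
    field_simp

end ODD
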