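import Pool.Agent.ODD.HYA

/-!
# PROJECT ODD (MP_d12cfa_co), module HYE: the weighted alternating sum (WZ method)

The sum satisfies a first order recursion, proved by telescoping with an explicit certificate.
-/

set_option autoImplicit false

namespace ODD

open Finset

/-- the polynomial part of the certificate -/
private def cM (n l : ℚ) : ℚ :=
  12 * l ^ 3 - 6 * (14 * n + 19) * l ^ 2 + (576 * n ^ 2 + 1596 * n + 1082) * l / 3
    - (360 * n ^ 3 + 1608 * n ^ 2 + 2310 * n + 1070) / 3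

/-- the certificate -/
private def cT (n l : ℕ) : ℚ :=
  9 * (3 * (n : ℚ) + 5) * ((-1) ^ l * gam (n + 2) l * (l * (l - 1 / 3)) * cM n l)

private lemma tele (n l : ℕ) :
    ((2 * (n : ℚ) + 3) * (2 * n + 2) * (6 * n + 10) * (6 * n + 7)) *
      ((6 * n + 5) * ((-1) ^ l * gam (n + 2) l * (3 * (n : ℚ) + 5 - 3 * l)) +
        8 * (3 * n + 5) * ((-1) ^ l * gam (n + 1) l * (3 * (n : ℚ) + 2 - 3 * l))) =
      cT n (l + 1) - cT n l := by
  have h1 := gam_succ (n + 2) l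
  have h2 := gam_shift n l
  rw [cT, cT, cM, cM, pow_succ]
  push_cast at h1 ⊢
  linear_combination (8 * (3 * (n : ℚ) + 5) * (-1) ^ l * (3 * (n : ℚ) + 2 - 3 * l)) * h2 +
    (3 * (3 * (n : ℚ) + 5) * (-1) ^ l * (12 * ((l : ℚ) + 1) ^ 3 -
      6 * (14 * n + 19) * ((l : ℚ) + 1) ^ 2 +
      (576 * (n : ℚ) ^ 2 + 1596 * n + 1082) * ((l : ℚ) + 1) / 3
      - (360 * (n : ℚ) ^ 3 + 1608 * (n : ℚ) ^ 2 + 2310 * n + 1070) / 3)) * h1

private lemma gam_W_succ (n : ℕ) :
    ∑ l ∈ range (2 * (n + 1) + 2), (-1) ^ l * gam (n + 1 + 1) l *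
      (3 * ((n + 1 : ℕ) : ℚ) + 2 - 3 * l) =
    (-(8 * (3 * (n : ℚ) + 5) / (6 * n + 5))) *
      ∑ l ∈ range (2 * n + 2), (-1) ^ l * gam (n + 1) l * (3 * (n : ℚ) + 2 - 3 * l) := by
  have h5 : (0 : ℚ) < 6 * (n : ℚ) + 5 := by positivity
  have hK : (0 : ℚ) < (2 * (n : ℚ) + 3) * (2 * n + 2) * (6 * n + 10) * (6 * n + 7) := by
    positivity
  have hs := Finset.sum_range_sub (cT n) (2 * n + 4)
  have hT0 : cT n 0 = 0 := by
    rw [cT]
    push_cast
    ring
  have hT1 : cT n (2 * n + 4) = 0 := by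
    rw [cT, gam_zero_of_le (n + 2) (2 * n + 4) (by omega) (by omega)]
    ring
  rw [hT0, hT1, sub_zero] at hs
  simp only [← tele] at hs
  rw [← Finset.mul_sum, Finset.sum_add_distrib, ← Finset.mul_sum, ← Finset.mul_sum] at hs
  have hs2 := (mul_eq_zero.1 hs).resolve_left hK.ne'
  have hext : ∑ l ∈ range (2 * n + 4), (-1) ^ l * gam (n + 1) l * (3 * (n : ℚ) + 2 - 3 * l) =
      ∑ l ∈ range (2 * n + 2), (-1) ^ l * gam (n + 1) l * (3 * (n : ℚ) + 2 - 3 * l) := by
    rw [Finset.sum_range_succ, Finset.sum_range_succ,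
      gam_zero_of_le (n + 1) (2 * n + 2) (by omega) (by omega),
      gam_zero_of_le (n + 1) (2 * n + 3) (by omega) (by omega)]
    ring
  rw [hext] at hs2
  have e1 : 2 * (n + 1) + 2 = 2 * n + 4 := by ring
  have e2 : ∀ l : ℕ, (3 * ((n + 1 : ℕ) : ℚ) + 2 - 3 * l) = 3 * (n : ℚ) + 5 - 3 * l := by
    intro l
    push_cast
    ring
  have e3 : n + 1 + 1 = n + 2 := rfl
  simp only [e1, e2, e3]
  rw [neg_mul, div_mul_eq_mul_div, ← neg_div, eq_div_iff h5.ne']
  linear_combination hs2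

theorem gam_W (n : ℕ) :
    ∑ l ∈ range (2 * n + 2), (-1) ^ l * gam (n + 1) l * (3 * (n : ℚ) + 2 - 3 * l) =
      4 * ∏ k ∈ range n, (-(8 * (3 * (k : ℚ) + 5) / (6 * k + 5))) := by
  induction n with
  | zero =>
    have h0 : gam 1 0 = 1 := by simp [gam]
    have h1 : gam 1 1 = 2 := by
      have h := gam_succ 1 0
      rw [h0] at h
      push_cast at h
      linarith
    have e : 2 * 0 + 2 = 2 := rfl
    rw [e, Finset.sum_range_succ, Finset.sum_range_succ, Finset.sum_range_zero,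
      Finset.prod_range_zero, Nat.zero_add, h0, h1]
    push_cast
    ring
  | succ n ih =>
    rw [gam_W_succ, ih, Finset.prod_range_succ]
    ring

end ODD
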