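import Pool.Agent.ODD.HYG

/-!
# PROJECT ODD (MP_d12cfa_co), module HYH: recursion of the even numbers (factorials)

`P1q_fact`: the product `P1q` in terms of factorials; `six_fact`: the integers from 1 to `6n+4`
by residue mod 3; `A_rec`: recursion of `Aq`.
-/

set_option autoImplicit false

namespace ODD

open Finset

private theorem hyh_asc (a k : ℕ) :
    (∏ i ∈ range k, ((a : ℚ) + 1 + i)) * (a.factorial : ℚ) = ((a + k).factorial : ℚ) := by
  induction k with
  | zero => simp
  | succ k ih =>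
    rw [prod_range_succ, ← add_assoc, Nat.factorial_succ]
    push_cast
    rw [← ih]
    ring

theorem P1q_fact (n : ℕ) :
    P1q n * ((2 * n + 1).factorial * ∏ i ∈ range (2 * n + 1), (3 * (i : ℚ) + 2)) =
      3 ^ (2 * n + 1) * ((4 * n + 2).factorial : ℚ) := by
  have h1 := hyh_asc (2 * n + 1) (2 * n + 1)
  have h2 : (2 * n + 1) + (2 * n + 1) = 4 * n + 2 := by ring
  rw [h2] at h1
  have h3 : (∏ i ∈ range (2 * n + 1), (3 * (i : ℚ) + 2)) ≠ 0 := by
    apply prod_ne_zero_iff.2
    intro i _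
    positivity
  unfold P1q
  rw [prod_div_distrib, prod_mul_distrib, prod_const, card_range, ← h1]
  have h4 : (∏ i ∈ range (2 * n + 1), (2 * (n : ℚ) + 2 + i)) =
      ∏ i ∈ range (2 * n + 1), (((2 * n + 1 : ℕ) : ℚ) + 1 + i) := by
    apply prod_congr rfl
    intro i _
    push_cast
    ring
  rw [h4]
  field_simp

theorem six_fact (n : ℕ) :
    ((6 * n + 4).factorial : ℚ) = 3 ^ (2 * n + 1) * (2 * n + 1).factorial *
      (∏ l ∈ range (2 * n + 2), (3 * (l : ℚ) + 1)) *
      ∏ l ∈ range (2 * n + 1), (3 * (l : ℚ) + 2) := by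
  induction n with
  | zero =>
    simp [prod_range_succ, Nat.factorial]
    norm_num
  | succ n ih =>
    have e1 : 6 * (n + 1) + 4 = 6 * n + 4 + 1 + 1 + 1 + 1 + 1 + 1 := by ring
    have e2 : 2 * (n + 1) + 1 = 2 * n + 1 + 1 + 1 := by ring
    have e3 : 2 * (n + 1) + 2 = 2 * n + 2 + 1 + 1 := by ring
    rw [e1, e2, e3, prod_range_succ (fun l : ℕ => 3 * (l : ℚ) + 1),
      prod_range_succ (fun l : ℕ => 3 * (l : ℚ) + 1),
      prod_range_succ (fun l : ℕ => 3 * (l : ℚ) + 2),
      prod_range_succ (fun l : ℕ => 3 * (l : ℚ) + 2)]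
    simp only [Nat.factorial_succ (6 * n + 4 + 1 + 1 + 1 + 1 + 1),
      Nat.factorial_succ (6 * n + 4 + 1 + 1 + 1 + 1), Nat.factorial_succ (6 * n + 4 + 1 + 1 + 1),
      Nat.factorial_succ (6 * n + 4 + 1 + 1), Nat.factorial_succ (6 * n + 4 + 1),
      Nat.factorial_succ (6 * n + 4), Nat.factorial_succ (2 * n + 1 + 1),
      Nat.factorial_succ (2 * n + 1), pow_succ]
    push_cast
    rw [ih]
    ring

theorem A_rec (n : ℕ) :
    Aq (n + 1) * (2 * (4 * n + 3).factorial * P1q n) =
      3 ^ (2 * n + 1) * Aq n * (3 ^ (2 * n + 1) * (2 * n + 1).factorial *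
        ∏ l ∈ range (2 * n + 2), (3 * (l : ℚ) + 1)) := by
  have h1 := P1q_fact n
  have h2 := six_fact n
  have f1 : ((4 * n + 2).factorial : ℚ) ≠ 0 := by positivity
  have f2 : ((4 * n + 3).factorial : ℚ) ≠ 0 := by positivity
  have h3 : Aq (n + 1) = Aq n * (((2 * n + 1).factorial * (6 * n + 4).factorial) /
      (2 * (4 * n + 3).factorial * (4 * n + 2).factorial)) := by
    unfold Aq
    rw [prod_range_succ]
    push_cast
    ring
  rw [h3, h2]
  have h4 : (3 : ℚ) ^ (2 * n + 1) * ((4 * n + 2).factorial : ℚ) ≠ 0 := by positivity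
  field_simp
  linear_combination (Aq n) * h1

end ODD
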