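import Pool.Agent.ODD.HYG

/-!
The product formula `F(n)`: recursion (`Fq_succ`) and the identity with the other product formulas
(`F_formula`), by induction.
-/

set_option autoImplicit false

namespace ODD

open Finset

theorem Fq_succ (n : ℕ) :
    Fq (n + 1) * (((4 * n + 3).factorial : ℚ) * ((4 * n + 5).factorial : ℚ)) =
      Fq n * (2 * (3 * n + 5) * (3 * n + 4) * (3 * n + 3) * ((2 * n + 1).factorial : ℚ) *
        ((6 * n + 4).factorial : ℚ)) := by
  have hG : ((2 * n + 3).factorial : ℚ) *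
      (∏ k ∈ range (n + 1), ((2 * (n + 1) + 2 * k + 3).factorial : ℚ)) =
      (∏ k ∈ range n, ((2 * n + 2 * k + 3).factorial : ℚ)) * ((4 * n + 3).factorial : ℚ) *
        ((4 * n + 5).factorial : ℚ) := by
    have h1 : (∏ k ∈ range (n + 1 + 1), ((2 * n + 2 * k + 3).factorial : ℚ)) =
        (∏ k ∈ range (n + 1), ((2 * (n + 1) + 2 * k + 3).factorial : ℚ)) *
          ((2 * n + 3).factorial : ℚ) := by
      rw [prod_range_succ']
      congr 1
      refine prod_congr rfl fun k _ => ?_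
      rw [show 2 * n + 2 * (k + 1) + 3 = 2 * (n + 1) + 2 * k + 3 by ring]
    rw [prod_range_succ, prod_range_succ] at h1
    rw [mul_comm, ← h1, show 2 * n + 2 * n + 3 = 4 * n + 3 by ring,
      show 2 * n + 2 * (n + 1) + 3 = 4 * n + 5 by ring]
  have hP : (((3 * (n + 1) + 2).factorial : ℕ) : ℚ) =
      (3 * n + 5) * (3 * n + 4) * (3 * n + 3) * ((3 * n + 2).factorial : ℚ) := by
    rw [show 3 * (n + 1) + 2 = 3 * n + 2 + 1 + 1 + 1 by ring, Nat.factorial_succ,
      Nat.factorial_succ, Nat.factorial_succ]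
    push_cast
    ring
  have hg0 : (∏ k ∈ range n, ((2 * n + 2 * k + 3).factorial : ℚ)) ≠ 0 := by
    refine prod_ne_zero_iff.2 fun k _ => ?_
    exact_mod_cast Nat.factorial_ne_zero _
  have ha0 : ((2 * n + 3).factorial : ℚ) ≠ 0 := by exact_mod_cast Nat.factorial_ne_zero _
  have hb0 : ((2 * n + 1).factorial : ℚ) ≠ 0 := by exact_mod_cast Nat.factorial_ne_zero _
  have hx0 : ((4 * n + 3).factorial : ℚ) ≠ 0 := by exact_mod_cast Nat.factorial_ne_zero _
  have hy0 : ((4 * n + 5).factorial : ℚ) ≠ 0 := by exact_mod_cast Nat.factorial_ne_zero _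
  have hg' : (∏ k ∈ range (n + 1), ((2 * (n + 1) + 2 * k + 3).factorial : ℚ)) =
      (∏ k ∈ range n, ((2 * n + 2 * k + 3).factorial : ℚ)) * ((4 * n + 3).factorial : ℚ) *
        ((4 * n + 5).factorial : ℚ) / ((2 * n + 3).factorial : ℚ) := by
    rw [eq_div_iff ha0, mul_comm]
    exact hG
  unfold Fq
  rw [prod_div_distrib, prod_div_distrib, hg', hP, prod_range_succ,
    show 2 * (n + 1) + 1 = 2 * n + 3 by ring]
  generalize (∏ k ∈ range n, ((2 * n + 2 * k + 3).factorial : ℚ)) = g at hg0 ⊢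
  generalize (∏ k ∈ range n, ((6 * k + 4).factorial : ℚ)) = N
  generalize ((2 * n + 3).factorial : ℚ) = a at ha0 ⊢
  generalize ((2 * n + 1).factorial : ℚ) = b at hb0 ⊢
  generalize ((4 * n + 3).factorial : ℚ) = x at hx0 ⊢
  generalize ((4 * n + 5).factorial : ℚ) = y at hy0 ⊢
  generalize ((3 * n + 2).factorial : ℚ) = P
  generalize ((6 * n + 4).factorial : ℚ) = z
  rw [pow_succ]
  field_simp


theorem F_formula (n : ℕ) :
    3 ^ (3 * n + 1) * Aq n * Wq n = 4 ^ (n + 1) * P1q n * Fq n := by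
  induction n with
  | zero =>
    unfold Aq Wq P1q Fq
    norm_num [Nat.factorial]
  | succ n ih =>
    have hn : (0 : ℚ) ≤ n := Nat.cast_nonneg n
    have hA : Aq (n + 1) = Aq n * ((((2 * n + 1).factorial : ℚ) * ((6 * n + 4).factorial : ℚ)) /
        (2 * ((4 * n + 3).factorial : ℚ) * ((4 * n + 2).factorial : ℚ))) := by
      unfold Aq
      rw [prod_range_succ]
      push_cast
      rfl
    have hW : Wq (n + 1) = Wq n * (8 * (3 * (n : ℚ) + 5) / (6 * n + 5)) := by
      unfold Wq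
      rw [prod_range_succ]
      ring
    have hP := P1q_succ n
    have hF := Fq_succ n
    have hy : ((4 * n + 5).factorial : ℚ) =
        (4 * n + 5) * (4 * n + 4) * ((4 * n + 3).factorial : ℚ) := by
      rw [show 4 * n + 5 = 4 * n + 3 + 1 + 1 by ring, Nat.factorial_succ, Nat.factorial_succ]
      push_cast
      ring
    have hx : ((4 * n + 3).factorial : ℚ) = (4 * n + 3) * ((4 * n + 2).factorial : ℚ) := by
      rw [show 4 * n + 3 = 4 * n + 2 + 1 by ring, Nat.factorial_succ]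
      push_cast
      ring
    have hw0 : ((4 * n + 2).factorial : ℚ) ≠ 0 := by exact_mod_cast Nat.factorial_ne_zero _
    rw [hy, hx] at hF
    rw [hx] at hA
    have d1 : (6 * (n : ℚ) + 5) ≠ 0 := by positivity
    have d2 : (6 * (n : ℚ) + 8) ≠ 0 := by positivity
    have d3 : (4 * (n : ℚ) + 3) ≠ 0 := by positivity
    have d4 : (4 * (n : ℚ) + 5) ≠ 0 := by positivity
    have d5 : (4 * (n : ℚ) + 4) ≠ 0 := by positivity
    generalize ((4 * n + 2).factorial : ℚ) = w at hA hF hw0
    generalize ((2 * n + 1).factorial : ℚ) = p at hA hF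
    generalize ((6 * n + 4).factorial : ℚ) = q at hA hF
    have hP' : P1q (n + 1) = P1q n * (36 * (4 * n + 5) * (4 * n + 3)) /
        ((6 * n + 5) * (6 * n + 8)) := by
      rw [eq_div_iff (mul_ne_zero d1 d2)]
      exact hP
    have hF' : Fq (n + 1) = Fq n * (2 * (3 * n + 5) * (3 * n + 4) * (3 * n + 3) * p * q) /
        (((4 * n + 3) * w) * ((4 * n + 5) * (4 * n + 4) * ((4 * n + 3) * w))) := by
      rw [eq_div_iff (mul_ne_zero (mul_ne_zero d3 hw0) (mul_ne_zero (mul_ne_zero d4 d5)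
        (mul_ne_zero d3 hw0)))]
      exact hF
    have h1 : (3 : ℚ) ^ (3 * (n + 1) + 1) * Aq (n + 1) * Wq (n + 1) =
        27 * (3 ^ (3 * n + 1) * Aq n * Wq n) * ((p * q / (2 * ((4 * n + 3) * w) * w)) *
          (8 * (3 * (n : ℚ) + 5) / (6 * n + 5))) := by
      rw [hA, hW, show 3 * (n + 1) + 1 = 3 * n + 1 + 3 by ring, pow_add]
      ring
    rw [h1, ih, hP', hF', pow_succ 4 (n + 1)]
    field_simp
    ring


end ODD
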