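import Pool.Agent.ODD.LAG

/-!
# PROJECT ODD (MP_d12cfa_co), module PSI: expansion of `U P(U^3)` at `U = 1`

`Yg n = P(1) * sum_{j <= n+1} psq n j X^(n+1-j) (X-1)^(2j)`, `P = Pg (n+1)`.
Claim: `(X-1)^(2n+4)` divides `X * expand 3 P - expand 3 (Yg n)` (for `n >= 1`). Proof: a second
order differential operator kills the first polynomial, maps the second one to a multiple of
`(X-1)^(2n+3)`, and its action on `(X-1)^k` is not degenerate for the relevant `k`.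
-/

set_option autoImplicit false

namespace ODD

open Polynomial

def psq (n j : ℕ) : ℚ :=
  ∏ i ∈ Finset.range j,
    (-((3 * (i : ℚ) - 3 * n - 2) * (3 * i - 3 * n - 1)) / (18 * (i + 1) * (2 * i - 4 * n - 1)))

noncomputable def Yg (n : ℕ) : ℂ[X] :=
  C ((Pg (n + 1)).eval 1) *
    ∑ j ∈ Finset.range (n + 2), C ((psq n j : ℚ) : ℂ) * (X ^ (n + 1 - j) * (X - 1) ^ (2 * j))

/-- `x d/dx` -/
private noncomputable def psith (f : ℂ[X]) : ℂ[X] := X * derivative f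

private theorem psith_add (f g : ℂ[X]) : psith (f + g) = psith f + psith g := by
  rw [psith, psith, psith, derivative_add]; ring

private theorem psith_sub (f g : ℂ[X]) : psith (f - g) = psith f - psith g := by
  rw [psith, psith, psith, derivative_sub]; ring

private theorem psith_mul (f g : ℂ[X]) : psith (f * g) = psith f * g + f * psith g := by
  rw [psith, psith, psith, derivative_mul]; ring

private theorem psith_C (c : ℂ) : psith (C c) = 0 := by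
  rw [psith, derivative_C, mul_zero]

private theorem psith_nat (k : ℕ) : psith (k : ℂ[X]) = 0 := by
  rw [psith, derivative_natCast, mul_zero]

private theorem psith_X_pow (k : ℕ) : psith (X ^ k) = (k : ℂ[X]) * X ^ k := by
  rw [psith]
  cases k with
  | zero => simp
  | succ k =>
    rw [derivative_X_pow, Nat.add_sub_cancel, C_eq_natCast]
    ring

private theorem psith_Z (k : ℕ) :
    psith ((X ^ 3 - 1) ^ (k + 1)) = ((k : ℂ[X]) + 1) * (X ^ 3 - 1) ^ k * (3 * X ^ 3) := by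
  rw [psith, derivative_pow, derivative_sub, derivative_one, derivative_X_pow,
    Nat.add_sub_cancel]
  simp only [map_natCast, Nat.cast_add, Nat.cast_one, Nat.cast_ofNat, map_ofNat, map_add, map_one]
  ring

/-- `3 (theta / 3 - m)`, `m = n + 1` -/
private noncomputable def psiE (n : ℕ) (f : ℂ[X]) : ℂ[X] := psith f - (3 * (n : ℂ[X]) + 3) * f

/-- the differential operator -/
private noncomputable def psiL (n : ℕ) (f : ℂ[X]) : ℂ[X] :=
  (1 - X ^ 3) * (psiE n (psiE n f) + (3 * (n : ℂ[X]) + 2) * (3 * (n : ℂ[X]) + 1) * f) +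
    (6 * (n : ℂ[X]) + 3) * (1 + X ^ 3) * psiE n f

private theorem psiE_add (n : ℕ) (f g : ℂ[X]) : psiE n (f + g) = psiE n f + psiE n g := by
  rw [psiE, psiE, psiE, psith_add]; ring

private theorem psiE_Cmul (n : ℕ) (c : ℂ) (f : ℂ[X]) : psiE n (C c * f) = C c * psiE n f := by
  rw [psiE, psiE, psith_mul, psith_C]; ring

private theorem psiL_add (n : ℕ) (f g : ℂ[X]) : psiL n (f + g) = psiL n f + psiL n g := by
  rw [psiL, psiL, psiL, psiE_add, psiE_add]; ring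

private theorem psiL_Cmul (n : ℕ) (c : ℂ) (f : ℂ[X]) : psiL n (C c * f) = C c * psiL n f := by
  rw [psiL, psiL, psiE_Cmul, psiE_Cmul]; ring

private theorem psiL_zero (n : ℕ) : psiL n 0 = 0 := by
  have h := psiL_Cmul n 0 0
  rw [C_0, zero_mul, zero_mul] at h
  exact h

private theorem psiL_sub (n : ℕ) (f g : ℂ[X]) : psiL n (f - g) = psiL n f - psiL n g := by
  have h1 : f - g = f + C (-1) * g := by rw [C_neg, C_1]; ring
  rw [h1, psiL_add, psiL_Cmul, C_neg, C_1]; ring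

private theorem psiL_sum (n : ℕ) (s : Finset ℕ) (f : ℕ → ℂ[X]) :
    psiL n (∑ i ∈ s, f i) = ∑ i ∈ s, psiL n (f i) := by
  classical
  induction s using Finset.induction_on with
  | empty => rw [Finset.sum_empty, Finset.sum_empty, psiL_zero]
  | insert i s hi ih => rw [Finset.sum_insert hi, Finset.sum_insert hi, psiL_add, ih]

private theorem psiL_mon (n l : ℕ) : psiL n (X ^ (3 * l + 1)) =
    3 * (l : ℂ[X]) * (3 * (l : ℂ[X]) - 1) * X ^ (3 * l + 1) -
      (3 * (l : ℂ[X]) - 6 * (n : ℂ[X]) - 4) * (3 * (l : ℂ[X]) - 6 * (n : ℂ[X]) - 3) *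
        X ^ (3 * (l + 1) + 1) := by
  have e1 : psiE n (X ^ (3 * l + 1)) = (3 * (l : ℂ[X]) - 3 * (n : ℂ[X]) - 2) * X ^ (3 * l + 1) := by
    rw [psiE, psith_X_pow]
    push_cast
    ring
  have e2 : psiE n (psiE n (X ^ (3 * l + 1))) =
      (3 * (l : ℂ[X]) - 3 * (n : ℂ[X]) - 2) ^ 2 * X ^ (3 * l + 1) := by
    have hc : (3 * (l : ℂ[X]) - 3 * (n : ℂ[X]) - 2) = C (3 * (l : ℂ) - 3 * (n : ℂ) - 2) := by
      simp only [map_mul, map_sub, map_natCast, map_ofNat]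
    rw [e1, hc, psiE_Cmul, e1, hc]
    ring
  rw [psiL, e2, e1]
  ring

private theorem psi_gam (n l : ℕ) : C ((gam (n + 1) (l + 1) : ℚ) : ℂ) *
      (3 * ((l + 1 : ℕ) : ℂ[X]) * (3 * ((l + 1 : ℕ) : ℂ[X]) - 1)) =
    C ((gam (n + 1) l : ℚ) : ℂ) *
      ((3 * (l : ℂ[X]) - 6 * (n : ℂ[X]) - 4) * (3 * (l : ℂ[X]) - 6 * (n : ℂ[X]) - 3)) := by
  have h : gam (n + 1) (l + 1) * (3 * ((l : ℚ) + 1) * (3 * ((l : ℚ) + 1) - 1)) =
      gam (n + 1) l * ((3 * (l : ℚ) - 6 * n - 4) * (3 * l - 6 * n - 3)) := by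
    have h0 : gam (n + 1) (l + 1) = gam (n + 1) l *
        ((((l : ℚ) + 1 - 2 * ((n + 1 : ℕ) : ℚ)) * (3 * l + 2 - 6 * ((n + 1 : ℕ) : ℚ))) /
          ((l + 1) * (3 * l + 2))) := by
      rw [gam, gam, Finset.prod_range_succ]
    rw [h0]
    generalize gam (n + 1) l = g
    have h1 : (l : ℚ) + 1 ≠ 0 := by positivity
    have h2 : 3 * (l : ℚ) + 2 ≠ 0 := by positivity
    push_cast
    field_simp
    ring
  have h' : ((gam (n + 1) (l + 1) : ℚ) : ℂ) * (3 * ((l : ℂ) + 1) * (3 * ((l : ℂ) + 1) - 1)) =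
      ((gam (n + 1) l : ℚ) : ℂ) * ((3 * (l : ℂ) - 6 * n - 4) * (3 * l - 6 * n - 3)) := by
    exact_mod_cast h
  have h'' := congrArg C h'
  simp only [map_mul, map_add, map_sub, map_one, map_natCast, map_ofNat] at h''
  push_cast
  exact h''

private theorem psi_gam_zero (n : ℕ) : gam (n + 1) (2 * (n + 1)) = 0 := by
  rw [gam]
  apply Finset.prod_eq_zero (i := 2 * n + 1) (Finset.mem_range.2 (by omega))
  push_cast
  ring_nf

/-- the first polynomial is killed -/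
private theorem psi_a (n : ℕ) : psiL n (X * expand ℂ 3 (Pg (n + 1))) = 0 := by
  have e : X * expand ℂ 3 (Pg (n + 1)) =
      ∑ l ∈ Finset.range (2 * (n + 1)), C ((gam (n + 1) l : ℚ) : ℂ) * X ^ (3 * l + 1) := by
    rw [Pg, map_sum, Finset.mul_sum]
    refine Finset.sum_congr rfl fun l _ => ?_
    rw [expand_monomial, ← C_mul_X_pow_eq_monomial, mul_comm l 3]
    ring
  rw [e, psiL_sum]
  have e2 : ∀ l ∈ Finset.range (2 * (n + 1)),
      psiL n (C ((gam (n + 1) l : ℚ) : ℂ) * X ^ (3 * l + 1)) =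
      (fun l : ℕ => C ((gam (n + 1) l : ℚ) : ℂ) *
        (3 * (l : ℂ[X]) * (3 * (l : ℂ[X]) - 1)) * X ^ (3 * l + 1)) l -
      (fun l : ℕ => C ((gam (n + 1) l : ℚ) : ℂ) *
        (3 * (l : ℂ[X]) * (3 * (l : ℂ[X]) - 1)) * X ^ (3 * l + 1)) (l + 1) := by
    intro l _
    simp only
    rw [psiL_Cmul, psiL_mon, psi_gam]
    ring
  rw [Finset.sum_congr rfl e2, Finset.sum_range_sub', psi_gam_zero]
  simp

private theorem psiL_s0 (n : ℕ) : psiL n (X ^ (3 * (n + 1))) =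
    (1 - X ^ 3) * ((3 * (n : ℂ[X]) + 2) * (3 * (n : ℂ[X]) + 1) * X ^ (3 * (n + 1))) := by
  have e1 : psiE n (X ^ (3 * (n + 1))) = 0 := by
    rw [psiE, psith_X_pow]
    push_cast
    ring
  have e2 : psiE n (0 : ℂ[X]) = 0 := by
    rw [psiE, psith, derivative_zero]
    ring
  rw [psiL, e1, e2]
  ring

private theorem psiL_s (n j q : ℕ) (h : q + j = n) :
    psiL n (X ^ (3 * q) * (X ^ 3 - 1) ^ (2 * (j + 1))) =
    (1 - X ^ 3) * ((3 * ((j : ℂ[X]) + 1) - 3 * (n : ℂ[X]) - 2) *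
        (3 * ((j : ℂ[X]) + 1) - 3 * (n : ℂ[X]) - 1) *
        (X ^ (3 * q) * (X ^ 3 - 1) ^ (2 * (j + 1))) +
      18 * ((j : ℂ[X]) + 1) * (2 * (j : ℂ[X]) - 4 * (n : ℂ[X]) - 1) *
        (X ^ (3 * (q + 1)) * (X ^ 3 - 1) ^ (2 * j))) := by
  subst h
  have z1 : psith ((X ^ 3 - 1 : ℂ[X]) ^ (2 * (j + 1))) =
      (2 * (j : ℂ[X]) + 2) * (X ^ 3 - 1) ^ (2 * j + 1) * (3 * X ^ 3) := by
    have := psith_Z (2 * j + 1)
    rw [show 2 * (j + 1) = 2 * j + 1 + 1 by ring, this]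
    push_cast
    ring
  have z2 : psith ((X ^ 3 - 1 : ℂ[X]) ^ (2 * j + 1)) =
      (2 * (j : ℂ[X]) + 1) * (X ^ 3 - 1) ^ (2 * j) * (3 * X ^ 3) := by
    rw [psith_Z (2 * j)]
    push_cast
    ring
  have x1 := psith_X_pow (3 * q)
  have x3 : psith ((X : ℂ[X]) ^ 3 + 1) = 3 * X ^ 3 := by
    rw [psith_add, psith_X_pow, psith, derivative_one]
    push_cast
    ring
  have e1 : psiE (q + j) (X ^ (3 * q) * (X ^ 3 - 1) ^ (2 * (j + 1))) =
      ((3 * (j + 1) : ℕ) : ℂ[X]) * (X ^ (3 * q) * (X ^ 3 - 1) ^ (2 * j + 1) * (X ^ 3 + 1)) := by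
    rw [psiE, psith_mul, x1, z1]
    push_cast
    ring
  have e2 : psiE (q + j) (((3 * (j + 1) : ℕ) : ℂ[X]) *
        (X ^ (3 * q) * (X ^ 3 - 1) ^ (2 * j + 1) * (X ^ 3 + 1))) =
      ((3 * (j + 1) : ℕ) : ℂ[X]) * (3 * ((j : ℂ[X]) + 1) * (X ^ (3 * q) * (X ^ 3 - 1) ^ (2 * j + 2)) +
        3 * (4 * (j : ℂ[X]) + 2) * (X ^ (3 * (q + 1)) * (X ^ 3 - 1) ^ (2 * j))) := by
    rw [psiE, psith_mul, psith_mul, psith_mul, psith_nat, x1, z2, x3]
    push_cast
    ring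
  rw [psiL, e1, e2]
  push_cast
  ring

private theorem psi_psq (n j : ℕ) : C ((psq n (j + 1) : ℚ) : ℂ) *
      (18 * ((j : ℂ[X]) + 1) * (2 * (j : ℂ[X]) - 4 * (n : ℂ[X]) - 1)) =
    -(C ((psq n j : ℚ) : ℂ) * ((3 * (j : ℂ[X]) - 3 * (n : ℂ[X]) - 2) *
      (3 * (j : ℂ[X]) - 3 * (n : ℂ[X]) - 1))) := by
  have h : psq n (j + 1) * (18 * ((j : ℚ) + 1) * (2 * j - 4 * n - 1)) =
      -(psq n j * ((3 * (j : ℚ) - 3 * n - 2) * (3 * j - 3 * n - 1))) := by
    have h0 : psq n (j + 1) = psq n j *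
        (-((3 * (j : ℚ) - 3 * n - 2) * (3 * j - 3 * n - 1)) /
          (18 * (j + 1) * (2 * j - 4 * n - 1))) := by
      rw [psq, psq, Finset.prod_range_succ]
    rw [h0]
    generalize psq n j = g
    have h1 : (j : ℚ) + 1 ≠ 0 := by positivity
    have h2 : 2 * (j : ℚ) - 4 * n - 1 ≠ 0 := by
      intro h3
      have h4 : (2 * (j : ℤ) - 4 * n - 1 : ℤ) = 0 := by exact_mod_cast h3
      omega
    rw [mul_assoc, div_mul_eq_mul_div, mul_div_assoc, div_self, mul_one]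
    · ring
    · exact mul_ne_zero (mul_ne_zero (by norm_num) h1) h2
  have h' : ((psq n (j + 1) : ℚ) : ℂ) * (18 * ((j : ℂ) + 1) * (2 * j - 4 * n - 1)) =
      -(((psq n j : ℚ) : ℂ) * ((3 * (j : ℂ) - 3 * n - 2) * (3 * j - 3 * n - 1))) := by
    exact_mod_cast h
  have h'' := congrArg C h'
  simp only [map_mul, map_add, map_sub, map_neg, map_one, map_natCast, map_ofNat] at h''
  exact h''

private noncomputable def psiu (n j : ℕ) : ℂ[X] :=
  C ((psq n j : ℚ) : ℂ) * ((3 * (j : ℂ[X]) - 3 * (n : ℂ[X]) - 2) *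
    (3 * (j : ℂ[X]) - 3 * (n : ℂ[X]) - 1)) * (X ^ (3 * (n + 1 - j)) * (X ^ 3 - 1) ^ (2 * j))

/-- the second polynomial -/
private theorem psi_b (n : ℕ) : psiL n (expand ℂ 3 (Yg n)) =
    C ((Pg (n + 1)).eval 1) * ((1 - X ^ 3) * psiu n (n + 1)) := by
  have e : expand ℂ 3 (Yg n) = C ((Pg (n + 1)).eval 1) *
      ∑ j ∈ Finset.range (n + 2), C ((psq n j : ℚ) : ℂ) *
        (X ^ (3 * (n + 1 - j)) * (X ^ 3 - 1) ^ (2 * j)) := by
    rw [Yg, map_mul, map_sum, expand_C]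
    congr 1
    refine Finset.sum_congr rfl fun j _ => ?_
    rw [map_mul, map_mul, expand_C, map_pow, map_pow, map_sub, map_one, expand_X, ← pow_mul]
  rw [e, psiL_Cmul, psiL_sum]
  congr 1
  rw [Finset.sum_range_succ']
  have h0 : psiL n (C ((psq n 0 : ℚ) : ℂ) * (X ^ (3 * (n + 1 - 0)) * (X ^ 3 - 1) ^ (2 * 0))) =
      (1 - X ^ 3) * psiu n 0 := by
    rw [psiL_Cmul, psiu, Nat.sub_zero, mul_zero, pow_zero, mul_one, psiL_s0]
    push_cast
    ring
  have hs : ∀ j ∈ Finset.range (n + 1),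
      psiL n (C ((psq n (j + 1) : ℚ) : ℂ) *
        (X ^ (3 * (n + 1 - (j + 1))) * (X ^ 3 - 1) ^ (2 * (j + 1)))) =
      (1 - X ^ 3) * (psiu n (j + 1) - psiu n j) := by
    intro j hj
    rw [Finset.mem_range] at hj
    obtain ⟨q, hq⟩ : ∃ q, q + j = n := ⟨n - j, by omega⟩
    have e1 : n + 1 - (j + 1) = q := by omega
    have e2 : n + 1 - j = q + 1 := by omega
    rw [psiL_Cmul, psiu, psiu, e1, e2, psiL_s n j q hq]
    have h3 := psi_psq n j
    push_cast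
    linear_combination ((1 - X ^ 3) * (X ^ (3 * (q + 1)) * (X ^ 3 - 1) ^ (2 * j))) * h3
  rw [h0, Finset.sum_congr rfl hs, ← Finset.mul_sum, Finset.sum_range_sub]
  ring

private theorem psi_Q (k : ℕ) :
    (X - 1) * derivative ((X - 1 : ℂ[X]) ^ k) = (k : ℂ[X]) * (X - 1) ^ k := by
  cases k with
  | zero => simp
  | succ k =>
    rw [derivative_pow, derivative_sub, derivative_X, derivative_one, Nat.add_sub_cancel]
    simp only [map_natCast]
    ring

/-- one step of the induction -/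
private theorem psi_step (n k : ℕ) (hn : 1 ≤ n) (hk : k ≤ 2 * n + 2) (d : ℂ[X])
    (hL : (X - 1) ^ (2 * n + 3) ∣ psiL n d) (hd : (X - 1) ^ (k + 1) ∣ d) :
    (X - 1) ^ (k + 2) ∣ d := by
  obtain ⟨e, rfl⟩ := hd
  set r : ℂ[X] := X * derivative e - (3 * (n : ℂ[X]) + 3) * e with hr
  set e1 : ℂ[X] := ((k : ℂ[X]) + 1) * (X * e) + (X - 1) * r with he1
  have hE : psiE n ((X - 1) ^ (k + 1) * e) = (X - 1) ^ k * e1 := by
    rw [psiE, psith, derivative_mul, derivative_pow, derivative_sub, derivative_X,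
      derivative_one, Nat.add_sub_cancel, he1, hr]
    simp only [Nat.cast_add, Nat.cast_one, map_add, map_natCast, map_one]
    ring
  set W : ℂ[X] := -(X ^ 2 + X + 1) * (X * ((k : ℂ[X]) * e1) +
      (X - 1) * (X * derivative e1 - (3 * (n : ℂ[X]) + 3) * e1)) -
      (X ^ 2 + X + 1) * (X - 1) * ((3 * (n : ℂ[X]) + 2) * (3 * (n : ℂ[X]) + 1) * ((X - 1) * e)) +
      (6 * (n : ℂ[X]) + 3) * (1 + X ^ 3) * e1 with hW
  have hLW : psiL n ((X - 1) ^ (k + 1) * e) = (X - 1) ^ k * W := by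
    rw [psiL, hE, psiE, psith, derivative_mul, hW]
    have h1 := psi_Q k
    linear_combination (-(X ^ 2 + X + 1) * X * e1) * h1
  rw [hLW] at hL
  have h2 : (X - 1 : ℂ[X]) ^ k * (X - 1) ∣ (X - 1) ^ k * W := by
    rw [← pow_succ]
    exact (pow_dvd_pow _ (by omega)).trans hL
  have hX : (X - 1 : ℂ[X]) = X - C 1 := by rw [C_1]
  have hne : (X - 1 : ℂ[X]) ^ k ≠ 0 := by
    rw [hX]
    exact pow_ne_zero _ (X_sub_C_ne_zero 1)
  have h3 : (X - 1 : ℂ[X]) ∣ W := (mul_dvd_mul_iff_left hne).1 h2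
  rw [hX, dvd_iff_isRoot, IsRoot.def] at h3
  have h4 : (12 * (n : ℂ) + 6 - 3 * k) * (((k : ℂ) + 1) * e.eval 1) = 0 := by
    rw [hW, he1] at h3
    simp only [eval_add, eval_sub, eval_mul, eval_neg, eval_pow, eval_X, eval_one,
      eval_natCast, eval_ofNat, one_pow, sub_self, mul_zero, zero_mul, add_zero,
      sub_zero] at h3
    linear_combination h3
  have h5 : e.eval 1 = 0 := by
    rcases mul_eq_zero.1 h4 with h6 | h6
    · exfalso
      have h7 : (12 * (n : ℤ) + 6 - 3 * k : ℤ) = 0 := by exact_mod_cast h6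
      omega
    · rcases mul_eq_zero.1 h6 with h7 | h7
      · exfalso
        have h8 : ((k + 1 : ℕ) : ℂ) = 0 := by exact_mod_cast h7
        exact absurd (Nat.cast_eq_zero.1 h8) (by omega)
      · exact h7
  have h6 : (X - 1 : ℂ[X]) ∣ e := by
    rw [hX, dvd_iff_isRoot, IsRoot.def]
    exact h5
  rw [pow_succ]
  exact mul_dvd_mul_left _ h6

theorem Yg_expand (n : ℕ) (hn : 1 ≤ n) :
    (X - 1) ^ (2 * n + 4) ∣ X * expand ℂ 3 (Pg (n + 1)) - expand ℂ 3 (Yg n) := by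
  set d : ℂ[X] := X * expand ℂ 3 (Pg (n + 1)) - expand ℂ 3 (Yg n) with hd
  have hL : (X - 1) ^ (2 * n + 3) ∣ psiL n d := by
    rw [hd, psiL_sub, psi_a, psi_b, psiu, Nat.sub_self]
    have e : (X ^ 3 - 1 : ℂ[X]) = (X - 1) * (X ^ 2 + X + 1) := by ring
    have e' : (1 - X ^ 3 : ℂ[X]) = (X - 1) * (-(X ^ 2 + X + 1)) := by ring
    rw [e, e', mul_pow]
    refine ⟨-(C ((Pg (n + 1)).eval 1) * (-(X ^ 2 + X + 1) *
      (C ((psq n (n + 1) : ℚ) : ℂ) *
        ((3 * ((n + 1 : ℕ) : ℂ[X]) - 3 * (n : ℂ[X]) - 2) *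
          (3 * ((n + 1 : ℕ) : ℂ[X]) - 3 * (n : ℂ[X]) - 1)) *
        (X ^ (3 * 0) * (X ^ 2 + X + 1) ^ (2 * (n + 1)))))), ?_⟩
    ring
  have hX : (X - 1 : ℂ[X]) = X - C 1 := by rw [C_1]
  have h1 : (X - 1) ^ (0 + 1) ∣ d := by
    rw [zero_add, pow_one, hX, dvd_iff_isRoot, IsRoot.def, hd, eval_sub, eval_mul, eval_X,
      one_mul, expand_eval, expand_eval, one_pow, Yg, eval_mul, eval_C, eval_finsetSum,
      Finset.sum_range_succ']
    have h2 : ∀ j ∈ Finset.range (n + 1), eval 1 (C ((psq n (j + 1) : ℚ) : ℂ) *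
        (X ^ (n + 1 - (j + 1)) * (X - 1) ^ (2 * (j + 1)))) = 0 := by
      intro j _
      rw [eval_mul, eval_mul, eval_pow, eval_pow, eval_sub, eval_X, eval_one, sub_self,
        zero_pow (by omega), mul_zero, mul_zero]
    rw [Finset.sum_congr rfl h2, Finset.sum_const_zero]
    simp [psq]
  have key : ∀ k, k ≤ 2 * n + 3 → (X - 1) ^ (k + 1) ∣ d := by
    intro k
    induction k with
    | zero => intro _; exact h1
    | succ k ih =>
      intro hk
      exact psi_step n k hn (by omega) d hL (ih (by omega))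
  exact key (2 * n + 3) (le_refl _)

end ODD
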