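import Pool.Agent.ODD.SEC

/-!
# PROJECT ODD (MP_d12cfa_co), module SGN: the algebraic core of the signed count

One polynomial identity, divisibility by powers of `X - 1` of the sections modulo 3, and the values
at `1` and `-1`.
-/

set_option autoImplicit false

namespace ODD

open Polynomial

/-- the identity (1) of the signed count, divided by powers of `X - 1` -/
private theorem core_kappa (m : ℕ) (p pt g0 g1 H Q y S : ℂ[X]) (c : ℂ)
    (h1 : expand ℂ 3 p + X * expand ℂ 3 pt = (X - 1) ^ (4 * m + 7) * H)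
    (h2 : expand ℂ 3 g0 + X * expand ℂ 3 g1 + C c * X ^ 2 * (X ^ 3 - 1) ^ (2 * m + 1) =
      (X ^ 2 - 1) * (X - 1) ^ (4 * m + 4) * Q)
    (hp : p.natDegree ≤ 2 * m + 3) (hpt : pt.natDegree ≤ 2 * m + 3)
    (hg0 : g0.natDegree ≤ 2 * m + 2) (hg1 : g1.natDegree ≤ 2 * m + 2)
    (hy : y.natDegree ≤ 2 * m + 4)
    (h3 : X * expand ℂ 3 p - expand ℂ 3 y = (X - 1) ^ (2 * m + 5) * S) :
    ∃ (D1 : ℂ[X]) (κ : ℂ), pt * g0 - p * g1 = (X - 1) ^ (2 * m + 1) * D1 ∧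
      D1 - C c * y = C κ * (X - 1) ^ (2 * m + 4) ∧
      κ * 3 ^ (4 * m + 5) = -(2 * p.eval 1 * Q.eval 1) := by
  have hXC : (X - 1 : ℂ[X]) = X - C 1 := by rw [C_1]
  have hu0 : (X - 1 : ℂ[X]) ≠ 0 := by rw [hXC]; exact X_sub_C_ne_zero 1
  have hX0 : (X : ℂ[X]) ≠ 0 := X_ne_zero
  have e1 : X * expand ℂ 3 (pt * g0 - p * g1) =
      (X - 1) ^ (4 * m + 7) * H * expand ℂ 3 g0 -
        expand ℂ 3 p * ((X ^ 2 - 1) * (X - 1) ^ (4 * m + 4) * Q -
          C c * X ^ 2 * (X ^ 3 - 1) ^ (2 * m + 1)) := by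
    rw [map_sub, map_mul, map_mul, ← h1, ← h2]
    ring
  have hfac : (X ^ 3 - 1 : ℂ[X]) = (X - 1) * (X ^ 2 + X + 1) := by ring
  have hd1 : (X - 1 : ℂ[X]) ^ (2 * m + 1) ∣ pt * g0 - p * g1 := by
    refine expand_dvd_one _ X (by simp) _ ?_
    rw [e1, hfac, mul_pow]
    refine ⟨(X - 1) ^ (2 * m + 6) * H * expand ℂ 3 g0 -
        expand ℂ 3 p * ((X ^ 2 - 1) * (X - 1) ^ (2 * m + 3) * Q -
          C c * X ^ 2 * (X ^ 2 + X + 1) ^ (2 * m + 1)), ?_⟩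
    ring
  obtain ⟨D1, hD1⟩ := hd1
  have hE : expand ℂ 3 (pt * g0 - p * g1) = (X ^ 3 - 1) ^ (2 * m + 1) * expand ℂ 3 D1 := by
    rw [hD1, map_mul, map_pow, map_sub, expand_X, map_one]
  -- the degree of `D1`
  have hdegD : (pt * g0 - p * g1).natDegree ≤ 4 * m + 5 := by
    refine (natDegree_sub_le _ _).trans (max_le ?_ ?_)
    · exact natDegree_mul_le.trans (by omega)
    · exact natDegree_mul_le.trans (by omega)
  have hdegD1 : D1.natDegree ≤ 2 * m + 4 := by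
    by_cases hD10 : D1 = 0
    · rw [hD10, natDegree_zero]; omega
    · rw [hD1, natDegree_mul (pow_ne_zero _ hu0) hD10, natDegree_pow, hXC, natDegree_X_sub_C]
        at hdegD
      omega
  have e3 : expand ℂ 3 y = X * expand ℂ 3 p - (X - 1) ^ (2 * m + 5) * S := by
    rw [← h3]; ring
  have hEc : expand ℂ 3 (D1 - C c * y) = expand ℂ 3 D1 - C c * expand ℂ 3 y := by
    rw [map_sub, map_mul, expand_C]
  have e4 : X * (X ^ 2 + X + 1) ^ (2 * m + 1) * expand ℂ 3 (D1 - C c * y) =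
      (X - 1) ^ (2 * m + 4) * ((X - 1) ^ 2 * H * expand ℂ 3 g0 -
        expand ℂ 3 p * (X + 1) * Q + C c * X * (X ^ 2 + X + 1) ^ (2 * m + 1) * (X - 1) * S) := by
    have h5 : (X - 1 : ℂ[X]) ^ (2 * m + 1) ≠ 0 := pow_ne_zero _ hu0
    refine mul_left_cancel₀ h5 ?_
    rw [hE, hfac, mul_pow] at e1
    rw [hEc, e3]
    linear_combination e1
  have hd2 : (X - 1 : ℂ[X]) ^ (2 * m + 4) ∣ D1 - C c * y := by
    refine expand_dvd_one _ (X * (X ^ 2 + X + 1) ^ (2 * m + 1)) ?_ _ ⟨_, e4⟩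
    simp only [eval_mul, eval_X, eval_pow, eval_add, eval_one]
    norm_num
  obtain ⟨R, hR⟩ := hd2
  have hdegR : (D1 - C c * y).natDegree ≤ 2 * m + 4 := by
    refine (natDegree_sub_le _ _).trans (max_le hdegD1 ?_)
    exact (natDegree_C_mul_le c y).trans hy
  have hR0 : R.natDegree = 0 := by
    by_cases hR00 : R = 0
    · rw [hR00, natDegree_zero]
    · rw [hR, natDegree_mul (pow_ne_zero _ hu0) hR00, natDegree_pow, hXC, natDegree_X_sub_C]
        at hdegR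
      omega
  obtain ⟨κ, rfl⟩ := natDegree_eq_zero.1 hR0
  refine ⟨D1, κ, hD1, by rw [hR]; ring, ?_⟩
  have e5 : X * (X ^ 2 + X + 1) ^ (2 * m + 1) * ((X ^ 2 + X + 1) ^ (2 * m + 4) * C κ) =
      (X - 1) ^ 2 * H * expand ℂ 3 g0 -
        expand ℂ 3 p * (X + 1) * Q + C c * X * (X ^ 2 + X + 1) ^ (2 * m + 1) * (X - 1) * S := by
    have h5 : (X - 1 : ℂ[X]) ^ (2 * m + 4) ≠ 0 := pow_ne_zero _ hu0
    refine mul_left_cancel₀ h5 ?_
    rw [← e4, hR, map_mul, map_pow, map_sub, expand_X, map_one, expand_C, hfac, mul_pow]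
    ring
  have e6 := congrArg (eval 1) e5
  simp only [eval_mul, eval_X, eval_pow, eval_add, eval_one, eval_sub, eval_C, expand_eval]
    at e6
  norm_num at e6
  have e7 : (3 : ℂ) ^ (4 * m + 5) = 3 ^ (2 * m + 1) * 3 ^ (2 * m + 4) := by
    rw [← pow_add]; congr 1; ring
  rw [e7]
  linear_combination e6

theorem sgn_core (n : ℕ) (hn : 1 ≤ n) (p pt g0 g1 H Q y S : ℂ[X]) (c : ℂ)
    (h1 : expand ℂ 3 p + X * expand ℂ 3 pt = (X - 1) ^ (4 * n + 3) * H)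
    (h2 : expand ℂ 3 g0 + X * expand ℂ 3 g1 + C c * X ^ 2 * (X ^ 3 - 1) ^ (2 * n - 1) =
      (X ^ 2 - 1) * (X - 1) ^ (4 * n) * Q)
    (hp : p.natDegree ≤ 2 * n + 1) (hpt : pt.natDegree ≤ 2 * n + 1)
    (hg0 : g0.natDegree ≤ 2 * n) (hg1 : g1.natDegree ≤ 2 * n)
    (hy : y.natDegree ≤ 2 * n + 2)
    (h3 : X * expand ℂ 3 p - expand ℂ 3 y = (X - 1) ^ (2 * n + 3) * S)
    (h4 : p.eval (-1) = pt.eval (-1)) :
    c * 3 ^ (4 * n + 1) * (y.eval (-1) + p.eval (-1)) =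
      2 * 4 ^ (n + 1) * p.eval 1 * Q.eval 1 := by
  obtain ⟨m, rfl⟩ : ∃ m, n = m + 1 := ⟨n - 1, by omega⟩
  have a1 : 4 * (m + 1) + 3 = 4 * m + 7 := by ring
  have a2 : 2 * (m + 1) - 1 = 2 * m + 1 := by omega
  have a3 : 4 * (m + 1) = 4 * m + 4 := by ring
  have a4 : 2 * (m + 1) + 3 = 2 * m + 5 := by ring
  have a5 : 4 * (m + 1) + 1 = 4 * m + 5 := by ring
  rw [a1] at h1
  rw [a2, a3] at h2
  rw [a4] at h3
  rw [a5]
  obtain ⟨D1, κ, k1, k2, k3⟩ := core_kappa m p pt g0 g1 H Q y S c h1 h2 (by omega) (by omega)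
    (by omega) (by omega) (by omega) h3
  have b1 := congrArg (eval (-1)) h1
  have b2 := congrArg (eval (-1)) h2
  have b3 := congrArg (eval (-1)) k1
  have b4 := congrArg (eval (-1)) k2
  simp only [eval_mul, eval_X, eval_pow, eval_add, eval_one, eval_sub, eval_C, expand_eval]
    at b1 b2 b3 b4
  have c1 : ((-1 : ℂ)) ^ 3 = -1 := by norm_num
  have c2 : (-1 : ℂ) - 1 = -2 := by norm_num
  rw [c1] at b2
  rw [c2] at b3 b4
  have c3 : ((-2 : ℂ)) ^ (2 * m + 1) ≠ 0 := pow_ne_zero _ (by norm_num)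
  have c4 : ((-2 : ℂ)) ^ (2 * m + 4) = 4 ^ (m + 2) := by
    have : 2 * m + 4 = 2 * (m + 2) := by ring
    rw [this, pow_mul]; norm_num
  have c5 : eval (-1) D1 = -(c * eval (-1) p) := by
    refine mul_left_cancel₀ c3 ?_
    rw [← b3, ← h4]
    norm_num at b2
    linear_combination (eval (-1) p) * b2
  rw [c5, c4] at b4
  have c6 : m + 1 + 1 = m + 2 := by ring
  rw [c6]
  linear_combination (-(3 : ℂ) ^ (4 * m + 5)) * b4 - (4 : ℂ) ^ (m + 2) * k3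

end ODD
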