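import Pool.Agent.ODD.EVS
import Pool.Agent.ODD.SGN
import Pool.Agent.ODD.PSI

/-!
# PROJECT ODD (MP_d12cfa_co), module ODS: the signed odd count

(Used: `fe_odd_one` with `s = 1`, `Od_poly`, `Od_root`, `sec_*`,
`ev_struct` with `m = n + 1`, `sgn_core`, `Yg_expand`.)

PLAN. `n >= 1`; `P` = polynomial of `Od_poly w 1 (replicate (2n) 1)`, degree `<= 2 n`.
* `P(w^2) = 0` by `Od_root` with `s = 1` (factor `1 - 1 * 1 = 0`, `2 n >= 1`; write
  `1 * w^2 = w^2`), so `P = (X - C (w^2)) * Q`, degree `Q <= 2 n - 1`, `Q(1) (1 - w^2) = P(1)`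
  `= Od w 1 (replicate (2n+1) 1)`.
* `gt := (X^2 - 1)(X - 1)^(4n) Q` (degree `<= 6 n + 1`);
  `gO w 1 (replicate (2n) 1) U = (U^3 - 1) gt(U)` (`(U - w^2)(U - 1)(U - w) = U^3 - 1`).
  `fe_odd_one` and `sec_eval`: `(U^3 - 1) 3 U^2 (sec 2 gt)(U^3)
    = 3 (w - 1)(w^2 (1 - w^2))^(2n) a_n U^2 (1 - U^3)^(2n)`, hence
  `sec 2 gt = C c (X - 1)^(2n-1)`, `c = (w - 1)(w^2 (1 - w^2))^(2n) a_n`,
  `a_n = Ev w (replicate (2n) 1)` (polynomial identity, cancel `X - 1`).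
* `g0 = sec 0 gt`, `g1 = sec 1 gt`, degrees `<= 2 n`: this is `h2` of `sgn_core`.
* `p = C μ * Pg (n+1)`, `pt = C μ * Ptg (n+1)` from `ev_struct w hw (n+1)` (`4(n+1)-1 = 4n+3`),
  `y = C μ * Yg n` (`h3` from `Yg_expand`, `2n+3 <= 2n+4`), `h4`: `(Pg m)(-1) = (Ptg m)(-1)`
  (`Pg_neg_one`, prove it here: `(-1)^(2m-1-l) = - (-1)^l`). Degrees: `Pg`, `Ptg` have degree
  `<= 2m - 1`, `Yg n` degree `<= 2 n + 2`.
* Cancel `μ ≠ 0` (`ev_struct`, second line, and `Ev w (replicate (2n+2) 1) ≠ 0`).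
-/

set_option autoImplicit false

namespace ODD

open Polynomial

theorem Pg_neg_one (m : ℕ) (hm : 1 ≤ m) : (Pg m).eval (-1) = (Ptg m).eval (-1) := by
  unfold Pg Ptg
  rw [eval_neg, eval_finsetSum, eval_finsetSum, ← Finset.sum_neg_distrib]
  refine Finset.sum_congr rfl fun l hl => ?_
  have hl' : l < 2 * m := Finset.mem_range.1 hl
  rw [eval_monomial, eval_monomial]
  have h1 : (-1 : ℂ) ^ (2 * m - 1 - l) = -(-1) ^ l := by
    have h2 : (-1 : ℂ) ^ (2 * m - 1 - l) * (-1) ^ l = -1 := by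
      rw [← pow_add]
      exact Odd.neg_one_pow ⟨m - 1, by omega⟩
    have h3 : (-1 : ℂ) ^ l * (-1) ^ l = 1 := by
      rw [← mul_pow]
      norm_num
    calc (-1 : ℂ) ^ (2 * m - 1 - l) = (-1) ^ (2 * m - 1 - l) * ((-1) ^ l * (-1) ^ l) := by
          rw [h3, mul_one]
      _ = ((-1) ^ (2 * m - 1 - l) * (-1) ^ l) * (-1) ^ l := by ring
      _ = -(-1) ^ l := by rw [h2]; ring
  rw [h1]
  ring

theorem Pg_degree (m : ℕ) (hm : 1 ≤ m) :
    (Pg m).natDegree ≤ 2 * m - 1 ∧ (Ptg m).natDegree ≤ 2 * m - 1 := by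
  constructor
  · refine natDegree_sum_le_of_forall_le _ _ fun l hl => ?_
    have hl' : l < 2 * m := Finset.mem_range.1 hl
    exact (natDegree_monomial_le _).trans (by omega)
  · unfold Ptg
    rw [natDegree_neg]
    refine natDegree_sum_le_of_forall_le _ _ fun l hl => ?_
    exact (natDegree_monomial_le _).trans (by omega)

theorem Yg_degree (n : ℕ) : (Yg n).natDegree ≤ 2 * n + 2 := by
  unfold Yg
  refine (natDegree_C_mul_le _ _).trans ?_
  refine natDegree_sum_le_of_forall_le _ _ fun j hj => ?_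
  have hj' : j < n + 2 := Finset.mem_range.1 hj
  refine (natDegree_C_mul_le _ _).trans ?_
  have h1 : ((X : ℂ[X]) ^ (n + 1 - j)).natDegree ≤ n + 1 - j := (natDegree_X_pow _).le
  have h2 : ((X - 1 : ℂ[X]) ^ (2 * j)).natDegree ≤ 2 * j := by
    refine natDegree_pow_le_of_le (2 * j) (m := 1) ?_ |>.trans (by omega)
    rw [← C_1]
    exact (natDegree_X_sub_C _).le
  exact (natDegree_mul_le_of_le h1 h2).trans (by omega)

theorem od_sgn (w : ℂ) (hw : w ^ 2 + w + 1 = 0) (n : ℕ) (hn : 1 ≤ n)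
    (hne : Ev w (List.replicate (2 * n + 2) 1) ≠ 0) :
    (w - 1) * (w ^ 2 * (1 - w ^ 2)) ^ (2 * n) * Ev w (List.replicate (2 * n) 1) *
        3 ^ (4 * n + 1) * ((Yg n).eval (-1) + (Pg (n + 1)).eval (-1)) * (1 - w ^ 2) =
      2 * 4 ^ (n + 1) * (Pg (n + 1)).eval 1 * Od w 1 (List.replicate (2 * n + 1) 1) := by
  have hw3 : w ^ 3 = 1 := by linear_combination (w - 1) * hw
  have hs : (1 : ℂ) ^ 2 = 1 := one_pow 2
  obtain ⟨P, hPd, hP⟩ := Od_poly w 1 (List.replicate (2 * n) 1)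
  rw [List.length_replicate] at hPd
  -- the root
  have hroot : P.eval (w ^ 2) = 0 := by
    have h := Od_root w 1 hw hs (List.replicate (2 * n) 1)
    rw [one_mul] at h
    rw [← hP, h, List.map_replicate, List.prod_replicate]
    rw [show (1 - 1 * (1 : ℂ)) * (1 - w ^ 2) = 0 by ring, zero_pow (by omega), zero_mul]
  obtain ⟨Q, hQ⟩ := dvd_iff_isRoot.2 hroot
  have hPn : P.natDegree ≤ 2 * n := by
    rcases eq_or_ne P 0 with h0 | h0
    · rw [h0, natDegree_zero]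
      omega
    · have h1 := (natDegree_lt_iff_degree_lt h0).2 hPd
      omega
  have hQn : Q.natDegree ≤ 2 * n - 1 := by
    rcases eq_or_ne Q 0 with h0 | h0
    · rw [h0, natDegree_zero]
      omega
    · have h1 : P.natDegree = 1 + Q.natDegree := by
        rw [hQ, (monic_X_sub_C (w ^ 2)).natDegree_mul' h0, natDegree_X_sub_C]
      omega
  have hQ1 : Q.eval 1 * (1 - w ^ 2) = Od w 1 (List.replicate (2 * n + 1) 1) := by
    have h1 : List.replicate (2 * n + 1) (1 : ℂ) = 1 :: List.replicate (2 * n) 1 :=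
      List.replicate_succ
    rw [h1, hP, hQ, eval_mul, eval_sub, eval_X, eval_C]
    ring
  -- the polynomial
  obtain ⟨gt, hgt⟩ : ∃ gt : ℂ[X], gt = (X ^ 2 - 1) * (X - 1) ^ (4 * n) * Q := ⟨_, rfl⟩
  have hgtn : gt.natDegree ≤ 6 * n + 1 := by
    have h1 : ((X : ℂ[X]) ^ 2 - 1).natDegree ≤ 2 := by
      rw [← C_1]
      exact (natDegree_X_pow_sub_C).le
    have h2 : ((X - 1 : ℂ[X]) ^ (4 * n)).natDegree ≤ 4 * n := by
      refine natDegree_pow_le_of_le (4 * n) (m := 1) ?_ |>.trans (by omega)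
      rw [← C_1]
      exact (natDegree_X_sub_C _).le
    rw [hgt]
    exact (natDegree_mul_le_of_le (natDegree_mul_le_of_le h1 h2) hQn).trans (by omega)
  have hgO : ∀ U : ℂ, gO w 1 (List.replicate (2 * n) 1) U = (U ^ 3 - 1) * gt.eval U := by
    intro U
    rw [gO, hP, hQ, hgt, List.map_replicate, List.prod_replicate]
    simp only [eval_mul, eval_sub, eval_pow, eval_X, eval_C, eval_one]
    have h1 : ((U - 1) * (1 - U * 1)) ^ (2 * n) = (U - 1) ^ (4 * n) := by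
      rw [show (U - 1) * (1 - U * 1) = -(U - 1) ^ 2 by ring, neg_pow, ← pow_mul,
        Even.neg_one_pow ⟨n, by ring⟩, one_mul]
      congr 1
      ring
    rw [h1]
    have h2 : (U - w ^ 2) * ((U - 1) * (U - 1 * w)) = U ^ 3 - 1 := by
      linear_combination (-U ^ 2 + w * U - w + 1) * hw
    calc (U ^ 2 - 1) * ((U - w ^ 2) * eval U Q) * ((U - 1) * (U - 1 * w)) * (U - 1) ^ (4 * n)
        = ((U - w ^ 2) * ((U - 1) * (U - 1 * w))) *
          ((U ^ 2 - 1) * (U - 1) ^ (4 * n) * eval U Q) := by ring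
      _ = _ := by rw [h2]
  obtain ⟨c, hc⟩ : ∃ c : ℂ, c = (w - 1) * (w ^ 2 * (1 - w ^ 2)) ^ (2 * n) *
      Ev w (List.replicate (2 * n) 1) := ⟨_, rfl⟩
  have hsec : expand ℂ 3 (sec 2 gt) = C c * (X ^ 3 - 1) ^ (2 * n - 1) := by
    have h1 : (3 * X ^ 2 * (X ^ 3 - 1) : ℂ[X]) * expand ℂ 3 (sec 2 gt) =
        (3 * X ^ 2 * (X ^ 3 - 1)) * (C c * (X ^ 3 - 1) ^ (2 * n - 1)) := by
      apply Polynomial.funext
      intro U
      have h2 := fe_odd_one w 1 hw hs (2 * n) U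
      rw [hgO, hgO, hgO] at h2
      have h3 := sec_eval w hw gt U
      simp only [eval_mul, eval_sub, eval_pow, eval_X, eval_C, eval_one, eval_ofNat,
        expand_eval]
      have h4 : (U ^ 3 - 1) ^ (2 * n) = (U ^ 3 - 1) * (U ^ 3 - 1) ^ (2 * n - 1) := by
        rw [← pow_succ']
        congr 1
        omega
      have h5 : (1 - U ^ 3) ^ (2 * n) = (U ^ 3 - 1) ^ (2 * n) := by
        rw [show 1 - U ^ 3 = -(U ^ 3 - 1) by ring, neg_pow, Even.neg_one_pow ⟨n, by ring⟩,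
          one_mul]
      have h6 : (w * U) ^ 3 = U ^ 3 := by rw [mul_pow, hw3, one_mul]
      have h7 : (w ^ 2 * U) ^ 3 = U ^ 3 := by
        rw [mul_pow, ← pow_mul, mul_comm 2 3, pow_mul, hw3, one_pow, one_mul]
      rw [h6, h7, h5, h4, one_mul] at h2
      calc 3 * U ^ 2 * (U ^ 3 - 1) * eval (U ^ 3) (sec 2 gt)
          = (U ^ 3 - 1) * (3 * U ^ 2 * eval (U ^ 3) (sec 2 gt)) := by ring
        _ = (U ^ 3 - 1) * eval U gt + w * ((U ^ 3 - 1) * eval (w * U) gt) +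
            w ^ 2 * ((U ^ 3 - 1) * eval (w ^ 2 * U) gt) := by rw [← h3]; ring
        _ = 3 * U ^ 2 * (U ^ 3 - 1) * (c * (U ^ 3 - 1) ^ (2 * n - 1)) := by
          rw [h2, hc]
          ring
    have h8 : (3 * X ^ 2 * (X ^ 3 - 1) : ℂ[X]) ≠ 0 := by
      intro h9
      have h10 := congrArg (eval (2 : ℂ)) h9
      simp only [eval_mul, eval_sub, eval_pow, eval_X, eval_one, eval_ofNat, eval_zero] at h10
      norm_num at h10
    exact mul_left_cancel₀ h8 h1
  have h2 : expand ℂ 3 (sec 0 gt) + X * expand ℂ 3 (sec 1 gt) +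
      C c * X ^ 2 * (X ^ 3 - 1) ^ (2 * n - 1) = (X ^ 2 - 1) * (X - 1) ^ (4 * n) * Q := by
    have h := sec_decomp gt
    rw [hsec] at h
    calc expand ℂ 3 (sec 0 gt) + X * expand ℂ 3 (sec 1 gt) +
          C c * X ^ 2 * (X ^ 3 - 1) ^ (2 * n - 1)
        = expand ℂ 3 (sec 0 gt) + X * expand ℂ 3 (sec 1 gt) +
          X ^ 2 * (C c * (X ^ 3 - 1) ^ (2 * n - 1)) := by ring
      _ = gt := h.symm
      _ = _ := hgt
  have hsd : ∀ r, r ≤ 1 → (sec r gt).natDegree ≤ 2 * n := by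
    intro r hr
    have h1 := sec_degree r (2 * n + 1) gt (fun j hj =>
      coeff_eq_zero_of_natDegree_lt (by omega))
    rcases eq_or_ne (sec r gt) 0 with h0 | h0
    · rw [h0, natDegree_zero]
      omega
    · have h3 := (natDegree_lt_iff_degree_lt h0).2 h1
      omega
  -- the even function
  obtain ⟨μ, H, hH1, hH2, _⟩ := ev_struct w hw (n + 1) (Nat.succ_pos n)
  have hμ : μ ≠ 0 := by
    rintro rfl
    rw [zero_mul] at hH2
    have h1 : ((4 * (n + 1) - 1).factorial : ℂ) *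
        (2 * Ev w (List.replicate (2 * (n + 1)) 1)) = 0 := neg_eq_zero.1 hH2.symm
    have h3 : ((4 * (n + 1) - 1).factorial : ℂ) ≠ 0 :=
      Nat.cast_ne_zero.2 (Nat.factorial_ne_zero _)
    have h4 := (mul_eq_zero.1 h1).resolve_left h3
    exact hne ((mul_eq_zero.1 h4).resolve_left two_ne_zero)
  obtain ⟨S, hS⟩ := Yg_expand n hn
  have h3 : X * expand ℂ 3 (C μ * Pg (n + 1)) - expand ℂ 3 (C μ * Yg n) =
      (X - 1) ^ (2 * n + 3) * (C μ * ((X - 1) * S)) := by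
    rw [map_mul, map_mul, expand_C]
    calc X * (C μ * expand ℂ 3 (Pg (n + 1))) - C μ * expand ℂ 3 (Yg n)
        = C μ * (X * expand ℂ 3 (Pg (n + 1)) - expand ℂ 3 (Yg n)) := by ring
      _ = _ := by rw [hS]; ring
  have h4 : (C μ * Pg (n + 1)).eval (-1) = (C μ * Ptg (n + 1)).eval (-1) := by
    rw [eval_mul, eval_mul, Pg_neg_one (n + 1) (Nat.succ_pos n)]
  have hdeg := Pg_degree (n + 1) (Nat.succ_pos n)
  have key := sgn_core n hn (C μ * Pg (n + 1)) (C μ * Ptg (n + 1)) (sec 0 gt) (sec 1 gt) H Q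
    (C μ * Yg n) (C μ * ((X - 1) * S)) c hH1 h2
    ((natDegree_C_mul_le _ _).trans (hdeg.1.trans (by omega)))
    ((natDegree_C_mul_le _ _).trans (hdeg.2.trans (by omega)))
    (hsd 0 (by omega)) (hsd 1 le_rfl) ((natDegree_C_mul_le _ _).trans (Yg_degree n)) h3 h4
  rw [eval_mul, eval_mul, eval_mul, eval_C, eval_C] at key
  have key2 : μ * (c * 3 ^ (4 * n + 1) * ((Yg n).eval (-1) + (Pg (n + 1)).eval (-1))) =
      μ * (2 * 4 ^ (n + 1) * (Pg (n + 1)).eval 1 * Q.eval 1) := by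
    linear_combination key
  have key3 := mul_left_cancel₀ hμ key2
  rw [← hQ1, ← hc]
  linear_combination (1 - w ^ 2) * key3

end ODD
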