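import Pool.Agent.ODD.SEC

/-!
# PROJECT ODD (MP_d12cfa_co), module TOT: the algebraic core of the total count
-/

set_option autoImplicit false

namespace ODD

open Polynomial

private theorem tot_pow_even (A : ℂ[X]) (n : ℕ) (h : A.eval (-1) = -2) :
    (A ^ (2 * n)).eval (-1) = 4 ^ n ∧
      (derivative (A ^ (2 * n))).eval (-1) = -(n * 4 ^ n * (derivative A).eval (-1)) := by
  have h4 : ∀ m : ℕ, (-2 : ℂ) ^ (2 * m) = 4 ^ m := by
    intro m
    rw [pow_mul]
    norm_num
  refine ⟨by rw [eval_pow, h, h4], ?_⟩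
  rcases n with _ | m
  · simp
  · rw [derivative_pow, eval_mul, eval_mul, eval_C, eval_pow, h,
      show 2 * (m + 1) - 1 = 2 * m + 1 by omega, pow_succ (-2 : ℂ), h4]
    push_cast
    ring

private theorem tot_pow_odd (A : ℂ[X]) (n : ℕ) (h : A.eval (-1) = -2) :
    (A ^ (2 * n + 1)).eval (-1) = -2 * 4 ^ n ∧
      (derivative (A ^ (2 * n + 1))).eval (-1) =
        (2 * n + 1) * 4 ^ n * (derivative A).eval (-1) := by
  obtain ⟨h1, h2⟩ := tot_pow_even A n h
  rw [pow_succ]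
  refine ⟨by rw [eval_mul, h1, h]; ring, ?_⟩
  rw [derivative_mul, eval_add, eval_mul, eval_mul, h1, h2, h]
  ring

private theorem tot_deg {A B : ℂ[X]} {k m : ℕ} (h : A = (X - 1) ^ k * B)
    (hA : A.natDegree ≤ k + m) : B.natDegree ≤ m := by
  rcases eq_or_ne B 0 with rfl | hB
  · simp
  · have h1 : (X - 1 : ℂ[X]) ≠ 0 := X_sub_C_ne_zero 1
    rw [h, natDegree_mul (pow_ne_zero _ h1) hB, natDegree_pow,
      show (X - 1 : ℂ[X]).natDegree = 1 from natDegree_X_sub_C 1] at hA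
    omega

theorem tot_core (w : ℂ) (hw : w ^ 2 + w + 1 = 0) (n : ℕ) (p pt g0 g1 H P y S : ℂ[X]) (c : ℂ)
    (h1 : expand ℂ 3 p + X * expand ℂ 3 pt = (X - 1) ^ (4 * n + 3) * H)
    (h2 : expand ℂ 3 g0 + X * expand ℂ 3 g1 + C c * X ^ 2 * (X ^ 3 - 1) ^ (2 * n) =
      (X ^ 2 - 1) * (X - 1) ^ (4 * n) * ((X + 1) * (X + C w)) * P)
    (hp : p.natDegree ≤ 2 * n + 1) (hpt : pt.natDegree ≤ 2 * n + 1)
    (hg0 : g0.natDegree ≤ 2 * n + 1) (hg1 : g1.natDegree ≤ 2 * n + 1)
    (hy : y.natDegree ≤ 2 * n + 2)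
    (h3 : X * expand ℂ 3 p - expand ℂ 3 y = (X - 1) ^ (2 * n + 2) * S)
    (h4 : p.eval (-1) = pt.eval (-1))
    (h5 : (derivative pt).eval (-1) =
      -((2 * n + 1) * p.eval (-1)) - (derivative p).eval (-1))
    (h6 : (derivative y).eval (-1) = -((n + 1) * y.eval (-1)))
    (hq : p.eval (-1) ≠ 0) :
    4 ^ (n + 1) * w ^ 2 * p.eval 1 * P.eval 1 =
      c * (1 + 2 * w) * 3 ^ (4 * n) *
        (3 * (derivative p).eval (-1) + (3 * n + 2) * p.eval (-1)) := by
  have hw3 : w ^ 3 = 1 := by linear_combination (w - 1) * hw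
  have hX1 : (X - 1 : ℂ[X]) ≠ 0 := X_sub_C_ne_zero 1
  obtain ⟨Z, hZ⟩ : ∃ Z : ℂ[X], Z = (X - 1) ^ (2 * n) := ⟨_, rfl⟩
  obtain ⟨Y, hY⟩ : ∃ Y : ℂ[X], Y = (X ^ 2 + X + 1) ^ (2 * n) := ⟨_, rfl⟩
  have hZ0 : Z ≠ 0 := by rw [hZ]; exact pow_ne_zero _ hX1
  have e1 : (X - 1 : ℂ[X]) ^ (4 * n + 3) = Z * Z * (X - 1) ^ 3 := by
    rw [hZ, ← pow_add, ← pow_add]
    congr 1
    ring
  have e2 : (X - 1 : ℂ[X]) ^ (4 * n) = Z * Z := by
    rw [hZ, ← pow_add]
    congr 1
    ring
  have e3 : (X ^ 3 - 1 : ℂ[X]) ^ (2 * n) = Z * Y := by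
    rw [hZ, hY, ← mul_pow]
    congr 1
    ring
  have e4 : (X - 1 : ℂ[X]) ^ (2 * n + 2) = Z * (X - 1) ^ 2 := by rw [hZ, pow_add]
  have e5 : (X - 1 : ℂ[X]) ^ (2 * n + 1) = Z * (X - 1) := by rw [hZ, pow_succ]
  have h1' := h1
  have h2' := h2
  have h3' := h3
  rw [e1] at h1'
  rw [e2, e3] at h2'
  rw [e4] at h3'
  obtain ⟨D, hD⟩ : ∃ D : ℂ[X], D = pt * g0 - p * g1 := ⟨_, rfl⟩
  have hK : X * expand ℂ 3 D = (expand ℂ 3 p + X * expand ℂ 3 pt) * expand ℂ 3 g0 -
      expand ℂ 3 p * ((X + 1) ^ 2 * ((X - 1) * (Z * Z) * ((X + C w) * P)) -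
        C c * X ^ 2 * (Z * Y)) := by
    rw [hD, map_sub, map_mul, map_mul]
    linear_combination (-expand ℂ 3 p) * h2'
  -- `D = (X - 1) ^ (2 n) D1`
  have hdvd1 : (X - 1) ^ (2 * n) ∣ D := by
    refine expand_dvd_one D X (by simp) (2 * n) ?_
    rw [hK, h1', ← hZ]
    exact ⟨Z * (X - 1) ^ 3 * H * expand ℂ 3 g0 - expand ℂ 3 p *
      ((X + 1) ^ 2 * ((X - 1) * Z * ((X + C w) * P)) - C c * X ^ 2 * Y), by ring⟩
  obtain ⟨D1, hD1⟩ := hdvd1
  have hDd : D.natDegree ≤ 2 * n + (2 * n + 2) := by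
    rw [hD]
    refine (natDegree_sub_le _ _).trans (max_le ?_ ?_)
    · refine natDegree_mul_le.trans ?_
      omega
    · refine natDegree_mul_le.trans ?_
      omega
  have hD1d := tot_deg hD1 hDd
  have eD : expand ℂ 3 D = Z * Y * expand ℂ 3 D1 := by
    rw [hD1, map_mul, map_pow, map_sub, map_one, expand_X, e3]
  obtain ⟨E, hE⟩ : ∃ E : ℂ[X], E = C c * y - D1 := ⟨_, rfl⟩
  obtain ⟨M, hM⟩ : ∃ M : ℂ[X], M = expand ℂ 3 p * ((X + 1) ^ 2 * ((X + C w) * P)) -
      (X - 1) ^ 2 * H * expand ℂ 3 g0 - C c * X * Y * (X - 1) * S := ⟨_, rfl⟩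
  have hEM : X * Y * expand ℂ 3 E = Z * (X - 1) * M := by
    apply mul_left_cancel₀ hZ0
    rw [hE, map_sub, map_mul, expand_C, hM]
    rw [eD] at hK
    rw [h1'] at hK
    linear_combination (-1 : ℂ[X]) * hK - (C c * X * Z * Y) * h3'
  have hdvd2 : (X - 1) ^ (2 * n + 1) ∣ E := by
    refine expand_dvd_one E (X * Y) ?_ (2 * n + 1) ?_
    · rw [hY]
      simp only [eval_mul, eval_pow, eval_add, eval_X, eval_one]
      exact mul_ne_zero one_ne_zero (pow_ne_zero _ (by norm_num))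
    · rw [hEM, e5]
      exact Dvd.intro _ rfl
  obtain ⟨F, hF⟩ := hdvd2
  have hEd : E.natDegree ≤ 2 * n + 1 + 1 := by
    rw [hE]
    refine (natDegree_sub_le _ _).trans (max_le ?_ ?_)
    · refine (natDegree_C_mul_le _ _).trans ?_
      omega
    · omega
  obtain ⟨b, a, hab⟩ := exists_eq_X_add_C_of_natDegree_le_one (tot_deg hF hEd)
  have eE : expand ℂ 3 E = Z * Y * ((X - 1) * (X ^ 2 + X + 1)) * expand ℂ 3 F := by
    rw [hF, map_mul, map_pow, map_sub, map_one, expand_X, pow_succ, e3]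
    ring
  have hFM : X * Y * Y * (X ^ 2 + X + 1) * expand ℂ 3 F = M := by
    apply mul_left_cancel₀ (mul_ne_zero hZ0 hX1)
    rw [← hEM, eE]
    ring
  have v1 : 3 ^ (4 * n) * 3 * (a + b) = 4 * (1 + w) * p.eval 1 * P.eval 1 := by
    have h := congrArg (eval 1) hFM
    rw [hM, hab, hY] at h
    simp only [eval_mul, eval_sub, eval_add, eval_pow, eval_X, eval_one, eval_C, expand_eval,
      one_pow] at h
    have h9 : (3 : ℂ) ^ (4 * n) = 3 ^ (2 * n) * 3 ^ (2 * n) := by
      rw [← pow_add]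
      congr 1
      ring
    rw [h9]
    norm_num at h
    linear_combination h
  -- values and derivatives at `-1`
  obtain ⟨B, hB⟩ : ∃ B : ℂ[X], B = Z * Y := ⟨_, rfl⟩
  obtain ⟨L1, hL1⟩ : ∃ L1 : ℂ[X], L1 = (X - 1) * (Z * Z) * ((X + C w) * P) := ⟨_, rfl⟩
  rw [← hB, ← hL1] at hK
  have hBe : B = (X ^ 3 - 1) ^ (2 * n) := by rw [hB, e3]
  have b1 : B.eval (-1) = 4 ^ n := by
    rw [hBe]
    exact (tot_pow_even _ n (by simp only [eval_sub, eval_pow, eval_X, eval_one]; norm_num)).1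
  have b2 : (derivative B).eval (-1) = -(3 * n * 4 ^ n) := by
    rw [hBe, (tot_pow_even _ n (by simp only [eval_sub, eval_pow, eval_X, eval_one]; norm_num)).2]
    simp only [derivative_sub, derivative_X_pow, derivative_one, eval_sub, eval_mul, eval_pow,
      eval_X, eval_C, eval_zero]
    norm_num
    ring
  have b3 : B.eval (-w) = 4 ^ n := by
    rw [hBe, eval_pow, eval_sub, eval_pow, eval_X, eval_one,
      show (-w) ^ 3 - 1 = (-2 : ℂ) by linear_combination (-1 : ℂ) * hw3, pow_mul]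
    norm_num
  have z1 : Z.eval (-1) = 4 ^ n := by
    rw [hZ]
    exact (tot_pow_even _ n (by simp only [eval_sub, eval_X, eval_one]; norm_num)).1
  have z2 : (derivative Z).eval (-1) = -(n * 4 ^ n) := by
    rw [hZ, (tot_pow_even _ n (by simp only [eval_sub, eval_X, eval_one]; norm_num)).2]
    simp only [derivative_sub, derivative_X, derivative_one, eval_sub, eval_one, eval_zero]
    ring
  have w1 : ((X - 1 : ℂ[X]) ^ (2 * n + 1)).eval (-1) = -2 * 4 ^ n :=
    (tot_pow_odd _ n (by simp only [eval_sub, eval_X, eval_one]; norm_num)).1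
  have w2 : (derivative ((X - 1 : ℂ[X]) ^ (2 * n + 1))).eval (-1) = (2 * n + 1) * 4 ^ n := by
    rw [(tot_pow_odd _ n (by simp only [eval_sub, eval_X, eval_one]; norm_num)).2]
    simp only [derivative_sub, derivative_X, derivative_one, eval_sub, eval_one, eval_zero]
    ring
  have t0 : (4 : ℂ) ^ n ≠ 0 := pow_ne_zero _ (by norm_num)
  have m3 : (-1 : ℂ) ^ 3 = -1 := by norm_num
  -- (1) at `-1`
  have k1 : D.eval (-1) = -(c * 4 ^ n * p.eval (-1)) := by
    have h := congrArg (eval (-1)) hK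
    simp only [eval_mul, eval_sub, eval_add, eval_pow, eval_X, eval_one, eval_C, expand_eval, m3,
      b1] at h
    rw [← h4] at h
    norm_num at h
    linear_combination -h
  have k2 : D1.eval (-1) = -(c * p.eval (-1)) := by
    have h := congrArg (eval (-1)) hD1
    rw [← hZ, eval_mul, z1, k1] at h
    apply mul_left_cancel₀ t0
    linear_combination -h
  -- (1) at `-w`
  have k3 : g0.eval (-1) = w * c * 4 ^ n := by
    have h := congrArg (eval (-w)) hK
    have mw : (-w) ^ 3 = (-1 : ℂ) := by linear_combination (-1 : ℂ) * hw3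
    have l0 : L1.eval (-w) = 0 := by
      rw [hL1]
      simp only [eval_mul, eval_add, eval_X, eval_C]
      ring
    simp only [eval_mul, eval_sub, eval_add, eval_pow, eval_X, eval_one, eval_C, expand_eval, mw,
      b3, l0] at h
    rw [← h4, k1] at h
    have h1w : (1 - w) * p.eval (-1) ≠ 0 := by
      refine mul_ne_zero ?_ hq
      intro h0
      have : w = 1 := by linear_combination -h0
      rw [this] at hw
      norm_num at hw
    apply mul_left_cancel₀ h1w
    linear_combination -h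
  -- derivative of (1) at `-1`
  have k4 : D.eval (-1) - 3 * (derivative D).eval (-1) =
      (6 * (derivative p).eval (-1) + (6 * n + 4) * p.eval (-1)) * (w * c * 4 ^ n) +
        c * 4 ^ n * (3 * (derivative p).eval (-1) - (3 * n + 2) * p.eval (-1)) := by
    have h := congrArg (fun r => (derivative r).eval (-1)) hK
    simp only [derivative_mul, derivative_sub, derivative_add, derivative_X, derivative_C,
      derivative_pow, derivative_one, derivative_expand, eval_mul, eval_sub, eval_add, eval_pow,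
      eval_X, eval_one, eval_C, eval_zero, expand_eval, m3, b1, b2, ← h4, h5, k3] at h
    norm_num at h
    linear_combination h
  have k5 : (derivative D).eval (-1) =
      -(n * 4 ^ n) * D1.eval (-1) + 4 ^ n * (derivative D1).eval (-1) := by
    have h := congrArg (fun r => (derivative r).eval (-1)) hD1
    rw [← hZ] at h
    simp only [derivative_mul, eval_add, eval_mul, z1, z2] at h
    exact h
  have k6 : c * y.eval (-1) - D1.eval (-1) = -2 * 4 ^ n * (a - b) := by
    have h := congrArg (eval (-1)) hF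
    rw [hE, hab] at h
    simp only [eval_mul, eval_sub, eval_add, eval_C, eval_X] at h w1
    rw [w1] at h
    linear_combination h
  have k7 : c * (derivative y).eval (-1) - (derivative D1).eval (-1) =
      (2 * n + 1) * 4 ^ n * (a - b) - 2 * 4 ^ n * b := by
    have h := congrArg (fun r => (derivative r).eval (-1)) hF
    obtain ⟨Q, hQ⟩ : ∃ Q : ℂ[X], Q = (X - 1) ^ (2 * n + 1) := ⟨_, rfl⟩
    rw [← hQ] at h w1 w2
    rw [hE, hab] at h
    simp only [derivative_mul, derivative_sub, derivative_add, derivative_C, derivative_X,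
      eval_mul, eval_sub, eval_add, eval_C, eval_X, eval_one, eval_zero, w1, w2] at h
    linear_combination h
  have k8 : 3 * 4 ^ n * (a + b) =
      -(c * (1 + 2 * w) * (3 * (derivative p).eval (-1) + (3 * n + 2) * p.eval (-1))) := by
    apply mul_left_cancel₀ t0
    rw [h6] at k7
    rw [k2] at k5 k6
    rw [k5, k1] at k4
    linear_combination (3 * 4 ^ n : ℂ) * k7 + (3 * (n + 1) * 4 ^ n : ℂ) * k6 - k4
  linear_combination (4 * 4 ^ n * p.eval 1 * P.eval 1) * hw + (4 ^ n : ℂ) * v1 -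
    (3 ^ (4 * n) : ℂ) * k8

end ODD
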