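import Pool.Agent.ODD.EVS
import Pool.Agent.ODD.TOT
import Pool.Agent.ODD.PSI
import Pool.Agent.ODD.ODS

/-!
# PROJECT ODD (MP_d12cfa_co), module ODT: the total odd count

(Imports may contain `sorry`. Used: `fe_odd_one` with `s = -1`, `Od_poly`, `sec_*`,
`ev_struct` with `m = n + 1`, `tot_core`, `Yg_expand`, `Pg_neg_one`, `Pg_degree`, `Yg_degree`.)

PLAN. `n >= 1`; `P` = polynomial of `Od_poly w (-1) (replicate (2n) 1)`, degree `<= 2 n`;
`P(1) = Od w (-1) (replicate (2n+1) 1)`.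
* `G := (X^2 - 1)(X - 1)^(4n)((X + 1)(X + C w)) P`, degree `<= 6 n + 4`;
  `gO w (-1) (replicate (2n) 1) U = G(U)` (`(U - s)(U - s w) = (U + 1)(U + w)`).
  `s w^2 (1 - s w^2) = - w^2 (1 + w^2) = w^3 = 1`, so `fe_odd_one` and `sec_eval` give
  `sec 2 G = C ((w - 1) a_n) (X - 1)^(2n)`, `a_n = Ev w (replicate (2n) 1)`.
* `g0 = sec 0 G`, `g1 = sec 1 G`, degrees `<= 2 n + 1`: this is `h2` of `tot_core`
  (`c = (w - 1) a_n`).
* `p = C μ * Pg (n+1)`, `pt = C μ * Ptg (n+1)`, `y = C μ * Yg n`.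
* `Ptg_deriv` (`h5`): `Ptg m = - X^(2m-1) Pg m (1/X)`; by coefficients: the derivative of
  `X^(2m-1-l)` at -1 is `(2m-1-l)(-1)^(2m-2-l) = (2m-1-l)(-1)^l`, that of `X^l` is
  `l (-1)^(l-1) = - l (-1)^l`.
* `Yg_deriv` (`h6`): for `T = X^(n+1-j)(X-1)^(2j)`: `T'(-1) = -(n+1) T(-1)`:
  `T' = ((n+1-j)/X + 2j/(X-1)) T`, at -1: `-(n+1-j) - j = -(n+1)`.
* cancel `μ ≠ 0`; `(w - 1)(1 + 2 w) = 3 w^2`; cancel `w^2`.
-/

set_option autoImplicit false

namespace ODD

open Polynomial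

private theorem odt_pow1 (k : ℕ) : (k : ℂ) * (-1) ^ (k - 1) = -(k * (-1) ^ k) := by
  cases k with
  | zero => simp
  | succ k =>
    rw [Nat.add_sub_cancel, pow_succ]
    ring

private theorem odt_pow2 (j : ℕ) :
    ((2 * j : ℕ) : ℂ) * (-2) ^ (2 * j - 1) = -(j * (-2) ^ (2 * j)) := by
  cases j with
  | zero => simp
  | succ j =>
    have h : 2 * (j + 1) - 1 = 2 * j + 1 := by omega
    have h2 : 2 * (j + 1) = 2 * j + 1 + 1 := by omega
    rw [h]
    rw [show ((-2 : ℂ)) ^ (2 * (j + 1)) = (-2) ^ (2 * j + 1) * (-2) by rw [h2, pow_succ]]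
    push_cast
    ring

private theorem odt_par (m l : ℕ) (hl : l < 2 * m) :
    (-1 : ℂ) ^ (2 * m - 1 - l) = -(-1) ^ l := by
  have h1 : (-1 : ℂ) ^ (2 * m - 1 - l) * (-1) ^ l = -1 := by
    rw [← pow_add]
    have h2 : 2 * m - 1 - l + l = 2 * (m - 1) + 1 := by omega
    rw [h2, pow_succ, pow_mul]
    norm_num
  have h3 : (-1 : ℂ) ^ l * (-1) ^ l = 1 := by
    rw [← mul_pow]
    norm_num
  calc (-1 : ℂ) ^ (2 * m - 1 - l) = (-1 : ℂ) ^ (2 * m - 1 - l) * ((-1) ^ l * (-1) ^ l) := by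
        rw [h3, mul_one]
    _ = ((-1 : ℂ) ^ (2 * m - 1 - l) * (-1) ^ l) * (-1) ^ l := by ring
    _ = -(-1) ^ l := by rw [h1]; ring

theorem Ptg_deriv (m : ℕ) (hm : 1 ≤ m) :
    (derivative (Ptg m)).eval (-1) =
      -((2 * m - 1) * (Pg m).eval (-1)) - (derivative (Pg m)).eval (-1) := by
  unfold Ptg Pg
  rw [derivative_neg, eval_neg, derivative_sum, eval_finsetSum, derivative_sum, eval_finsetSum,
    eval_finsetSum, Finset.mul_sum, ← Finset.sum_neg_distrib, ← Finset.sum_neg_distrib,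
    ← Finset.sum_sub_distrib]
  refine Finset.sum_congr rfl fun l hl => ?_
  have hl' := Finset.mem_range.1 hl
  rw [derivative_monomial, derivative_monomial, eval_monomial, eval_monomial, eval_monomial]
  have h1 := odt_pow1 (2 * m - 1 - l)
  rw [odt_par m l hl'] at h1
  have h2 := odt_pow1 l
  have h3 : ((2 * m - 1 - l : ℕ) : ℂ) = 2 * m - 1 - l := by
    rw [Nat.cast_sub (by omega), Nat.cast_sub (by omega)]
    push_cast
    ring
  calc _ = -(((gam m l : ℚ) : ℂ) * (((2 * m - 1 - l : ℕ) : ℂ) * (-1) ^ (2 * m - 1 - l - 1))) := by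
        ring
    _ = -(((gam m l : ℚ) : ℂ) * (2 * m - 1) * (-1) ^ l) +
        ((gam m l : ℚ) : ℂ) * (l * (-1) ^ l) := by
        rw [h1, h3]
        ring
    _ = -((2 * m - 1) * (((gam m l : ℚ) : ℂ) * (-1) ^ l)) -
        ((gam m l : ℚ) : ℂ) * (l * (-1) ^ (l - 1)) := by
        rw [h2]
        ring
    _ = _ := by ring

theorem Yg_deriv (n : ℕ) :
    (derivative (Yg n)).eval (-1) = -((n + 1) * (Yg n).eval (-1)) := by
  unfold Yg
  rw [derivative_C_mul, eval_C_mul, eval_C_mul, derivative_sum, eval_finsetSum, eval_finsetSum]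
  have key : ∀ j ∈ Finset.range (n + 2),
      (derivative (C ((psq n j : ℚ) : ℂ) * (X ^ (n + 1 - j) * (X - 1) ^ (2 * j) : ℂ[X]))).eval
        (-1 : ℂ) = -(((n : ℂ) + 1) * (C ((psq n j : ℚ) : ℂ) *
          (X ^ (n + 1 - j) * (X - 1) ^ (2 * j) : ℂ[X])).eval (-1 : ℂ)) := by
    intro j hj
    have hj' := Finset.mem_range.1 hj
    have h1 := odt_pow1 (n + 1 - j)
    have h2 := odt_pow2 j
    have h3 : ((n + 1 - j : ℕ) : ℂ) = n + 1 - j := by
      rw [Nat.cast_sub (by omega)]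
      push_cast
      ring
    have hd : derivative (X - 1 : ℂ[X]) = 1 := by
      rw [derivative_sub, derivative_X, derivative_one, sub_zero]
    rw [derivative_C_mul, eval_C_mul, eval_C_mul, derivative_mul, derivative_X_pow,
      derivative_pow, hd]
    simp only [eval_mul, eval_add, eval_pow, eval_X, eval_sub, eval_one, eval_C, mul_one]
    have h4 : (-1 - 1 : ℂ) = -2 := by norm_num
    rw [h4]
    have e1 : ((n + 1 - j : ℕ) : ℂ) * (-1) ^ (n + 1 - j - 1) * (-2) ^ (2 * j) +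
        (-1) ^ (n + 1 - j) * (((2 * j : ℕ) : ℂ) * (-2) ^ (2 * j - 1)) =
        -((n + 1) * ((-1) ^ (n + 1 - j) * (-2) ^ (2 * j))) := by
      rw [h1, h2, h3]
      ring
    rw [e1]
    ring
  rw [Finset.sum_congr rfl key, Finset.sum_neg_distrib, ← Finset.mul_sum]
  ring

theorem od_tot (w : ℂ) (hw : w ^ 2 + w + 1 = 0) (n : ℕ) (hn : 1 ≤ n)
    (hne : Ev w (List.replicate (2 * n + 2) 1) ≠ 0) (hP : (Pg (n + 1)).eval (-1) ≠ 0) :
    4 ^ (n + 1) * (Pg (n + 1)).eval 1 * Od w (-1) (List.replicate (2 * n + 1) 1) =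
      3 ^ (4 * n + 1) * Ev w (List.replicate (2 * n) 1) *
        (3 * (derivative (Pg (n + 1))).eval (-1) + (3 * n + 2) * (Pg (n + 1)).eval (-1)) := by
  have hw0 : w ≠ 0 := by
    rintro rfl
    norm_num at hw
  obtain ⟨P, hPd, hPe⟩ := Od_poly w (-1) (List.replicate (2 * n) 1)
  rw [List.length_replicate] at hPd
  have hP1 : P.eval 1 = Od w (-1) (List.replicate (2 * n + 1) 1) := by
    rw [← hPe 1, List.replicate_succ]
  set G : ℂ[X] := (X ^ 2 - 1) * (X - 1) ^ (4 * n) * ((X + 1) * (X + C w)) * P with hG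
  have hgO : ∀ U : ℂ, gO w (-1) (List.replicate (2 * n) 1) U = G.eval U := by
    intro U
    unfold gO
    rw [hPe U, List.map_replicate, List.prod_replicate, hG]
    simp only [eval_mul, eval_add, eval_pow, eval_X, eval_sub, eval_one, eval_C]
    have h1 : ((U - 1) * (1 - U * 1)) ^ (2 * n) = (U - 1) ^ (4 * n) := by
      have h2 : (U - 1) * (1 - U * 1) = -((U - 1) ^ 2) := by ring
      rw [h2, neg_pow, ← pow_mul, pow_mul (-1 : ℂ) 2 n]
      norm_num
      congr 1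
      ring
    rw [h1]
    ring
  have hfe : ∀ U : ℂ, 3 * U ^ 2 * (sec 2 G).eval (U ^ 3) =
      3 * (w - 1) * Ev w (List.replicate (2 * n) 1) * U ^ 2 * (U ^ 3 - 1) ^ (2 * n) := by
    intro U
    have h1 := fe_odd_one w (-1) hw (by norm_num) (2 * n) U
    rw [hgO, hgO, hgO, sec_eval w hw G U] at h1
    rw [h1]
    have h2 : (-1 : ℂ) * w ^ 2 * (1 - -1 * w ^ 2) = 1 := by
      linear_combination (-(w ^ 2) + w - 1) * hw
    have h3 : (1 - U ^ 3) ^ (2 * n) = (U ^ 3 - 1) ^ (2 * n) := by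
      have h4 : (1 - U ^ 3) = -(U ^ 3 - 1) := by ring
      rw [h4, neg_pow, pow_mul (-1 : ℂ) 2 n]
      norm_num
    rw [h2, one_pow, h3]
    ring
  set c : ℂ := (w - 1) * Ev w (List.replicate (2 * n) 1) with hc
  have hsec : X ^ 2 * expand ℂ 3 (sec 2 G) = C c * X ^ 2 * (X ^ 3 - 1) ^ (2 * n) := by
    refine Polynomial.funext fun U => ?_
    have h1 := hfe U
    simp only [eval_mul, eval_pow, eval_X, eval_sub, eval_one, eval_C, expand_eval]
    have h2 : (3 : ℂ) * (U ^ 2 * (sec 2 G).eval (U ^ 3)) =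
        3 * (c * U ^ 2 * (U ^ 3 - 1) ^ (2 * n)) := by
      rw [hc]
      linear_combination h1
    exact mul_left_cancel₀ (by norm_num) h2
  have h2 : expand ℂ 3 (sec 0 G) + X * expand ℂ 3 (sec 1 G) +
      C c * X ^ 2 * (X ^ 3 - 1) ^ (2 * n) =
      (X ^ 2 - 1) * (X - 1) ^ (4 * n) * ((X + 1) * (X + C w)) * P := by
    rw [← hsec, ← hG]
    exact (sec_decomp G).symm
  have hPn : P.natDegree ≤ 2 * n := by
    by_cases hP0 : P = 0
    · rw [hP0, natDegree_zero]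
      exact Nat.zero_le _
    · have h3 := (natDegree_lt_iff_degree_lt hP0).2 hPd
      omega
  have hGn : G.natDegree ≤ 6 * n + 4 := by
    have e1 : (X ^ 2 - 1 : ℂ[X]).natDegree ≤ 2 := by compute_degree
    have e2 : ((X - 1 : ℂ[X]) ^ (4 * n)).natDegree ≤ 4 * n := by
      refine natDegree_pow_le.trans ?_
      have e3 : (X - 1 : ℂ[X]).natDegree ≤ 1 := by compute_degree
      calc 4 * n * (X - 1 : ℂ[X]).natDegree ≤ 4 * n * 1 := Nat.mul_le_mul_left _ e3
        _ = 4 * n := by ring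
    have e4 : ((X + 1) * (X + C w) : ℂ[X]).natDegree ≤ 2 := by
      refine natDegree_mul_le.trans ?_
      have e5 : (X + 1 : ℂ[X]).natDegree ≤ 1 := by compute_degree
      have e6 : (X + C w : ℂ[X]).natDegree ≤ 1 := by compute_degree
      omega
    have f1 : ((X ^ 2 - 1) * (X - 1) ^ (4 * n) : ℂ[X]).natDegree ≤ 2 + 4 * n :=
      natDegree_mul_le.trans (add_le_add e1 e2)
    have f2 : ((X ^ 2 - 1) * (X - 1) ^ (4 * n) * ((X + 1) * (X + C w)) : ℂ[X]).natDegree ≤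
        2 + 4 * n + 2 := natDegree_mul_le.trans (add_le_add f1 e4)
    have f3 : G.natDegree ≤ 2 + 4 * n + 2 + 2 * n := by
      rw [hG]
      exact natDegree_mul_le.trans (add_le_add f2 hPn)
    omega
  have hcoef : ∀ j, 6 * n + 4 < j → G.coeff j = 0 := fun j hj =>
    coeff_eq_zero_of_natDegree_lt (lt_of_le_of_lt hGn hj)
  have hg0 : (sec 0 G).natDegree ≤ 2 * n + 1 := by
    have h3 := sec_degree 0 (2 * n + 2) G (fun j hj => hcoef _ (by omega))
    by_cases h0 : sec 0 G = 0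
    · rw [h0, natDegree_zero]
      exact Nat.zero_le _
    · have h4 := (natDegree_lt_iff_degree_lt h0).2 h3
      omega
  have hg1 : (sec 1 G).natDegree ≤ 2 * n + 1 := by
    have h3 := sec_degree 1 (2 * n + 2) G (fun j hj => hcoef _ (by omega))
    by_cases h0 : sec 1 G = 0
    · rw [h0, natDegree_zero]
      exact Nat.zero_le _
    · have h4 := (natDegree_lt_iff_degree_lt h0).2 h3
      omega
  obtain ⟨μ, H, hμ1, hμ2, -⟩ := ev_struct w hw (n + 1) (by omega)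
  have hμ : μ ≠ 0 := by
    rintro rfl
    rw [zero_mul] at hμ2
    have h3 : ((4 * (n + 1) - 1).factorial : ℂ) *
        (2 * Ev w (List.replicate (2 * (n + 1)) 1)) = 0 := by
      linear_combination hμ2
    rcases mul_eq_zero.1 h3 with h4 | h4
    · exact (Nat.cast_ne_zero.2 (Nat.factorial_ne_zero _)) h4
    · rcases mul_eq_zero.1 h4 with h5 | h5
      · norm_num at h5
      · refine hne ?_
        rw [show 2 * n + 2 = 2 * (n + 1) by ring]
        exact h5
  obtain ⟨S0, hS0⟩ := Yg_expand n hn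
  have h3 : X * expand ℂ 3 (C μ * Pg (n + 1)) - expand ℂ 3 (C μ * Yg n) =
      (X - 1) ^ (2 * n + 2) * ((X - 1) ^ 2 * (C μ * S0)) := by
    rw [map_mul, map_mul, expand_C]
    have h4 : X * (C μ * expand ℂ 3 (Pg (n + 1))) - C μ * expand ℂ 3 (Yg n) =
        C μ * (X * expand ℂ 3 (Pg (n + 1)) - expand ℂ 3 (Yg n)) := by ring
    rw [h4, hS0]
    ring
  have h1 : expand ℂ 3 (C μ * Pg (n + 1)) + X * expand ℂ 3 (C μ * Ptg (n + 1)) =
      (X - 1) ^ (4 * n + 3) * H := by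
    rw [hμ1]
    congr 2
  have hdg := Pg_degree (n + 1) (by omega)
  have hp : (C μ * Pg (n + 1)).natDegree ≤ 2 * n + 1 :=
    (natDegree_C_mul_le _ _).trans (hdg.1.trans (by omega))
  have hpt : (C μ * Ptg (n + 1)).natDegree ≤ 2 * n + 1 :=
    (natDegree_C_mul_le _ _).trans (hdg.2.trans (by omega))
  have hy : (C μ * Yg n).natDegree ≤ 2 * n + 2 :=
    (natDegree_C_mul_le _ _).trans (Yg_degree n)
  have h4 : (C μ * Pg (n + 1)).eval (-1) = (C μ * Ptg (n + 1)).eval (-1) := by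
    rw [eval_C_mul, eval_C_mul, Pg_neg_one (n + 1) (by omega)]
  have h5 : (derivative (C μ * Ptg (n + 1))).eval (-1) =
      -((2 * n + 1) * (C μ * Pg (n + 1)).eval (-1)) -
        (derivative (C μ * Pg (n + 1))).eval (-1) := by
    rw [derivative_C_mul, derivative_C_mul, eval_C_mul, eval_C_mul, eval_C_mul,
      Ptg_deriv (n + 1) (by omega)]
    push_cast
    ring
  have h6 : (derivative (C μ * Yg n)).eval (-1) =
      -((n + 1) * (C μ * Yg n).eval (-1)) := by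
    rw [derivative_C_mul, eval_C_mul, eval_C_mul, Yg_deriv]
    ring
  have hq : (C μ * Pg (n + 1)).eval (-1) ≠ 0 := by
    rw [eval_C_mul]
    exact mul_ne_zero hμ hP
  have hmain := tot_core w hw n (C μ * Pg (n + 1)) (C μ * Ptg (n + 1)) (sec 0 G) (sec 1 G) H P
    (C μ * Yg n) ((X - 1) ^ 2 * (C μ * S0)) c h1 h2 hp hpt hg0 hg1 hy h3 h4 h5 h6 hq
  rw [derivative_C_mul, eval_C_mul, eval_C_mul, eval_C_mul, hP1] at hmain
  have hfac : μ * w ^ 2 ≠ 0 := mul_ne_zero hμ (pow_ne_zero _ hw0)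
  refine mul_left_cancel₀ hfac ?_
  rw [hc] at hmain
  have e1 : (w - 1) * (1 + 2 * w) = 3 * w ^ 2 := by
    linear_combination (-1 : ℂ) * hw
  have e2 : (3 : ℂ) ^ (4 * n + 1) = 3 ^ (4 * n) * 3 := pow_succ _ _
  rw [e2]
  linear_combination hmain + μ * Ev w (List.replicate (2 * n) 1) * 3 ^ (4 * n) *
    (3 * (derivative (Pg (n + 1))).eval (-1) + (3 * n + 2) * (Pg (n + 1)).eval (-1)) * e1

end ODD
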