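import Pool.Agent.ODD.CNC
import Pool.Agent.ODD.ODT
import Pool.Agent.ODD.ODS
import Pool.Agent.ODD.HYC
import Pool.Agent.ODD.HYD
import Pool.Agent.ODD.HYE
import Pool.Agent.ODD.HYH
import Pool.Agent.ODD.HYI

/-!
# PROJECT ODD (MP_d12cfa_co): assembly
-/

set_option autoImplicit false

namespace ODD

open Polynomial

theorem exists_w : ∃ w : ℂ, w ^ 2 + w + 1 = 0 := by
  refine ⟨(-1 + (Real.sqrt 3 : ℂ) * Complex.I) / 2, ?_⟩
  have h3 : ((Real.sqrt 3 : ℝ) : ℂ) ^ 2 = 3 := by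
    rw [← Complex.ofReal_pow, Real.sq_sqrt (by norm_num)]; norm_num
  have hI : Complex.I ^ 2 = -1 := Complex.I_sq
  linear_combination (1 / 4 : ℂ) * Complex.I ^ 2 * h3 + (3 / 4 : ℂ) * hI

noncomputable def cE (m : ℕ) : ℕ :=
  Nat.card {A : Matrix (Fin (2 * m)) (Fin (2 * m)) ℤ // A ∈ Sset (2 * m) 0 ∧ ∀ i, A i i = 0}

noncomputable def cP (n : ℕ) : ℕ :=
  Nat.card {A : Matrix (Fin (2 * n + 1)) (Fin (2 * n + 1)) ℤ // A ∈ Sset (2 * n + 1) 0 ∧
    ∃ i, A i i = 1 ∧ ∀ j, j ≠ i → A j j = 0}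

noncomputable def cM (n : ℕ) : ℕ :=
  Nat.card {A : Matrix (Fin (2 * n + 1)) (Fin (2 * n + 1)) ℤ // A ∈ Sset (2 * n + 1) 0 ∧
    ∃ i, A i i = -1 ∧ ∀ j, j ≠ i → A j j = 0}

theorem Pg_one (n : ℕ) : (Pg (n + 1)).eval 1 = ((P1q n : ℚ) : ℂ) := by
  have h := gam_one (n + 1) (by omega)
  have e1 : 2 * (n + 1) - 1 = 2 * n + 1 := by omega
  have h2 : (∑ l ∈ Finset.range (2 * (n + 1)), gam (n + 1) l) = P1q n := by
    rw [h, e1, P1q]
    refine Finset.prod_congr rfl fun i _ => ?_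
    push_cast
    ring
  rw [Pg, eval_finsetSum, ← h2]
  push_cast
  refine Finset.sum_congr rfl fun l _ => ?_
  simp [eval_monomial]

theorem prod_neg_one (n : ℕ) (f : ℕ → ℚ) :
    ∏ k ∈ Finset.range n, (-f k) = (-1) ^ n * ∏ k ∈ Finset.range n, f k := by
  induction n with
  | zero => simp
  | succ n ih => rw [Finset.prod_range_succ, Finset.prod_range_succ, ih]; ring

theorem Pg_neg (n : ℕ) : (Pg (n + 1)).eval (-1) = (((-1) ^ (n + 1) * phq n : ℚ) : ℂ) := by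
  have h := gam_neg_one n
  rw [prod_neg_one] at h
  have h2 : (∑ l ∈ Finset.range (2 * (n + 1)), (-1) ^ l * gam (n + 1) l) =
      (-1) ^ (n + 1) * phq n := by
    rw [show 2 * (n + 1) = 2 * n + 2 by ring, h, phq]
    ring
  rw [Pg, eval_finsetSum, ← h2]
  push_cast
  refine Finset.sum_congr rfl fun l _ => ?_
  simp [eval_monomial, mul_comm]

theorem Pg_W (n : ℕ) :
    3 * (derivative (Pg (n + 1))).eval (-1) + (3 * n + 2) * (Pg (n + 1)).eval (-1) =
      (((-1) ^ n * Wq n : ℚ) : ℂ) := by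
  have h := gam_W n
  rw [prod_neg_one] at h
  have h2 : (∑ l ∈ Finset.range (2 * (n + 1)),
      (-1) ^ l * gam (n + 1) l * (3 * (n : ℚ) + 2 - 3 * l)) = (-1) ^ n * Wq n := by
    rw [show 2 * (n + 1) = 2 * n + 2 by ring, h, Wq]
    ring
  rw [Pg, ← h2, derivative_sum, eval_finsetSum, eval_finsetSum, Finset.mul_sum, Finset.mul_sum,
    ← Finset.sum_add_distrib]
  push_cast
  refine Finset.sum_congr rfl fun l _ => ?_
  rw [derivative_monomial, eval_monomial, eval_monomial]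
  rcases l with _ | l
  · simp
    ring
  · rw [Nat.add_sub_cancel, pow_succ]
    push_cast
    ring

theorem psq_tt (n j : ℕ) : psq n j * (-4) ^ j = tt n j := by
  induction j with
  | zero => simp [psq, tt]
  | succ j ih =>
    have e1 : psq n (j + 1) = psq n j *
        (-((3 * (j : ℚ) - 3 * n - 2) * (3 * j - 3 * n - 1)) /
          (18 * (j + 1) * (2 * j - 4 * n - 1))) := by
      rw [psq, Finset.prod_range_succ]; rfl
    have e2 : tt n (j + 1) = tt n j *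
        (((3 * (j : ℚ) - 3 * n - 2) * (3 * j - 3 * n - 1) * 2) /
          (9 * (j + 1) * (2 * j - 4 * n - 1))) := by
      rw [tt, Finset.prod_range_succ]; rfl
    have h1 : ((j : ℚ) + 1) ≠ 0 := by positivity
    have h2 : (2 * (j : ℚ) - 4 * n - 1) ≠ 0 := by
      intro h
      have : (2 * (j : ℤ) - 4 * n - 1) = 0 := by exact_mod_cast h
      omega
    rw [e1, e2, ← ih, pow_succ]
    field_simp
    ring

theorem Yg_neg (n : ℕ) :
    (Yg n).eval (-1) = (((-1) ^ (n + 1) * (P1q n * Tn n) : ℚ) : ℂ) := by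
  rw [Yg, eval_mul, eval_C, Pg_one, eval_finsetSum]
  have h : ∑ j ∈ Finset.range (n + 2), eval (-1)
      (C ((psq n j : ℚ) : ℂ) * ((X : ℂ[X]) ^ (n + 1 - j) * (X - 1) ^ (2 * j))) =
      (((-1) ^ (n + 1) * Tn n : ℚ) : ℂ) := by
    rw [Tn, Finset.mul_sum]
    push_cast
    refine Finset.sum_congr rfl fun j hj => ?_
    have hj' : j ≤ n + 1 := by
      have := Finset.mem_range.mp hj
      omega
    rw [← psq_tt]
    simp only [eval_mul, eval_C, eval_pow, eval_X, eval_sub, eval_one]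
    have e1 : (-1 : ℂ) ^ (n + 1) = (-1) ^ (n + 1 - j) * (-1) ^ j := by
      rw [← pow_add]; congr 1; omega
    have e2 : (-1 - 1 : ℂ) ^ (2 * j) = 4 ^ j := by
      rw [pow_mul]; norm_num
    have e3 : ((-1 : ℂ) ^ j) * (-4) ^ j = 4 ^ j := by
      rw [← mul_pow]; norm_num
    push_cast
    rw [e2, e1, ← e3]
    ring
  rw [h]
  push_cast
  ring

theorem exp_tri (m : ℕ) : 2 * (m + 1) * (2 * (m + 1) - 1) / 2 = 2 * m * (2 * m - 1) / 2 + (4 * m + 1) := by
  have h1 : 2 * (m + 1) * (2 * (m + 1) - 1) = 2 * ((m + 1) * (2 * m + 1)) := by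
    have : 2 * (m + 1) - 1 = 2 * m + 1 := by omega
    rw [this]; ring
  have h2 : 2 * m * (2 * m - 1) = 2 * (m * (2 * m - 1)) := by ring
  rw [h1, h2, Nat.mul_div_cancel_left _ (by norm_num), Nat.mul_div_cancel_left _ (by norm_num)]
  rcases m with _ | m
  · rfl
  · have : 2 * (m + 1) - 1 = 2 * m + 1 := by omega
    rw [this]; ring

theorem exp_tri' (m : ℕ) : (2 * m + 1) * (2 * m + 1 - 1) / 2 = 2 * m * (2 * m - 1) / 2 + 2 * m := by
  have h1 : (2 * m + 1) * (2 * m + 1 - 1) = 2 * (m * (2 * m + 1)) := by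
    rw [Nat.add_sub_cancel]; ring
  have h2 : 2 * m * (2 * m - 1) = 2 * (m * (2 * m - 1)) := by ring
  rw [h1, h2, Nat.mul_div_cancel_left _ (by norm_num), Nat.mul_div_cancel_left _ (by norm_num)]
  rcases m with _ | m
  · rfl
  · have : 2 * (m + 1) - 1 = 2 * m + 1 := by omega
    rw [this]; ring

section consts

variable {w : ℂ} (hw : w ^ 2 + w + 1 = 0)

include hw

theorem w_cube : w ^ 3 = 1 := by linear_combination (w - 1) * hw

theorem w_ne : w ≠ 0 := by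
  rintro rfl
  norm_num at hw

theorem one_sub_ne : (1 - w) ≠ 0 := by
  intro h
  have : w = 1 := by linear_combination -h
  rw [this] at hw
  norm_num at hw

theorem one_sub_sq : (1 - w) ^ 2 = -3 * w := by linear_combination hw

theorem one_sub_mul : (1 - w) * (1 - w ^ 2) = 3 := by
  linear_combination (w - 2) * hw

theorem one_sub_sq_ne : (1 - w ^ 2) ≠ 0 := by
  intro h
  have := one_sub_mul hw
  rw [h, mul_zero] at this
  norm_num at this

theorem pow_four (n : ℕ) : (1 - w) ^ (4 * n + 1) * (1 - w ^ 2) = 3 ^ (2 * n + 1) * w ^ (2 * n) := by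
  have h1 : (1 - w) ^ (4 * n) = (-3 * w) ^ (2 * n) := by
    rw [← one_sub_sq hw, ← pow_mul]; congr 1; ring
  have h2 : (-3 * w) ^ (2 * n) = 3 ^ (2 * n) * w ^ (2 * n) := by
    rw [mul_pow, pow_mul (-3 : ℂ) 2 n, pow_mul (3 : ℂ) 2 n]; norm_num
  rw [pow_succ, mul_assoc, one_sub_mul hw, h1, h2]
  ring

theorem pow_two_mul (n : ℕ) : (1 - w) ^ (2 * n) = (-1) ^ n * 3 ^ n * w ^ n := by
  rw [pow_mul, one_sub_sq hw, mul_pow, neg_pow]

end consts

theorem ev_cE (w : ℂ) (m : ℕ) :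
    Ev w (List.replicate (2 * m) 1) = (1 - w) ^ (2 * m * (2 * m - 1) / 2) * (cE m : ℂ) := by
  rw [ev_count, cE]

theorem cE_zero : cE 0 = 1 := by
  have h := ev_cE 0 0
  have h2 : Ev 0 (List.replicate (2 * 0) 1) = 1 := by
    simp [Ev, Z, zs]
  rw [h2] at h
  norm_num at h
  exact_mod_cast h.symm

theorem cE_rec (n : ℕ) :
    (cE (n + 1) : ℚ) * (2 * (4 * n + 3).factorial * P1q n) =
      3 ^ (2 * n + 1) * cE n * (3 ^ (2 * n + 1) * (2 * n + 1).factorial *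
        ∏ l ∈ Finset.range (2 * n + 2), (3 * (l : ℚ) + 1)) := by
  obtain ⟨w, hw⟩ := exists_w
  have h := ev_rec w hw (n + 1) (by omega)
  have e1 : 4 * (n + 1) - 1 = 4 * n + 3 := by omega
  have e2 : 4 * (n + 1) - 2 = 4 * n + 2 := by omega
  have e3 : 2 * (n + 1) - 2 = 2 * n := by omega
  have e4 : 2 * (n + 1) - 1 = 2 * n + 1 := by omega
  have e5 := ev_cE w (n + 1)
  rw [exp_tri] at e5
  rw [e5, ← e3, e1, e2, e4, Pg_one] at h
  rw [e3, ev_cE w n] at h
  have h4 := pow_four hw n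
  have hne : (1 - w) ^ (2 * n * (2 * n - 1) / 2) * (3 ^ (2 * n + 1) * w ^ (2 * n)) ≠ 0 :=
    mul_ne_zero (pow_ne_zero _ (one_sub_ne hw)) (mul_ne_zero (pow_ne_zero _ (by norm_num))
      (pow_ne_zero _ (w_ne hw)))
  have h5 : ((cE (n + 1) : ℚ) * (2 * (4 * n + 3).factorial * P1q n) : ℂ) =
      (3 ^ (2 * n + 1) * cE n * (3 ^ (2 * n + 1) * (2 * n + 1).factorial *
        ∏ l ∈ Finset.range (2 * n + 2), (3 * (l : ℂ) + 1))) := by
    refine mul_left_cancel₀ hne ?_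
    rw [pow_add] at h
    have e6 : ∏ l ∈ Finset.range (2 * (n + 1)), ((3 * l + 1 : ℕ) : ℂ) =
        ∏ l ∈ Finset.range (2 * n + 2), (3 * (l : ℂ) + 1) := by
      refine Finset.prod_congr rfl fun l _ => ?_
      push_cast; ring
    rw [e6] at h
    push_cast
    generalize hX : (1 - w) ^ (2 * n * (2 * n - 1) / 2) = X at h ⊢
    generalize hQ : ∏ l ∈ Finset.range (2 * n + 2), (3 * (l : ℂ) + 1) = Q at h ⊢
    have e7 : (3 : ℂ) ^ (4 * n + 2) = 3 ^ (2 * n + 1) * 3 ^ (2 * n + 1) := by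
      rw [← pow_add]; congr 1; ring
    rw [e7] at h
    linear_combination h - (2 * (4 * n + 3).factorial * X * cE (n + 1) * P1q n) * h4
  exact_mod_cast h5

theorem cE_eq (n : ℕ) : (cE n : ℚ) = Aq n := by
  induction n with
  | zero => rw [cE_zero]; simp [Aq]
  | succ n ih =>
    have h := cE_rec n
    rw [ih, ← A_rec n] at h
    have h1 : (2 * (4 * n + 3).factorial * P1q n : ℚ) ≠ 0 := by
      have := (positivity_q n).2.1
      have h2 := Nat.factorial_pos (4 * n + 3)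
      positivity
    exact mul_right_cancel₀ h1 h

theorem hne_ev {w : ℂ} (hw : w ^ 2 + w + 1 = 0) (n : ℕ) :
    Ev w (List.replicate (2 * n + 2) 1) ≠ 0 := by
  have e : 2 * n + 2 = 2 * (n + 1) := by ring
  rw [e, ev_cE]
  refine mul_ne_zero (pow_ne_zero _ (one_sub_ne hw)) ?_
  have h := cE_eq (n + 1)
  have h2 := (positivity_q (n + 1)).1
  intro h3
  have h4 : (cE (n + 1) : ℚ) = 0 := by exact_mod_cast h3
  rw [h4] at h
  rw [← h] at h2
  exact lt_irrefl _ h2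

theorem od_cPM (w s : ℂ) (n : ℕ) :
    Od w s (List.replicate (2 * n + 1) 1) =
      (1 - w) ^ (2 * n * (2 * n - 1) / 2) * (1 - w) ^ (2 * n) * (1 - s * w ^ 2) ^ (2 * n) *
        ((cP n : ℂ) - s * (cM n : ℂ)) := by
  have h := od_count w s (2 * n + 1) (by omega)
  rw [exp_tri', pow_add, Nat.add_sub_cancel] at h
  rw [h, cP, cM]

theorem od_one (w s : ℂ) : Od w s [1] = 1 := by
  simp [Od, Z, zs, Psi, row, kap, dO]

theorem total_pos (n : ℕ) (hn : 1 ≤ n) : (cP n : ℚ) + cM n = Fq n := by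
  obtain ⟨w, hw⟩ := exists_w
  have hP : (Pg (n + 1)).eval (-1) ≠ 0 := by
    rw [Pg_neg]
    have := (positivity_q n).2.2.1
    have h2 : ((-1) ^ (n + 1) * phq n : ℚ) ≠ 0 := by
      refine mul_ne_zero (pow_ne_zero _ (by norm_num)) this.ne'
    exact_mod_cast h2
  have h := od_tot w hw n hn (hne_ev hw n) hP
  rw [Pg_W, od_cPM, Pg_one, ev_cE] at h
  have hw3 := w_cube hw
  have h1 : (1 - (-1) * w ^ 2) = -w := by linear_combination hw
  have h2 := pow_two_mul hw n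
  have h3 : (-w) ^ (2 * n) = w ^ (2 * n) := by
    rw [pow_mul, pow_mul, neg_sq]
  have h4 : w ^ n * w ^ (2 * n) = 1 := by
    rw [← pow_add, show n + 2 * n = 3 * n by ring, pow_mul, hw3, one_pow]
  rw [h1, h2, h3] at h
  have hne : (1 - w) ^ (2 * n * (2 * n - 1) / 2) * ((-1) ^ n * 3 ^ n) ≠ 0 :=
    mul_ne_zero (pow_ne_zero _ (one_sub_ne hw)) (mul_ne_zero (pow_ne_zero _ (by norm_num))
      (pow_ne_zero _ (by norm_num)))
  have h5 : (4 ^ (n + 1) * P1q n * ((cP n : ℚ) + cM n) : ℂ) =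
      3 ^ (3 * n + 1) * cE n * Wq n := by
    refine mul_left_cancel₀ hne ?_
    push_cast at h ⊢
    generalize hX : (1 - w) ^ (2 * n * (2 * n - 1) / 2) = X at h ⊢
    have e7 : (3 : ℂ) ^ (4 * n + 1) = 3 ^ (3 * n + 1) * 3 ^ n := by
      rw [← pow_add]; congr 1; ring
    rw [e7] at h
    linear_combination h - (4 ^ (n + 1) * P1q n * X * (-1) ^ n * 3 ^ n * (cP n + cM n)) * h4
  have h6 : 4 ^ (n + 1) * P1q n * ((cP n : ℚ) + cM n) = 3 ^ (3 * n + 1) * cE n * Wq n := by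
    exact_mod_cast h5
  rw [cE_eq, F_formula] at h6
  have h7 : (4 ^ (n + 1) * P1q n : ℚ) ≠ 0 := by
    have := (positivity_q n).2.1
    positivity
  exact mul_left_cancel₀ h7 h6

theorem signed_pos (n : ℕ) (hn : 1 ≤ n) : (cP n : ℚ) - cM n = Fq n * rhoq n := by
  obtain ⟨w, hw⟩ := exists_w
  have h := od_sgn w hw n hn (hne_ev hw n)
  rw [Yg_neg, Pg_neg, od_cPM, Pg_one, ev_cE] at h
  have hw3 := w_cube hw
  have h2 := pow_two_mul hw n
  have h4 : (w ^ 2 * (1 - w ^ 2)) ^ (2 * n) = w ^ n * (1 - w ^ 2) ^ (2 * n) := by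
    rw [mul_pow, ← pow_mul, show 2 * (2 * n) = 3 * n + n by ring, pow_add, pow_mul, hw3, one_pow,
      one_mul]
  rw [h4, h2, one_mul, one_mul] at h
  have h8 := one_sub_mul hw
  have hne : (1 - w) ^ (2 * n * (2 * n - 1) / 2) * ((-1) ^ n * 3 ^ n) *
      (w ^ n * (1 - w ^ 2) ^ (2 * n)) ≠ 0 :=
    mul_ne_zero (mul_ne_zero (pow_ne_zero _ (one_sub_ne hw))
      (mul_ne_zero (pow_ne_zero _ (by norm_num)) (pow_ne_zero _ (by norm_num))))
      (mul_ne_zero (pow_ne_zero _ (w_ne hw)) (pow_ne_zero _ (one_sub_sq_ne hw)))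
  have h5 : (2 * 4 ^ (n + 1) * P1q n * ((cP n : ℚ) - cM n) : ℂ) =
      3 ^ (3 * n + 2) * cE n * (phq n + P1q n * Tn n) := by
    refine mul_left_cancel₀ hne ?_
    push_cast at h ⊢
    generalize hX : (1 - w) ^ (2 * n * (2 * n - 1) / 2) = X at h ⊢
    generalize hY : (1 - w ^ 2) ^ (2 * n) = Y at h ⊢
    have e7 : (3 : ℂ) ^ (4 * n + 1) = 3 ^ (3 * n) * 3 ^ n * 3 := by
      rw [← pow_add, ← pow_succ]; congr 1; ring
    have e8 : (3 : ℂ) ^ (3 * n + 2) = 3 ^ (3 * n) * 9 := by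
      rw [pow_add]; norm_num
    rw [e7] at h
    rw [e8]
    have e9 : (-1 : ℂ) ^ (n + 1) = - (-1) ^ n := by rw [pow_succ]; ring
    rw [e9] at h
    linear_combination -h + (w ^ n * Y * X * cE n * (3 ^ (3 * n) * 3 ^ n * 3) *
      ((-1) ^ n * (P1q n * Tn n) + (-1) ^ n * phq n)) * h8
  have h6 : 2 * 4 ^ (n + 1) * P1q n * ((cP n : ℚ) - cM n) =
      3 ^ (3 * n + 2) * cE n * (phq n + P1q n * Tn n) := by
    exact_mod_cast h5
  have h9 := rho_formula n
  have h10 := F_formula n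
  rw [cE_eq] at h6
  have h7 : (4 ^ (n + 1) * P1q n : ℚ) ≠ 0 := by
    have := (positivity_q n).2.1
    positivity
  refine mul_left_cancel₀ h7 ?_
  have e8 : (3 : ℚ) ^ (3 * n + 2) = 3 ^ (3 * n + 1) * 3 := by
    rw [← pow_succ]
  rw [e8] at h6
  linear_combination (1 / 2) * h6 + 3 ^ (3 * n + 1) * Aq n * h9 + rhoq n * h10

theorem zero_case : cP 0 = 1 ∧ cM 0 = 0 := by
  have h1 := od_cPM 0 1 0
  have h2 := od_cPM 0 (-1) 0
  rw [show List.replicate (2 * 0 + 1) (1 : ℂ) = [1] from rfl, od_one] at h1 h2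
  norm_num at h1 h2
  have h3 : (cM 0 : ℂ) = 0 := by linear_combination (1 / 2) * h1 - (1 / 2) * h2
  have h4 : (cP 0 : ℂ) = 1 := by linear_combination (-1 / 2) * h1 - (1 / 2) * h2
  exact ⟨by exact_mod_cast h4, by exact_mod_cast h3⟩

theorem total (n : ℕ) : (cP n : ℚ) + cM n = Fq n := by
  rcases n with _ | n
  · rw [zero_case.1, zero_case.2]; norm_num [Fq]
  · exact total_pos (n + 1) (by omega)

theorem signed (n : ℕ) : (cP n : ℚ) - cM n = Fq n * rhoq n := by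
  rcases n with _ | n
  · rw [zero_case.1, zero_case.2]; norm_num [Fq, rhoq, hq]
  · exact signed_pos (n + 1) (by omega)

end ODD
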