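import Pool.Agent.ODD.Basic

/-!
# PROJECT ODD (MP_d12cfa_co), module FRZ: first recursion (frozen first row and last column)
-/

set_option autoImplicit false

namespace ODD

variable {R : Type*} [CommRing R]

private theorem row_congr_len (d : Dat R) (U : R) (Vs : List R) : ∀ (r : Bool) (cs : List Bool)
    (g h : List Bool → R), (∀ l, l.length = Vs.length → g l = h l) →
    row d U Vs r cs g = row d U Vs r cs h := by
  induction Vs with
  | nil =>
    intro r cs g h hgh
    cases cs with
    | nil =>
      cases r
      · simp
      · simpa using hgh [] rfl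
    | cons c cs => simp
  | cons V Vs ih =>
    intro r cs g h hgh
    cases cs with
    | nil => simp
    | cons c cs =>
      rw [row_cons_cons, row_cons_cons]
      refine Finset.sum_congr rfl fun c' _ => Finset.sum_congr rfl fun r' _ => ?_
      rw [ih r' cs _ (fun l => h (c' :: l)) fun l hl => hgh _ (by simp [hl])]

theorem row_append_true (d : Dat R) (U W : R) (Vs : List R) (r : Bool) (cs : List Bool)
    (hlen : cs.length = Vs.length) (g : List Bool → R) :
    row d U (Vs ++ [W]) r (cs ++ [true]) g =
      (U * W - d.w) * row d U Vs r cs (fun l => g (l ++ [true])) := by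
  induction Vs generalizing r cs g with
  | nil =>
    have hcs : cs = [] := List.eq_nil_of_length_eq_zero (by simpa using hlen)
    subst hcs
    rw [List.nil_append, List.nil_append, row_cons_cons]
    cases r <;> simp [vert]
  | cons V Vs ih =>
    cases cs with
    | nil => simp at hlen
    | cons c cs =>
      rw [List.cons_append, List.cons_append, row_cons_cons, row_cons_cons, Finset.mul_sum]
      refine Finset.sum_congr rfl fun c' _ => ?_
      rw [Finset.mul_sum]
      refine Finset.sum_congr rfl fun r' _ => ?_
      rw [ih r' cs (by simpa using hlen)]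
      simp only [List.cons_append]
      ring

theorem psi_frozen (d : Dat R) (W : R) (Us : List R) (cs : List Bool)
    (hlen : cs.length = Us.length) :
    Psi d (Us ++ [W]) (cs ++ [true]) =
      (Us.map (fun V => V * W - d.w)).prod * (d.al * W + d.be) * Psi d Us cs := by
  induction Us generalizing cs with
  | nil =>
    have hcs : cs = [] := List.eq_nil_of_length_eq_zero (by simpa using hlen)
    subst hcs
    rw [List.nil_append, List.nil_append, psi_cons_cons]
    simp [kap]
  | cons U Us ih =>
    cases cs with
    | nil => simp at hlen
    | cons c cs =>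
      have hl : cs.length = Us.length := by simpa using hlen
      rw [List.cons_append, List.cons_append, psi_cons_cons, psi_cons_cons, Finset.mul_sum]
      refine Finset.sum_congr rfl fun r _ => ?_
      rw [row_append_true d U W Us r cs hl,
        row_congr_len d U Us r cs (fun l => Psi d (Us ++ [W]) (l ++ [true]))
          (fun l => ((Us.map (fun V => V * W - d.w)).prod * (d.al * W + d.be)) * Psi d Us l)
          (fun l hl => ih l hl), row_mul, List.map_cons, List.prod_cons]
      ring

theorem row_zs_last (d : Dat R) (hw : d.w ^ 2 + d.w + 1 = 0) (U W : R) (h : U * W = d.w ^ 2)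
    (Us : List R) (g : List Bool → R) :
    row d U (Us ++ [W]) false (zs (Us.length + 1)) g =
      (Us.map (fun V => U * V - d.w)).prod * (1 - d.w) * g (zs Us.length ++ [true]) ∧
    row d U (Us ++ [W]) true (zs (Us.length + 1)) g = 0 := by
  have h3 : 1 - d.w * (U * W) = 0 := by
    rw [h]
    linear_combination (1 - d.w) * hw
  induction Us generalizing g with
  | nil =>
    have h1 : zs (([] : List R).length + 1) = [false] := rfl
    rw [h1, List.nil_append, row_cons_cons, row_cons_cons]
    constructor
    · simp [vert, zs]
    · simp [vert, h3]
  | cons V Us ih =>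
    have h1 : zs ((V :: Us).length + 1) = false :: zs (Us.length + 1) := rfl
    have h2 : zs (V :: Us).length ++ [true] = false :: (zs Us.length ++ [true]) := rfl
    rw [h1, h2, List.cons_append, row_cons_cons, row_cons_cons]
    have hA := fun c' : Bool => (ih (fun l => g (c' :: l))).1
    have hB := fun c' : Bool => (ih (fun l => g (c' :: l))).2
    constructor
    · simp only [Fintype.sum_bool, hA, hB, vert, mul_zero, zero_mul, zero_add, add_zero,
        List.map_cons, List.prod_cons]
      ring
    · simp only [Fintype.sum_bool, hA, hB, vert, mul_zero, zero_mul, add_zero]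

theorem Z_corner2 (d : Dat R) (hw : d.w ^ 2 + d.w + 1 = 0) (U W : R) (h : U * W = d.w ^ 2)
    (Us : List R) :
    Z d (U :: (Us ++ [W])) = (1 - d.w) * (d.al * U + d.be) * (d.al * W + d.be) *
      (Us.map (fun V => (U * V - d.w) * (V * W - d.w))).prod * Z d Us := by
  have h1 : zs (U :: (Us ++ [W])).length = false :: zs (Us.length + 1) := by
    simp [zs, List.replicate_succ]
  have h2 := row_zs_last d hw U W h Us (Psi d (Us ++ [W]))
  have h3 := psi_frozen d W Us (zs Us.length) (by simp [zs])
  unfold Z
  rw [h1, psi_cons_cons, Fintype.sum_bool, h2.1, h2.2, h3, List.prod_map_mul]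
  simp only [kap]
  ring

end ODD
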