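import Pool.Agent.ODD.LAG

/-!
# PROJECT ODD (MP_d12cfa_co), module HYA: recursions of of the normalised coefficients
-/

set_option autoImplicit false

namespace ODD

open Finset

theorem gam_succ (m l : ℕ) :
    gam m (l + 1) * ((l + 1) * (3 * l + 2)) =
      gam m l * (((l : ℚ) + 1 - 2 * m) * (3 * l + 2 - 6 * m)) := by
  have h1 : (l : ℚ) + 1 ≠ 0 := by positivity
  have h2 : (3 : ℚ) * l + 2 ≠ 0 := by positivity
  unfold gam
  rw [Finset.prod_range_succ, mul_assoc, div_mul_cancel₀ _ (mul_ne_zero h1 h2)]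

theorem gam_zero_of_le (m l : ℕ) (hm : 1 ≤ m) (hl : 2 * m ≤ l) : gam m l = 0 := by
  obtain ⟨k, rfl⟩ : ∃ k, m = k + 1 := ⟨m - 1, by omega⟩
  unfold gam
  refine Finset.prod_eq_zero (i := 2 * k + 1) (Finset.mem_range.mpr (by omega)) ?_
  have h : (((2 * k + 1 : ℕ) : ℚ) + 1 - 2 * ((k + 1 : ℕ) : ℚ)) = 0 := by
    push_cast
    ring
  rw [h, zero_mul, zero_div]

theorem gam_shift (n l : ℕ) :
    (2 * (n : ℚ) + 3) * (2 * n + 2) * (6 * n + 10) * (6 * n + 7) * gam (n + 1) l =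
      (2 * n + 3 - l) * (2 * n + 2 - l) * (6 * n + 10 - 3 * l) * (6 * n + 7 - 3 * l) *
        gam (n + 2) l := by
  induction l with
  | zero => simp [gam]
  | succ l ih =>
    have h1 : (l : ℚ) + 1 ≠ 0 := by positivity
    have h2 : (3 : ℚ) * l + 2 ≠ 0 := by positivity
    have hD : ((l : ℚ) + 1) * (3 * l + 2) ≠ 0 := mul_ne_zero h1 h2
    have e1 := gam_succ (n + 1) l
    have e2 := gam_succ (n + 2) l
    apply mul_right_cancel₀ hD
    push_cast at e1 e2 ⊢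
    calc (2 * (n : ℚ) + 3) * (2 * n + 2) * (6 * n + 10) * (6 * n + 7) * gam (n + 1) (l + 1) *
          (((l : ℚ) + 1) * (3 * l + 2))
        = (2 * (n : ℚ) + 3) * (2 * n + 2) * (6 * n + 10) * (6 * n + 7) *
          (gam (n + 1) (l + 1) * (((l : ℚ) + 1) * (3 * l + 2))) := by ring
      _ = ((2 * (n : ℚ) + 3) * (2 * n + 2) * (6 * n + 10) * (6 * n + 7) * gam (n + 1) l) *
          (((l : ℚ) + 1 - 2 * (n + 1)) * (3 * l + 2 - 6 * (n + 1))) := by rw [e1]; ring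
      _ = (2 * n + 3 - (l + 1)) * (2 * n + 2 - (l + 1)) * (6 * n + 10 - 3 * (l + 1)) *
          (6 * n + 7 - 3 * (l + 1)) *
          (gam (n + 2) l * (((l : ℚ) + 1 - 2 * (n + 2)) * (3 * l + 2 - 6 * (n + 2)))) := by
          rw [ih]; ring
      _ = _ := by rw [← e2]; ring

end ODD
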