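import Mathlib

/-!
# PROJECT ODD (MP_d12cfa_co), module HYB: the final sum (Mathlib only)

`tt n j = prod_{i<j} (i-n-2/3)(i-n-1/3)/((i-2n-1/2)(i+1))`, `Tn n = sum_{j<=n+1} tt n j`,
`rr n = 3 prod_{k<n} 9(4k+3)(4k+5)/((6k+5)(6k+7))`, `vv k` as below. `Tn_formula`:
`1 + rr n * Tn n = (8/3) (1 + sum_{k<n} vv k)`. The step is a WZ pair: `kk n * tt (n+1) j - tt n j = gg n (j+1) - gg n j`.
-/

set_option autoImplicit false

namespace ODD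

open Finset

def tt (n j : ℕ) : ℚ :=
  ∏ i ∈ range j,
    ((3 * (i : ℚ) - 3 * n - 2) * (3 * i - 3 * n - 1) * 2) / (9 * (i + 1) * (2 * i - 4 * n - 1))

def Tn (n : ℕ) : ℚ := ∑ j ∈ range (n + 2), tt n j

def rr (n : ℕ) : ℚ :=
  3 * ∏ k ∈ range n, (9 * (4 * (k : ℚ) + 3) * (4 * k + 5)) / ((6 * k + 5) * (6 * k + 7))

/-- the terms of the alternating series -/
def vv (k : ℕ) : ℚ :=
  (1 / 7) * ∏ i ∈ range k,
    (-(2 * (2 * (i : ℚ) + 1) * (4 * i + 9) * (3 * i + 4) * (3 * i + 5)) /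
      ((4 * i + 5) * (i + 3) * (6 * i + 11) * (6 * i + 13)))

private theorem tt_succ (n j : ℕ) : tt n (j + 1) = tt n j *
    (((3 * (j : ℚ) - 3 * n - 2) * (3 * j - 3 * n - 1) * 2) /
      (9 * (j + 1) * (2 * j - 4 * n - 1))) := by
  rw [tt, prod_range_succ]
  rfl

private theorem ne1 (n j : ℕ) : 2 * (j : ℚ) - 4 * n - 1 ≠ 0 := by
  have h : (2 * (j : ℤ) - 4 * n - 1 : ℤ) ≠ 0 := by omega
  exact_mod_cast h

private theorem ne5 (n j : ℕ) : 2 * (j : ℚ) - 4 * n - 5 ≠ 0 := by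
  have h : (2 * (j : ℤ) - 4 * n - 5 : ℤ) ≠ 0 := by omega
  exact_mod_cast h

private theorem ne3a (n j : ℕ) : 3 * (n : ℚ) + 5 - 3 * j ≠ 0 := by
  have h : (3 * (n : ℤ) + 5 - 3 * j : ℤ) ≠ 0 := by omega
  exact_mod_cast h

private theorem ne3b (n j : ℕ) : 3 * (n : ℚ) + 4 - 3 * j ≠ 0 := by
  have h : (3 * (n : ℤ) + 4 - 3 * j : ℤ) ≠ 0 := by omega
  exact_mod_cast h

private theorem ne3c (n j : ℕ) : 3 * (n : ℚ) + 2 - 3 * j ≠ 0 := by
  have h : (3 * (n : ℤ) + 2 - 3 * j : ℤ) ≠ 0 := by omega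
  exact_mod_cast h

private theorem ne3d (n j : ℕ) : 3 * (n : ℚ) + 1 - 3 * j ≠ 0 := by
  have h : (3 * (n : ℤ) + 1 - 3 * j : ℤ) ≠ 0 := by omega
  exact_mod_cast h

/-- the polynomial identity of `tt_shift` -/
private theorem alg1 (T U N J : ℚ) (h1 : 2 * J - 4 * N - 1 ≠ 0) (h5 : 2 * J - 4 * N - 5 ≠ 0)
    (h6 : J + 1 ≠ 0)
    (ih : T * ((3 * N + 5 - 3 * J) * (3 * N + 4 - 3 * J) * (4 * N + 5) * (4 * N + 3)) =
      U * ((3 * N + 5) * (3 * N + 4) * (4 * N + 5 - 2 * J) * (4 * N + 3 - 2 * J))) :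
    T * (((3 * J - 3 * (N + 1) - 2) * (3 * J - 3 * (N + 1) - 1) * 2) /
      (9 * (J + 1) * (2 * J - 4 * (N + 1) - 1))) *
      ((3 * N + 5 - 3 * (J + 1)) * (3 * N + 4 - 3 * (J + 1)) * (4 * N + 5) * (4 * N + 3)) =
    U * (((3 * J - 3 * N - 2) * (3 * J - 3 * N - 1) * 2) / (9 * (J + 1) * (2 * J - 4 * N - 1))) *
      ((3 * N + 5) * (3 * N + 4) * (4 * N + 5 - 2 * (J + 1)) * (4 * N + 3 - 2 * (J + 1))) := by
  have h7 : 2 * J - 4 * (N + 1) - 1 ≠ 0 := by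
    intro h
    apply h5
    linarith
  have d1 : 9 * (J + 1) * (2 * J - 4 * (N + 1) - 1) ≠ 0 :=
    mul_ne_zero (mul_ne_zero (by norm_num) h6) h7
  have d2 : 9 * (J + 1) * (2 * J - 4 * N - 1) ≠ 0 :=
    mul_ne_zero (mul_ne_zero (by norm_num) h6) h1
  rw [mul_div_assoc', mul_div_assoc', div_mul_eq_mul_div, div_mul_eq_mul_div,
    div_eq_div_iff d1 d2]
  linear_combination (2 * (3 * N + 2 - 3 * J) * (3 * N + 1 - 3 * J)) *
    (9 * (J + 1) * (2 * J - 4 * N - 1)) * ih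

private theorem tt_shift (n j : ℕ) :
    tt (n + 1) j * ((3 * (n : ℚ) + 5 - 3 * j) * (3 * n + 4 - 3 * j) * (4 * n + 5) * (4 * n + 3)) =
      tt n j * ((3 * (n : ℚ) + 5) * (3 * n + 4) * (4 * n + 5 - 2 * j) * (4 * n + 3 - 2 * j)) := by
  induction j with
  | zero => simp [tt]
  | succ j ih =>
    rw [tt_succ, tt_succ]
    have h := alg1 _ _ (n : ℚ) (j : ℚ) (ne1 n j) (ne5 n j) (by positivity) ih
    push_cast
    exact h

private def c0 (n : ℕ) : ℚ := 2 * (54 * n ^ 2 + 144 * n + 95) / ((6 * n + 5) * (6 * n + 7))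

private def c1 (n : ℕ) : ℚ := -18 * (4 * n + 5) / ((6 * n + 5) * (6 * n + 7))

private def kk (n : ℕ) : ℚ := (9 * (4 * (n : ℚ) + 3) * (4 * n + 5)) / ((6 * n + 5) * (6 * n + 7))

private def gg (n j : ℕ) : ℚ := tt n j * (j * (2 * j - 4 * n - 3) * (c0 n + c1 n * j) * 9 /
  (2 * ((3 * n + 5 - 3 * j) * (3 * n + 4 - 3 * j))))

private theorem alg2 (T A B N J : ℚ) (h1 : 2 * J - 4 * N - 1 ≠ 0) (h6 : J + 1 ≠ 0)
    (h7 : 3 * N + 2 - 3 * J ≠ 0) (h8 : 3 * N + 1 - 3 * J ≠ 0) :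
    T * (((3 * J - 3 * N - 2) * (3 * J - 3 * N - 1) * 2) / (9 * (J + 1) * (2 * J - 4 * N - 1))) *
      ((J + 1) * (2 * (J + 1) - 4 * N - 3) * (A + B * (J + 1)) * 9 /
        (2 * ((3 * N + 5 - 3 * (J + 1)) * (3 * N + 4 - 3 * (J + 1))))) =
    T * (A + B * (J + 1)) := by
  have e1 : 3 * N + 5 - 3 * (J + 1) = 3 * N + 2 - 3 * J := by ring
  have e2 : 3 * N + 4 - 3 * (J + 1) = 3 * N + 1 - 3 * J := by ring
  rw [e1, e2, mul_assoc T, div_mul_div_comm, mul_div_assoc', div_eq_iff (mul_ne_zero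
    (mul_ne_zero (mul_ne_zero (by norm_num) h6) h1)
    (mul_ne_zero (by norm_num) (mul_ne_zero h7 h8)))]
  ring

private theorem gg_succ (n j : ℕ) : gg n (j + 1) = tt n j * (c0 n + c1 n * (j + 1)) := by
  rw [gg, tt_succ]
  have h := alg2 (tt n j) (c0 n) (c1 n) (n : ℚ) (j : ℚ) (ne1 n j) (by positivity) (ne3c n j)
    (ne3d n j)
  push_cast
  exact h

/-- the polynomial identity of the WZ pair -/
private theorem alg3 (T N J : ℚ) (h3 : 3 * N + 5 - 3 * J ≠ 0) (h4 : 3 * N + 4 - 3 * J ≠ 0)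
    (h5 : 4 * N + 5 ≠ 0) (h6 : 4 * N + 3 ≠ 0) (h7 : 6 * N + 5 ≠ 0) (h8 : 6 * N + 7 ≠ 0) :
    (9 * (4 * N + 3) * (4 * N + 5)) / ((6 * N + 5) * (6 * N + 7)) *
      (T * ((3 * N + 5) * (3 * N + 4) * (4 * N + 5 - 2 * J) * (4 * N + 3 - 2 * J)) /
        ((3 * N + 5 - 3 * J) * (3 * N + 4 - 3 * J) * (4 * N + 5) * (4 * N + 3))) - T =
    T * (2 * (54 * N ^ 2 + 144 * N + 95) / ((6 * N + 5) * (6 * N + 7)) +
      -18 * (4 * N + 5) / ((6 * N + 5) * (6 * N + 7)) * (J + 1)) -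
    T * (J * (2 * J - 4 * N - 3) * (2 * (54 * N ^ 2 + 144 * N + 95) /
      ((6 * N + 5) * (6 * N + 7)) + -18 * (4 * N + 5) / ((6 * N + 5) * (6 * N + 7)) * J) * 9 /
      (2 * ((3 * N + 5 - 3 * J) * (3 * N + 4 - 3 * J)))) := by
  obtain ⟨a, ha⟩ : ∃ a, a = 3 * N + 5 - 3 * J := ⟨_, rfl⟩
  obtain ⟨b, hb⟩ : ∃ b, b = 3 * N + 4 - 3 * J := ⟨_, rfl⟩
  obtain ⟨c, hc⟩ : ∃ c, c = 4 * N + 5 := ⟨_, rfl⟩
  obtain ⟨d, hd⟩ : ∃ d, d = 4 * N + 3 := ⟨_, rfl⟩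
  obtain ⟨M, hM⟩ : ∃ M, M = (6 * N + 5) * (6 * N + 7) := ⟨_, rfl⟩
  have hM0 : M ≠ 0 := by rw [hM]; exact mul_ne_zero h7 h8
  rw [← ha] at h3 ⊢
  rw [← hb] at h4 ⊢
  rw [← hc] at h5 ⊢
  rw [← hd] at h6 ⊢
  rw [← hM]
  field_simp
  rw [hM, ha, hb, hc, hd]
  ring

private theorem wz (n j : ℕ) : kk n * tt (n + 1) j - tt n j = gg n (j + 1) - gg n j := by
  have hs := tt_shift n j
  have h3 := ne3a n j
  have h4 := ne3b n j
  have h5 : 4 * (n : ℚ) + 5 ≠ 0 := by positivity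
  have h6 : 4 * (n : ℚ) + 3 ≠ 0 := by positivity
  have h7 : 6 * (n : ℚ) + 5 ≠ 0 := by positivity
  have h8 : 6 * (n : ℚ) + 7 ≠ 0 := by positivity
  have hT : tt (n + 1) j = tt n j * ((3 * (n : ℚ) + 5) * (3 * n + 4) * (4 * n + 5 - 2 * j) *
      (4 * n + 3 - 2 * j)) / ((3 * (n : ℚ) + 5 - 3 * j) * (3 * n + 4 - 3 * j) * (4 * n + 5) *
        (4 * n + 3)) := by
    rw [eq_div_iff (by simp only [ne_eq, mul_eq_zero, not_or]; exact ⟨⟨⟨h3, h4⟩, h5⟩, h6⟩)]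
    exact hs
  rw [gg_succ, gg, hT, kk, c0, c1]
  exact alg3 (tt n j) n j h3 h4 h5 h6 h7 h8

private theorem step (n : ℕ) : kk n * (Tn (n + 1) - tt (n + 1) (n + 2)) - Tn n =
    gg n (n + 2) := by
  have h1 : Tn (n + 1) = ∑ j ∈ range (n + 2), tt (n + 1) j + tt (n + 1) (n + 2) := by
    rw [Tn, sum_range_succ]
  have h2 := Finset.sum_range_sub (fun j => gg n j) (n + 2)
  have h3 : gg n 0 = 0 := by simp [gg]
  rw [h1, add_sub_cancel_right, Tn, mul_sum, ← sum_sub_distrib,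
    sum_congr rfl fun j _ => wz n j, h2, h3, sub_zero]

private theorem rr_succ (n : ℕ) : rr (n + 1) = rr n * kk n := by
  rw [rr, rr, prod_range_succ, kk]
  ring

private theorem vv_succ (n : ℕ) : vv (n + 1) = vv n *
    (-(2 * (2 * (n : ℚ) + 1) * (4 * n + 9) * (3 * n + 4) * (3 * n + 5)) /
      ((4 * n + 5) * (n + 3) * (6 * n + 11) * (6 * n + 13))) := by
  rw [vv, vv, prod_range_succ]
  ring

private theorem tlast (n : ℕ) : tt (n + 1) (n + 2) = tt n (n + 2) *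
    ((3 * (n : ℚ) + 5) * (3 * n + 4) * (2 * n + 1) * (2 * n - 1) /
      (2 * (4 * n + 5) * (4 * n + 3))) := by
  have hs := tt_shift n (n + 2)
  have h5 : 4 * (n : ℚ) + 5 ≠ 0 := by positivity
  have h6 : 4 * (n : ℚ) + 3 ≠ 0 := by positivity
  push_cast at hs
  have e : tt (n + 1) (n + 2) * ((2 : ℚ) * (4 * n + 5) * (4 * n + 3)) =
      tt n (n + 2) * ((3 * (n : ℚ) + 5) * (3 * n + 4) * (2 * n + 1) * (2 * n - 1)) := by
    linear_combination hs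
  rw [← mul_div_assoc, eq_div_iff (by positivity)]
  exact e

private theorem xnext (n : ℕ) : tt (n + 1) (n + 3) = tt n (n + 2) *
    (-(2 * (3 * (n : ℚ) + 5) * (3 * n + 4) * (2 * n - 1)) /
      (9 * (4 * n + 5) * (4 * n + 3) * (n + 3))) := by
  rw [tt_succ (n + 1) (n + 2), tlast]
  have h5 : 4 * (n : ℚ) + 5 ≠ 0 := by positivity
  have h6 : 4 * (n : ℚ) + 3 ≠ 0 := by positivity
  have h7 : (n : ℚ) + 3 ≠ 0 := by positivity
  have h8 : 2 * (n : ℚ) + 1 ≠ 0 := by positivity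
  have e1 : 3 * ((n + 2 : ℕ) : ℚ) - 3 * ((n + 1 : ℕ) : ℚ) - 2 = 1 := by
    push_cast
    ring
  have e2 : 3 * ((n + 2 : ℕ) : ℚ) - 3 * ((n + 1 : ℕ) : ℚ) - 1 = 2 := by
    push_cast
    ring
  have e3 : 9 * (((n + 2 : ℕ) : ℚ) + 1) * (2 * ((n + 2 : ℕ) : ℚ) - 4 * ((n + 1 : ℕ) : ℚ) - 1) =
      -(9 * (n + 3) * (2 * n + 1)) := by
    push_cast
    ring
  rw [e1, e2, e3]
  field_simp

private theorem lastT (n : ℕ) : rr n * tt n (n + 2) * (9 * (2 * (n : ℚ) - 1) * (4 * n + 5) /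
    ((6 * n + 5) * (6 * n + 7))) = 8 / 3 * vv n := by
  induction n with
  | zero => norm_num [rr, tt, vv, prod_range_succ]
  | succ n ih =>
    rw [rr_succ, vv_succ, xnext, ← mul_assoc, ← mul_assoc, ← ih, kk]
    have h5 : 4 * (n : ℚ) + 5 ≠ 0 := by positivity
    have h6 : 4 * (n : ℚ) + 3 ≠ 0 := by positivity
    have h7 : (n : ℚ) + 3 ≠ 0 := by positivity
    have h8 : 6 * (n : ℚ) + 5 ≠ 0 := by positivity
    have h9 : 6 * (n : ℚ) + 7 ≠ 0 := by positivity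
    have h10 : 6 * (n : ℚ) + 11 ≠ 0 := by positivity
    have h11 : 6 * (n : ℚ) + 13 ≠ 0 := by positivity
    have e1 : (6 * ((n + 1 : ℕ) : ℚ) + 5) * (6 * ((n + 1 : ℕ) : ℚ) + 7) =
        (6 * n + 11) * (6 * n + 13) := by
      push_cast
      ring
    have e2 : 9 * (2 * ((n + 1 : ℕ) : ℚ) - 1) * (4 * ((n + 1 : ℕ) : ℚ) + 5) =
        9 * (2 * n + 1) * (4 * n + 9) := by
      push_cast
      ring
    rw [e1, e2]
    field_simp

private theorem diff (n : ℕ) : rr (n + 1) * Tn (n + 1) - rr n * Tn n = 8 / 3 * vv n := by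
  have h1 := step n
  have h2 : rr (n + 1) * Tn (n + 1) - rr n * Tn n =
      rr n * (kk n * tt (n + 1) (n + 2) + gg n (n + 2)) := by
    rw [rr_succ, ← h1]
    ring
  rw [h2, ← lastT, tlast, gg, kk, c0, c1]
  have h5 : 4 * (n : ℚ) + 5 ≠ 0 := by positivity
  have h6 : 4 * (n : ℚ) + 3 ≠ 0 := by positivity
  have h8 : 6 * (n : ℚ) + 5 ≠ 0 := by positivity
  have h9 : 6 * (n : ℚ) + 7 ≠ 0 := by positivity
  have e1 : 3 * (n : ℚ) + 5 - 3 * ((n + 2 : ℕ) : ℚ) = -1 := by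
    push_cast
    ring
  have e2 : 3 * (n : ℚ) + 4 - 3 * ((n + 2 : ℕ) : ℚ) = -2 := by
    push_cast
    ring
  rw [e1, e2]
  push_cast
  field_simp
  ring

theorem Tn_formula (n : ℕ) :
    1 + rr n * Tn n = 8 / 3 * (1 + ∑ k ∈ range n, vv k) := by
  induction n with
  | zero => norm_num [rr, Tn, tt, sum_range_succ, prod_range_succ]
  | succ n ih =>
    rw [sum_range_succ]
    have h := diff n
    linarith

end ODD
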