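import Pool.Agent.ODD.HYB

/-!
# PROJECT ODD (MP_d12cfa_co), module HYG: definitions of the product formulas, simple identities

`P1q_succ`: the numerators `∏_{i<2n+1} 3 (2n+2+i)` for `n` and `n + 1` are compared with the product over `i < 2n+5`;
`P1q_rr`, `Wq_hq`: induction; `rho_formula`: from `Tn_formula` of HYB.
-/

set_option autoImplicit false

namespace ODD

open Finset

/-- number of even order OSASMs of order `2 m` -/
def Aq (m : ℕ) : ℚ :=
  ∏ k ∈ range m, (((2 * k + 1).factorial * (6 * k + 4).factorial : ℕ) : ℚ) /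
    ((2 * (4 * k + 3).factorial * (4 * k + 2).factorial : ℕ) : ℚ)

def P1q (n : ℕ) : ℚ := ∏ i ∈ range (2 * n + 1), ((3 * (2 * (n : ℚ) + 2 + i)) / (3 * i + 2))

def phq (n : ℕ) : ℚ := ∏ k ∈ range n, ((12 * (k : ℚ) + 14) / (3 * k + 4))

def Wq (n : ℕ) : ℚ := 4 * ∏ k ∈ range n, (8 * (3 * (k : ℚ) + 5) / (6 * k + 5))

def hq (n : ℕ) : ℚ :=
  ∏ k ∈ range n, ((6 * (k : ℚ) + 5) * (6 * k + 7)) / ((6 * k + 8) * (6 * k + 10))

/-- the product formula of Q1 (`2^(n-1)` in rational numbers) -/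
def Fq (n : ℕ) : ℚ :=
  2 ^ n / 2 * ((3 * n + 2).factorial : ℚ) / ((2 * n + 1).factorial : ℚ) *
    ∏ k ∈ range n, (((6 * k + 4).factorial : ℚ) / ((2 * n + 2 * k + 3).factorial : ℚ))

/-- relative difference between the numbers of positive and negative signs -/
def rhoq (n : ℕ) : ℚ := hq n * (1 + ∑ k ∈ range n, vv k)

private theorem num_succ (n : ℕ) :
    (∏ i ∈ range (2 * n + 3), (3 * (2 * ((n : ℚ) + 1) + 2 + i))) =
      (∏ i ∈ range (2 * n + 1), (3 * (2 * (n : ℚ) + 2 + i))) *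
        (36 * (4 * n + 5) * (4 * n + 3)) := by
  have h1 : (∏ i ∈ range (2 * n + 3 + 1 + 1), (3 * (2 * (n : ℚ) + 2 + i))) =
      (∏ i ∈ range (2 * n + 3), (3 * (2 * ((n : ℚ) + 1) + 2 + i))) * (3 * (2 * n + 3)) *
        (3 * (2 * n + 2)) := by
    rw [prod_range_succ', prod_range_succ']
    congr 1
    · congr 1
      · refine prod_congr rfl fun i _ => ?_
        push_cast
        ring
      · push_cast
        ring
    · push_cast
      ring
  have h2 : (∏ i ∈ range (2 * n + 1 + 1 + 1 + 1 + 1), (3 * (2 * (n : ℚ) + 2 + i))) =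
      (∏ i ∈ range (2 * n + 1), (3 * (2 * (n : ℚ) + 2 + i))) * (3 * (4 * n + 3)) *
        (3 * (4 * n + 4)) * (3 * (4 * n + 5)) * (3 * (4 * n + 6)) := by
    rw [prod_range_succ, prod_range_succ, prod_range_succ, prod_range_succ]
    push_cast
    ring
  have e : 2 * n + 3 + 1 + 1 = 2 * n + 1 + 1 + 1 + 1 + 1 := by omega
  rw [e, h2] at h1
  have hn : (0 : ℚ) ≤ n := Nat.cast_nonneg n
  have h3 : (3 * (2 * (n : ℚ) + 3)) * (3 * (2 * n + 2)) ≠ 0 := by positivity
  refine mul_right_cancel₀ h3 ?_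
  rw [← mul_assoc, ← h1]
  ring

theorem P1q_succ (n : ℕ) :
    P1q (n + 1) * ((6 * n + 5) * (6 * n + 8)) = P1q n * (36 * (4 * n + 5) * (4 * n + 3)) := by
  have hn : (0 : ℚ) ≤ n := Nat.cast_nonneg n
  unfold P1q
  have e : 2 * (n + 1) + 1 = 2 * n + 3 := by ring
  rw [prod_div_distrib, prod_div_distrib, e]
  have h1 : (∏ i ∈ range (2 * n + 3), (3 * (i : ℚ) + 2)) =
      (∏ i ∈ range (2 * n + 1), (3 * (i : ℚ) + 2)) * (6 * n + 5) * (6 * n + 8) := by
    rw [prod_range_succ, prod_range_succ]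
    push_cast
    ring
  have h2 : (∏ i ∈ range (2 * n + 1), (3 * (i : ℚ) + 2)) ≠ 0 := by
    refine prod_ne_zero_iff.2 fun i _ => ?_
    positivity
  have h3 := num_succ n
  push_cast
  rw [h3, h1]
  field_simp

private theorem rr_succ (n : ℕ) :
    rr (n + 1) = rr n * ((9 * (4 * (n : ℚ) + 3) * (4 * n + 5)) / ((6 * n + 5) * (6 * n + 7))) := by
  unfold rr
  rw [prod_range_succ]
  ring

private theorem phq_succ (n : ℕ) :
    phq (n + 1) = phq n * ((12 * (n : ℚ) + 14) / (3 * n + 4)) := by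
  unfold phq
  rw [prod_range_succ]

private theorem Wq_succ (n : ℕ) :
    Wq (n + 1) = Wq n * (8 * (3 * (n : ℚ) + 5) / (6 * n + 5)) := by
  unfold Wq
  rw [prod_range_succ]
  ring

private theorem hq_succ (n : ℕ) :
    hq (n + 1) = hq n * (((6 * (n : ℚ) + 5) * (6 * n + 7)) / ((6 * n + 8) * (6 * n + 10))) := by
  unfold hq
  rw [prod_range_succ]

theorem P1q_rr (n : ℕ) : P1q n = rr n * phq n := by
  induction n with
  | zero =>
    unfold P1q rr phq
    norm_num
  | succ n ih =>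
    have hn : (0 : ℚ) ≤ n := Nat.cast_nonneg n
    have h1 := P1q_succ n
    rw [ih] at h1
    have h2 : (6 * (n : ℚ) + 5) * (6 * n + 8) ≠ 0 := by positivity
    refine mul_right_cancel₀ h2 ?_
    rw [h1, rr_succ, phq_succ]
    have h3 : (6 * (n : ℚ) + 5) ≠ 0 := by positivity
    have h4 : (6 * (n : ℚ) + 7) ≠ 0 := by positivity
    have h5 : (3 * (n : ℚ) + 4) ≠ 0 := by positivity
    field_simp
    ring

theorem Wq_hq (n : ℕ) : Wq n * hq n = 4 * phq n := by
  induction n with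
  | zero =>
    unfold Wq hq phq
    norm_num
  | succ n ih =>
    have hn : (0 : ℚ) ≤ n := Nat.cast_nonneg n
    rw [Wq_succ, hq_succ, phq_succ]
    have h3 : (6 * (n : ℚ) + 5) ≠ 0 := by positivity
    have h4 : (6 * (n : ℚ) + 8) ≠ 0 := by positivity
    have h5 : (3 * (n : ℚ) + 4) ≠ 0 := by positivity
    have h6 : (6 * (n : ℚ) + 10) ≠ 0 := by positivity
    have h7 : (8 * (3 * (n : ℚ) + 5) / (6 * n + 5)) *
        (((6 * (n : ℚ) + 5) * (6 * n + 7)) / ((6 * n + 8) * (6 * n + 10))) =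
        (12 * (n : ℚ) + 14) / (3 * n + 4) := by
      field_simp
      ring
    calc Wq n * (8 * (3 * (n : ℚ) + 5) / (6 * n + 5)) *
          (hq n * (((6 * (n : ℚ) + 5) * (6 * n + 7)) / ((6 * n + 8) * (6 * n + 10)))) =
        (Wq n * hq n) * ((8 * (3 * (n : ℚ) + 5) / (6 * n + 5)) *
        (((6 * (n : ℚ) + 5) * (6 * n + 7)) / ((6 * n + 8) * (6 * n + 10)))) := by ring
      _ = 4 * (phq n * ((12 * (n : ℚ) + 14) / (3 * n + 4))) := by rw [ih, h7]; ring

theorem rho_formula (n : ℕ) :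
    3 / 2 * (phq n + P1q n * Tn n) = Wq n * rhoq n := by
  have h1 := Tn_formula n
  have h2 := Wq_hq n
  rw [P1q_rr]
  unfold rhoq
  rw [← mul_assoc, h2]
  linear_combination (3 / 2 * phq n) * h1

theorem positivity_q (n : ℕ) : 0 < Aq n ∧ 0 < P1q n ∧ 0 < phq n ∧ 0 < Wq n ∧ 0 < Fq n := by
  refine ⟨?_, ?_, ?_, ?_, ?_⟩
  · unfold Aq
    refine prod_pos fun k _ => ?_
    have h1 := Nat.factorial_pos (2 * k + 1)
    have h2 := Nat.factorial_pos (6 * k + 4)
    have h3 := Nat.factorial_pos (4 * k + 3)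
    have h4 := Nat.factorial_pos (4 * k + 2)
    positivity
  · unfold P1q
    refine prod_pos fun k _ => ?_
    positivity
  · unfold phq
    refine prod_pos fun k _ => ?_
    positivity
  · unfold Wq
    refine mul_pos (by norm_num) (prod_pos fun k _ => ?_)
    positivity
  · unfold Fq
    refine mul_pos ?_ (prod_pos fun k _ => ?_)
    · have h1 := Nat.factorial_pos (3 * n + 2)
      have h2 := Nat.factorial_pos (2 * n + 1)
      positivity
    · have h1 := Nat.factorial_pos (6 * k + 4)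
      have h2 := Nat.factorial_pos (2 * n + 2 * k + 3)
      positivity

end ODD
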