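import Pool.Agent.ODD.IFD
import Pool.Agent.ODD.EXC
import Pool.Agent.ODD.FRZ
import Pool.Agent.ODD.COR

/-!
# PROJECT ODD (MP_d12cfa_co), module IFA: symmetry and recursions over the complex numbers

Everything follows from the imports (some may still be `sorry`; use their statements).

PLAN.
* `good_dE`, `good_dO`: the fields of `Dat.Good` (`DualNumber`: `DualNumber.eps_mul_eps`;
  `s ^ 2 = 1`, `w ^ 3 = 1`; write everything as `algebraMap` of complex identities).
* `Ev_perm`: `Z_perm` for `R = C` (`algebraMap C C = id`, `List.map_id`). `Od_perm`: `Z_perm`.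
* `Ev_c2`: by `Ev_perm` move `W` to the end, `Z_corner2`. `Ev_c1`: `Z_corner1` (`e = 0`).
* `Od_c2`, `Od_c1`: the same in `DualNumber C`, then take `snd`: all factors are in the image of
  `algebraMap` (`TrivSqZeroExt.algebraMap_eq_inl`), `snd (algebraMap x * z) = x * snd z`
  (`TrivSqZeroExt.snd_mul`, `fst_inl`, `snd_inl`; or `Algebra.smul_def` and `snd_smul`);
  products of lists: `map_list_prod`, `List.map_map`.
-/

set_option autoImplicit false

namespace ODD

private theorem w3 (w : ℂ) (hw : w ^ 2 + w + 1 = 0) : w ^ 3 = 1 := by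
  linear_combination (w - 1) * hw

theorem good_dE (w : ℂ) (hw : w ^ 2 + w + 1 = 0) : (dE w).Good := by
  refine ⟨?_, ?_, ?_, ?_⟩ <;> simp [dE, hw]

theorem good_dO (w s : ℂ) (hw : w ^ 2 + w + 1 = 0) (hs : s ^ 2 = 1) : (dO w s).Good := by
  have h3 := w3 w hw
  refine ⟨?_, ?_, ?_, ?_⟩
  · show (algebraMap ℂ (DualNumber ℂ) w) ^ 2 + algebraMap ℂ (DualNumber ℂ) w + 1 = 0
    rw [← map_pow, ← map_add, ← map_one (algebraMap ℂ (DualNumber ℂ)), ← map_add, hw, map_zero]
  · show 1 * (algebraMap ℂ (DualNumber ℂ) (-s) * DualNumber.eps) =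
      algebraMap ℂ (DualNumber ℂ) w * algebraMap ℂ (DualNumber ℂ) (-(s * w ^ 2)) * DualNumber.eps
    rw [← map_mul, one_mul]
    congr 2
    linear_combination (s) * h3
  · show algebraMap ℂ (DualNumber ℂ) (-(s * w ^ 2)) *
      (algebraMap ℂ (DualNumber ℂ) (-s) * DualNumber.eps) =
      (algebraMap ℂ (DualNumber ℂ) w) ^ 2 * 1 * DualNumber.eps
    rw [← mul_assoc, ← map_mul, ← map_pow, mul_one]
    congr 2
    linear_combination (w ^ 2) * hs
  · show (algebraMap ℂ (DualNumber ℂ) (-s) * DualNumber.eps) *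
      (algebraMap ℂ (DualNumber ℂ) (-s) * DualNumber.eps) = DualNumber.eps * DualNumber.eps
    rw [mul_mul_mul_comm, DualNumber.eps_mul_eps, mul_zero]

theorem Ev_perm (w : ℂ) (hw : w ^ 2 + w + 1 = 0) {Us Vs : List ℂ} (h : Us.Perm Vs) :
    Ev w Us = Ev w Vs := by
  have := Z_perm (R := ℂ) (dE w) (good_dE w hw) w hw rfl h
  simpa [Ev, Algebra.algebraMap_self] using this

theorem Od_perm (w s : ℂ) (hw : w ^ 2 + w + 1 = 0) (hs : s ^ 2 = 1) {Us Vs : List ℂ}
    (h : Us.Perm Vs) : Od w s Us = Od w s Vs := by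
  have := Z_perm (R := DualNumber ℂ) (dO w s) (good_dO w s hw hs) w hw rfl h
  rw [Od, Od, this]

private theorem perm_last (U W : ℂ) (Us : List ℂ) : (U :: W :: Us).Perm (U :: (Us ++ [W])) := by
  refine List.Perm.cons U ?_
  exact (List.perm_append_singleton W Us).symm

theorem Ev_c2 (w : ℂ) (hw : w ^ 2 + w + 1 = 0) (U W : ℂ) (h : U * W = w ^ 2) (Us : List ℂ) :
    Ev w (U :: W :: Us) =
      (1 - w) * (Us.map (fun V => (U * V - w) * (V * W - w))).prod * Ev w Us := by
  rw [Ev_perm w hw (perm_last U W Us), Ev, Z_corner2 (dE w) hw U W h Us, Ev]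
  simp only [dE]
  ring

theorem Ev_c1 (w : ℂ) (hw : w ^ 2 + w + 1 = 0) (U W : ℂ) (h : U * W = w) (Us : List ℂ) :
    Ev w (U :: W :: Us) =
      (1 - w) * (Us.map (fun V => (1 - w * (U * V)) * (1 - w * (W * V)))).prod * Ev w Us := by
  rw [Ev, Z_corner1 (dE w) (good_dE w hw) (by simp [dE]) U W h Us, Ev]
  simp only [dE]
  ring

private theorem snd_alg (x : ℂ) (z : DualNumber ℂ) :
    TrivSqZeroExt.snd (algebraMap ℂ (DualNumber ℂ) x * z) = x * TrivSqZeroExt.snd z := by
  rw [← Algebra.smul_def, TrivSqZeroExt.snd_smul, smul_eq_mul]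

theorem Od_c2 (w s : ℂ) (hw : w ^ 2 + w + 1 = 0) (hs : s ^ 2 = 1) (U W : ℂ)
    (h : U * W = w ^ 2) (Us : List ℂ) :
    Od w s (U :: W :: Us) = (1 - w) * (U - s * w ^ 2) * (W - s * w ^ 2) *
      (Us.map (fun V => (U * V - w) * (V * W - w))).prod * Od w s Us := by
  have hg := good_dO w s hw hs
  have hZ := Z_corner2 (dO w s) hg.hw (algebraMap ℂ (DualNumber ℂ) U)
    (algebraMap ℂ (DualNumber ℂ) W) (by
      show _ = (algebraMap ℂ (DualNumber ℂ) w) ^ 2
      rw [← map_mul, h, map_pow]) (Us.map (algebraMap ℂ (DualNumber ℂ)))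
  rw [Od_perm w s hw hs (perm_last U W Us), Od, List.map_cons, List.map_append, List.map_cons,
    List.map_nil, hZ, Od, ← snd_alg]
  congr 1
  congr 1
  rw [map_mul, map_mul, map_mul, map_list_prod, List.map_map, List.map_map]
  congr 1
  · simp only [dO, map_sub, map_one, one_mul, map_neg]
    ring
  · congr 1
    apply List.map_congr_left
    intro V _
    simp [dO, Function.comp]

theorem Od_c1 (w s : ℂ) (hw : w ^ 2 + w + 1 = 0) (hs : s ^ 2 = 1) (U W : ℂ)
    (h : U * W = w) (Us : List ℂ) :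
    Od w s (U :: W :: Us) = (1 - w) * (U - s * w ^ 2) * (W - s * w ^ 2) *
      (Us.map (fun V => (1 - w * (U * V)) * (1 - w * (W * V)))).prod * Od w s Us := by
  have hg := good_dO w s hw hs
  have hZ := Z_corner1 (dO w s) hg (DualNumber.eps_mul_eps (R := ℂ))
    (algebraMap ℂ (DualNumber ℂ) U)
    (algebraMap ℂ (DualNumber ℂ) W) (by
      show _ = algebraMap ℂ (DualNumber ℂ) w
      rw [← map_mul, h]) (Us.map (algebraMap ℂ (DualNumber ℂ)))
  rw [Od, List.map_cons, List.map_cons, hZ, Od, ← snd_alg]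
  congr 1
  congr 1
  rw [map_mul, map_mul, map_mul, map_list_prod, List.map_map, List.map_map]
  congr 1
  · simp only [dO, map_sub, map_one, one_mul, map_neg]
    ring
  · congr 1
    apply List.map_congr_left
    intro V _
    simp [dO, Function.comp]

end ODD
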