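import Pool.Agent.ODD.Basic

/-!
# PROJECT ODD (MP_d12cfa_co): definitions of the interface over the complex numbers

`Ev w Us`: zero diagonal (even orders). `Od w s Us`: exactly one nonzero diagonal entry (odd
orders), `s = 1` or `s = -1`; defined with dual numbers (`e = ε`, `f = - s ε`).
-/

set_option autoImplicit false

namespace ODD

noncomputable def dE (w : ℂ) : Dat ℂ := ⟨w, 0, 1, 0, 0⟩

noncomputable def dO (w s : ℂ) : Dat (DualNumber ℂ) :=
  ⟨algebraMap ℂ _ w, 1, algebraMap ℂ _ (-(s * w ^ 2)), DualNumber.eps,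
    algebraMap ℂ _ (-s) * DualNumber.eps⟩

/-- even orders, zero diagonal -/
noncomputable def Ev (w : ℂ) (Us : List ℂ) : ℂ := Z (dE w) Us

/-- odd orders, one nonzero diagonal entry; sign parameter `s` -/
noncomputable def Od (w s : ℂ) (Us : List ℂ) : ℂ :=
  (Z (dO w s) (Us.map (algebraMap ℂ (DualNumber ℂ)))).snd

end ODD
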