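import Pool.Agent.ODD.FEE
import Pool.Agent.ODD.FEO

/-!
# PROJECT ODD (MP_d12cfa_co), module LIM: functional equations at parameters 1

The generic functional equations hold at the parameters `1 + (j + 1) t`, `t = 1 / (N + 1)`; both
sides are continuous functions of `t`, so they hold at `t = 0`, where all parameters are `1`.
-/

set_option autoImplicit false

namespace ODD

open Filter Topology

/-- the moving parameters as functions -/
private noncomputable def lfs (k : ℕ) : List (ℂ → ℂ) :=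
  (List.range k).map (fun (j : ℕ) (t : ℂ) => 1 + ((j : ℂ) + 1) * t)

private noncomputable def lat (k : ℕ) (t : ℂ) : List ℂ := (lfs k).map (fun f => f t)

private theorem lat_eq (k : ℕ) (t : ℂ) :
    lat k t = (List.range k).map (fun (j : ℕ) => 1 + ((j : ℂ) + 1) * t) := by
  rw [lat, lfs, List.map_map]
  rfl

private theorem lat_zero (k : ℕ) : lat k 0 = List.replicate k 1 := by
  rw [lat_eq]
  simp only [mul_zero, add_zero]
  rw [List.map_const', List.length_range]

private theorem lfs_cts (k : ℕ) : ∀ f ∈ lfs k, Continuous f := by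
  intro f hf
  rw [lfs, List.mem_map] at hf
  obtain ⟨j, _, rfl⟩ := hf
  exact continuous_const.add (continuous_const.mul continuous_id)

private theorem cons_cts (k : ℕ) (U : ℂ) : ∀ f ∈ ((fun _ => U) :: lfs k : List (ℂ → ℂ)),
    Continuous f := by
  intro f hf
  rcases List.mem_cons.1 hf with rfl | hf
  · exact continuous_const
  · exact lfs_cts k f hf

private theorem Ev_lat (w : ℂ) (k : ℕ) (U : ℂ) : Continuous fun t => Ev w (U :: lat k t) :=
  Ev_cts w ((fun _ => U) :: lfs k) (cons_cts k U)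

private theorem Ev_lat0 (w : ℂ) (k : ℕ) : Continuous fun t => Ev w (lat k t) :=
  Ev_cts w (lfs k) (lfs_cts k)

private theorem Od_lat (w s : ℂ) (k : ℕ) (U : ℂ) : Continuous fun t => Od w s (U :: lat k t) :=
  Od_cts w s ((fun _ => U) :: lfs k) (cons_cts k U)

private theorem prod_lat (k : ℕ) {g : ℂ → ℂ} (hg : Continuous g) :
    Continuous fun t => ((lat k t).map g).prod := by
  have h : (fun t => ((lat k t).map g).prod) = fun t =>
      ((lfs k).map (fun f => g (f t))).prod := by
    funext t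
    rw [lat, List.map_map]
    rfl
  rw [h]
  exact continuous_list_prod _ (fun f hf => hg.comp (lfs_cts k f hf))

private theorem gE_cts (w : ℂ) (k : ℕ) (U : ℂ) : Continuous fun t => gE w (lat k t) U := by
  unfold gE
  exact (continuous_const.mul (Ev_lat w k U)).mul (prod_lat k (by fun_prop))

private theorem gO_cts (w s : ℂ) (k : ℕ) (U : ℂ) : Continuous fun t => gO w s (lat k t) U := by
  unfold gO
  exact ((continuous_const.mul (Od_lat w s k U)).mul continuous_const).mul
    (prod_lat k (by fun_prop))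

private theorem lim_eq {F G : ℂ → ℂ} (hF : Continuous F) (hG : Continuous G)
    (h : ∀ N : ℕ, F (1 / ((N : ℂ) + 1)) = G (1 / ((N : ℂ) + 1))) : F 0 = G 0 := by
  have ht := tendsto_one_div_add_atTop_nhds_zero_nat (𝕜 := ℂ)
  have h1 := (hF.tendsto 0).comp ht
  have h2 := (hG.tendsto 0).comp ht
  have h3 : (F ∘ fun n : ℕ => 1 / ((n : ℂ) + 1)) = (G ∘ fun n : ℕ => 1 / ((n : ℂ) + 1)) := by
    funext N
    exact h N
  rw [h3] at h1
  exact tendsto_nhds_unique h1 h2

/-- the real value of the parameter -/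
private noncomputable def rv (N j : ℕ) : ℝ := 1 + ((j : ℝ) + 1) * (1 / ((N : ℝ) + 1))

private theorem rv_gt (N j : ℕ) : 1 < rv N j := by
  have : 0 < ((j : ℝ) + 1) * (1 / ((N : ℝ) + 1)) := by positivity
  unfold rv
  linarith

private theorem rv_lt {N i j : ℕ} (h : i < j) : rv N i < rv N j := by
  have h1 : (i : ℝ) + 1 < (j : ℝ) + 1 := by
    have : (i : ℝ) < j := by exact_mod_cast h
    linarith
  have h2 : (0 : ℝ) < 1 / ((N : ℝ) + 1) := by positivity
  have := mul_lt_mul_of_pos_right h1 h2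
  unfold rv
  linarith

private theorem rv_cast (N j : ℕ) : ((rv N j : ℝ) : ℂ) = 1 + ((j : ℂ) + 1) * (1 / ((N : ℂ) + 1)) := by
  unfold rv
  push_cast
  ring

private theorem lat_rv (k N : ℕ) :
    lat k (1 / ((N : ℂ) + 1)) = (List.range k).map (fun j => ((rv N j : ℝ) : ℂ)) := by
  rw [lat_eq]
  apply List.map_congr_left
  intro j _
  rw [rv_cast]

private theorem lat_mem {k N : ℕ} {V : ℂ} (hV : V ∈ lat k (1 / ((N : ℂ) + 1))) :
    ∃ x : ℝ, 1 < x ∧ V = (x : ℂ) := by
  rw [lat_rv, List.mem_map] at hV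
  obtain ⟨j, _, rfl⟩ := hV
  exact ⟨rv N j, rv_gt N j, rfl⟩

private theorem lat_ne {k N : ℕ} : ∀ V ∈ lat k (1 / ((N : ℂ) + 1)), V ≠ 0 := by
  intro V hV
  obtain ⟨x, hx, rfl⟩ := lat_mem hV
  have : x ≠ 0 := by linarith
  exact_mod_cast this

private theorem lat_nes {k N : ℕ} {s : ℂ} (hs : s ^ 2 = 1) :
    ∀ V ∈ lat k (1 / ((N : ℂ) + 1)), V ^ 3 ≠ s := by
  intro V hV h
  obtain ⟨x, hx, rfl⟩ := lat_mem hV
  have h1 : ((x : ℂ) ^ 3) ^ 2 = 1 := by rw [h, hs]
  have h2 : (x ^ 3) ^ 2 = 1 := by exact_mod_cast h1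
  have h3 : 1 < x ^ 3 := one_lt_pow₀ hx (by norm_num)
  have h4 : 1 < (x ^ 3) ^ 2 := one_lt_pow₀ h3 (by norm_num)
  linarith

private theorem lat_nodup {k N : ℕ} :
    ((lat k (1 / ((N : ℂ) + 1))).map (fun V => V ^ 3)).Nodup := by
  rw [lat_rv, List.map_map]
  refine (List.nodup_map_iff_inj_on List.nodup_range).2 ?_
  intro i _ j _ hij
  have h1 : (((rv N i : ℝ) : ℂ)) ^ 3 = ((rv N j : ℝ) : ℂ) ^ 3 := hij
  have h2 : (rv N i) ^ 3 = (rv N j) ^ 3 := by exact_mod_cast h1
  have h3 : rv N i = rv N j := by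
    have ha := (rv_gt N i).le
    have hb := (rv_gt N j).le
    exact (pow_left_inj₀ (by linarith) (by linarith) (by norm_num)).1 h2
  rcases lt_trichotomy i j with h | h | h
  · exact absurd h3 (rv_lt h).ne
  · exact h
  · exact absurd h3 (rv_lt h).ne'

theorem fe_even_one (w : ℂ) (hw : w ^ 2 + w + 1 = 0) (k : ℕ) (U : ℂ) :
    gE w (List.replicate k 1) U + w * gE w (List.replicate k 1) (w * U) +
      w ^ 2 * gE w (List.replicate k 1) (w ^ 2 * U) = 0 := by
  have h := lim_eq (F := fun t => gE w (lat k t) U + w * gE w (lat k t) (w * U) +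
      w ^ 2 * gE w (lat k t) (w ^ 2 * U)) (G := fun _ => 0)
    (((gE_cts w k U).add (continuous_const.mul (gE_cts w k (w * U)))).add
      (continuous_const.mul (gE_cts w k (w ^ 2 * U)))) continuous_const
    (fun N => fe_even_gen w hw _ lat_ne lat_nodup U)
  simpa only [lat_zero] using h

theorem fe_odd_one (w s : ℂ) (hw : w ^ 2 + w + 1 = 0) (hs : s ^ 2 = 1) (k : ℕ) (U : ℂ) :
    gO w s (List.replicate k 1) U + w * gO w s (List.replicate k 1) (w * U) +
        w ^ 2 * gO w s (List.replicate k 1) (w ^ 2 * U) =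
      3 * (w - 1) * (s * w ^ 2 * (1 - s * w ^ 2)) ^ k * Ev w (List.replicate k 1) *
        U ^ 2 * (1 - U ^ 3) ^ k := by
  have h := lim_eq (F := fun t => gO w s (lat k t) U + w * gO w s (lat k t) (w * U) +
      w ^ 2 * gO w s (lat k t) (w ^ 2 * U))
    (G := fun t => 3 * (w - 1) * ((lat k t).map (fun V => s * w ^ 2 * (V - s * w ^ 2))).prod *
      Ev w (lat k t) * U ^ 2 * ((lat k t).map (fun V => 1 - V ^ 3 * U ^ 3)).prod)
    (((gO_cts w s k U).add (continuous_const.mul (gO_cts w s k (w * U)))).add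
      (continuous_const.mul (gO_cts w s k (w ^ 2 * U))))
    ((((continuous_const.mul (prod_lat k (by fun_prop))).mul (Ev_lat0 w k)).mul
      continuous_const).mul (prod_lat k (by fun_prop)))
    (fun N => fe_odd_gen w s hw hs _ lat_ne (lat_nes hs) lat_nodup U)
  simpa only [lat_zero, List.map_replicate, List.prod_replicate, one_pow, one_mul] using h

end ODD
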