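import Mathlib

/-!
# PROJECT ODD (MP_d12cfa_co), module MOM: the moment lemma (Mathlib only)

If `G = (X - 1)^k H` and `P` is a polynomial of degree `<= k` then
`sum_e G_e P(e) = P_k * k! * H(1)` (summation by parts, induction on `k`).
-/

set_option autoImplicit false

namespace ODD

open Polynomial

private noncomputable def momS (P : ℂ[X]) (G : ℂ[X]) : ℂ := G.sum fun e a => a * P.eval (e : ℂ)

private lemma momS_add (P G G' : ℂ[X]) : momS P (G + G') = momS P G + momS P G' := by
  unfold momS
  exact Polynomial.sum_add_index G G' _ (fun i => by simp) (fun i a b => by ring)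

private lemma momS_monomial (P : ℂ[X]) (n : ℕ) (a : ℂ) :
    momS P (monomial n a) = a * P.eval (n : ℂ) := by
  unfold momS
  exact Polynomial.sum_monomial_index _ _ (by simp)

private lemma momS_neg (P G : ℂ[X]) : momS P (-G) = - momS P G := by
  have h := momS_add P G (-G)
  rw [add_neg_cancel] at h
  have h0 : momS P 0 = 0 := by
    unfold momS
    exact Polynomial.sum_zero_index _
  rw [h0] at h
  linear_combination -h

private lemma momS_X (P G : ℂ[X]) : momS P (X * G) = momS (P.comp (X + 1)) G := by
  induction G using Polynomial.induction_on' with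
  | add p q hp hq => rw [mul_add, momS_add, momS_add, hp, hq]
  | monomial n a =>
    rw [X_mul_monomial, momS_monomial, momS_monomial]
    congr 1
    rw [eval_comp, eval_add, eval_X, eval_one]
    push_cast
    rfl

private lemma momS_step (P G : ℂ[X]) :
    momS P ((X - 1) * G) = momS (P.comp (X + 1) - P) G := by
  have h1 : (X - 1) * G = X * G + (-G) := by ring
  rw [h1, momS_add, momS_neg, momS_X]
  have h2 : momS (P.comp (X + 1) - P) G = momS (P.comp (X + 1)) G - momS P G := by
    unfold momS
    rw [Polynomial.sum_def, Polynomial.sum_def, Polynomial.sum_def, ← Finset.sum_sub_distrib]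
    refine Finset.sum_congr rfl fun e _ => ?_
    rw [eval_sub]
    ring
  rw [h2]
  ring

private lemma mom_coeff (P : ℂ[X]) (k n : ℕ) (hP : P.natDegree ≤ k + 1) :
    (P.comp (X + 1)).coeff n = ∑ i ∈ Finset.range (k + 2), (i.choose n : ℂ) * P.coeff i := by
  have h0 : P.comp (X + 1) = taylor 1 P := by
    rw [taylor_apply, C_1]
  rw [h0, taylor_coeff, hasseDeriv_apply,
    Polynomial.sum_over_range' _ (fun i => by rw [mul_zero, monomial_zero_right]) (k + 2)
      (by omega), eval_finsetSum]
  refine Finset.sum_congr rfl fun i _ => ?_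
  rw [eval_monomial, one_pow, mul_one]

private lemma mom_D_coeff (P : ℂ[X]) (k : ℕ) (hP : P.natDegree ≤ k + 1) :
    (P.comp (X + 1) - P).coeff k = (k + 1 : ℂ) * P.coeff (k + 1) := by
  rw [coeff_sub, mom_coeff P k k hP, Finset.sum_range_succ, Finset.sum_range_succ,
    Finset.sum_eq_zero]
  · rw [Nat.choose_self, Nat.choose_succ_self_right]
    push_cast
    ring
  · intro i hi
    rw [Nat.choose_eq_zero_of_lt (Finset.mem_range.1 hi)]
    simp

private lemma mom_D_deg (P : ℂ[X]) (k : ℕ) (hP : P.natDegree ≤ k + 1) :
    (P.comp (X + 1) - P).natDegree ≤ k := by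
  rw [natDegree_le_iff_coeff_eq_zero]
  intro n hn
  rw [coeff_sub, mom_coeff P k n hP, Finset.sum_range_succ, Finset.sum_eq_zero, zero_add]
  · rcases Nat.lt_or_ge (k + 1) n with h | h
    · rw [Nat.choose_eq_zero_of_lt h, coeff_eq_zero_of_natDegree_lt (lt_of_le_of_lt hP h)]
      simp
    · have h1 : n = k + 1 := by omega
      rw [h1, Nat.choose_self]
      simp
  · intro i hi
    have h1 := Finset.mem_range.1 hi
    rw [Nat.choose_eq_zero_of_lt (by omega)]
    simp

private lemma mom_main (k : ℕ) : ∀ (H P : ℂ[X]), P.natDegree ≤ k →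
    momS P ((X - 1) ^ k * H) = P.coeff k * k.factorial * H.eval 1 := by
  induction k with
  | zero =>
    intro H P hP
    have h1 : P = C (P.coeff 0) := eq_C_of_natDegree_le_zero hP
    rw [pow_zero, one_mul, Nat.factorial_zero, Nat.cast_one, mul_one]
    have h2 : momS P H = P.coeff 0 * H.sum fun _ a => a := by
      unfold momS
      rw [Polynomial.sum_def, Polynomial.sum_def, Finset.mul_sum]
      refine Finset.sum_congr rfl fun e _ => ?_
      have h3 : P.eval (e : ℂ) = P.coeff 0 := by
        conv_lhs => rw [h1]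
        rw [eval_C]
      rw [h3]
      ring
    have h4 : H.eval 1 = H.sum fun _ a => a := by
      rw [eval_eq_sum]
      simp only [one_pow, mul_one]
    rw [h2, h4]
  | succ k ih =>
    intro H P hP
    rw [pow_succ', mul_assoc, momS_step, ih H _ (mom_D_deg P k hP), mom_D_coeff P k hP,
      Nat.factorial_succ]
    push_cast
    ring

theorem mom (k : ℕ) (G H : ℂ[X]) (h : G = (X - 1) ^ k * H) (P : ℂ[X]) (hP : P.natDegree ≤ k)
    (N : ℕ) (hN : G.natDegree < N) :
    ∑ e ∈ Finset.range N, G.coeff e * P.eval (e : ℂ) = P.coeff k * k.factorial * H.eval 1 := by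
  rw [← mom_main k H P hP, ← h]
  unfold momS
  rw [Polynomial.sum_over_range' _ (fun i => by rw [zero_mul]) N hN]

end ODD
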