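import Pool.Agent.ODD.WDef

/-!
# PROJECT ODD (MP_d12cfa_co), module WA: a WZ certificate and the finite identity

All statements checked numerically with exact fractions.

PLAN.
* `tw_shift`: induction on `k` (`prod_range_succ` for both sides; the factor number `k` of
  `tw (N+1)` divided by the one of `tw N` is
  `(2(k+N)+3)(6k+6N+13)(6k+6N+11) / ((2(k+N)+1)(6k+6N+19)(6k+6N+17))`).
* `uw_cert`: divide by `tw N k`: by `tw_shift` and `tw N (k+1) = tw N k * factor` it is an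
  identity of rational functions of `N, k`: `field_simp; ring` (all denominators positive).
* `Rw_rec`, `pw_Rw` (induction on `M` or product identity
  `pw M = (2M+5)/5 * ∏ 9(2i+1)^2/((6i+11)(6i+13))`; simplest: induction on `M` for
  `pw M * (5 ...)`. E.g. prove `pw M * ((6M+7)(6M+5)) = 7 (2M+5) qw M` by induction:
  `bw M * (6M+13)(6M+11) (2M+5) = 9 (2M+1)^2 (2M+7)` and
  `qw (M+1) (6M+5)(6M+7) = 9 (2M+1)^2 qw M`; this is `pw_qw`).
* `pw_Rw` and `pw_le` follow from `pw_qw` (`7(2M+5) ≤ (6M+7)(6M+5)`).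
* `uw_sum`: induction on `M`: step: `∑_{k<K} uw M k = bw M ∑_{k<K} uw (M+1) k + gw M K - gw M 0`
  (sum of `uw_cert`, telescoping: `Finset.sum_range_sub`), `gw M 0 = -4/(2M+5)` and `Rw_rec`
  give `pw M * (- gw M 0) = pw M Rw M - pw (M+1) Rw (M+1)`.
* `vv_uw`: `vv k = (1/7) ∏ ...`: induction on `k` with the telescoping factor
  `(4k+5)/5` (for `vv`: `(4i+9)/(4i+5)`).
-/

set_option autoImplicit false

namespace ODD

open Finset

private theorem tw_succ (N k : ℕ) : tw N (k + 1) = tw N k *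
    (-(2 * (2 * ((k : ℝ) + N) + 1) * (3 * k + 4) * (3 * k + 5)) /
    ((k + 3) * (6 * k + 6 * N + 13) * (6 * k + 6 * N + 11))) := by
  rw [tw, tw, prod_range_succ]

theorem tw_shift (N k : ℕ) :
    tw (N + 1) k * ((2 * (N : ℝ) + 1) * (6 * N + 6 * k + 13) * (6 * N + 6 * k + 11)) =
      tw N k * ((2 * ((N : ℝ) + k) + 1) * (6 * N + 13) * (6 * N + 11)) := by
  induction k with
  | zero =>
    simp only [tw, range_zero, prod_empty]
    push_cast
    ring
  | succ k ih =>
    rw [tw_succ, tw_succ]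
    have h1 : (k : ℝ) + 3 ≠ 0 := by positivity
    have h2 : 6 * (k : ℝ) + 6 * N + 13 ≠ 0 := by positivity
    have h3 : 6 * (k : ℝ) + 6 * N + 11 ≠ 0 := by positivity
    have h4 : 6 * (k : ℝ) + 6 * ((N : ℝ) + 1) + 13 ≠ 0 := by positivity
    have h5 : 6 * (k : ℝ) + 6 * ((N : ℝ) + 1) + 11 ≠ 0 := by positivity
    have h6 : 2 * ((N : ℝ) + k) + 1 ≠ 0 := by positivity
    have h7 : tw (N + 1) k = tw N k * ((2 * ((N : ℝ) + k) + 1) * (6 * N + 13) * (6 * N + 11)) /
        ((2 * (N : ℝ) + 1) * (6 * k + 6 * N + 13) * (6 * k + 6 * N + 11)) := by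
      have h8 : 2 * (N : ℝ) + 1 ≠ 0 := by positivity
      rw [eq_div_iff (by positivity)]
      linear_combination ih
    rw [h7]
    push_cast
    field_simp
    ring

theorem uw_cert (N k : ℕ) : uw N k - bw N * uw (N + 1) k = gw N (k + 1) - gw N k := by
  have hs := tw_shift N k
  have h1 : (k : ℝ) + 3 ≠ 0 := by positivity
  have h2 : 6 * (k : ℝ) + 6 * N + 13 ≠ 0 := by positivity
  have h3 : 6 * (k : ℝ) + 6 * N + 11 ≠ 0 := by positivity
  have h4 : 2 * (N : ℝ) + 1 ≠ 0 := by positivity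
  have h5 : 2 * (N : ℝ) + 5 ≠ 0 := by positivity
  have h6 : 2 * ((N : ℝ) + 1) + 5 ≠ 0 := by positivity
  have h6' : 2 * (N : ℝ) + 7 ≠ 0 := by positivity
  have h8 : 6 * (N : ℝ) + 13 ≠ 0 := by positivity
  have h9 : 6 * (N : ℝ) + 11 ≠ 0 := by positivity
  have h7 : tw (N + 1) k = tw N k * ((2 * ((N : ℝ) + k) + 1) * (6 * N + 13) * (6 * N + 11)) /
      ((2 * (N : ℝ) + 1) * (6 * k + 6 * N + 13) * (6 * k + 6 * N + 11)) := by
    rw [eq_div_iff (by positivity)]
    linear_combination hs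
  rw [uw, uw, gw, gw, bw, tw_succ, h7]
  push_cast
  field_simp
  ring

theorem Rw_rec (N : ℕ) : Rw N - bw N * Rw (N + 1) = 4 / (2 * (N : ℝ) + 5) := by
  have h5 : 2 * (N : ℝ) + 5 ≠ 0 := by positivity
  have h6 : 2 * ((N : ℝ) + 1) + 5 ≠ 0 := by positivity
  have h8 : 6 * (N : ℝ) + 13 ≠ 0 := by positivity
  have h9 : 6 * (N : ℝ) + 11 ≠ 0 := by positivity
  rw [Rw, Rw, bw]
  push_cast
  field_simp
  ring

private theorem pw_succ (M : ℕ) : pw (M + 1) = pw M * bw M := by
  rw [pw, pw, prod_range_succ]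

private theorem qw_succ (M : ℕ) : qw (M + 1) = qw M *
    (9 * (2 * (M : ℝ) + 1) ^ 2 / ((6 * M + 5) * (6 * M + 7))) := by
  rw [qw, qw, prod_range_succ]

theorem pw_qw (M : ℕ) :
    pw M * ((6 * (M : ℝ) + 7) * (6 * M + 5)) = 7 * (2 * M + 5) * qw M := by
  induction M with
  | zero =>
    simp only [pw, qw, range_zero, prod_empty]
    norm_num
  | succ M ih =>
    have h1 : 6 * (M : ℝ) + 7 ≠ 0 := by positivity
    have h2 : 6 * (M : ℝ) + 5 ≠ 0 := by positivity
    have h5 : 2 * (M : ℝ) + 5 ≠ 0 := by positivity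
    have h8 : 6 * (M : ℝ) + 13 ≠ 0 := by positivity
    have h9 : 6 * (M : ℝ) + 11 ≠ 0 := by positivity
    have h : pw M = 7 * (2 * M + 5) * qw M / ((6 * (M : ℝ) + 7) * (6 * M + 5)) := by
      rw [eq_div_iff (by positivity)]
      exact ih
    rw [pw_succ, qw_succ, h, bw]
    push_cast
    field_simp
    ring

theorem pw_Rw (M : ℕ) : pw M * Rw M = -(7 / 8 * (18 * (M : ℝ) + 5) * qw M) := by
  have h := pw_qw M
  have h5 : 2 * (M : ℝ) + 5 ≠ 0 := by positivity
  have e : pw M * Rw M = -((pw M * ((6 * (M : ℝ) + 7) * (6 * M + 5))) * (18 * M + 5) /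
      (8 * (2 * M + 5))) := by
    rw [Rw]
    ring
  rw [e, h]
  field_simp

theorem pw_le (M : ℕ) : 0 ≤ pw M ∧ pw M ≤ qw M := by
  have hb : ∀ i : ℕ, 0 ≤ bw i := fun i => by
    rw [bw]
    positivity
  have hp : 0 ≤ pw M := by
    rw [pw]
    exact prod_nonneg fun i _ => hb i
  refine ⟨hp, ?_⟩
  have h := pw_qw M
  have hM : (0 : ℝ) ≤ M := Nat.cast_nonneg M
  have h5 : 0 < 7 * (2 * (M : ℝ) + 5) := by positivity
  have h6 : pw M * (7 * (2 * (M : ℝ) + 5)) ≤ qw M * (7 * (2 * (M : ℝ) + 5)) := by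
    have h7 : 7 * (2 * (M : ℝ) + 5) ≤ (6 * (M : ℝ) + 7) * (6 * M + 5) := by nlinarith
    calc pw M * (7 * (2 * (M : ℝ) + 5)) ≤ pw M * ((6 * (M : ℝ) + 7) * (6 * M + 5)) :=
          mul_le_mul_of_nonneg_left h7 hp
      _ = qw M * (7 * (2 * (M : ℝ) + 5)) := by rw [h]; ring
  exact le_of_mul_le_mul_right h6 h5

theorem uw_sum (K M : ℕ) :
    ∑ k ∈ range K, uw 0 k =
      Rw 0 - pw M * Rw M + ∑ N ∈ range M, pw N * gw N K + pw M * ∑ k ∈ range K, uw M k := by
  induction M with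
  | zero => simp [pw]
  | succ M ih =>
    rw [ih, sum_range_succ, pw_succ]
    have hsum : ∑ k ∈ range K, uw M k = bw M * ∑ k ∈ range K, uw (M + 1) k +
        (gw M K - gw M 0) := by
      have h := sum_range_sub (fun k => gw M k) K
      rw [← h, mul_sum, ← sum_add_distrib]
      refine sum_congr rfl fun k _ => ?_
      linear_combination uw_cert M k
    have hg : gw M 0 = -(4 / (2 * (M : ℝ) + 5)) := by
      rw [gw, tw, range_zero, prod_empty]
      push_cast
      ring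
    have hR := Rw_rec M
    rw [hsum, hg]
    linear_combination (-pw M) * hR

private theorem vv_succ (n : ℕ) : vv (n + 1) = vv n *
    (-(2 * (2 * (n : ℚ) + 1) * (4 * n + 9) * (3 * n + 4) * (3 * n + 5)) /
      ((4 * n + 5) * (n + 3) * (6 * n + 11) * (6 * n + 13))) := by
  rw [vv, vv, prod_range_succ]
  ring

theorem vv_uw (k : ℕ) : ((vv k : ℚ) : ℝ) = uw 0 k / 7 := by
  induction k with
  | zero =>
    rw [uw, tw, vv, range_zero, prod_empty, prod_empty]
    norm_num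
  | succ k ih =>
    have h1 : (k : ℝ) + 3 ≠ 0 := by positivity
    have h2 : 6 * (k : ℝ) + 13 ≠ 0 := by positivity
    have h3 : 6 * (k : ℝ) + 11 ≠ 0 := by positivity
    have h4 : 4 * (k : ℝ) + 5 ≠ 0 := by positivity
    rw [vv_succ, uw, tw_succ]
    rw [uw] at ih
    push_cast at ih ⊢
    rw [ih]
    simp only [mul_zero, add_zero, zero_add]
    field_simp
    ring

end ODD
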