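import Pool.Agent.ODD.WDef

/-!
# PROJECT ODD (MP_d12cfa_co), module WB: bounds

PLAN.
* `alt_sum`: for `f` antitone and nonnegative, by induction on `K`, for ALL `f`:
  `∑_{k<K+1} (-1)^k f k = f 0 - ∑_{k<K} (-1)^k f (k+1)` (`Finset.sum_range_succ'`), and
  `0 ≤ ∑_{k<K} (-1)^k f (k+1) ≤ f 1 ≤ f 0` by the induction hypothesis for `f (· + 1)`.
* `uw_partial`: `uw M k = (-1)^k * f k` with `f k = (4k+2M+5)/(2M+5) * ∏_{i<k} (positive factor)`;
  `f (k+1) ≤ f k` because
  `2 (4k+2M+9) (2(k+M)+1) (3k+4) (3k+5) ≤ (4k+2M+5) (k+3) (6k+6M+13) (6k+6M+11)`: the difference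
  is a polynomial in `k, M` with nonnegative coefficients (`have : 0 ≤ (k:ℝ)`,
  `nlinarith`/`positivity` after `ring_nf`); `f 0 = 1`.
* `tw_bound`: `|factor i| ≤ ((i+2)/(i+3))^2`, i.e.
  `2 (2(i+N)+1) (3i+4) (3i+5) (i+3) ≤ (i+2)^2 (6i+6N+13) (6i+6N+11)` (again nonnegative
  coefficients), then induction on `k`.
* `gw_tendsto`: `|gw N K| ≤ 2 (K+2)/(2N+5) * 4/(K+2)^2 ≤ 8/(K+2)`, squeeze.
-/

set_option autoImplicit false

namespace ODD

open Finset Filter Topology

theorem alt_sum (K : ℕ) : ∀ f : ℕ → ℝ, (∀ k, 0 ≤ f k) → (∀ k, f (k + 1) ≤ f k) →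
    0 ≤ ∑ k ∈ range K, (-1) ^ k * f k ∧ ∑ k ∈ range K, (-1) ^ k * f k ≤ f 0 := by
  induction K with
  | zero => intro f h0 _; simpa using h0 0
  | succ K ih =>
    intro f h0 h1
    have h := ih (fun k => f (k + 1)) (fun k => h0 _) (fun k => h1 _)
    have e : ∑ k ∈ range (K + 1), (-1 : ℝ) ^ k * f k =
        f 0 - ∑ k ∈ range K, (-1) ^ k * f (k + 1) := by
      rw [Finset.sum_range_succ', sub_eq_add_neg, ← Finset.sum_neg_distrib, add_comm]
      congr 1
      · simp
      · refine Finset.sum_congr rfl fun k _ => ?_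
        rw [pow_succ]; ring
    rw [e]
    have h2 := h1 0
    have h3 := h0 0
    simp only [zero_add] at h h2
    constructor <;> linarith [h.1, h.2]

private noncomputable def aw (N i : ℕ) : ℝ :=
  (2 * (2 * ((i : ℝ) + N) + 1) * (3 * i + 4) * (3 * i + 5)) /
    ((i + 3) * (6 * i + 6 * N + 13) * (6 * i + 6 * N + 11))

private theorem aw_nonneg (N i : ℕ) : 0 ≤ aw N i := by unfold aw; positivity

private theorem tw_eq (N k : ℕ) : tw N k = (-1) ^ k * ∏ i ∈ range k, aw N i := by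
  have : ((-1 : ℝ)) ^ k = ∏ i ∈ range k, (-1 : ℝ) := by simp
  rw [this, ← Finset.prod_mul_distrib]
  unfold tw
  refine Finset.prod_congr rfl fun i _ => ?_
  unfold aw
  rw [neg_div, neg_one_mul]

private theorem aw_le1 (M k : ℕ) :
    (4 * ((k : ℝ) + 1) + 2 * M + 5) * aw M k ≤ 4 * (k : ℝ) + 2 * M + 5 := by
  have hk : (0 : ℝ) ≤ k := Nat.cast_nonneg k
  have hM : (0 : ℝ) ≤ M := Nat.cast_nonneg M
  unfold aw
  rw [← mul_div_assoc, div_le_iff₀ (by positivity)]
  rw [← sub_nonneg]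
  generalize (k : ℝ) = x at *
  generalize (M : ℝ) = y at *
  ring_nf
  positivity

private theorem aw_le2 (N i : ℕ) : aw N i ≤ (((i : ℝ) + 2) / (i + 3)) ^ 2 := by
  have hk : (0 : ℝ) ≤ i := Nat.cast_nonneg i
  have hM : (0 : ℝ) ≤ N := Nat.cast_nonneg N
  unfold aw
  rw [div_pow, div_le_div_iff₀ (by positivity) (by positivity)]
  rw [← sub_nonneg]
  generalize (i : ℝ) = x at *
  generalize (N : ℝ) = y at *
  ring_nf
  positivity

theorem uw_partial (M K : ℕ) :
    0 ≤ ∑ k ∈ range K, uw M k ∧ ∑ k ∈ range K, uw M k ≤ 1 := by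
  have hM : (0 : ℝ) < 2 * (M : ℝ) + 5 := by positivity
  have h := alt_sum K (fun k => (4 * (k : ℝ) + 2 * M + 5) / (2 * M + 5) *
    ∏ i ∈ range k, aw M i) (fun k => by
      have := Finset.prod_nonneg (s := range k) (f := fun i => aw M i) (fun i _ => aw_nonneg M i)
      positivity) (fun k => by
      have h1 := Finset.prod_nonneg (s := range k) (f := fun i => aw M i)
        (fun i _ => aw_nonneg M i)
      rw [Finset.prod_range_succ]
      have h2 := mul_le_mul_of_nonneg_left (aw_le1 M k) h1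
      push_cast
      rw [div_mul_eq_mul_div, div_mul_eq_mul_div]
      apply div_le_div_of_nonneg_right _ hM.le
      nlinarith [h2])
  have e : ∀ k : ℕ, (-1 : ℝ) ^ k * ((4 * (k : ℝ) + 2 * M + 5) / (2 * M + 5) *
      ∏ i ∈ range k, aw M i) = uw M k := by
    intro k
    unfold uw
    rw [tw_eq]; ring
  simp only [e] at h
  refine ⟨h.1, h.2.trans (le_of_eq ?_)⟩
  simp only [Nat.cast_zero, mul_zero, zero_add, Finset.range_zero, Finset.prod_empty, mul_one]
  exact div_self hM.ne'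

theorem tw_bound (N k : ℕ) : |tw N k| ≤ (2 / ((k : ℝ) + 2)) ^ 2 := by
  rw [tw_eq, abs_mul, abs_pow, abs_neg, abs_one, one_pow, one_mul,
    abs_of_nonneg (Finset.prod_nonneg fun i _ => aw_nonneg N i)]
  induction k with
  | zero => simp
  | succ k ih =>
    rw [Finset.prod_range_succ]
    calc (∏ i ∈ range k, aw N i) * aw N k
        ≤ (2 / ((k : ℝ) + 2)) ^ 2 * (((k : ℝ) + 2) / (k + 3)) ^ 2 :=
          mul_le_mul ih (aw_le2 N k) (aw_nonneg N k) (by positivity)
      _ = (2 / (((k + 1 : ℕ) : ℝ) + 2)) ^ 2 := by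
          have h2 : (k : ℝ) + 2 ≠ 0 := by positivity
          have h3 : (k : ℝ) + 3 ≠ 0 := by positivity
          have h4 : (((k + 1 : ℕ) : ℝ) + 2) = k + 3 := by push_cast; ring
          rw [h4]
          field_simp

theorem gw_tendsto (N : ℕ) : Tendsto (fun K => gw N K) atTop (𝓝 0) := by
  have hb : ∀ K : ℕ, ‖gw N K‖ ≤ 8 / ((K : ℝ) + 2) := by
    intro K
    have h1 : (0 : ℝ) < (K : ℝ) + 2 := by positivity
    have h2 : (1 : ℝ) ≤ 2 * (N : ℝ) + 5 := by
      have : (0 : ℝ) ≤ N := Nat.cast_nonneg N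
      linarith
    have h3 := tw_bound N K
    unfold gw
    rw [Real.norm_eq_abs, abs_mul, abs_div, abs_neg, abs_of_pos (show (0 : ℝ) < 2 * ((K : ℝ) + 2) by positivity),
      abs_of_pos (show (0 : ℝ) < 2 * (N : ℝ) + 5 by positivity)]
    calc 2 * ((K : ℝ) + 2) / (2 * N + 5) * |tw N K|
        ≤ 2 * ((K : ℝ) + 2) / 1 * (2 / ((K : ℝ) + 2)) ^ 2 := by
          apply mul_le_mul _ h3 (abs_nonneg _) (by positivity)
          exact div_le_div_of_nonneg_left (by positivity) one_pos h2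
      _ = 8 / ((K : ℝ) + 2) := by
          field_simp
          norm_num
  refine squeeze_zero_norm hb ?_
  have : Tendsto (fun K : ℕ => ((K : ℝ) + 2)) atTop atTop :=
    tendsto_atTop_add_const_right _ _ tendsto_natCast_atTop_atTop
  exact this.const_div_atTop 8

end ODD
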