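import Pool.Agent.ODD.WDef

/-!
# PROJECT ODD (MP_d12cfa_co), module WC: the limit of `n * hq n`

`hq_prod`: exact identity by induction.  `hq_lim`: Euler's product for the sine at `1/6` and `1/3`.
-/

set_option autoImplicit false

namespace ODD

open Finset Filter Topology

theorem hq_prod (n : ℕ) :
    ((hq n : ℚ) : ℝ) * ((3 * n + 2) * ∏ j ∈ range n, (1 - (1 / 3 : ℝ) ^ 2 / ((j : ℝ) + 1) ^ 2)) =
      2 * ∏ j ∈ range n, (1 - (1 / 6 : ℝ) ^ 2 / ((j : ℝ) + 1) ^ 2) := by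
  induction n with
  | zero =>
    unfold hq
    simp
  | succ n ih =>
    have h1 : ((hq (n + 1) : ℚ) : ℝ) = ((hq n : ℚ) : ℝ) *
        (((6 * (n : ℝ) + 5) * (6 * n + 7)) / ((6 * n + 8) * (6 * n + 10))) := by
      unfold hq
      rw [prod_range_succ]
      push_cast
      rfl
    have hn : (0 : ℝ) ≤ n := Nat.cast_nonneg n
    have h2 : (((6 * (n : ℝ) + 5) * (6 * n + 7)) / ((6 * n + 8) * (6 * n + 10))) *
        ((3 * ((n : ℝ) + 1) + 2) * (1 - (1 / 3 : ℝ) ^ 2 / ((n : ℝ) + 1) ^ 2)) =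
        (3 * n + 2) * (1 - (1 / 6 : ℝ) ^ 2 / ((n : ℝ) + 1) ^ 2) := by
      have e1 : (n : ℝ) + 1 ≠ 0 := by positivity
      have e2 : 6 * (n : ℝ) + 8 ≠ 0 := by positivity
      have e3 : 6 * (n : ℝ) + 10 ≠ 0 := by positivity
      field_simp
      ring
    rw [prod_range_succ, prod_range_succ, h1]
    push_cast
    calc ((hq n : ℚ) : ℝ) * (((6 * (n : ℝ) + 5) * (6 * n + 7)) / ((6 * n + 8) * (6 * n + 10))) *
          ((3 * ((n : ℝ) + 1) + 2) * ((∏ j ∈ range n, (1 - (1 / 3 : ℝ) ^ 2 / ((j : ℝ) + 1) ^ 2)) *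
            (1 - (1 / 3 : ℝ) ^ 2 / ((n : ℝ) + 1) ^ 2)))
        = ((hq n : ℚ) : ℝ) * (∏ j ∈ range n, (1 - (1 / 3 : ℝ) ^ 2 / ((j : ℝ) + 1) ^ 2)) *
          ((((6 * (n : ℝ) + 5) * (6 * n + 7)) / ((6 * n + 8) * (6 * n + 10))) *
            ((3 * ((n : ℝ) + 1) + 2) * (1 - (1 / 3 : ℝ) ^ 2 / ((n : ℝ) + 1) ^ 2))) := by ring
      _ = (((hq n : ℚ) : ℝ) * ((3 * n + 2) *
            ∏ j ∈ range n, (1 - (1 / 3 : ℝ) ^ 2 / ((j : ℝ) + 1) ^ 2))) *
          (1 - (1 / 6 : ℝ) ^ 2 / ((n : ℝ) + 1) ^ 2) := by rw [h2]; ring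
      _ = 2 * ((∏ j ∈ range n, (1 - (1 / 6 : ℝ) ^ 2 / ((j : ℝ) + 1) ^ 2)) *
          (1 - (1 / 6 : ℝ) ^ 2 / ((n : ℝ) + 1) ^ 2)) := by rw [ih]; ring

theorem hq_lim : Tendsto (fun n : ℕ => (n : ℝ) * ((hq n : ℚ) : ℝ)) atTop
    (𝓝 (4 / (3 * √3))) := by
  have hπ : 0 < Real.pi := Real.pi_pos
  have hs3 : 0 < √3 := Real.sqrt_pos.2 (by norm_num)
  set P1 : ℕ → ℝ := fun n => ∏ j ∈ range n, (1 - (1 / 3 : ℝ) ^ 2 / ((j : ℝ) + 1) ^ 2) with hP1
  set P2 : ℕ → ℝ := fun n => ∏ j ∈ range n, (1 - (1 / 6 : ℝ) ^ 2 / ((j : ℝ) + 1) ^ 2) with hP2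
  have l1 : Tendsto P1 atTop (𝓝 (3 * √3 / (2 * Real.pi))) := by
    have h1 := (Real.tendsto_euler_sin_prod (1 / 3)).const_mul (3 / Real.pi)
    have h2 : 3 / Real.pi * Real.sin (Real.pi * (1 / 3)) = 3 * √3 / (2 * Real.pi) := by
      rw [mul_one_div, Real.sin_pi_div_three]
      field_simp
    rw [h2] at h1
    refine h1.congr (fun n => ?_)
    show 3 / Real.pi * (Real.pi * (1 / 3) * P1 n) = P1 n
    field_simp
  have l2 : Tendsto P2 atTop (𝓝 (3 / Real.pi)) := by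
    have h1 := (Real.tendsto_euler_sin_prod (1 / 6)).const_mul (6 / Real.pi)
    have h2 : 6 / Real.pi * Real.sin (Real.pi * (1 / 6)) = 3 / Real.pi := by
      rw [mul_one_div, Real.sin_pi_div_six]
      field_simp
      norm_num
    rw [h2] at h1
    refine h1.congr (fun n => ?_)
    show 6 / Real.pi * (Real.pi * (1 / 6) * P2 n) = P2 n
    field_simp
  have l3 : Tendsto (fun n : ℕ => (n : ℝ) / (3 * n + 2)) atTop (𝓝 (1 / 3)) := by
    have h1 : Tendsto (fun n : ℕ => (1 : ℝ) / (3 + 2 / n)) atTop (𝓝 (1 / (3 + 0))) := by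
      refine Tendsto.div tendsto_const_nhds (tendsto_const_nhds.add ?_) (by norm_num)
      exact tendsto_const_div_atTop_nhds_zero_nat 2
    rw [add_zero] at h1
    refine h1.congr' ?_
    filter_upwards [eventually_gt_atTop 0] with n hn
    have hn' : (n : ℝ) ≠ 0 := by exact_mod_cast hn.ne'
    field_simp
  have hne : (3 * √3 / (2 * Real.pi)) ≠ 0 := by positivity
  have hP1pos : ∀ n, 0 < P1 n := by
    intro n
    refine prod_pos (fun j _ => ?_)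
    have hj : (0 : ℝ) ≤ j := Nat.cast_nonneg j
    have h1 : (1 / 3 : ℝ) ^ 2 / ((j : ℝ) + 1) ^ 2 ≤ 1 / 9 := by
      rw [div_le_iff₀ (by positivity)]
      nlinarith
    linarith
  have h4 := ((l3.const_mul 2).mul l2).div l1 hne
  have h5 : 2 * (1 / 3) * (3 / Real.pi) / (3 * √3 / (2 * Real.pi)) = 4 / (3 * √3) := by
    field_simp
    norm_num
  rw [h5] at h4
  refine h4.congr (fun n => ?_)
  have h6 := hq_prod n
  have h7 : ((hq n : ℚ) : ℝ) * ((3 * n + 2) * P1 n) = 2 * P2 n := h6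
  have h8 : (3 * (n : ℝ) + 2) ≠ 0 := by positivity
  have h9 := (hP1pos n).ne'
  show 2 * ((n : ℝ) / (3 * n + 2)) * P2 n / P1 n = (n : ℝ) * ((hq n : ℚ) : ℝ)
  rw [div_eq_iff h9]
  have h10 : 2 * ((n : ℝ) / (3 * n + 2)) * P2 n = (n : ℝ) / (3 * n + 2) * (2 * P2 n) := by ring
  rw [h10, ← h7]
  field_simp

end ODD
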