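import Pool.Agent.ODD.WDef

/-!
# PROJECT ODD (MP_d12cfa_co), module WD: the limit of `M * qw M`

An exact identity with the partial products of the sine product, and Euler's sine product.
-/

set_option autoImplicit false

namespace ODD

open Finset Filter Topology

theorem qw_prod (M : ℕ) :
    qw M * ((2 * (M : ℝ) + 1) * ∏ j ∈ range M, (1 - (1 / 6 : ℝ) ^ 2 / ((j : ℝ) + 1) ^ 2)) =
      ∏ j ∈ range M, (1 - (1 / 2 : ℝ) ^ 2 / ((j : ℝ) + 1) ^ 2) := by
  induction M with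
  | zero => simp [qw]
  | succ M ih =>
    have h0 : qw (M + 1) = qw M * (9 * (2 * (M : ℝ) + 1) ^ 2 / ((6 * M + 5) * (6 * M + 7))) := by
      unfold qw
      rw [Finset.prod_range_succ]
    rw [h0, Finset.prod_range_succ, Finset.prod_range_succ, ← ih]
    have hM : (0 : ℝ) ≤ M := Nat.cast_nonneg M
    have h1 : (M : ℝ) + 1 ≠ 0 := by positivity
    have h2 : (6 * (M : ℝ) + 5) ≠ 0 := by positivity
    have h3 : (6 * (M : ℝ) + 7) ≠ 0 := by positivity
    generalize ∏ j ∈ range M, (1 - (1 / 6 : ℝ) ^ 2 / ((j : ℝ) + 1) ^ 2) = P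
    generalize qw M = q
    push_cast
    field_simp
    ring

private theorem prod_pos6 (M : ℕ) :
    0 < ∏ j ∈ range M, (1 - (1 / 6 : ℝ) ^ 2 / ((j : ℝ) + 1) ^ 2) := by
  refine Finset.prod_pos fun j _ => ?_
  have hj : (0 : ℝ) ≤ j := Nat.cast_nonneg j
  have h1 : (1 : ℝ) ≤ ((j : ℝ) + 1) ^ 2 := by nlinarith
  have h2 : (1 / 6 : ℝ) ^ 2 / ((j : ℝ) + 1) ^ 2 < 1 := by
    rw [div_lt_one (by positivity)]
    norm_num
    nlinarith
  linarith

private theorem ratio_lim : Tendsto (fun M : ℕ => (M : ℝ) / (2 * M + 1)) atTop (𝓝 (1 / 2)) := by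
  have h1 := (tendsto_natCast_div_add_atTop (𝕜 := ℝ) (1 / 2 : ℝ)).const_mul (1 / 2 : ℝ)
  rw [mul_one] at h1
  refine h1.congr fun M => ?_
  have hM : (0 : ℝ) ≤ M := Nat.cast_nonneg M
  have h2 : (M : ℝ) + 1 / 2 ≠ 0 := by positivity
  have h3 : (2 * (M : ℝ) + 1) ≠ 0 := by positivity
  field_simp

theorem qw_lim : Tendsto (fun M : ℕ => (M : ℝ) * qw M) atTop (𝓝 (1 / 3)) := by
  have ha := Real.tendsto_euler_sin_prod (1 / 6)
  have hb := Real.tendsto_euler_sin_prod (1 / 2)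
  have ea : Real.sin (Real.pi * (1 / 6)) = 1 / 2 := by
    rw [mul_one_div, Real.sin_pi_div_six]
  have eb : Real.sin (Real.pi * (1 / 2)) = 1 := by
    rw [mul_one_div, Real.sin_pi_div_two]
  rw [ea] at ha
  rw [eb] at hb
  have h1 := (ratio_lim.mul (hb.div ha (by norm_num))).mul_const (1 / 3 : ℝ)
  have h2 : (1 / 2 : ℝ) * (1 / (1 / 2)) * (1 / 3) = 1 / 3 := by norm_num
  rw [h2] at h1
  refine h1.congr fun M => ?_
  have hP := prod_pos6 M
  have hq := qw_prod M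
  simp only [Pi.div_apply]
  rw [← hq]
  have hM : (0 : ℝ) ≤ M := Nat.cast_nonneg M
  have h3 : (2 * (M : ℝ) + 1) ≠ 0 := by positivity
  have hpi : Real.pi ≠ 0 := Real.pi_ne_zero
  have hP' := hP.ne'
  generalize ∏ j ∈ range M, (1 - (1 / 6 : ℝ) ^ 2 / ((j : ℝ) + 1) ^ 2) = P at hP'
  field_simp
  ring

end ODD
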