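import Pool.Agent.ODD.HYG

/-!
# PROJECT ODD (MP_d12cfa_co): definitions for the asymptotics
-/

set_option autoImplicit false

namespace ODD

open Finset

/-- `t(N, k)` -/
noncomputable def tw (N k : ℕ) : ℝ :=
  ∏ i ∈ range k, (-(2 * (2 * ((i : ℝ) + N) + 1) * (3 * i + 4) * (3 * i + 5)) /
    ((i + 3) * (6 * i + 6 * N + 13) * (6 * i + 6 * N + 11)))

/-- `u(N, k)`; `u(0, k) = 7 v(k)` -/
noncomputable def uw (N k : ℕ) : ℝ := (4 * (k : ℝ) + 2 * N + 5) / (2 * N + 5) * tw N k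

noncomputable def gw (N k : ℕ) : ℝ := -(2 * ((k : ℝ) + 2)) / (2 * N + 5) * tw N k

noncomputable def bw (N : ℕ) : ℝ :=
  9 * (2 * (N : ℝ) + 1) ^ 2 * (2 * N + 7) / ((2 * N + 5) * (6 * N + 13) * (6 * N + 11))

noncomputable def pw (M : ℕ) : ℝ := ∏ i ∈ range M, bw i

noncomputable def Rw (N : ℕ) : ℝ :=
  -((6 * (N : ℝ) + 7) * (6 * N + 5) * (18 * N + 5)) / (8 * (2 * N + 5))

noncomputable def qw (M : ℕ) : ℝ :=
  ∏ i ∈ range M, (9 * (2 * (i : ℝ) + 1) ^ 2 / ((6 * i + 5) * (6 * i + 7)))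

end ODD
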