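import Pool.Agent.ODD.WA
import Pool.Agent.ODD.WB
import Pool.Agent.ODD.WC
import Pool.Agent.ODD.WD

/-!
# PROJECT ODD (MP_d12cfa_co): asymptotics, assembly
-/

set_option autoImplicit false

namespace ODD

open Finset Filter Topology

theorem sum_uw_lim : Tendsto (fun K => ∑ k ∈ range K, uw 0 k) atTop (𝓝 (7 / 8)) := by
  have hq0 : Tendsto qw atTop (𝓝 0) := by
    have h1 := qw_lim.mul (tendsto_one_div_atTop_nhds_zero_nat (𝕜 := ℝ))
    rw [mul_zero] at h1
    refine h1.congr' ?_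
    filter_upwards [eventually_ge_atTop 1] with M hM
    have : (M : ℝ) ≠ 0 := by
      have : 0 < M := hM
      positivity
    field_simp
  have hp0 : Tendsto pw atTop (𝓝 0) :=
    squeeze_zero (fun M => (pw_le M).1) (fun M => (pw_le M).2) hq0
  have hL : Tendsto (fun M => Rw 0 - pw M * Rw M) atTop (𝓝 (7 / 8)) := by
    have h1 : Tendsto (fun M : ℕ => 7 / 8 * (18 * ((M : ℝ) * qw M) + 5 * qw M)) atTop
        (𝓝 (7 / 8 * (18 * (1 / 3) + 5 * 0))) :=
      ((qw_lim.const_mul 18).add (hq0.const_mul 5)).const_mul (7 / 8)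
    have h2 := h1.const_add (Rw 0)
    have e : Rw 0 + 7 / 8 * (18 * (1 / 3) + 5 * 0) = 7 / 8 := by norm_num [Rw]
    rw [e] at h2
    refine h2.congr fun M => ?_
    rw [pw_Rw]
    ring
  rw [Metric.tendsto_atTop]
  intro ε hε
  obtain ⟨M1, hM1⟩ := Metric.tendsto_atTop.1 hL (ε / 3) (by positivity)
  obtain ⟨M2, hM2⟩ := Metric.tendsto_atTop.1 hp0 (ε / 3) (by positivity)
  set M := max M1 M2 with hM
  have h3 : Tendsto (fun K => ∑ N ∈ range M, pw N * gw N K) atTop (𝓝 0) := by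
    have := tendsto_finsetSum (range M) (fun N _ => (gw_tendsto N).const_mul (pw N))
    simpa using this
  obtain ⟨K0, hK0⟩ := Metric.tendsto_atTop.1 h3 (ε / 3) (by positivity)
  refine ⟨K0, fun K hK => ?_⟩
  have h4 := hM1 M (le_max_left _ _)
  have h5 := hM2 M (le_max_right _ _)
  have h6 := hK0 K hK
  have h7 := uw_partial M K
  have h8 := pw_le M
  rw [Real.dist_eq, abs_lt] at h4 h5 h6 ⊢
  rw [uw_sum K M]
  have h9 : 0 ≤ pw M * ∑ k ∈ range K, uw M k := mul_nonneg h8.1 h7.1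
  have h10 : pw M * ∑ k ∈ range K, uw M k ≤ pw M := mul_le_of_le_one_right h8.1 h7.2
  constructor <;> linarith [h4.1, h4.2, h5.1, h5.2, h6.1, h6.2]

theorem sum_vv_lim :
    Tendsto (fun n : ℕ => ((∑ k ∈ range n, vv k : ℚ) : ℝ)) atTop (𝓝 (1 / 8)) := by
  have h := sum_uw_lim.const_mul (1 / 7)
  have e : (1 / 7 : ℝ) * (7 / 8) = 1 / 8 := by norm_num
  rw [e] at h
  refine h.congr fun n => ?_
  push_cast
  rw [mul_sum]
  refine sum_congr rfl fun k _ => ?_
  rw [vv_uw]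
  ring

theorem rho_lim :
    Tendsto (fun n : ℕ => (n : ℝ) * ((rhoq n : ℚ) : ℝ)) atTop (𝓝 (√3 / 2)) := by
  have h := hq_lim.mul (sum_vv_lim.const_add 1)
  have h3 : √3 * √3 = 3 := Real.mul_self_sqrt (by norm_num)
  have h30 : √3 ≠ 0 := by positivity
  have e : 4 / (3 * √3) * (1 + 1 / 8) = √3 / 2 := by
    field_simp
    linarith
  rw [e] at h
  refine h.congr fun n => ?_
  rw [rhoq]
  push_cast
  ring

theorem rho_pos (n : ℕ) : 0 < rhoq n := by
  have h1 : 0 < hq n := by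
    unfold hq
    exact prod_pos fun k _ => by positivity
  have h2 : (0 : ℝ) ≤ ((∑ k ∈ range n, vv k : ℚ) : ℝ) := by
    have h := (uw_partial 0 n).1
    push_cast
    have e : ∑ k ∈ range n, ((vv k : ℚ) : ℝ) = (∑ k ∈ range n, uw 0 k) / 7 := by
      rw [sum_div]
      exact sum_congr rfl fun k _ => vv_uw k
    rw [e]
    positivity
  have h3 : (0 : ℚ) ≤ ∑ k ∈ range n, vv k := by exact_mod_cast h2
  unfold rhoq
  exact mul_pos h1 (by linarith)

end ODD
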