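import Pool.Agent.ODD.Basic

/-!
# PROJECT ODD (MP_d12cfa_co), module YBC: two adjacent columns crossing one row

`ybe_col` is the local Yang-Baxter equation, `row_act` the sliding of a row through the
intertwiner of two adjacent columns.
-/

set_option autoImplicit false

namespace ODD

variable {R : Type*} [CommRing R]

theorem ybe_col {w : R} (hw : w ^ 2 + w + 1 = 0) (U0 U V : R) (c1 c2 d1 d2 r t : Bool) :
    ∑ a : Bool, ∑ b : Bool, rm w U V c1 c2 a b *
      (∑ s : Bool, vert w (U0 * U) a r d1 s * vert w (U0 * V) b s d2 t) =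
    ∑ a : Bool, ∑ b : Bool,
      (∑ s : Bool, vert w (U0 * V) c1 r a s * vert w (U0 * U) c2 s b t) * rm w U V a b d1 d2 := by
  have h2 : w ^ 2 = -w - 1 := by linear_combination hw
  have h3 : w ^ 3 = 1 := by linear_combination (w - 1) * hw
  cases c1 <;> cases c2 <;> cases d1 <;> cases d2 <;> cases r <;> cases t <;>
    simp only [Fintype.sum_bool, rm, vert] <;> first | ring1 | grind

private theorem ybc_comb (ρ : Bool → Bool → R) (P : Bool → Bool → Bool → R)
    (Q : Bool → Bool → Bool → Bool → R) (P' : Bool → Bool → R) (Q' : Bool → Bool → Bool → R)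
    (ρ' : Bool → Bool → Bool → Bool → R)
    (h : ∀ d1 d2 t, ∑ a : Bool, ∑ b : Bool, ρ a b * (∑ s : Bool, P a d1 s * Q b s d2 t) =
      ∑ a : Bool, ∑ b : Bool, (∑ s : Bool, P' a s * Q' s b t) * ρ' a b d1 d2)
    (G : Bool → Bool → Bool → R) :
    ∑ a : Bool, ∑ b : Bool, ρ a b * ∑ d1 : Bool, ∑ s : Bool, P a d1 s *
        ∑ d2 : Bool, ∑ t : Bool, Q b s d2 t * G d1 d2 t =
      ∑ a : Bool, ∑ s : Bool, P' a s * ∑ b : Bool, ∑ t : Bool, Q' s b t *
        ∑ d1 : Bool, ∑ d2 : Bool, ρ' a b d1 d2 * G d1 d2 t := by
  simp only [Fintype.sum_bool] at h ⊢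
  linear_combination (h true true true) * G true true true +
    (h true true false) * G true true false + (h true false true) * G true false true +
    (h true false false) * G true false false + (h false true true) * G false true true +
    (h false true false) * G false true false + (h false false true) * G false false true +
    (h false false false) * G false false false

private theorem ybc_base (d : Dat R) (hw : d.w ^ 2 + d.w + 1 = 0) (U0 U V : R) (Us2 : List R)
    (r x y : Bool) (cs : List Bool) (g : List Bool → R) :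
    act d.w U V 0 (fun l => row d U0 (U :: V :: Us2) r l g) (x :: y :: cs) =
      row d U0 (V :: U :: Us2) r (x :: y :: cs) (act d.w U V 0 g) := by
  simp only [act_zero_cons, row_cons_cons, row_sum, row_mul]
  exact ybc_comb (fun a b => rm d.w U V x y a b) (fun a d1 s => vert d.w (U0 * U) a r d1 s)
    (fun b s d2 t => vert d.w (U0 * V) b s d2 t) (fun a s => vert d.w (U0 * V) x r a s)
    (fun s b t => vert d.w (U0 * U) y s b t) (fun a b d1 d2 => rm d.w U V a b d1 d2)
    (fun d1 d2 t => ybe_col hw U0 U V x y d1 d2 r t)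
    (fun d1 d2 t => row d U0 Us2 t cs (fun l => g (d1 :: d2 :: l)))

/-- a row slides through the intertwiner of two adjacent columns -/
theorem row_act (d : Dat R) (hw : d.w ^ 2 + d.w + 1 = 0) (U0 U V : R) (Us1 Us2 : List R)
    (r : Bool) (cs : List Bool) (g : List Bool → R) :
    act d.w U V Us1.length (fun l => row d U0 (Us1 ++ U :: V :: Us2) r l g) cs =
      row d U0 (Us1 ++ V :: U :: Us2) r cs (act d.w U V Us1.length g) := by
  induction Us1 generalizing cs r g with
  | nil =>
    rcases cs with _ | ⟨x, _ | ⟨y, cs⟩⟩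
    · rw [act_nil]
      exact (row_cons_nil d U0 V (U :: Us2) r _).symm
    · change act d.w U V 0 _ [x] = row d U0 (V :: U :: Us2) r [x] _
      rw [act_zero_single, row_cons_cons]
      symm
      refine Finset.sum_eq_zero fun c' _ => Finset.sum_eq_zero fun r' _ => ?_
      rw [row_cons_nil, mul_zero]
    · exact ybc_base d hw U0 U V Us2 r x y cs g
  | cons W Us1 ih =>
    cases cs with
    | nil =>
      rw [act_nil]
      exact (row_cons_nil d U0 W (Us1 ++ V :: U :: Us2) r _).symm
    | cons c cs =>
      change act d.w U V Us1.length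
          (fun l' => row d U0 (W :: (Us1 ++ U :: V :: Us2)) r (c :: l') g) cs =
        row d U0 (W :: (Us1 ++ V :: U :: Us2)) r (c :: cs) (act d.w U V (Us1.length + 1) g)
      simp only [row_cons_cons]
      rw [act_sum]
      refine Finset.sum_congr rfl fun c' _ => ?_
      rw [act_sum]
      refine Finset.sum_congr rfl fun r' _ => ?_
      rw [act_mul, ih]
      rfl

end ODD
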